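import Mathlib

set_option autoImplicit false

/-! # Definitions for the undecidability of the halting problem for `T(2, ν)`, `ν ≥ 3`

Bit queue automata, aligned systems of letters, the machine of events, the layout of the production word, tapes. -/

namespace Pool.Agent.Helper231_T2

/-- bit queue automaton: reads the first bit, goes to a new state, appends a word -/
structure QA (Q : Type) where
  nx : Q → Bool → Q
  om : Q → Bool → List Bool

/-- one step; nothing happens on the empty queue -/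
def QA.st {Q : Type} (M : QA Q) : Q × List Bool → Q × List Bool
  | (q, []) => (q, [])
  | (q, d :: x) => (M.nx q d, x ++ M.om q d)

/-- the queue becomes empty -/
def QA.Emp {Q : Type} (M : QA Q) (q : Q) (x : List Bool) : Prop := ∃ n, ((M.st)^[n] (q, x)).2 = []

/-- the letters at the positions divisible by `P` (first skip `c` letters) -/
def pk {X : Type} (P : ℕ) : ℕ → List X → List X
  | _, [] => []
  | 0, x :: W => x :: pk P (P - 1) W
  | c + 1, _ :: W => pk P c W

/-- the word of the list of letters `μ` -/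
def wd {X : Type} (α : X → List X) (μ : List X) : List X := μ.flatMap α

/-- the next list of letters -/
def nxt {X : Type} (P : ℕ) (α : X → List X) (μ : List X) : List X := pk P 0 (wd α μ)

/-- all the words have lengths divisible by `P` -/
def AlLives {X : Type} (P : ℕ) (α : X → List X) (μ : List X) : Prop :=
  ∀ n, (wd α ((nxt P α)^[n] μ)).length % P = 0

/-- the first word whose length is not divisible by `P` has length `rs` modulo `P` -/
def AlDies {X : Type} (P rs : ℕ) (α : X → List X) (μ : List X) : Prop :=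
  ∃ n, (∀ m < n, (wd α ((nxt P α)^[m] μ)).length % P = 0) ∧
    (wd α ((nxt P α)^[n] μ)).length % P = rs

/-- letters -/
inductive WL (Q : Type) (P : ℕ) : Type
  | A : WL Q P
  | a : WL Q P
  | h : WL Q P
  | G (i : Fin P) : WL Q P
  | F (q : Q) (i : Fin P) : WL Q P
  | E (q : Q) (d : Bool) (i : Fin P) : WL Q P
  | c (q : Q) (d : Bool) (i : Fin P) : WL Q P
  | b (q : Q) (d : Bool) (i : Fin P) : WL Q P
  | c' (q : Q) (d : Bool) (i : Fin P) : WL Q P
  | b' (q : Q) (d : Bool) (i : Fin P) : WL Q P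
  | cs (q : Q) (d : Bool) (i : Fin P) : WL Q P

/-- the number of a bit string; the last digit `2` is the end marker -/
def nv (P : ℕ) : List Bool → ℕ
  | [] => 2
  | d :: x => (if d then 1 else 0) + P * nv P x

/-- a block -/
def blk {X : Type} {P : ℕ} (f : Fin P → X) : List X := List.ofFn f

/-- `n` copies of a word -/
def rep {X : Type} (n : ℕ) (w : List X) : List X := (List.replicate n w).flatten

/-- productions; the letter with index `i` in a block is read when the digit is `P - 1 - i` -/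
def prw {Q : Type} {P : ℕ} (M : QA Q) (rs : ℕ) : WL Q P → List (WL Q P)
  | .A => [.A]
  | .a => [.a]
  | .h => [.h]
  | .G i => if P - 1 - i ≤ 1 then blk WL.G ++ List.replicate i .h
      else if P - 1 - i = 2 then List.replicate (P - 2) .h else [.h]
  | .F q i => if P - 1 - i ≤ 1 then
        blk (WL.c q (decide (P - 1 - i = 1))) ++ blk (WL.E q (decide (P - 1 - i = 1))) ++
          blk (WL.cs q (decide (P - 1 - i = 1)))
      else if P - 1 - i = 2 then List.replicate (rs + P - 1) .A else [.h]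
  | .E q d i => if P - 1 - i ≤ 1 then blk (WL.E q d)
      else if P - 1 - i = 2 then blk (WL.F (M.nx q d)) else [.h]
  | .c q d i => if P - 1 - i ≤ 1 then rep P (blk (WL.c q d)) ++ rep (P - 1 - i) (blk (WL.b q d))
      else if P - 1 - i = 2 then List.replicate (nv P (M.om q d)) .a else [.h]
  | .b q d i => if P - 1 - i ≤ 1 then blk (WL.b q d) else if P - 1 - i = 2 then [.a] else [.h]
  | .c' q d i => if P - 1 - i ≤ 1 then
        rep P (blk (WL.c' q d)) ++ rep ((P - 1) * (P - 1 - i)) (blk (WL.b' q d))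
      else if P - 1 - i = 2 then List.replicate ((P - 1) * nv P (M.om q d)) .h else [.h]
  | .b' q d i => if P - 1 - i ≤ 1 then blk (WL.b' q d) else if P - 1 - i = 2 then [.h] else [.h]
  | .cs q d i => if P - 1 - i ≤ 1 then
        blk (WL.cs q d) ++ rep (P - 1) (blk (WL.c' q d)) ++ rep ((P - 1) * (P - 1 - i)) (blk (WL.b' q d))
      else if P - 1 - i = 2 then blk WL.G ++ List.replicate ((P - 1) * nv P (M.om q d) - 1) .h
      else [.h]

/-- the letters read in the macro word of the configuration `(q, x)` -/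
def mu0 {Q : Type} (P : ℕ) (hP : 0 < P) (q : Q) (x : List Bool) : List (WL Q P) :=
  WL.A :: List.replicate (nv P x / P) WL.a ++
    [WL.F q ⟨P - 1 - nv P x % P, by omega⟩, WL.G ⟨P - 1 - nv P x % P, by omega⟩] ++
    List.replicate (nv P x - nv P x / P) WL.h

/-- production of the letter `l` in a table -/
def al (tb : List (List ℕ)) (l : ℕ) : List ℕ := tb.getD l []

/-- children of an event with value `I` -/
def ch (b N : ℕ) (w : ℕ → ℕ) (I : ℕ) : List ℕ :=
  if I % b = 0 then [I / b]
  else if I % b = 1 then (List.range N).map (fun k => (I - 1) / b + w k) else []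

/-- one step of the machine of events -/
def es (b N κ : ℕ) (w : ℕ → ℕ) : ℕ × List ℕ → ℕ × List ℕ
  | (i, []) => (i, [])
  | (i, t :: L) => (i + 1, L ++ ch b N w (t + κ * i))

/-- one stage: all the children of the list `L` whose first element has index `i` -/
def stg (b N κ : ℕ) (w : ℕ → ℕ) : ℕ → List ℕ → List ℕ
  | _, [] => []
  | i, t :: L => ch b N w (t + κ * i) ++ stg b N κ w (i + 1) L

/-- a list in `n` groups: group `g` is `P g` shifted by `κ * s g` -/
def grp (κ n : ℕ) (P : ℕ → List ℕ) (s : ℕ → ℕ) : List ℕ :=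
  (List.range n).flatMap (fun g => (P g).map (fun t => t + κ * s g))

/-- number of events per letter at stage `s` of the first phase -/
def Cs (b cc s : ℕ) : ℕ := if s = 0 then b * cc else (b - 1) * cc

/-- the runs of the first phase -/
def Fl (b N κ : ℕ) (w : ℕ → ℕ) (L0 : List ℕ) : ℕ → List ℕ
  | 0 => L0
  | s + 1 => stg b N κ w 0 (Fl b N κ w L0 s)

/-- the local run of the family of a leader -/
def Loc (b N κ : ℕ) (w : ℕ → ℕ) (z : ℕ) : ℕ → List ℕ
  | 0 => (List.range N).map (fun k => z + w k)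
  | τ + 1 => stg b N κ w 0 (Loc b N κ w z τ)

/-- digit number `i` of the class `c < D ^ d`, the most significant digit is number `0` -/
def dg (D d c i : ℕ) : ℕ := c / D ^ (d - 1 - i) % D

/-- the number formed by the first `q` digits of `c` -/
def pre (D d c q : ℕ) : ℕ := c / D ^ (d - q)

/-- number of digits checked before the family stage `τ` -/
def qq (d τ : ℕ) : ℕ := min ((τ - 3) / 2) d

/-- type `t` (`0`: filler 1, `1`: filler 2, `c + 2`: class `c`) is alive at the family stage `τ` in the view of class `c` -/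
def alv (D d τ c t : ℕ) : Bool :=
  decide (τ ≤ 2) || (decide (τ = 3) && decide (t ≠ 0)) ||
    (decide (4 ≤ τ) && decide (2 ≤ t) && decide (pre D d (t - 2) (qq d τ) = pre D d c (qq d τ)))

/-- type `t` was wrongly expanded at the stage `τ - 1` in the view of class `c` -/
def exg (D d γ τ c t : ℕ) : Bool :=
  decide (γ = 1) && decide (2 ≤ t) && decide (5 ≤ τ) && decide (τ % 2 = 1) && decide ((τ - 5) / 2 < d) &&
    decide (pre D d (t - 2) ((τ - 5) / 2) = pre D d c ((τ - 5) / 2)) &&
    decide (dg D d (t - 2) ((τ - 5) / 2) + 1 = dg D d c ((τ - 5) / 2))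

/-- local index of element `k` at the family stage `τ` in the view of class `c` -/
def pos (D d γ N : ℕ) (ty : ℕ → ℕ) (τ c k : ℕ) : ℕ :=
  ((List.range k).filter (fun j => alv D d τ c (ty j))).length +
    N * ((List.range k).filter (fun j => exg D d γ τ c (ty j))).length

/-- sum of the positions in the family stages `< n`, with weights -/
def pm (b D d γ N : ℕ) (ty : ℕ → ℕ) (n c k : ℕ) : ℕ :=
  ∑ τ ∈ Finset.range n, pos D d γ N ty τ c k * b ^ τ

/-- the label pattern of the class `c` -/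
def pat (b D d γ c : ℕ) : ℕ := 1 + ∑ i ∈ Finset.range d, γ * dg D d c i * b ^ (4 + 2 * i)

/-- number of the elements `j < k` of type `t` -/
def cn (ty : ℕ → ℕ) (t k : ℕ) : ℕ := ((List.range k).filter (fun j => decide (ty j = t))).length

/-- the layout: `Yb` blocks [`z1` fillers 1, `z2` fillers 2, `H` elements of each class], `kp` blocks [`H` elements of each class],
then fillers 1 -/
def lay (D d H Yb z1 z2 kp k : ℕ) : ℕ :=
  if k < Yb * (z1 + z2 + D ^ d * H) then
    (if k % (z1 + z2 + D ^ d * H) < z1 then 0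
     else if k % (z1 + z2 + D ^ d * H) < z1 + z2 then 1
     else (k % (z1 + z2 + D ^ d * H) - z1 - z2) / H + 2)
  else if k < Yb * (z1 + z2 + D ^ d * H) + kp * (D ^ d * H) then
    ((k - Yb * (z1 + z2 + D ^ d * H)) % (D ^ d * H)) / H + 2
  else 0

/-- position of the element of class `c` with rank `ρ` (in the main blocks) -/
def kc (D d H z1 z2 c ρ : ℕ) : ℕ := ρ / H * (z1 + z2 + D ^ d * H) + z1 + z2 + c * H + ρ % H

/-- mass of all the classes, alive part, per element -/
def cA (b D d T : ℕ) : ℕ := ∑ τ ∈ Finset.range T, D ^ (d - qq d τ) * b ^ τ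

/-- mass of all the classes, expanded part, per element and divided by `N` -/
def cB (b D d : ℕ) : ℕ := ∑ i ∈ Finset.range d, D ^ (d - 1 - i) * b ^ (5 + 2 * i)

/-- geometric sum -/
def RR (b T : ℕ) : ℕ := ∑ τ ∈ Finset.range T, b ^ τ

/-- bound for the later classes -/
def Qb (b D d : ℕ) : ℕ := D ^ d * ∑ τ ∈ Finset.range (2 * d + 3), b ^ τ

/-- the conditions on the parameters -/
structure Par (b D d γ r e T H N z1 z2 Yb kp nG cc l : ℕ) : Prop where
  hγ : (γ = 1 ∧ b = 3 ∧ D = 3) ∨ (γ = 2 ∧ 4 ≤ b ∧ D = 2)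
  he : 2 ≤ e
  hT : 2 * d + 6 ≤ T
  hH : b ∣ H
  hH0 : 0 < H
  hrH : r ≤ H
  hNb : N % b = if γ = 1 then 1 else 0
  hN : N = Yb * (z1 + z2 + D ^ d * H) + kp * (D ^ d * H) + nG
  hE1 : z1 * (1 + b + b ^ 2) + z2 * (1 + b + b ^ 2 + b ^ 3) +
    H * (cA b D d T + (if γ = 1 then N * cB b D d else 0)) = b ^ (T + e + 4)
  hE4 : cc + 2 + b + N + b ^ 2 * ((Yb * z1 + nG) * (1 + b + b ^ 2) + Yb * z2 * (1 + b + b ^ 2 + b ^ 3) +
    (Yb + kp) * H * (cA b D d T + (if γ = 1 then N * cB b D d else 0))) = b ^ (T + e + 2) * l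
  hl0 : 0 < l
  hl : l < (b - 1) * cc
  hY : b * cc + H ^ 2 * Qb b D d ≤ H * RR b T
  hYb : (r + 1) * RR b T ≤ Yb
  hNY : b ^ 2 * (Yb + 1) ≤ N

/-- weight of the type `t` in the view of the class `c` -/
def wt (b D d γ N T c t : ℕ) : ℕ :=
  ∑ τ ∈ Finset.range T, ((if alv D d τ c t then 1 else 0) + N * (if exg D d γ τ c t then 1 else 0)) * b ^ τ

/-- weight of the classes after `c` in the view of the class `c` -/
def QQ (b D d γ N T c : ℕ) : ℕ := ∑ c' ∈ Finset.Ico (c + 1) (D ^ d), wt b D d γ N T c (c' + 2)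

/-- the number `Y` of the letter `x` -/
def Yx (b D d γ N T H : ℕ) (cls : ℕ → ℕ) (x : ℕ) : ℕ :=
  (x + 1) * RR b T + H * QQ b D d γ N T (cls x)

/-- number of events of the letter number `j` (of `m`) at stage `s ≤ e` -/
def cnt (b cc e l m s j : ℕ) : ℕ := if s = e ∧ j + 1 = m then Cs b cc s - l else Cs b cc s

/-- death stage of the event `i ≥ 1` of the letter number `j` (of `m`) -/
def dst (b cc e l m j i : ℕ) : ℕ :=
  if (b - 1) * cc ≤ i then 0 else if j + 1 = m ∧ (b - 1) * cc - l ≤ i then e - 1 else e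

/-- the sum of positions of the event `(j, i)` in the stages `< n`, with weights -/
def ps (b cc n j i : ℕ) : ℕ := ∑ s ∈ Finset.range n, (Cs b cc s * j + i) * b ^ s

/-- rank of the true element of the `j`-th letter of the production of `x` -/
def rho (H : ℕ) (Y : ℕ → ℕ) (α : ℕ → List ℕ) (x j : ℕ) : ℕ := Y ((α x).getD j 0) * H - (x + 1)

/-- the properties of the sequence `w` and of the numbers `X` of the letters -/
structure WF (b D d r e T H N z1 z2 cc l κ : ℕ) (ty cls Y P3 P4 pt X w : ℕ → ℕ) (P : ℕ → ℕ → ℕ)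
    (α : ℕ → List ℕ) : Prop where
  x1 : ∀ x < r, (κ * Y x + X x) % b ^ T = pt (cls x) % b ^ T
  w0 : ∀ k < N, 0 < w k
  w1 : ∀ k < N, ∀ k' < k, w k' < w k
  w2 : ∀ k < N, ∀ x < r, X x + w k < κ
  w3 : ∀ k < N, b * w k + b ≤ κ + 2
  f1 : ∀ k < N, ty k = 0 → (w k + κ * P3 k + 1) % b ^ 3 = 2 * b ^ 2
  f2 : ∀ k < N, ty k = 1 → (w k + κ * P4 k + 1) % b ^ 4 = 2 * b ^ 3
  kl : ∀ k < N, ∀ c, ty k = c + 2 →
    (¬ ∃ x < r, cls x = c ∧ ∃ j < (α x).length, ∃ i < b * cc, k = kc D d H z1 z2 c (rho H Y α x j + i)) →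
    (w k + κ * P c k + pt c) % b ^ T = 2 * b ^ (T - 1)
  sv : ∀ x < r, ∀ j < (α x).length, ∀ i < b * cc, 0 < i →
    (κ * Y x + X x + w (kc D d H z1 z2 (cls x) (rho H Y α x j + i)) +
      κ * P (cls x) (kc D d H z1 z2 (cls x) (rho H Y α x j + i)) +
      κ * b ^ T * ps b cc (dst b cc e l (α x).length j i + 1) j i) % b ^ (T + dst b cc e l (α x).length j i + 1) =
      2 * b ^ (T + dst b cc e l (α x).length j i)
  tr : ∀ x < r, ∀ j < (α x).length,
    w (kc D d H z1 z2 (cls x) (rho H Y α x j)) + X x = b ^ (T + e + 3) + b ^ (T + e + 4) * X ((α x).getD j 0)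

/-- the facts about the gadget -/
structure Gad (b : ℕ) (α : ℕ → List ℕ) (r N κ cc e l T : ℕ) (w ζ mm : ℕ → ℕ) (F : ℕ → List ℕ) : Prop where
  he : 2 ≤ e
  hl0 : 0 < l
  hl : l < (b - 1) * cc
  hκ : κ % b = 1
  hκ1 : (b - 1) ∣ κ
  hκ2 : b ^ 2 ≤ κ
  hw0 : ∀ k < N, 0 < w k
  hw1 : ∀ k < N, ∀ k' < k, w k' < w k
  hw2 : ∀ k < N, b * w k + b ≤ κ + 2
  hw3 : ∀ k < N, (κ * k + w k + 1) % b = 0
  hw4 : ∀ k < N, (κ * k * (1 + b) + w k + 1) % b ^ 2 = 0
  hcase : (b = 3 ∧ N % 3 = 1 ∧ cc % 3 = 0 ∧ (κ * (cc + 13)) % 27 = 10) ∨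
    (4 ≤ b ∧ N % b = 0 ∧ (cc + 2) % b = 0 ∧ (κ * (cc + 1)) % b ^ 2 = b ^ 2 - 1)
  hE4 : cc + 2 + b + N + b ^ 2 * ∑ τ ∈ Finset.range T, mm τ * b ^ τ = b ^ (T + e + 2) * l
  hfam : ∀ x < r, (∀ τ < T, (Loc b N κ w (ζ x) τ).length = mm τ) ∧ Loc b N κ w (ζ x) T = F x
  hrun : ∀ x < r, (∀ s < e, (Fl b N κ w (F x) s).length = Cs b cc s * (α x).length) ∧
      (Fl b N κ w (F x) e).length + l = Cs b cc e * (α x).length ∧
      Fl b N κ w (F x) (e + 1) = (List.range (α x).length).map
        (fun j => b ^ 2 * (1 + b * ζ ((α x).getD j 0)) + κ * (cc * j))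
  hF1 : ∀ x < r, (F x).Pairwise (· < ·)
  hF2 : ∀ x < r, ∀ t ∈ F x, t < κ * (b ^ e * l)

/-- the state at the beginning of a cycle: index and list of events -/
def sta (b κ e l : ℕ) (F : ℕ → List ℕ) (μ : List ℕ) (B : ℕ) : ℕ × List ℕ :=
  ((b - 1) * B + b * (b ^ e * l) * μ.length,
    grp κ μ.length (fun g => F (μ.getD g 0)) (fun g => B + b ^ e * l * g))

/-- productions of the binary tag system -/
def prd (u : List Bool) (x : Bool) : List Bool := if x then u else [false]

/-- one step of the binary tag system with deletion number `b`; words shorter than `b` stay -/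
def bst (b : ℕ) (u : List Bool) (V : List Bool) : List Bool :=
  if V.length < b then V else (V ++ prd u (V.headD false)).drop b

/-- the word `u` of length `κ + 1`: ones at the offsets `0` and `b * w k - 1` -/
def uW (b N κ : ℕ) (w : ℕ → ℕ) : List Bool :=
  (List.range (κ + 1)).map (fun q => decide (q = 0 ∨ ∃ k < N, q + 1 = b * w k))

/-- the start word of length `κ * i`: ones at the positions `b * t`, `t ∈ L` -/
def sW (b κ i : ℕ) (L : List ℕ) : List Bool :=
  (List.range (κ * i)).map (fun q => decide (q ∈ L.map (fun t => b * t)))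

/-- the start list of events -/
def stL (κ D : ℕ) (F : List (List ℕ)) (μ : List ℕ) : List ℕ :=
  (List.range μ.length).flatMap (fun g => (F.getD (μ.getD g 0) []).map (fun t => t + κ * (D * g)))

end Pool.Agent.Helper231_T2
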