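import Mathlib
import Pool.Agent.Helper231_T2.Defs

set_option autoImplicit false

namespace Pool.Agent.Helper231_T2

/-
PLAIN PROOF. Chinese remainder theorem. Case 4 ≤ b: (cc+1) = -1 mod b is coprime to b^2, and b-1 is coprime to b^2; so there are arbitrarily
large κ with κ = 0 mod b-1 and κ(cc+1) = -1 mod b^2. Then κ*(-1) = -1 mod b gives κ = 1 mod b. Case b = 3: cc+13 = 1 mod 3 is coprime to 27; κ even and
κ (cc+13) = 10 mod 27; then κ = 1 mod 3. -/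

lemma c10_crt (m n a t K0 : ℕ) (hm : 0 < m) (hn : 0 < n) (hmn : Nat.Coprime m n)
    (ha : Nat.Coprime a n) : ∃ κ : ℕ, K0 ≤ κ ∧ m ∣ κ ∧ κ * a ≡ t [MOD n] := by
  obtain ⟨e, -, he⟩ : ∃ e : ℕ, 0 ≤ e ∧ a * e ≡ 1 [MOD n] := by
    rcases Nat.lt_or_ge 1 n with h | h
    · obtain ⟨e, he⟩ := Nat.exists_mul_mod_eq_one_of_coprime ha h
      exact ⟨e, Nat.zero_le _, by
        have := he.2
        unfold Nat.ModEq
        rw [this, Nat.mod_eq_of_lt h]⟩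
    · have : n = 1 := by omega
      subst this
      exact ⟨0, le_rfl, Nat.modEq_one⟩
  obtain ⟨k, hk1, hk2⟩ := Nat.chineseRemainder hmn 0 (t * e)
  refine ⟨k + K0 * (m * n), ?_, ?_, ?_⟩
  · have h1 : 1 ≤ m * n := Nat.mul_pos hm hn
    nlinarith
  · refine dvd_add ((Nat.modEq_zero_iff_dvd).1 hk1) ?_
    exact ⟨K0 * n, by ring⟩
  · have h1 : (k + K0 * (m * n)) ≡ t * e [MOD n] := by
      have h2 : K0 * (m * n) ≡ 0 [MOD n] := (Nat.modEq_zero_iff_dvd).2 ⟨K0 * m, by ring⟩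
      simpa using hk2.add h2
    calc (k + K0 * (m * n)) * a ≡ t * e * a [MOD n] := h1.mul_right a
      _ = t * (a * e) := by ring
      _ ≡ t * 1 [MOD n] := he.mul_left t
      _ = t := by ring

lemma c10_mod (κ a b r : ℕ) (hb : 1 < b) (hr : b ∣ a + 1) (h : b ∣ κ * a + 1) : κ % b = 1 := by
  have h1 : b ∣ κ * (a + 1) := dvd_mul_of_dvd_right hr κ
  have h2 : (b : ℤ) ∣ ((κ : ℤ) - 1) := by
    have e1 : (b : ℤ) ∣ ((κ * (a + 1) : ℕ) : ℤ) := by exact_mod_cast h1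
    have e2 : (b : ℤ) ∣ ((κ * a + 1 : ℕ) : ℤ) := by exact_mod_cast h
    have e3 := dvd_sub e1 e2
    have e4 : ((κ * (a + 1) : ℕ) : ℤ) - ((κ * a + 1 : ℕ) : ℤ) = (κ : ℤ) - 1 := by
      push_cast
      ring
    rwa [e4] at e3
  have h3 : (1 : ℤ) ≡ (κ : ℤ) [ZMOD b] := (Int.modEq_iff_dvd).2 h2
  have h4 : (1 : ℕ) ≡ κ [MOD b] := by exact_mod_cast (Int.natCast_modEq_iff (a := 1) (b := κ) (n := b)).1 (by exact_mod_cast h3)
  have h5 : 1 % b = κ % b := h4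
  rw [← h5, Nat.mod_eq_of_lt hb]

/-- TARGET 1 -/
theorem C10a (b cc K0 : ℕ) (hb : 4 ≤ b) (hcc : (cc + 2) % b = 0) :
    ∃ κ : ℕ, K0 ≤ κ ∧ (b - 1) ∣ κ ∧ κ % b = 1 ∧ (κ * (cc + 1)) % b ^ 2 = b ^ 2 - 1 := by
  have hd : b ∣ (cc + 1) + 1 := Nat.dvd_of_mod_eq_zero hcc
  have hc1 : Nat.Coprime (cc + 1) (b ^ 2) := by
    refine Nat.Coprime.pow_right 2 ?_
    have h1 : Nat.gcd (cc + 1) b ∣ 1 := by
      have h2 : Nat.gcd (cc + 1) b ∣ (cc + 1) + 1 := (Nat.gcd_dvd_right _ _).trans hd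
      exact (Nat.dvd_add_right (Nat.gcd_dvd_left (cc + 1) b)).1 h2
    exact Nat.dvd_one.1 h1
  have hc2 : Nat.Coprime (b - 1) (b ^ 2) := by
    refine Nat.Coprime.pow_right 2 ?_
    have h1 : Nat.gcd (b - 1) b ∣ 1 := by
      have h2 : Nat.gcd (b - 1) b ∣ (b - 1) + 1 := by
        have : (b - 1) + 1 = b := by omega
        rw [this]
        exact Nat.gcd_dvd_right _ _
      exact (Nat.dvd_add_right (Nat.gcd_dvd_left (b - 1) b)).1 h2
    exact Nat.dvd_one.1 h1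
  have hb2 : 0 < b ^ 2 := by positivity
  obtain ⟨κ, h1, h2, h3⟩ := c10_crt (b - 1) (b ^ 2) (cc + 1) (b ^ 2 - 1) K0 (by omega) hb2 hc2 hc1
  refine ⟨κ, h1, h2, ?_, ?_⟩
  · refine c10_mod κ (cc + 1) b 0 (by omega) hd ?_
    have h4 : b ^ 2 ∣ κ * (cc + 1) + 1 := by
      refine (Nat.modEq_zero_iff_dvd).1 ?_
      have h5 := h3.add_right 1
      have h6 : b ^ 2 - 1 + 1 = b ^ 2 := by omega
      rw [h6] at h5
      exact h5.trans ((Nat.modEq_zero_iff_dvd).2 dvd_rfl)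
    exact (dvd_pow_self b (by norm_num)).trans h4
  · have h4 : (κ * (cc + 1)) % b ^ 2 = (b ^ 2 - 1) % b ^ 2 := h3
    rw [h4, Nat.mod_eq_of_lt (by omega)]

/-- TARGET 2 -/
theorem C10b (cc K0 : ℕ) (hcc : cc % 3 = 0) :
    ∃ κ : ℕ, K0 ≤ κ ∧ 2 ∣ κ ∧ κ % 3 = 1 ∧ (κ * (cc + 13)) % 27 = 10 := by
  have hc1 : Nat.Coprime (cc + 13) 27 := by
    have h0 : Nat.Coprime (cc + 13) 3 := by
      rw [Nat.coprime_comm]
      refine (Nat.Prime.coprime_iff_not_dvd (by norm_num)).2 ?_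
      intro h
      omega
    have : (27 : ℕ) = 3 ^ 3 := by norm_num
    rw [this]
    exact Nat.Coprime.pow_right 3 h0
  obtain ⟨κ, h1, h2, h3⟩ := c10_crt 2 27 (cc + 13) 10 K0 (by norm_num) (by norm_num) (by norm_num) hc1
  have h4 : (κ * (cc + 13)) % 27 = 10 := h3
  refine ⟨κ, h1, h2, ?_, h4⟩
  have h5 : (κ * (cc + 13)) % 3 = 1 := by
    have := Nat.mod_mod_of_dvd (κ * (cc + 13)) (show 3 ∣ 27 by norm_num)
    omega
  have h6 : (cc + 13) % 3 = 1 := by omega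
  rw [Nat.mul_mod, h6, mul_one, Nat.mod_mod] at h5
  exact h5

end Pool.Agent.Helper231_T2

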