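import Mathlib
import Pool.Agent.Helper231_T2.Defs

set_option autoImplicit false

namespace Pool.Agent.Helper231_T2


/-
PLAIN PROOF. Elementary counting. cn ty t (k+1) = cn ty t k + (if ty k = t then 1 else 0). nb = z1+z2+D^d*H. A convenient way: closed
formulas for cn at k = Y*nb + o (Y < Yb, o ≤ nb): type 0: Y*z1 + min o z1; type 1: Y*z2 + min (o - z1) z2; type c+2 (c < D^d):
Y*H + min (o - z1 - z2 - c*H) H (truncated subtraction), by induction on k; and for k = Yb*nb + Y*(D^d*H) + o (Y < kp, o ≤ D^d*H): type 0: Yb*z1,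
type 1: Yb*z2, type c+2: (Yb + Y)*H + min (o - c*H) H; after that only type 0 grows. Target 5: the two lists are strictly increasing with the
same members (use that kc is strictly increasing in ρ). -/

theorem cn_succ (ty : ℕ → ℕ) (t k : ℕ) :
    cn ty t (k + 1) = cn ty t k + if ty k = t then 1 else 0 := by
  unfold cn
  rw [List.range_succ, List.filter_append, List.length_append]
  by_cases h : ty k = t <;> simp [h]

theorem cn_zero (ty : ℕ → ℕ) (t : ℕ) : cn ty t 0 = 0 := by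
  simp [cn]

theorem min_step (H c x : ℕ) (hH : 0 < H) :
    min (x + 1 - c * H) H = min (x - c * H) H + if x / H = c then 1 else 0 := by
  have h1 := Nat.div_add_mod x H
  have h2 := Nat.mod_lt x hH
  rcases lt_trichotomy (x / H) c with h | h | h
  · have h3 : H * (x / H) + H ≤ c * H := by nlinarith
    rw [if_neg h.ne]; omega
  · rw [if_pos h]
    have h3 : H * (x / H) = c * H := by rw [h, mul_comm]
    omega
  · have h3 : c * H + H ≤ H * (x / H) := by nlinarith
    rw [if_neg h.ne']; omega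

/-- the layout with `M` classes -/
def layg (M H Yb z1 z2 kp k : ℕ) : ℕ :=
  if k < Yb * (z1 + z2 + M * H) then
    (if k % (z1 + z2 + M * H) < z1 then 0
     else if k % (z1 + z2 + M * H) < z1 + z2 then 1
     else (k % (z1 + z2 + M * H) - z1 - z2) / H + 2)
  else if k < Yb * (z1 + z2 + M * H) + kp * (M * H) then
    ((k - Yb * (z1 + z2 + M * H)) % (M * H)) / H + 2
  else 0

theorem lay_eq (D d H Yb z1 z2 kp : ℕ) : lay D d H Yb z1 z2 kp = layg (D ^ d) H Yb z1 z2 kp := rfl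

/-- the position with `M` classes -/
def kcg (M H z1 z2 c ρ : ℕ) : ℕ := ρ / H * (z1 + z2 + M * H) + z1 + z2 + c * H + ρ % H

theorem kc_eq (D d H z1 z2 c ρ : ℕ) : kc D d H z1 z2 c ρ = kcg (D ^ d) H z1 z2 c ρ := rfl

theorem lay1 (M H Yb z1 z2 kp Y o : ℕ) (hY : Y < Yb) (ho : o < z1 + z2 + M * H) :
    layg M H Yb z1 z2 kp (Y * (z1 + z2 + M * H) + o)
      = if o < z1 then 0 else if o < z1 + z2 then 1 else (o - z1 - z2) / H + 2 := by
  unfold layg
  have h1 : Y * (z1 + z2 + M * H) + o < Yb * (z1 + z2 + M * H) := by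
    have : (Y + 1) * (z1 + z2 + M * H) ≤ Yb * (z1 + z2 + M * H) := Nat.mul_le_mul_right _ hY
    rw [Nat.add_mul, Nat.one_mul] at this
    omega
  have h2 : (Y * (z1 + z2 + M * H) + o) % (z1 + z2 + M * H) = o := by
    rw [Nat.mul_add_mod_of_lt ho]
  rw [if_pos h1, h2]

theorem lay2 (M H Yb z1 z2 kp Y o : ℕ) (hY : Y < kp) (ho : o < M * H) :
    layg M H Yb z1 z2 kp (Yb * (z1 + z2 + M * H) + Y * (M * H) + o) = o / H + 2 := by
  unfold layg
  have h1 : ¬ (Yb * (z1 + z2 + M * H) + Y * (M * H) + o < Yb * (z1 + z2 + M * H)) := by omega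
  have h2 : Yb * (z1 + z2 + M * H) + Y * (M * H) + o
      < Yb * (z1 + z2 + M * H) + kp * (M * H) := by
    have : (Y + 1) * (M * H) ≤ kp * (M * H) := Nat.mul_le_mul_right _ hY
    rw [Nat.add_mul, Nat.one_mul] at this
    omega
  have h3 : (Yb * (z1 + z2 + M * H) + Y * (M * H) + o - Yb * (z1 + z2 + M * H)) % (M * H) = o := by
    have : Yb * (z1 + z2 + M * H) + Y * (M * H) + o - Yb * (z1 + z2 + M * H) = Y * (M * H) + o := by
      omega
    rw [this, Nat.mul_add_mod_of_lt ho]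
  rw [if_neg h1, if_pos h2, h3]

theorem lay3 (M H Yb z1 z2 kp g : ℕ) :
    layg M H Yb z1 z2 kp (Yb * (z1 + z2 + M * H) + kp * (M * H) + g) = 0 := by
  unfold layg
  rw [if_neg (by omega), if_neg (by omega)]

/-- closed formulas, first part -/
theorem cn1 (M H Yb z1 z2 kp Y : ℕ) (hH : 0 < H) (hY : Y < Yb)
    (h0 : cn (layg M H Yb z1 z2 kp) 0 (Y * (z1 + z2 + M * H)) = Y * z1)
    (h1 : cn (layg M H Yb z1 z2 kp) 1 (Y * (z1 + z2 + M * H)) = Y * z2)
    (h2 : ∀ c < M, cn (layg M H Yb z1 z2 kp) (c + 2) (Y * (z1 + z2 + M * H)) = Y * H) :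
    ∀ o ≤ z1 + z2 + M * H,
    cn (layg M H Yb z1 z2 kp) 0 (Y * (z1 + z2 + M * H) + o) = Y * z1 + min o z1 ∧
    cn (layg M H Yb z1 z2 kp) 1 (Y * (z1 + z2 + M * H) + o) = Y * z2 + min (o - z1) z2 ∧
    ∀ c < M, cn (layg M H Yb z1 z2 kp) (c + 2) (Y * (z1 + z2 + M * H) + o)
      = Y * H + min (o - z1 - z2 - c * H) H := by
  intro o
  induction o with
  | zero =>
    intro _
    refine ⟨by simpa using h0, by simpa using h1, fun c hc => by simpa using h2 c hc⟩
  | succ o ih =>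
    intro ho
    obtain ⟨i0, i1, i2⟩ := ih (by omega)
    have hl := lay1 M H Yb z1 z2 kp Y o hY (by omega)
    have he : Y * (z1 + z2 + M * H) + (o + 1) = (Y * (z1 + z2 + M * H) + o) + 1 := by ring
    refine ⟨?_, ?_, ?_⟩
    · rw [he, cn_succ, i0, hl]
      by_cases c1 : o < z1
      · rw [if_pos c1, if_pos rfl]; omega
      · rw [if_neg c1]
        by_cases c2 : o < z1 + z2
        · have e0 : ¬ ((1 : ℕ) = 0) := by omega
          rw [if_pos c2, if_neg e0]; omega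
        · have e0 : ¬ ((o - z1 - z2) / H + 2 = 0) := by
            generalize (o - z1 - z2) / H = w; omega
          rw [if_neg c2, if_neg e0]; omega
    · rw [he, cn_succ, i1, hl]
      by_cases c1 : o < z1
      · have e0 : ¬ ((0 : ℕ) = 1) := by omega
        rw [if_pos c1, if_neg e0]; omega
      · rw [if_neg c1]
        by_cases c2 : o < z1 + z2
        · rw [if_pos c2, if_pos rfl]; omega
        · have e0 : ¬ ((o - z1 - z2) / H + 2 = 1) := by
            generalize (o - z1 - z2) / H = w; omega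
          rw [if_neg c2, if_neg e0]; omega
    · intro c hc
      rw [he, cn_succ, i2 c hc, hl]
      by_cases c1 : o < z1
      · have e0 : ¬ ((0 : ℕ) = c + 2) := by omega
        rw [if_pos c1, if_neg e0]; omega
      · rw [if_neg c1]
        by_cases c2 : o < z1 + z2
        · have e0 : ¬ ((1 : ℕ) = c + 2) := by omega
          rw [if_pos c2, if_neg e0]; omega
        · rw [if_neg c2]
          have hs := min_step H c (o - z1 - z2) hH
          have e1 : o - z1 - z2 + 1 - c * H = o + 1 - z1 - z2 - c * H := by omega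
          rw [e1] at hs
          rw [hs]
          by_cases c3 : (o - z1 - z2) / H = c
          · have e0 : (o - z1 - z2) / H + 2 = c + 2 := by omega
            rw [if_pos c3, if_pos e0]; ring
          · have e0 : ¬ ((o - z1 - z2) / H + 2 = c + 2) := by omega
            rw [if_neg c3, if_neg e0]; ring

theorem cn1Y (M H Yb z1 z2 kp : ℕ) (hH : 0 < H) : ∀ Y ≤ Yb,
    cn (layg M H Yb z1 z2 kp) 0 (Y * (z1 + z2 + M * H)) = Y * z1 ∧
    cn (layg M H Yb z1 z2 kp) 1 (Y * (z1 + z2 + M * H)) = Y * z2 ∧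
    ∀ c < M, cn (layg M H Yb z1 z2 kp) (c + 2) (Y * (z1 + z2 + M * H)) = Y * H := by
  intro Y
  induction Y with
  | zero => intro _; simp [cn_zero]
  | succ Y ih =>
    intro hY
    obtain ⟨i0, i1, i2⟩ := ih (by omega)
    obtain ⟨j0, j1, j2⟩ := cn1 M H Yb z1 z2 kp Y hH (by omega) i0 i1 i2 _ le_rfl
    have he : (Y + 1) * (z1 + z2 + M * H) = Y * (z1 + z2 + M * H) + (z1 + z2 + M * H) := by ring
    rw [he]
    refine ⟨?_, ?_, ?_⟩
    · rw [j0, Nat.add_mul]; omega
    · rw [j1, Nat.add_mul]; omega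
    · intro c hc
      rw [j2 c hc, Nat.add_mul]
      have : c * H + H ≤ M * H := by nlinarith
      omega

/-- closed formulas for the first part -/
theorem cnA (M H Yb z1 z2 kp Y o : ℕ) (hH : 0 < H) (hY : Y < Yb) (ho : o ≤ z1 + z2 + M * H) :
    cn (layg M H Yb z1 z2 kp) 0 (Y * (z1 + z2 + M * H) + o) = Y * z1 + min o z1 ∧
    cn (layg M H Yb z1 z2 kp) 1 (Y * (z1 + z2 + M * H) + o) = Y * z2 + min (o - z1) z2 ∧
    ∀ c < M, cn (layg M H Yb z1 z2 kp) (c + 2) (Y * (z1 + z2 + M * H) + o)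
      = Y * H + min (o - z1 - z2 - c * H) H := by
  obtain ⟨i0, i1, i2⟩ := cn1Y M H Yb z1 z2 kp hH Y (by omega)
  exact cn1 M H Yb z1 z2 kp Y hH hY i0 i1 i2 o ho

theorem cn2 (M H Yb z1 z2 kp Y : ℕ) (hH : 0 < H) (hY : Y < kp)
    (h0 : cn (layg M H Yb z1 z2 kp) 0 (Yb * (z1 + z2 + M * H) + Y * (M * H)) = Yb * z1)
    (h1 : cn (layg M H Yb z1 z2 kp) 1 (Yb * (z1 + z2 + M * H) + Y * (M * H)) = Yb * z2)
    (h2 : ∀ c < M, cn (layg M H Yb z1 z2 kp) (c + 2) (Yb * (z1 + z2 + M * H) + Y * (M * H))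
      = (Yb + Y) * H) :
    ∀ o ≤ M * H,
    cn (layg M H Yb z1 z2 kp) 0 (Yb * (z1 + z2 + M * H) + Y * (M * H) + o) = Yb * z1 ∧
    cn (layg M H Yb z1 z2 kp) 1 (Yb * (z1 + z2 + M * H) + Y * (M * H) + o) = Yb * z2 ∧
    ∀ c < M, cn (layg M H Yb z1 z2 kp) (c + 2) (Yb * (z1 + z2 + M * H) + Y * (M * H) + o)
      = (Yb + Y) * H + min (o - c * H) H := by
  intro o
  induction o with
  | zero =>
    intro _
    refine ⟨by simpa using h0, by simpa using h1, fun c hc => by simpa using h2 c hc⟩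
  | succ o ih =>
    intro ho
    obtain ⟨i0, i1, i2⟩ := ih (by omega)
    have hl := lay2 M H Yb z1 z2 kp Y o hY (by omega)
    have he : Yb * (z1 + z2 + M * H) + Y * (M * H) + (o + 1)
        = (Yb * (z1 + z2 + M * H) + Y * (M * H) + o) + 1 := by ring
    refine ⟨?_, ?_, ?_⟩
    · have e0 : ¬ (o / H + 2 = 0) := by
        generalize o / H = w; omega
      rw [he, cn_succ, i0, hl, if_neg e0, Nat.add_zero]
    · have e0 : ¬ (o / H + 2 = 1) := by
        generalize o / H = w; omega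
      rw [he, cn_succ, i1, hl, if_neg e0, Nat.add_zero]
    · intro c hc
      rw [he, cn_succ, i2 c hc, hl, min_step H c o hH]
      by_cases c3 : o / H = c
      · have e0 : o / H + 2 = c + 2 := by omega
        rw [if_pos c3, if_pos e0]; ring
      · have e0 : ¬ (o / H + 2 = c + 2) := by omega
        rw [if_neg c3, if_neg e0]; ring

theorem cn2Y (M H Yb z1 z2 kp : ℕ) (hH : 0 < H) : ∀ Y ≤ kp,
    cn (layg M H Yb z1 z2 kp) 0 (Yb * (z1 + z2 + M * H) + Y * (M * H)) = Yb * z1 ∧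
    cn (layg M H Yb z1 z2 kp) 1 (Yb * (z1 + z2 + M * H) + Y * (M * H)) = Yb * z2 ∧
    ∀ c < M, cn (layg M H Yb z1 z2 kp) (c + 2) (Yb * (z1 + z2 + M * H) + Y * (M * H))
      = (Yb + Y) * H := by
  intro Y
  induction Y with
  | zero =>
    intro _
    obtain ⟨i0, i1, i2⟩ := cn1Y M H Yb z1 z2 kp hH Yb le_rfl
    refine ⟨by simpa using i0, by simpa using i1, fun c hc => by simpa using i2 c hc⟩
  | succ Y ih =>
    intro hY
    obtain ⟨i0, i1, i2⟩ := ih (by omega)
    obtain ⟨j0, j1, j2⟩ := cn2 M H Yb z1 z2 kp Y hH (by omega) i0 i1 i2 _ le_rfl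
    have he : Yb * (z1 + z2 + M * H) + (Y + 1) * (M * H)
        = Yb * (z1 + z2 + M * H) + Y * (M * H) + M * H := by ring
    rw [he]
    refine ⟨j0, j1, ?_⟩
    intro c hc
    rw [j2 c hc]
    have h1 : c * H + H ≤ M * H := by nlinarith
    have h2 : (Yb + (Y + 1)) * H = (Yb + Y) * H + H := by ring
    omega

theorem cnB (M H Yb z1 z2 kp Y o : ℕ) (hH : 0 < H) (hY : Y < kp) (ho : o ≤ M * H) :
    cn (layg M H Yb z1 z2 kp) 0 (Yb * (z1 + z2 + M * H) + Y * (M * H) + o) = Yb * z1 ∧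
    cn (layg M H Yb z1 z2 kp) 1 (Yb * (z1 + z2 + M * H) + Y * (M * H) + o) = Yb * z2 ∧
    ∀ c < M, cn (layg M H Yb z1 z2 kp) (c + 2) (Yb * (z1 + z2 + M * H) + Y * (M * H) + o)
      = (Yb + Y) * H + min (o - c * H) H := by
  obtain ⟨i0, i1, i2⟩ := cn2Y M H Yb z1 z2 kp hH Y (by omega)
  exact cn2 M H Yb z1 z2 kp Y hH hY i0 i1 i2 o ho

theorem cnC (M H Yb z1 z2 kp : ℕ) (hH : 0 < H) : ∀ g : ℕ,
    cn (layg M H Yb z1 z2 kp) 0 (Yb * (z1 + z2 + M * H) + kp * (M * H) + g) = Yb * z1 + g ∧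
    cn (layg M H Yb z1 z2 kp) 1 (Yb * (z1 + z2 + M * H) + kp * (M * H) + g) = Yb * z2 ∧
    ∀ c < M, cn (layg M H Yb z1 z2 kp) (c + 2) (Yb * (z1 + z2 + M * H) + kp * (M * H) + g)
      = (Yb + kp) * H := by
  intro g
  induction g with
  | zero =>
    obtain ⟨i0, i1, i2⟩ := cn2Y M H Yb z1 z2 kp hH kp le_rfl
    refine ⟨by simpa using i0, by simpa using i1, fun c hc => by simpa using i2 c hc⟩
  | succ g ih =>
    obtain ⟨i0, i1, i2⟩ := ih
    have hl := lay3 M H Yb z1 z2 kp g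
    have he : Yb * (z1 + z2 + M * H) + kp * (M * H) + (g + 1)
        = (Yb * (z1 + z2 + M * H) + kp * (M * H) + g) + 1 := by ring
    refine ⟨?_, ?_, ?_⟩
    · rw [he, cn_succ, i0, hl, if_pos rfl]; ring
    · have e0 : ¬ ((0 : ℕ) = 1) := by omega
      rw [he, cn_succ, i1, hl, if_neg e0, Nat.add_zero]
    · intro c hc
      have e0 : ¬ ((0 : ℕ) = c + 2) := by omega
      rw [he, cn_succ, i2 c hc, hl, if_neg e0, Nat.add_zero]

theorem layg_lt (M H Yb z1 z2 kp k : ℕ) (hH : 0 < H) (hM : 0 < M) :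
    layg M H Yb z1 z2 kp k < M + 2 := by
  unfold layg
  have hMH : 0 < M * H := Nat.mul_pos hM hH
  split_ifs with h1 h2 h3 h4
  · omega
  · omega
  · have h5 : k % (z1 + z2 + M * H) < z1 + z2 + M * H := Nat.mod_lt _ (by omega)
    have : (k % (z1 + z2 + M * H) - z1 - z2) / H < M := by
      rw [Nat.div_lt_iff_lt_mul hH]; omega
    omega
  · have h5 : (k - Yb * (z1 + z2 + M * H)) % (M * H) < M * H := Nat.mod_lt _ hMH
    have : (k - Yb * (z1 + z2 + M * H)) % (M * H) / H < M := by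
      rw [Nat.div_lt_iff_lt_mul hH]; exact h5
    omega
  · omega

theorem kcg_off (M H z1 z2 c ρ : ℕ) (hH : 0 < H) (hc : c < M) :
    kcg M H z1 z2 c ρ = ρ / H * (z1 + z2 + M * H) + (z1 + z2 + c * H + ρ % H) ∧
    z1 + z2 + c * H + ρ % H < z1 + z2 + M * H := by
  have h2 := Nat.mod_lt ρ hH
  have h3 : c * H + H ≤ M * H := by nlinarith
  refine ⟨by unfold kcg; ring, by omega⟩

theorem kcg_lt (M H z1 z2 c c' ρ ρ' : ℕ) (hH : 0 < H) (hc : c < M) (hc' : c' < M) :
    kcg M H z1 z2 c ρ < kcg M H z1 z2 c' ρ' ↔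
      ρ / H < ρ' / H ∨ (ρ / H = ρ' / H ∧ (c < c' ∨ (c = c' ∧ ρ < ρ'))) := by
  obtain ⟨e1, l1⟩ := kcg_off M H z1 z2 c ρ hH hc
  obtain ⟨e2, l2⟩ := kcg_off M H z1 z2 c' ρ' hH hc'
  rw [e1, e2]
  have m1 := Nat.mod_lt ρ hH
  have m2 := Nat.mod_lt ρ' hH
  have d1 := Nat.div_add_mod ρ H
  have d2 := Nat.div_add_mod ρ' H
  rcases lt_trichotomy (ρ / H) (ρ' / H) with h | h | h
  · have : (ρ / H + 1) * (z1 + z2 + M * H) ≤ ρ' / H * (z1 + z2 + M * H) :=
      Nat.mul_le_mul_right _ h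
    rw [Nat.add_mul, Nat.one_mul] at this
    constructor
    · intro _; exact Or.inl h
    · intro _; omega
  · rw [h]
    have d1' : H * (ρ' / H) + ρ % H = ρ := by rw [← h]; exact d1
    constructor
    · intro h5
      refine Or.inr ⟨rfl, ?_⟩
      rcases lt_trichotomy c c' with h6 | h6 | h6
      · exact Or.inl h6
      · refine Or.inr ⟨h6, ?_⟩
        subst h6
        omega
      · exfalso
        have : c' * H + H ≤ c * H := by nlinarith
        omega
    · rintro (h5 | ⟨_, h5 | ⟨h5, h6⟩⟩)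
      · exact absurd h5 (lt_irrefl _)
      · have : c * H + H ≤ c' * H := by nlinarith
        omega
      · subst h5
        omega
  · have : (ρ' / H + 1) * (z1 + z2 + M * H) ≤ ρ / H * (z1 + z2 + M * H) :=
      Nat.mul_le_mul_right _ h
    rw [Nat.add_mul, Nat.one_mul] at this
    constructor
    · intro h5; exfalso; omega
    · rintro (h5 | ⟨h5, _⟩) <;> omega

theorem kcg_mono (M H z1 z2 c ρ ρ' : ℕ) (hH : 0 < H) (hc : c < M) (h : ρ < ρ') :
    kcg M H z1 z2 c ρ < kcg M H z1 z2 c ρ' := by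
  rw [kcg_lt M H z1 z2 c c ρ ρ' hH hc hc]
  rcases (Nat.div_le_div_right (c := H) h.le).lt_or_eq with h1 | h1
  · exact Or.inl h1
  · exact Or.inr ⟨h1, Or.inr ⟨rfl, h⟩⟩

theorem layg_kcg (M H Yb z1 z2 kp c ρ : ℕ) (hH : 0 < H) (hc : c < M) (hρ : ρ < Yb * H) :
    layg M H Yb z1 z2 kp (kcg M H z1 z2 c ρ) = c + 2 ∧
      kcg M H z1 z2 c ρ < Yb * (z1 + z2 + M * H) := by
  obtain ⟨e1, l1⟩ := kcg_off M H z1 z2 c ρ hH hc
  have hY : ρ / H < Yb := by rwa [Nat.div_lt_iff_lt_mul hH]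
  have m1 := Nat.mod_lt ρ hH
  constructor
  · rw [e1, lay1 M H Yb z1 z2 kp _ _ hY l1, if_neg (by omega), if_neg (by omega)]
    have : z1 + z2 + c * H + ρ % H - z1 - z2 = ρ % H + c * H := by omega
    rw [this, Nat.add_mul_div_right _ _ hH, Nat.div_eq_of_lt m1]
    omega
  · rw [e1]
    have : (ρ / H + 1) * (z1 + z2 + M * H) ≤ Yb * (z1 + z2 + M * H) := Nat.mul_le_mul_right _ hY
    rw [Nat.add_mul, Nat.one_mul] at this
    omega

theorem layg_inv (M H Yb z1 z2 kp c k : ℕ) (hH : 0 < H) (hM : 0 < M)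
    (hk : k < Yb * (z1 + z2 + M * H)) (hl : layg M H Yb z1 z2 kp k = c + 2) :
    ∃ ρ < Yb * H, k = kcg M H z1 z2 c ρ := by
  have hMH : 0 < M * H := Nat.mul_pos hM hH
  have hnb : 0 < z1 + z2 + M * H := by omega
  have hd := Nat.div_add_mod k (z1 + z2 + M * H)
  have hm := Nat.mod_lt k hnb
  have hY : k / (z1 + z2 + M * H) < Yb := by rwa [Nat.div_lt_iff_lt_mul hnb]
  have hk2 : k = k / (z1 + z2 + M * H) * (z1 + z2 + M * H) + k % (z1 + z2 + M * H) := by
    rw [mul_comm]; exact hd.symm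
  generalize k / (z1 + z2 + M * H) = Y at hY hk2
  generalize k % (z1 + z2 + M * H) = o at hm hk2
  subst hk2
  rw [lay1 M H Yb z1 z2 kp Y o hY hm] at hl
  have h1 : ¬ o < z1 := by
    intro h; rw [if_pos h] at hl; omega
  rw [if_neg h1] at hl
  have h2 : ¬ o < z1 + z2 := by
    intro h; rw [if_pos h] at hl; omega
  rw [if_neg h2] at hl
  have h3 : (o - z1 - z2) / H = c := by
    generalize (o - z1 - z2) / H = w at hl; omega
  have h4 := Nat.div_add_mod (o - z1 - z2) H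
  have h5 := Nat.mod_lt (o - z1 - z2) hH
  refine ⟨Y * H + (o - z1 - z2) % H, ?_, ?_⟩
  · have : (Y + 1) * H ≤ Yb * H := Nat.mul_le_mul_right _ hY
    rw [Nat.add_mul, Nat.one_mul] at this
    omega
  · unfold kcg
    have e1 : (Y * H + (o - z1 - z2) % H) / H = Y := by
      rw [add_comm, Nat.add_mul_div_right _ _ hH, Nat.div_eq_of_lt h5, Nat.zero_add]
    have e2 : (Y * H + (o - z1 - z2) % H) % H = (o - z1 - z2) % H := by
      rw [Nat.mul_add_mod_of_lt h5]
    rw [e1, e2]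
    rw [h3, mul_comm H c] at h4
    omega

/-- TARGET 1 -/
theorem lay_lt (D d H Yb z1 z2 kp k : ℕ) (hD : 0 < D) (hH : 0 < H) : lay D d H Yb z1 z2 kp k < D ^ d + 2 := by
  rw [lay_eq]
  exact layg_lt _ _ _ _ _ _ _ hH (Nat.pow_pos hD)

/-- TARGET 2 -/
theorem cn_tot (D d H Yb z1 z2 kp nG : ℕ) (hD : 0 < D) (hH : 0 < H) :
    cn (lay D d H Yb z1 z2 kp) 0 (Yb * (z1 + z2 + D ^ d * H) + kp * (D ^ d * H) + nG) = Yb * z1 + nG ∧
    cn (lay D d H Yb z1 z2 kp) 1 (Yb * (z1 + z2 + D ^ d * H) + kp * (D ^ d * H) + nG) = Yb * z2 ∧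
    ∀ c < D ^ d, cn (lay D d H Yb z1 z2 kp) (c + 2)
      (Yb * (z1 + z2 + D ^ d * H) + kp * (D ^ d * H) + nG) = (Yb + kp) * H := by
  rw [lay_eq]
  exact cnC _ _ _ _ _ _ hH nG

/-- TARGET 3 -/
theorem cn_kc (D d H Yb z1 z2 kp c ρ : ℕ) (hD : 0 < D) (hH : 0 < H) (hc : c < D ^ d) (hρ : ρ < Yb * H) :
    cn (lay D d H Yb z1 z2 kp) 0 (kc D d H z1 z2 c ρ) = (ρ / H + 1) * z1 ∧
    cn (lay D d H Yb z1 z2 kp) 1 (kc D d H z1 z2 c ρ) = (ρ / H + 1) * z2 ∧
    (∀ c' < c, cn (lay D d H Yb z1 z2 kp) (c' + 2) (kc D d H z1 z2 c ρ) = (ρ / H + 1) * H) ∧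
    cn (lay D d H Yb z1 z2 kp) (c + 2) (kc D d H z1 z2 c ρ) = ρ ∧
    ∀ c' < D ^ d, c < c' → cn (lay D d H Yb z1 z2 kp) (c' + 2) (kc D d H z1 z2 c ρ) = ρ / H * H := by
  rw [lay_eq, kc_eq]
  generalize D ^ d = M at hc
  obtain ⟨e1, l1⟩ := kcg_off M H z1 z2 c ρ hH hc
  have hY : ρ / H < Yb := by rwa [Nat.div_lt_iff_lt_mul hH]
  have m1 := Nat.mod_lt ρ hH
  obtain ⟨i0, i1, i2⟩ := cnA M H Yb z1 z2 kp (ρ / H) (z1 + z2 + c * H + ρ % H) hH hY l1.le
  rw [e1]
  refine ⟨?_, ?_, ?_, ?_, ?_⟩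
  · rw [i0, Nat.add_mul, Nat.one_mul]; omega
  · rw [i1, Nat.add_mul, Nat.one_mul]; omega
  · intro c' hc'
    rw [i2 c' (by omega), Nat.add_mul, Nat.one_mul]
    have : c' * H + H ≤ c * H := by nlinarith
    omega
  · rw [i2 c hc]
    have d1 := Nat.div_add_mod ρ H
    rw [mul_comm] at d1
    omega
  · intro c' hc' hcc
    rw [i2 c' hc']
    have : c * H + H ≤ c' * H := by nlinarith
    omega

/-- TARGET 4 -/
theorem lay_kc (D d H Yb z1 z2 kp c : ℕ) (hD : 0 < D) (hH : 0 < H) (hc : c < D ^ d) :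
    (∀ ρ < Yb * H, lay D d H Yb z1 z2 kp (kc D d H z1 z2 c ρ) = c + 2 ∧
      kc D d H z1 z2 c ρ < Yb * (z1 + z2 + D ^ d * H)) ∧
    (∀ ρ ρ', ρ < ρ' → kc D d H z1 z2 c ρ < kc D d H z1 z2 c ρ') ∧
    ∀ k < Yb * (z1 + z2 + D ^ d * H), lay D d H Yb z1 z2 kp k = c + 2 →
      ∃ ρ < Yb * H, k = kc D d H z1 z2 c ρ := by
  refine ⟨?_, ?_, ?_⟩
  · intro ρ hρ
    exact layg_kcg _ _ _ _ _ _ _ _ hH hc hρ
  · intro ρ ρ' h
    exact kcg_mono _ _ _ _ _ _ _ hH hc h
  · intro k hk hl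
    exact layg_inv _ _ _ _ _ _ _ _ hH (Nat.pow_pos hD) hk hl

/-- TARGET 5 -/
theorem lay_surv (D d H Yb z1 z2 kp c N m n0 : ℕ) (ρ : ℕ → ℕ) (sv : ℕ → Bool) (hD : 0 < D) (hH : 0 < H)
    (hc : c < D ^ d) (hN : Yb * (z1 + z2 + D ^ d * H) ≤ N) (h1 : ∀ j, j + 1 < m → ρ j + n0 ≤ ρ (j + 1))
    (h2 : ∀ j < m, ρ j + n0 ≤ Yb * H)
    (h3 : ∀ k < N, lay D d H Yb z1 z2 kp k = c + 2 →
      (sv k = true ↔ ∃ j < m, ∃ i < n0, k = kc D d H z1 z2 c (ρ j + i))) :
    (List.range N).filter (fun k => decide (lay D d H Yb z1 z2 kp k = c + 2) && sv k) =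
      (List.range m).flatMap (fun j => (List.range n0).map (fun i => kc D d H z1 z2 c (ρ j + i))) := by
  have hmono : ∀ a b, a < b → b < m → ρ a + n0 ≤ ρ b := by
    intro a b hab
    induction b with
    | zero => omega
    | succ b ih =>
      intro hb
      rcases Nat.lt_succ_iff_lt_or_eq.mp hab with h | h
      · have h4 := ih h (by omega)
        have h5 := h1 b hb
        omega
      · subst h
        exact h1 a hb
  have hkm : ∀ a b, a < b → kc D d H z1 z2 c a < kc D d H z1 z2 c b :=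
    fun a b h => kcg_mono _ _ _ _ _ _ _ hH hc h
  apply List.Pairwise.eq_of_mem_iff (r := (· < ·))
  · exact List.Pairwise.filter _ List.pairwise_lt_range
  · rw [List.pairwise_flatMap]
    constructor
    · intro j _
      rw [List.pairwise_map]
      refine List.pairwise_lt_range.imp ?_
      intro a b h
      exact hkm _ _ (by omega)
    · have hp : (List.range m).Pairwise (fun a b => a < b ∧ b < m) := by
        rw [List.pairwise_iff_getElem]
        intro i j hi hj hij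
        simp only [List.length_range] at hi hj
        simp only [List.getElem_range]
        exact ⟨hij, hj⟩
      refine hp.imp ?_
      rintro a b ⟨hab, hb⟩ x hx y hy
      simp only [List.mem_map, List.mem_range] at hx hy
      obtain ⟨i, hi, rfl⟩ := hx
      obtain ⟨i', hi', rfl⟩ := hy
      have := hmono a b hab hb
      exact hkm _ _ (by omega)
  · intro k
    simp only [List.mem_filter, List.mem_range, Bool.and_eq_true, decide_eq_true_eq,
      List.mem_flatMap, List.mem_map]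
    constructor
    · rintro ⟨hk, hl, hs⟩
      obtain ⟨j, hj, i, hi, rfl⟩ := (h3 k hk hl).mp hs
      exact ⟨j, hj, i, hi, rfl⟩
    · rintro ⟨j, hj, i, hi, rfl⟩
      have h4 := h2 j hj
      obtain ⟨h5, h6⟩ := layg_kcg (D ^ d) H Yb z1 z2 kp c (ρ j + i) hH hc (by omega)
      have h7 : kc D d H z1 z2 c (ρ j + i) < N := lt_of_lt_of_le h6 hN
      exact ⟨h7, h5, (h3 _ h7 h5).mpr ⟨j, hj, i, hi, rfl⟩⟩

/-- TARGET 6 -/
theorem lay_dvd (D d H Yb z1 z2 kp nG b : ℕ) (hD : 0 < D) (hH : 0 < H) (hb : b ∣ H) :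
    ∀ k < Yb * (z1 + z2 + D ^ d * H) + kp * (D ^ d * H) + nG, ∀ c, 2 ≤ lay D d H Yb z1 z2 kp k →
      c + 2 ≠ lay D d H Yb z1 z2 kp k → b ∣ cn (lay D d H Yb z1 z2 kp) (c + 2) k := by
  intro k _ c h2 hne
  rw [lay_eq] at h2 hne ⊢
  have hM : 0 < D ^ d := Nat.pow_pos hD
  generalize D ^ d = M at h2 hne hM
  have hMH : 0 < M * H := Nat.mul_pos hM hH
  by_cases hc : c < M
  · by_cases hk1 : k < Yb * (z1 + z2 + M * H)
    · have hnb : 0 < z1 + z2 + M * H := by omega
      have hd := Nat.div_add_mod k (z1 + z2 + M * H)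
      have hm := Nat.mod_lt k hnb
      have hY : k / (z1 + z2 + M * H) < Yb := by rwa [Nat.div_lt_iff_lt_mul hnb]
      have hk2 : k = k / (z1 + z2 + M * H) * (z1 + z2 + M * H) + k % (z1 + z2 + M * H) := by
        rw [mul_comm]; exact hd.symm
      generalize k / (z1 + z2 + M * H) = Y at hY hk2
      generalize k % (z1 + z2 + M * H) = o at hm hk2
      subst hk2
      rw [lay1 M H Yb z1 z2 kp Y o hY hm] at h2 hne
      obtain ⟨_, _, i2⟩ := cnA M H Yb z1 z2 kp Y o hH hY hm.le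
      rw [i2 c hc]
      split_ifs at h2 hne with c1 c2
      · omega
      · omega
      have h4 := Nat.div_add_mod (o - z1 - z2) H
      have h5 := Nat.mod_lt (o - z1 - z2) hH
      have h6 : (o - z1 - z2) / H ≠ c := by omega
      refine dvd_add (hb.mul_left _) ?_
      rcases lt_or_gt_of_ne h6 with h7 | h7
      · have : H * ((o - z1 - z2) / H) + H ≤ c * H := by nlinarith
        have : min (o - z1 - z2 - c * H) H = 0 := by omega
        rw [this]; exact dvd_zero _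
      · have : c * H + H ≤ H * ((o - z1 - z2) / H) := by nlinarith
        have : min (o - z1 - z2 - c * H) H = H := by omega
        rw [this]; exact hb
    · by_cases hk2 : k < Yb * (z1 + z2 + M * H) + kp * (M * H)
      · obtain ⟨k', rfl⟩ : ∃ k', k = Yb * (z1 + z2 + M * H) + k' := ⟨k - Yb * (z1 + z2 + M * H), by omega⟩
        have hk3 : k' < kp * (M * H) := by omega
        have hd := Nat.div_add_mod k' (M * H)
        have hm := Nat.mod_lt k' hMH
        have hY : k' / (M * H) < kp := by rwa [Nat.div_lt_iff_lt_mul hMH]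
        have hk4 : k' = k' / (M * H) * (M * H) + k' % (M * H) := by
          rw [mul_comm]; exact hd.symm
        generalize k' / (M * H) = Y at hY hk4
        generalize k' % (M * H) = o at hm hk4
        subst hk4
        rw [← add_assoc] at h2 hne ⊢
        rw [lay2 M H Yb z1 z2 kp Y o hY hm] at h2 hne
        obtain ⟨_, _, i2⟩ := cnB M H Yb z1 z2 kp Y o hH hY hm.le
        rw [i2 c hc]
        have h4 := Nat.div_add_mod o H
        have h5 := Nat.mod_lt o hH
        have h6 : o / H ≠ c := by omega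
        refine dvd_add (hb.mul_left _) ?_
        rcases lt_or_gt_of_ne h6 with h7 | h7
        · have : H * (o / H) + H ≤ c * H := by nlinarith
          have : min (o - c * H) H = 0 := by omega
          rw [this]; exact dvd_zero _
        · have : c * H + H ≤ H * (o / H) := by nlinarith
          have : min (o - c * H) H = H := by omega
          rw [this]; exact hb
      · obtain ⟨g, rfl⟩ : ∃ g, k = Yb * (z1 + z2 + M * H) + kp * (M * H) + g :=
          ⟨k - (Yb * (z1 + z2 + M * H) + kp * (M * H)), by omega⟩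
        rw [lay3] at h2
        omega
  · have : cn (layg M H Yb z1 z2 kp) (c + 2) k = 0 := by
      unfold cn
      rw [List.length_eq_zero_iff, List.filter_eq_nil_iff]
      intro j _
      have := layg_lt M H Yb z1 z2 kp j hH hM
      simp only [decide_eq_true_eq]
      omega
    rw [this]; exact dvd_zero _

/-- TARGET 7: order of the elements -/
theorem kc_lt (D d H z1 z2 c c' ρ ρ' : ℕ) (hD : 0 < D) (hH : 0 < H) (hc : c < D ^ d) (hc' : c' < D ^ d) :
    kc D d H z1 z2 c ρ < kc D d H z1 z2 c' ρ' ↔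
      ρ / H < ρ' / H ∨ (ρ / H = ρ' / H ∧ (c < c' ∨ (c = c' ∧ ρ < ρ'))) :=
  kcg_lt _ _ _ _ _ _ _ _ hH hc hc'

end Pool.Agent.Helper231_T2

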