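import Mathlib
import Pool.Agent.Helper231_T2.Defs

set_option autoImplicit false

namespace Pool.Agent.Helper231_T2

/-
PLAIN PROOF. Define w recursively: w 0 = v 0 if tr 0, otherwise the number in [1, Mx] congruent to res 0; w (k+1) = v (k+1) if
tr (k+1), otherwise the smallest number > w k congruent to res (k+1) (it is ≤ w k + Mx). Invariant for k < N: if some true index ≤ k
exists, let k0 be the last one: w k ≤ v k0 + (k - k0)*Mx; if there is none: w k ≤ (k+1)*Mx. So w k < v (k+1) when tr (k+1), k+1<N, by h0 / h1.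
(w can be defined arbitrarily for k ≥ N.) -/

/-- the least number above `a` congruent to `r` modulo `Mx` -/
def C8_nxt (Mx a r : ℕ) : ℕ := a + 1 + (r % Mx + (Mx - (a + 1) % Mx)) % Mx

theorem C8_nxt_gt (Mx a r : ℕ) : a < C8_nxt Mx a r := by
  unfold C8_nxt
  omega

theorem C8_nxt_le (Mx a r : ℕ) (h : 0 < Mx) : C8_nxt Mx a r ≤ a + Mx := by
  unfold C8_nxt
  have := Nat.mod_lt (r % Mx + (Mx - (a + 1) % Mx)) h
  omega

theorem C8_nxt_mod (Mx a r : ℕ) (h : 0 < Mx) : C8_nxt Mx a r % Mx = r % Mx := by
  unfold C8_nxt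
  have h1 := Nat.mod_lt (a + 1) h
  have h2 : (a + 1 + (r % Mx + (Mx - (a + 1) % Mx)) % Mx) ≡
      ((a + 1) % Mx + (r % Mx + (Mx - (a + 1) % Mx))) [MOD Mx] :=
    Nat.ModEq.add (Nat.mod_modEq _ _).symm (Nat.mod_modEq _ _)
  have h3 : (a + 1) % Mx + (r % Mx + (Mx - (a + 1) % Mx)) = r % Mx + Mx := by omega
  rw [h3] at h2
  have h4 : (r % Mx + Mx) % Mx = r % Mx := by rw [Nat.add_mod_right, Nat.mod_mod]
  exact Eq.trans h2 h4

/-- the sequence -/
def C8_w (Mx : ℕ) (tr : ℕ → Bool) (v res : ℕ → ℕ) : ℕ → ℕ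
  | 0 => if tr 0 = true then v 0 else C8_nxt Mx 0 (res 0)
  | k + 1 => if tr (k + 1) = true then v (k + 1) else C8_nxt Mx (C8_w Mx tr v res k) (res (k + 1))

/-- TARGET: an increasing sequence with prescribed values at some places and prescribed residues at the others -/
theorem C8 (N Mx V : ℕ) (hMx : 0 < Mx) (tr : ℕ → Bool) (v res : ℕ → ℕ)
    (h0 : ∀ k < N, tr k = true → (k + 1) * Mx + 1 ≤ v k)
    (h1 : ∀ k' < N, ∀ k < k', tr k = true → tr k' = true → v k + (k' - k) * Mx + 1 ≤ v k')
    (hV : ∀ k < N, tr k = true → v k ≤ V) :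
    ∃ w : ℕ → ℕ, (∀ k < N, tr k = true → w k = v k) ∧
      (∀ k < N, tr k = false → w k % Mx = res k % Mx) ∧ (∀ k < N, 0 < w k) ∧
      (∀ k < N, ∀ k' < k, w k' < w k) ∧ ∀ k < N, w k ≤ V + (N + 1) * Mx := by
  obtain ⟨w, hw⟩ : ∃ w : ℕ → ℕ, w = C8_w Mx tr v res := ⟨_, rfl⟩
  have w0t : tr 0 = true → w 0 = v 0 := by
    intro h
    rw [hw, C8_w, if_pos h]
  have w0f : tr 0 = false → w 0 = C8_nxt Mx 0 (res 0) := by
    intro h
    rw [hw, C8_w, if_neg (by rw [h]; exact Bool.false_ne_true)]
  have wst : ∀ k, tr (k + 1) = true → w (k + 1) = v (k + 1) := by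
    intro k h
    rw [hw, C8_w, if_pos h]
  have wsf : ∀ k, tr (k + 1) = false → w (k + 1) = C8_nxt Mx (w k) (res (k + 1)) := by
    intro k h
    rw [hw, C8_w, if_neg (by rw [h]; exact Bool.false_ne_true)]
  have hP : ∀ k, (w k ≤ (k + 1) * Mx) ∨
      (∃ k0 ≤ k, tr k0 = true ∧ w k ≤ v k0 + (k - k0) * Mx) := by
    intro k
    induction k with
    | zero =>
      cases h : tr 0
      · left
        rw [w0f h]
        have := C8_nxt_le Mx 0 (res 0) hMx
        omega
      · right
        exact ⟨0, le_rfl, h, by rw [w0t h]; omega⟩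
    | succ k ih =>
      cases h : tr (k + 1)
      · have h2 := C8_nxt_le Mx (w k) (res (k + 1)) hMx
        rw [← wsf k h] at h2
        rcases ih with ih | ⟨k0, hk0, htr, ih⟩
        · left
          have e : (k + 1 + 1) * Mx = (k + 1) * Mx + Mx := by ring
          omega
        · right
          refine ⟨k0, by omega, htr, ?_⟩
          have e : (k + 1 - k0) * Mx = (k - k0) * Mx + Mx := by
            have : k + 1 - k0 = (k - k0) + 1 := by omega
            rw [this]
            ring
          omega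
      · right
        exact ⟨k + 1, le_rfl, h, by rw [wst k h]; omega⟩
  have hstep : ∀ k, k + 1 < N → w k < w (k + 1) := by
    intro k hk
    cases h : tr (k + 1)
    · rw [wsf k h]
      exact C8_nxt_gt _ _ _
    · rw [wst k h]
      rcases hP k with h2 | ⟨k0, hk0, htr, h2⟩
      · have h3 := h0 (k + 1) hk h
        have e : (k + 1 + 1) * Mx = (k + 1) * Mx + Mx := by ring
        omega
      · have h3 := h1 (k + 1) hk k0 (by omega) htr h
        have e : (k + 1 - k0) * Mx = (k - k0) * Mx + Mx := by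
          have : k + 1 - k0 = (k - k0) + 1 := by omega
          rw [this]
          ring
        omega
  refine ⟨w, fun k hk h => ?_, fun k hk h => ?_, fun k hk => ?_, fun k hk => ?_, fun k hk => ?_⟩
  · cases k with
    | zero => exact w0t h
    | succ k => exact wst k h
  · cases k with
    | zero =>
      rw [w0f h]
      exact C8_nxt_mod _ _ _ hMx
    | succ k =>
      rw [wsf k h]
      exact C8_nxt_mod _ _ _ hMx
  · cases k with
    | zero =>
      cases h : tr 0
      · rw [w0f h]
        exact C8_nxt_gt _ _ _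
      · rw [w0t h]
        have := h0 0 hk h
        omega
    | succ k =>
      exact lt_of_le_of_lt (Nat.zero_le _) (hstep k hk)
  · induction k with
    | zero =>
      intro k' hk'
      exact absurd hk' (Nat.not_lt_zero _)
    | succ k ih =>
      intro k' hk'
      have h2 := hstep k hk
      rcases Nat.lt_succ_iff_lt_or_eq.1 hk' with h3 | h3
      · exact (ih (by omega) k' h3).trans h2
      · rw [h3]
        exact h2
  · rcases hP k with h2 | ⟨k0, hk0, htr, h2⟩
    · have e : (k + 1) * Mx ≤ (N + 1) * Mx := Nat.mul_le_mul_right _ (by omega)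
      omega
    · have e : (k - k0) * Mx ≤ (N + 1) * Mx := Nat.mul_le_mul_right _ (by omega)
      have := hV k0 (by omega) htr
      omega

end Pool.Agent.Helper231_T2

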