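import Mathlib
import Pool.Agent.Helper231_T2.Defs
import Pool.Agent.Helper231_T2.C8
import Pool.Agent.Helper231_T2.C7a

set_option autoImplicit false

namespace Pool.Agent.Helper231_T2


/-
PLAIN PROOF. S = T+e+4, Mx := b^(T+e+1). g := b^T * ((N+2)*Mx + 2) (a multiple of b^T, > (N+2)*Mx+1), X x := (x+1)*g + ((pt (cls x) + (b^T - 1)*(κ*Y x)) % b^T),
so κ*Y x + X x = pt (cls x) mod b^T and (x+1) g ≤ X x < (x+1) g + b^T ≤ (x+2)*g. Hence for x' < x: X x - X x' ≥ g - b^T ≥ N*Mx + 1 (b^T ≥ 1: g - b^T = b^T((N+2)Mx+1)).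
True elements: k = K(x,j) := kc (cls x) (rho x j), x < r, j < |α x|, with x' = (α x)_j; prescribed value v = b^(S-1) + b^S*X x' - X x (a natural number, see below).
Survivors: k = K(x,j,i) := kc (cls x) (rho x j + i), i < b*cc. The triple (x,j,i) is determined by k: cls is injective on x < r (strictly decreasing),
kc is injective (kc_lt), and for fixed x the intervals [rho x j, rho x j + b*cc) are disjoint, because (α x) is strictly increasing and
Y x'*H + b*cc ≤ Y x''*H for x' < x'' (and Y x' * H ≥ H ≥ r ≥ x+1, so no truncation in rho).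
Rank: rho x j = Y x'*H - (x+1), 1 ≤ x+1 ≤ H, so rho/H = Y x' - 1. Two true elements K(x,j) < K(y,j') (letters x', y' of the productions): by kc_lt either
Y x' < Y y' (then x' < y') or Y x' = Y y' (x' = y') and cls x < cls y (so y < x), [equal classes: x = y, then rho <, x' < y'].
 If x' < y': v' - v = b^S (X y' - X x') + X x - X y ≥ b^S*(g - b^T) - (r+1)*g ≥ N*Mx + 1: b^S ≥ 2(r+3) and g - b^T ≥ g/2. Since k' - k ≤ N the gap
 condition of C8 holds. If x' = y', y < x: v' - v = X x - X y ≥ g - b^T ≥ N*Mx+1. First condition: v ≥ b^S*g - (r+1)*g ≥ g ≥ (N+1)*Mx + 1.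
 Bound: v ≤ V := b^(S-1) + b^S*(r+2)*g, independent of κ. C8 (with tr k := decide of k is a true element, v and res by choice of the triple) gives
 w k ≤ V + (N+1)*Mx. K0 := b*(V + (N+1)*Mx) + b + (r+2)*g + V + (N+1)*Mx + 1.
Residues (everything modulo Mx; every modulus below divides Mx = b^(T+e+1), since T ≥ 6 and dst ≤ e):
 type 0: res = 2*b^2 + (Mx-1)*(κ*P3 k + 1); type 1: res = 2*b^3 + (Mx-1)*(κ*P4 k + 1);
 type c+2, not a survivor: res = 2*b^(T-1) + (Mx-1)*(κ*P c k + pt c);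
 survivor (x,j,i), i > 0, de = dst ..: res = 2*b^(T+de) + (Mx-1)*(κ*Y x + X x + κ*P (cls x) k + κ*b^T*ps .. (de+1) j i).
 Then e.g. (w k + κ*P3 k + 1) % Mx = 2*b^2 % Mx, and reduce modulo b^3 (b^3 ∣ Mx; 2*b^2 < b^3 because b ≥ 3). A survivor (x,j,i) has i = 0 iff it is a true element.
 ty of a survivor is not needed except: if ty k = 0 or 1 then k is not a survivor (hty: ty (kc (cls x) ρ) = cls x + 2 for ρ < Yb*H), and if ty k = c+2 and k = K(x,j,i) then c = cls x. -/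

namespace C11aux

theorem res_mod {w A B M m : ℕ} (hM : 0 < M) (h : w % M = (A + (M - 1) * B) % M) (hm : m ∣ M)
    (hA : A < m) : (w + B) % m = A := by
  have h1 : w ≡ A + (M - 1) * B [MOD M] := h
  have h2 : w + B ≡ A + (M - 1) * B + B [MOD M] := h1.add_right B
  have h3 : A + (M - 1) * B + B = A + M * B := by
    obtain ⟨M', rfl⟩ : ∃ M', M = M' + 1 := ⟨M - 1, by omega⟩
    simp only [Nat.add_sub_cancel]
    ring
  rw [h3] at h2
  have h4 : A + M * B ≡ A [MOD M] := by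
    unfold Nat.ModEq
    rw [Nat.add_mul_mod_self_left]
  have h5 : (w + B) % m = A % m := (h2.trans h4).of_dvd hm
  rw [h5, Nat.mod_eq_of_lt hA]

theorem kc_inj {D d H z1 z2 c c' ρ ρ' : ℕ} (hD : 0 < D) (hH : 0 < H) (hc : c < D ^ d)
    (hc' : c' < D ^ d) (h : kc D d H z1 z2 c ρ = kc D d H z1 z2 c' ρ') : c = c' ∧ ρ = ρ' := by
  have h1 := (kc_lt D d H z1 z2 c c' ρ ρ' hD hH hc hc').not.1 (by omega)
  have h2 := (kc_lt D d H z1 z2 c' c ρ' ρ hD hH hc' hc).not.1 (by omega)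
  omega

section
variable {b D d r e T H N z1 z2 Yb cc l : ℕ} {ty cls Y pt : ℕ → ℕ} {α : ℕ → List ℕ}

theorem Y_mono (hH : 0 < H) (hbc : 0 < b * cc)
    (hY1 : ∀ x' < r, ∀ x < x', Y x * H + b * cc ≤ Y x' * H) {x x' : ℕ} (hx' : x' < r) (h : x < x') :
    Y x < Y x' := by
  have h1 := hY1 x' hx' x h
  by_contra hcon
  push Not at hcon
  have := Nat.mul_le_mul_right H hcon
  omega

theorem cls_inj (hcls2 : ∀ x' < r, ∀ x < x', cls x' < cls x) {x y : ℕ} (hx : x < r) (hy : y < r)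
    (h : cls x = cls y) : x = y := by
  rcases lt_trichotomy x y with h1 | h1 | h1
  · have := hcls2 y hy x h1; omega
  · exact h1
  · have := hcls2 x hx y h1; omega

theorem cls_lt (hcls2 : ∀ x' < r, ∀ x < x', cls x' < cls x) {x y : ℕ} (hx : x < r) (_hy : y < r)
    (h : cls x < cls y) : y < x := by
  rcases lt_trichotomy x y with h1 | h1 | h1
  · have := hcls2 y _hy x h1; omega
  · subst h1; omega
  · exact h1

theorem getD_lt (hα : ∀ x < r, (α x).Pairwise (· < ·) ∧ ∀ y ∈ α x, y < r) {x j : ℕ} (hx : x < r)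
    (hj : j < (α x).length) : (α x).getD j 0 < r := by
  rw [List.getD_eq_getElem _ _ hj]
  exact (hα x hx).2 _ (List.getElem_mem hj)

theorem getD_mono (hα : ∀ x < r, (α x).Pairwise (· < ·) ∧ ∀ y ∈ α x, y < r) {x j j' : ℕ}
    (hx : x < r) (hj' : j' < (α x).length) (h : j < j') : (α x).getD j 0 < (α x).getD j' 0 := by
  have hj : j < (α x).length := by omega
  rw [List.getD_eq_getElem _ _ hj, List.getD_eq_getElem _ _ hj']
  exact List.pairwise_iff_getElem.1 (hα x hx).1 j j' hj hj' h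

theorem one_le_YH (hrH : r ≤ H) (hY0 : ∀ x < r, 0 < Y x) {x y : ℕ} (hx : x < r) (hy : y < r) :
    x + 1 ≤ Y y * H := by
  have h1 : 1 * H ≤ Y y * H := Nat.mul_le_mul_right H (hY0 y hy)
  omega

/-- the triple is determined by the position -/
theorem trip_inj (hD : 0 < D) (hr : 0 < r) (hrH : r ≤ H) (hbc : 0 < b * cc)
    (hcls : ∀ x < r, cls x < D ^ d) (hcls2 : ∀ x' < r, ∀ x < x', cls x' < cls x)
    (hα : ∀ x < r, (α x).Pairwise (· < ·) ∧ ∀ y ∈ α x, y < r)
    (hY0 : ∀ x < r, 0 < Y x) (hY1 : ∀ x' < r, ∀ x < x', Y x * H + b * cc ≤ Y x' * H)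
    {x j i x' j' i' : ℕ} (hx : x < r) (hj : j < (α x).length) (hi : i < b * cc)
    (hx' : x' < r) (hj' : j' < (α x').length) (hi' : i' < b * cc)
    (h : kc D d H z1 z2 (cls x) (rho H Y α x j + i) = kc D d H z1 z2 (cls x') (rho H Y α x' j' + i')) :
    x = x' ∧ j = j' ∧ i = i' := by
  have hH : 0 < H := by omega
  obtain ⟨h1, h2⟩ := kc_inj hD hH (hcls x hx) (hcls x' hx') h
  have hxx := cls_inj hcls2 hx hx' h1
  subst hxx
  unfold rho at h2
  rcases lt_trichotomy j j' with h3 | h3 | h3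
  · exfalso
    have h4 := getD_mono hα hx hj' h3
    have h5 := hY1 _ (getD_lt hα hx hj') _ h4
    have h6 := one_le_YH hrH hY0 hx (getD_lt hα hx hj)
    have h7 := one_le_YH hrH hY0 hx (getD_lt hα hx hj')
    omega
  · subst h3
    refine ⟨rfl, rfl, by omega⟩
  · exfalso
    have h4 := getD_mono hα hx hj h3
    have h5 := hY1 _ (getD_lt hα hx hj) _ h4
    have h6 := one_le_YH hrH hY0 hx (getD_lt hα hx hj)
    have h7 := one_le_YH hrH hY0 hx (getD_lt hα hx hj')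
    omega

theorem rho_div (hrH : r ≤ H) (hα : ∀ x < r, (α x).Pairwise (· < ·) ∧ ∀ y ∈ α x, y < r)
    (hY0 : ∀ x < r, 0 < Y x) {x j : ℕ} (hx : x < r) (hj : j < (α x).length) :
    rho H Y α x j / H = Y ((α x).getD j 0) - 1 := by
  unfold rho
  have h0 := hY0 _ (getD_lt hα hx hj)
  set y := Y ((α x).getD j 0) with hy
  obtain ⟨m, hm⟩ : ∃ m, y = m + 1 := ⟨y - 1, by omega⟩
  rw [hm]
  have h1 : (m + 1) * H - (x + 1) = (H - (x + 1)) + m * H := by
    rw [Nat.add_mul, one_mul]; omega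
  rw [h1, Nat.add_mul_div_right _ _ (by omega), Nat.div_eq_of_lt (by omega)]
  omega

/-- comparison of two true elements -/
theorem true_lt (hD : 0 < D) (hr : 0 < r) (hrH : r ≤ H) (hbc : 0 < b * cc)
    (hcls : ∀ x < r, cls x < D ^ d) (hcls2 : ∀ x' < r, ∀ x < x', cls x' < cls x)
    (hα : ∀ x < r, (α x).Pairwise (· < ·) ∧ ∀ y ∈ α x, y < r)
    (hY0 : ∀ x < r, 0 < Y x) (hY1 : ∀ x' < r, ∀ x < x', Y x * H + b * cc ≤ Y x' * H)
    {x j y j' : ℕ} (hx : x < r) (hj : j < (α x).length) (hy : y < r) (hj' : j' < (α y).length)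
    (h : kc D d H z1 z2 (cls x) (rho H Y α x j) < kc D d H z1 z2 (cls y) (rho H Y α y j')) :
    (α x).getD j 0 < (α y).getD j' 0 ∨ ((α x).getD j 0 = (α y).getD j' 0 ∧ y < x) := by
  have hH : 0 < H := by omega
  have h1 := (kc_lt D d H z1 z2 _ _ _ _ hD hH (hcls x hx) (hcls y hy)).1 h
  rw [rho_div hrH hα hY0 hx hj, rho_div hrH hα hY0 hy hj'] at h1
  have hx0 := getD_lt hα hx hj
  have hy0 := getD_lt hα hy hj'
  have hYx := hY0 _ hx0
  have hYy := hY0 _ hy0
  rcases lt_trichotomy ((α x).getD j 0) ((α y).getD j' 0) with h2 | h2 | h2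
  · exact Or.inl h2
  · right
    refine ⟨h2, ?_⟩
    rcases h1 with h1 | ⟨_, h1⟩
    · rw [h2] at h1; omega
    · rcases h1 with h1 | ⟨h1, h3⟩
      · exact cls_lt hcls2 hx hy h1
      · exfalso
        have := cls_inj hcls2 hx hy h1
        subst this
        unfold rho at h3
        rw [h2] at h3
        omega
  · exfalso
    have h3 := Y_mono hH hbc hY1 hx0 h2
    omega

end

section
variable {bt Mx N g r S Bs : ℕ}

theorem arith1 (hbt : 0 < bt) (hg : g = bt * ((N + 2) * Mx + 2)) :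
    bt + ((N + 2) * Mx + 1) ≤ g ∧ 2 * bt ≤ g := by
  subst hg
  constructor
  · have h1 : 1 * ((N + 2) * Mx + 1) ≤ bt * ((N + 2) * Mx + 1) := Nat.mul_le_mul_right _ hbt
    have h2 : bt * ((N + 2) * Mx + 2) = bt + bt * ((N + 2) * Mx + 1) := by ring
    omega
  · have h2 : bt * ((N + 2) * Mx + 2) = 2 * bt + bt * ((N + 2) * Mx) := by ring
    omega

theorem arith2 {Xx Xy Xx' Xy' v v' n : ℕ} (hg2 : 2 * bt ≤ g) (hg1 : (N + 2) * Mx + 1 ≤ g)
    (hS : 2 * (r + 3) ≤ S) (hXy : Xy ≤ (r + 1) * g) (hgap : Xx' + g ≤ Xy' + bt)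
    (hv : v + Xx = Bs + S * Xx') (hv' : v' + Xy = Bs + S * Xy') (hn : n ≤ N) :
    v + n * Mx + 1 ≤ v' := by
  have h1 : n * Mx ≤ N * Mx := Nat.mul_le_mul_right _ hn
  have h2 : (N + 2) * Mx = N * Mx + 2 * Mx := by ring
  have h3 : S * (Xx' + g) ≤ S * (Xy' + bt) := Nat.mul_le_mul_left _ hgap
  have h4 : S * (Xx' + g) = S * Xx' + S * g := by ring
  have h5 : S * (Xy' + bt) = S * Xy' + S * bt := by ring
  have h6 : S * (2 * bt) ≤ S * g := Nat.mul_le_mul_left _ hg2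
  have h7 : S * (2 * bt) = 2 * (S * bt) := by ring
  have h8 : 2 * (r + 3) * g ≤ S * g := Nat.mul_le_mul_right _ hS
  have h9 : 2 * (r + 3) * g = 2 * ((r + 1) * g) + 4 * g := by ring
  omega

end

end C11aux

/-- TARGET -/
theorem C11a (b D d r e T H N z1 z2 Yb cc l : ℕ) (ty cls Y pt : ℕ → ℕ) (P3 P4 : ℕ → ℕ → ℕ) (P : ℕ → ℕ → ℕ → ℕ)
    (α : ℕ → List ℕ) (hb : 3 ≤ b) (hD : 0 < D) (hT : 6 ≤ T) (hr : 0 < r) (hrH : r ≤ H) (hcc : 0 < cc)
    (hS : 2 * (r + 3) ≤ b ^ (T + e + 4)) (hYb : Yb * (z1 + z2 + D ^ d * H) ≤ N)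
    (hcls : ∀ x < r, cls x < D ^ d) (hcls2 : ∀ x' < r, ∀ x < x', cls x' < cls x)
    (hα : ∀ x < r, (α x).Pairwise (· < ·) ∧ ∀ y ∈ α x, y < r)
    (hY0 : ∀ x < r, 0 < Y x) (hY1 : ∀ x' < r, ∀ x < x', Y x * H + b * cc ≤ Y x' * H)
    (hY2 : ∀ x < r, Y x * H + b * cc ≤ Yb * H)
    (hty : ∀ c < D ^ d, ∀ ρ < Yb * H, ty (kc D d H z1 z2 c ρ) = c + 2 ∧
      kc D d H z1 z2 c ρ < Yb * (z1 + z2 + D ^ d * H)) :
    ∃ K0 : ℕ, ∀ κ, K0 ≤ κ → ∃ X w : ℕ → ℕ,
      WF b D d r e T H N z1 z2 cc l κ ty cls Y (P3 κ) (P4 κ) pt X w (P κ) α := by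
  classical
  have hb0 : 0 < b := by omega
  have hbc : 0 < b * cc := Nat.mul_pos hb0 hcc
  have hH : 0 < H := by omega
  obtain ⟨Mx, hMx⟩ : ∃ Mx, Mx = b ^ (T + e + 1) := ⟨_, rfl⟩
  have hMx0 : 0 < Mx := by rw [hMx]; positivity
  obtain ⟨bt, hbt⟩ : ∃ bt, bt = b ^ T := ⟨_, rfl⟩
  have hbt0 : 0 < bt := by rw [hbt]; positivity
  obtain ⟨g, hg⟩ : ∃ g, g = bt * ((N + 2) * Mx + 2) := ⟨_, rfl⟩
  obtain ⟨hg1, hg2⟩ := C11aux.arith1 hbt0 hg
  obtain ⟨S, hSdef⟩ : ∃ S, S = b ^ (T + e + 4) := ⟨_, rfl⟩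
  obtain ⟨Bs, hBs⟩ : ∃ Bs, Bs = b ^ (T + e + 3) := ⟨_, rfl⟩
  rw [← hSdef] at hS
  obtain ⟨V, hV⟩ : ∃ V, V = Bs + S * ((r + 2) * g) := ⟨_, rfl⟩
  refine ⟨b * (V + (N + 1) * Mx) + b + (r + 2) * g + V + (N + 1) * Mx + 1, fun κ hκ => ?_⟩
  obtain ⟨X, hX⟩ : ∃ X : ℕ → ℕ, ∀ x, X x = (x + 1) * g + ((pt (cls x) + (bt - 1) * (κ * Y x)) % bt) :=
    ⟨_, fun _ => rfl⟩
  have hXlo : ∀ x, (x + 1) * g ≤ X x := fun x => by rw [hX]; exact Nat.le_add_right _ _
  have hXhi : ∀ x, X x < (x + 1) * g + bt := fun x => by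
    rw [hX]
    exact Nat.add_lt_add_left (Nat.mod_lt _ hbt0) _
  have hXr : ∀ x < r, X x ≤ (r + 1) * g := by
    intro x hx
    have h1 := hXhi x
    have h2 : (x + 2) * g ≤ (r + 1) * g := Nat.mul_le_mul_right _ (by omega)
    have h3 : (x + 2) * g = (x + 1) * g + g := by ring
    omega
  have hXgap : ∀ x' x, x' < x → X x' + g ≤ X x + bt := by
    intro x' x h
    have h1 := hXhi x'
    have h2 := hXlo x
    have h3 : (x' + 2) * g ≤ (x + 1) * g := Nat.mul_le_mul_right _ (by omega)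
    have h4 : (x' + 2) * g = (x' + 1) * g + g := by ring
    omega
  have hXg : ∀ x, g ≤ X x := by
    intro x
    have h1 := hXlo x
    have h2 : 1 * g ≤ (x + 1) * g := Nat.mul_le_mul_right _ (by omega)
    omega
  -- the values at the true elements
  obtain ⟨vl, hvl⟩ : ∃ vl : ℕ × ℕ → ℕ, ∀ p, vl p = Bs + S * X ((α p.1).getD p.2 0) - X p.1 :=
    ⟨_, fun _ => rfl⟩
  have hvl' : ∀ x < r, ∀ j < (α x).length, vl (x, j) + X x = Bs + S * X ((α x).getD j 0) := by
    intro x hx j hj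
    rw [hvl]
    have h1 := hXr x hx
    have h2 := hXg ((α x).getD j 0)
    have h3 : S * g ≤ S * X ((α x).getD j 0) := Nat.mul_le_mul_left _ h2
    have h4 : 2 * (r + 3) * g ≤ S * g := Nat.mul_le_mul_right _ hS
    have h5 : 2 * (r + 3) * g = (r + 1) * g + (r + 5) * g := by ring
    show Bs + S * X ((α x).getD j 0) - X x + X x = _
    omega
  let TrP : ℕ → ℕ × ℕ → Prop := fun k p =>
    p.1 < r ∧ p.2 < (α p.1).length ∧ k = kc D d H z1 z2 (cls p.1) (rho H Y α p.1 p.2)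
  let SvP : ℕ → ℕ × ℕ × ℕ → Prop := fun k p =>
    p.1 < r ∧ p.2.1 < (α p.1).length ∧ p.2.2 < b * cc ∧
      k = kc D d H z1 z2 (cls p.1) (rho H Y α p.1 p.2.1 + p.2.2)
  have hsvu : ∀ k p q, SvP k p → SvP k q → p = q := by
    rintro k ⟨x, j, i⟩ ⟨x', j', i'⟩ ⟨h1, h2, h3, h4⟩ ⟨h1', h2', h3', h4'⟩
    obtain ⟨e1, e2, e3⟩ := C11aux.trip_inj hD hr hrH hbc hcls hcls2 hα hY0 hY1 h1 h2 h3 h1' h2' h3'
      (h4.symm.trans h4')
    simp only at e1 e2 e3
    rw [e1, e2, e3]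
  have htrsv : ∀ k x j, TrP k (x, j) → SvP k (x, j, 0) := by
    rintro k x j ⟨h1, h2, h3⟩
    exact ⟨h1, h2, hbc, h3⟩
  have hrange : ∀ k p, SvP k p → ty k = cls p.1 + 2 ∧ k < N := by
    rintro k ⟨x, j, i⟩ ⟨h1, h2, h3, h4⟩
    simp only at h1 h2 h3 h4
    have h5 : rho H Y α x j + i < Yb * H := by
      have h6 := hY2 _ (C11aux.getD_lt hα h1 h2)
      have h7 : rho H Y α x j ≤ Y ((α x).getD j 0) * H := Nat.sub_le _ _
      omega
    obtain ⟨h8, h9⟩ := hty (cls x) (hcls x h1) _ h5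
    rw [← h4] at h8 h9
    exact ⟨h8, by omega⟩
  obtain ⟨v, hv⟩ : ∃ v : ℕ → ℕ, ∀ k p, TrP k p → v k = vl p := by
    refine ⟨fun k => if h : ∃ p, TrP k p then vl (Classical.choose h) else 0, ?_⟩
    intro k p hp
    have hex : ∃ p, TrP k p := ⟨p, hp⟩
    show (if h : ∃ p, TrP k p then vl (Classical.choose h) else 0) = vl p
    rw [dif_pos hex]
    have h1 := Classical.choose_spec hex
    obtain ⟨x, j⟩ := p
    have h2 := hsvu k _ _ (htrsv k _ _ h1) (htrsv k _ _ hp)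
    simp only [Prod.mk.injEq] at h2
    congr 1
    exact Prod.ext h2.1 h2.2.1
  obtain ⟨rs, hrs0, hrs1, hrs2, hrs3⟩ : ∃ rs : ℕ → ℕ,
      (∀ k, ty k = 0 → rs k = 2 * b ^ 2 + (Mx - 1) * (κ * P3 κ k + 1)) ∧
      (∀ k, ty k = 1 → rs k = 2 * b ^ 3 + (Mx - 1) * (κ * P4 κ k + 1)) ∧
      (∀ k p, SvP k p → rs k = 2 * b ^ (T + dst b cc e l (α p.1).length p.2.1 p.2.2) +
        (Mx - 1) * (κ * Y p.1 + X p.1 + κ * P κ (cls p.1) k +
          κ * b ^ T * ps b cc (dst b cc e l (α p.1).length p.2.1 p.2.2 + 1) p.2.1 p.2.2)) ∧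
      (∀ k c, ty k = c + 2 → (¬ ∃ p, SvP k p) →
        rs k = 2 * b ^ (T - 1) + (Mx - 1) * (κ * P κ c k + pt c)) := by
    refine ⟨fun k => if ty k = 0 then 2 * b ^ 2 + (Mx - 1) * (κ * P3 κ k + 1) else
      if ty k = 1 then 2 * b ^ 3 + (Mx - 1) * (κ * P4 κ k + 1) else
      if h : ∃ p, SvP k p then
        2 * b ^ (T + dst b cc e l (α (Classical.choose h).1).length (Classical.choose h).2.1
            (Classical.choose h).2.2) +
        (Mx - 1) * (κ * Y (Classical.choose h).1 + X (Classical.choose h).1 +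
          κ * P κ (cls (Classical.choose h).1) k +
          κ * b ^ T * ps b cc (dst b cc e l (α (Classical.choose h).1).length
            (Classical.choose h).2.1 (Classical.choose h).2.2 + 1) (Classical.choose h).2.1
              (Classical.choose h).2.2)
      else 2 * b ^ (T - 1) + (Mx - 1) * (κ * P κ (ty k - 2) k + pt (ty k - 2)), ?_, ?_, ?_, ?_⟩
    · intro k hk
      simp only [hk, if_true]
    · intro k hk
      simp only [hk]
      norm_num
    · intro k p hp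
      have hex : ∃ p, SvP k p := ⟨p, hp⟩
      obtain ⟨h1, -⟩ := hrange k p hp
      simp only
      rw [if_neg (by omega), if_neg (by omega), dif_pos hex]
      have h2 := hsvu k _ _ (Classical.choose_spec hex) hp
      rw [h2]
    · intro k c hk hns
      simp only
      rw [if_neg (by omega), if_neg (by omega), dif_neg hns, hk]
      simp
  -- apply C8
  have htrd : ∀ k, decide (∃ p, TrP k p) = true ↔ ∃ p, TrP k p := fun k => decide_eq_true_iff
  obtain ⟨w, hw1, hw2, hw3, hw4, hw5⟩ := C8 N Mx V hMx0 (fun k => decide (∃ p, TrP k p)) v rs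
    (by
      intro k hk htr
      obtain ⟨⟨x, j⟩, hp⟩ := (htrd k).1 htr
      rw [hv k _ hp]
      have h0 := hvl' x hp.1 j hp.2.1
      have h1 := hXr x hp.1
      have h2 := hXg ((α x).getD j 0)
      have h3 : S * g ≤ S * X ((α x).getD j 0) := Nat.mul_le_mul_left _ h2
      have h4 : 2 * (r + 3) * g ≤ S * g := Nat.mul_le_mul_right _ hS
      have h5 : 2 * (r + 3) * g = (r + 1) * g + (r + 4) * g + g := by ring
      have h6 : (k + 1) * Mx ≤ (N + 2) * Mx := Nat.mul_le_mul_right _ (by omega)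
      omega)
    (by
      intro k' hk' k hk htr htr'
      obtain ⟨⟨x, j⟩, hp⟩ := (htrd k).1 htr
      obtain ⟨⟨y, j'⟩, hp'⟩ := (htrd k').1 htr'
      rw [hv k _ hp, hv k' _ hp']
      have h0 := hvl' x hp.1 j hp.2.1
      have h0' := hvl' y hp'.1 j' hp'.2.1
      have hkk := hk
      rw [hp.2.2, hp'.2.2] at hkk
      rcases C11aux.true_lt hD hr hrH hbc hcls hcls2 hα hY0 hY1 hp.1 hp.2.1 hp'.1 hp'.2.1 hkk with h1 | h1
      · exact C11aux.arith2 (N := N) (Mx := Mx) (n := k' - k) hg2 (by omega) hS (hXr y hp'.1) (hXgap _ _ h1) h0 h0' (by omega)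
      · obtain ⟨h1, h2⟩ := h1
        simp only at h1 h2
        rw [h1] at h0
        have h3 := hXgap y x h2
        have h4 : (k' - k) * Mx ≤ N * Mx := Nat.mul_le_mul_right _ (by omega)
        have h5 : (N + 2) * Mx = N * Mx + 2 * Mx := by ring
        omega)
    (by
      intro k hk htr
      obtain ⟨⟨x, j⟩, hp⟩ := (htrd k).1 htr
      rw [hv k _ hp]
      have h0 := hvl' x hp.1 j hp.2.1
      have h1 := hXr _ (C11aux.getD_lt hα hp.1 hp.2.1)
      have h2 : (r + 1) * g ≤ (r + 2) * g := Nat.mul_le_mul_right _ (by omega)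
      have h3 : S * X ((α x).getD j 0) ≤ S * ((r + 2) * g) := Nat.mul_le_mul_left _ (h1.trans h2)
      omega)
  have hwres : ∀ k < N, (¬ ∃ p, TrP k p) → w k % Mx = rs k % Mx := by
    intro k hk hnt
    exact hw2 k hk (by simpa using hnt)
  have hdvd : ∀ m, m ≤ T + e + 1 → b ^ m ∣ Mx := by
    intro m hm
    rw [hMx]
    exact Nat.pow_dvd_pow b hm
  have hlt : ∀ m, 2 * b ^ m < b ^ (m + 1) := by
    intro m
    rw [pow_succ, mul_comm]
    exact Nat.mul_lt_mul_of_pos_left (by omega) (by positivity)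
  refine ⟨X, w, ?_⟩
  constructor
  · -- x1
    intro x hx
    rw [← hbt]
    have h1 : κ * Y x + X x ≡ κ * Y x + ((x + 1) * g + (pt (cls x) + (bt - 1) * (κ * Y x))) [MOD bt] := by
      rw [hX]
      exact Nat.ModEq.add_left _ (Nat.ModEq.add_left _ (Nat.mod_modEq _ _))
    have h2 : κ * Y x + ((x + 1) * g + (pt (cls x) + (bt - 1) * (κ * Y x))) =
        pt (cls x) + bt * (κ * Y x + (x + 1) * ((N + 2) * Mx + 2)) := by
      obtain ⟨b', hb'⟩ : ∃ b', bt = b' + 1 := ⟨bt - 1, by omega⟩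
      rw [hg, hb']
      simp only [Nat.add_sub_cancel]
      ring
    rw [h2] at h1
    have h3 : (pt (cls x) + bt * (κ * Y x + (x + 1) * ((N + 2) * Mx + 2))) % bt = pt (cls x) % bt :=
      Nat.add_mul_mod_self_left _ _ _
    exact Eq.trans h1 h3
  · exact hw3
  · exact hw4
  · -- w2
    intro k hk x hx
    have h1 := hXr x hx
    have h2 := hw5 k hk
    have h3 : (r + 1) * g ≤ (r + 2) * g := Nat.mul_le_mul_right _ (by omega)
    have h4 : (r + 2) * g + (V + (N + 1) * Mx) + 1 ≤ κ := by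
      refine le_trans ?_ hκ
      generalize b * (V + (N + 1) * Mx) = W
      omega
    omega
  · -- w3
    intro k hk
    have h2 := hw5 k hk
    have h3 : b * w k ≤ b * (V + (N + 1) * Mx) := Nat.mul_le_mul_left _ h2
    omega
  · -- f1
    intro k hk htk
    have hns : ¬ ∃ p, TrP k p := by
      rintro ⟨⟨x, j⟩, hp⟩
      have := (hrange k _ (htrsv k x j hp)).1
      omega
    have h1 := hwres k hk hns
    rw [hrs0 k htk] at h1
    have h2 := C11aux.res_mod hMx0 h1 (hdvd 3 (by omega)) (hlt 2)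
    rw [← add_assoc] at h2
    exact h2
  · -- f2
    intro k hk htk
    have hns : ¬ ∃ p, TrP k p := by
      rintro ⟨⟨x, j⟩, hp⟩
      have := (hrange k _ (htrsv k x j hp)).1
      omega
    have h1 := hwres k hk hns
    rw [hrs1 k htk] at h1
    have h2 := C11aux.res_mod hMx0 h1 (hdvd 4 (by omega)) (hlt 3)
    rw [← add_assoc] at h2
    exact h2
  · -- kl
    intro k hk c htk hnsv
    have hns : ¬ ∃ p, SvP k p := by
      rintro ⟨⟨x, j, i⟩, hp⟩
      have h1 := (hrange k _ hp).1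
      have h2 : cls x = c := by
        simp only at h1
        omega
      apply hnsv
      refine ⟨x, hp.1, h2, j, hp.2.1, i, hp.2.2.1, ?_⟩
      rw [← h2]
      exact hp.2.2.2
    have hnt : ¬ ∃ p, TrP k p := by
      rintro ⟨⟨x, j⟩, hp⟩
      exact hns ⟨_, htrsv k x j hp⟩
    have h1 := hwres k hk hnt
    rw [hrs3 k c htk hns] at h1
    have h2 := C11aux.res_mod hMx0 h1 (hdvd T (by omega)) (by
      have := hlt (T - 1)
      rwa [show T - 1 + 1 = T by omega] at this)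
    rw [← add_assoc] at h2
    exact h2
  · -- sv
    intro x hx j hj i hi hi0
    have hp : SvP (kc D d H z1 z2 (cls x) (rho H Y α x j + i)) (x, j, i) := ⟨hx, hj, hi, rfl⟩
    set k := kc D d H z1 z2 (cls x) (rho H Y α x j + i) with hkdef
    have hkN := (hrange k _ hp).2
    have hnt : ¬ ∃ p, TrP k p := by
      rintro ⟨⟨x', j'⟩, hp'⟩
      have h3 := hsvu k _ _ hp (htrsv k x' j' hp')
      simp only [Prod.mk.injEq] at h3
      omega
    have h1 := hwres k hkN hnt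
    rw [hrs2 k _ hp] at h1
    simp only at h1
    have hde : dst b cc e l (α x).length j i ≤ e := by
      unfold dst
      split_ifs <;> omega
    have h2 := C11aux.res_mod hMx0 h1 (hdvd (T + dst b cc e l (α x).length j i + 1) (by omega))
      (hlt (T + dst b cc e l (α x).length j i))
    have h3 : κ * Y x + X x + w k + κ * P κ (cls x) k +
        κ * b ^ T * ps b cc (dst b cc e l (α x).length j i + 1) j i =
        w k + (κ * Y x + X x + κ * P κ (cls x) k +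
          κ * b ^ T * ps b cc (dst b cc e l (α x).length j i + 1) j i) := by ring
    rw [h3]
    exact h2
  · -- tr
    intro x hx j hj
    have hp : TrP (kc D d H z1 z2 (cls x) (rho H Y α x j)) (x, j) := ⟨hx, hj, rfl⟩
    have hkN := (hrange _ _ (htrsv _ x j hp)).2
    rw [hw1 _ hkN (decide_eq_true ⟨_, hp⟩), hv _ _ hp, hvl' x hx j hj, hBs, hSdef]

end Pool.Agent.Helper231_T2

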