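import Mathlib
import Pool.Agent.Helper231_T2.Defs

set_option autoImplicit false

namespace Pool.Agent.Helper231_T2


theorem c7_cn_succ (ty : ℕ → ℕ) (t k : ℕ) : cn ty t (k + 1) = cn ty t k + (if ty k = t then 1 else 0) := by
  unfold cn
  rw [List.range_succ, List.filter_append, List.length_append]
  congr 1
  by_cases h : ty k = t <;> simp [h]

theorem c7_cnt (ty : ℕ → ℕ) (M : ℕ) (p : ℕ → Bool) : ∀ k, (∀ j < k, ty j < M) →
    ((List.range k).filter (fun j => p (ty j))).length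
      = ∑ t ∈ Finset.range M, (if p t then 1 else 0) * cn ty t k := by
  intro k
  induction k with
  | zero => intro _; simp [cn]
  | succ k ih =>
    intro h
    rw [List.range_succ, List.filter_append, List.length_append, ih (fun j hj => h j (by omega))]
    simp only [c7_cn_succ, mul_add, Finset.sum_add_distrib]
    congr 1
    rw [Finset.sum_eq_single (ty k)]
    · by_cases hp : p (ty k) = true <;> simp [hp]
    · intro b _ hb
      rw [if_neg (show ¬ ty k = b from fun e => hb e.symm), mul_zero]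
    · intro hn
      exact absurd (Finset.mem_range.2 (h k (by omega))) hn

theorem c7_alv0 (D d τ c : ℕ) : alv D d τ c 0 = decide (τ ≤ 2) := by
  unfold alv
  simp

theorem c7_alv1 (D d τ c : ℕ) : alv D d τ c 1 = decide (τ ≤ 3) := by
  unfold alv
  rw [Bool.eq_iff_iff]
  simp
  omega

theorem c7_alvc (D d τ c c' : ℕ) : alv D d τ c (c' + 2) = true ↔
    τ ≤ 3 ∨ c' / D ^ (d - qq d τ) = c / D ^ (d - qq d τ) := by
  unfold alv pre
  simp
  constructor
  · rintro ((h | h) | ⟨h, h'⟩)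
    · left; omega
    · left; omega
    · right; exact h'
  · intro h
    by_cases h3 : τ ≤ 3
    · left; omega
    · right
      refine ⟨by omega, ?_⟩
      rcases h with h | h
      · exact absurd h h3
      · exact h

theorem c7_exg0 (D d γ τ c : ℕ) : exg D d γ τ c 0 = false := by
  unfold exg; simp

theorem c7_exg1 (D d γ τ c : ℕ) : exg D d γ τ c 1 = false := by
  unfold exg; simp

theorem c7_exgc (D d γ τ c c' : ℕ) : exg D d γ τ c (c' + 2) = true ↔
    (γ = 1 ∧ 5 ≤ τ ∧ τ % 2 = 1 ∧ (τ - 5) / 2 < d) ∧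
      c' / D ^ (d - (τ - 5) / 2) = c / D ^ (d - (τ - 5) / 2) ∧
      c' / D ^ (d - 1 - (τ - 5) / 2) % D + 1 = c / D ^ (d - 1 - (τ - 5) / 2) % D := by
  unfold exg pre dg
  simp only [Bool.and_eq_true, decide_eq_true_eq, Nat.add_sub_cancel]
  constructor
  · rintro ⟨⟨⟨⟨⟨⟨h1, h2⟩, h3⟩, h4⟩, h5⟩, h6⟩, h7⟩
    exact ⟨⟨h1, h3, h4, h5⟩, h6, h7⟩
  · rintro ⟨⟨h1, h3, h4, h5⟩, h6, h7⟩
    exact ⟨⟨⟨⟨⟨⟨h1, by omega⟩, h3⟩, h4⟩, h5⟩, h6⟩, h7⟩

theorem c7_divcount (K M v : ℕ) (hM : 0 < M) (h : M * (v + 1) ≤ K) :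
    ∑ c' ∈ Finset.range K, (if c' / M = v then 1 else 0) = M := by
  rw [← Finset.sum_filter, Finset.sum_const, smul_eq_mul, mul_one]
  have e : (Finset.range K).filter (fun c' => c' / M = v) = Finset.Ico (M * v) (M * (v + 1)) := by
    ext a
    simp only [Finset.mem_filter, Finset.mem_range, Finset.mem_Ico]
    constructor
    · rintro ⟨_, h2⟩
      subst h2
      refine ⟨Nat.mul_div_le a M, ?_⟩
      exact Nat.lt_mul_div_succ a hM
    · rintro ⟨h1, h2⟩
      refine ⟨by omega, ?_⟩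
      apply Nat.div_eq_of_lt_le
      · rw [mul_comm]; exact h1
      · rw [mul_comm]; exact h2
  rw [e, Nat.card_Ico, mul_add, mul_one]
  omega

theorem c7_A (D d τ c : ℕ) (hD : 2 ≤ D) (hc : c < D ^ d) :
    ∑ c' ∈ Finset.range (D ^ d), (if alv D d τ c (c' + 2) then 1 else 0) = D ^ (d - qq d τ) := by
  by_cases h3 : τ ≤ 3
  · have hq : qq d τ = 0 := by unfold qq; omega
    have : ∀ c' ∈ Finset.range (D ^ d), (if alv D d τ c (c' + 2) = true then 1 else 0) = 1 := by
      intro c' _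
      rw [if_pos ((c7_alvc D d τ c c').2 (Or.inl h3))]
    rw [Finset.sum_congr rfl this, hq]
    simp
  · have hq : qq d τ ≤ d := by unfold qq; omega
    have : ∀ c' ∈ Finset.range (D ^ d), (if alv D d τ c (c' + 2) = true then 1 else 0)
        = (if c' / D ^ (d - qq d τ) = c / D ^ (d - qq d τ) then 1 else 0) := by
      intro c' _
      by_cases h : c' / D ^ (d - qq d τ) = c / D ^ (d - qq d τ)
      · rw [if_pos h, if_pos ((c7_alvc D d τ c c').2 (Or.inr h))]
      · rw [if_neg h, if_neg]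
        intro h'
        rcases (c7_alvc D d τ c c').1 h' with h'' | h''
        · exact h3 h''
        · exact h h''
    rw [Finset.sum_congr rfl this]
    apply c7_divcount _ _ _ (by positivity)
    have e : D ^ d = D ^ (d - qq d τ) * D ^ (qq d τ) := by
      rw [← pow_add]; congr 1; omega
    rw [e]
    apply Nat.mul_le_mul_left
    have : c / D ^ (d - qq d τ) < D ^ (qq d τ) := by
      apply Nat.div_lt_of_lt_mul
      rw [← e]; exact hc
    omega

theorem c7_u (D d i c : ℕ) (hi : i < d) : c / D ^ (d - i) = c / D ^ (d - 1 - i) / D := by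
  rw [Nat.div_div_eq_div_mul, ← pow_succ]
  congr 2
  omega

theorem c7_ar (u u' : ℕ) (h : 3 ≤ u % 3 + 2) : (u' / 3 = u / 3 ∧ u' % 3 + 1 = u % 3) ↔ u' = u - 1 := by
  omega

theorem c7_B (D d γ τ c : ℕ) (hD : γ = 1 → D = 3) (hD2 : 2 ≤ D) (hc : c < D ^ d)
    (hdg : ∀ i < d, D ≤ dg D d c i + 2) :
    ∑ c' ∈ Finset.range (D ^ d), (if exg D d γ τ c (c' + 2) then 1 else 0)
      = if γ = 1 ∧ 5 ≤ τ ∧ τ % 2 = 1 ∧ (τ - 5) / 2 < d then D ^ (d - 1 - (τ - 5) / 2) else 0 := by
  by_cases h : γ = 1 ∧ 5 ≤ τ ∧ τ % 2 = 1 ∧ (τ - 5) / 2 < d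
  · rw [if_pos h]
    obtain ⟨h1, h2, h3, h4⟩ := h
    have hD3 := hD h1
    subst hD3
    set i := (τ - 5) / 2 with hi
    have hdi := hdg i h4
    unfold dg at hdi
    have this : ∀ c' ∈ Finset.range (3 ^ d), (if exg 3 d γ τ c (c' + 2) = true then 1 else 0)
        = (if c' / 3 ^ (d - 1 - i) = c / 3 ^ (d - 1 - i) - 1 then 1 else 0) := by
      intro c' _
      have key : exg 3 d γ τ c (c' + 2) = true ↔ c' / 3 ^ (d - 1 - i) = c / 3 ^ (d - 1 - i) - 1 := by
        rw [c7_exgc, ← hi, c7_u 3 d i c h4, c7_u 3 d i c' h4, ← c7_ar _ _ hdi]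
        constructor
        · rintro ⟨_, h6⟩
          exact h6
        · intro h8
          exact ⟨⟨h1, h2, h3, h4⟩, h8⟩
      by_cases hk : c' / 3 ^ (d - 1 - i) = c / 3 ^ (d - 1 - i) - 1
      · rw [if_pos hk, if_pos (key.2 hk)]
      · rw [if_neg hk, if_neg (fun h' => hk (key.1 h'))]
    rw [Finset.sum_congr rfl this]
    apply c7_divcount _ _ _ (by positivity)
    have h9 : c / 3 ^ (d - 1 - i) - 1 + 1 = c / 3 ^ (d - 1 - i) := by
      revert hdi
      generalize c / 3 ^ (d - 1 - i) = u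
      intro hdi
      omega
    rw [h9]
    exact (Nat.mul_div_le c _).trans hc.le
  · rw [if_neg h]
    apply Finset.sum_eq_zero
    intro c' _
    rw [if_neg]
    intro h'
    exact h ((c7_exgc D d γ τ c c').1 h').1

/-
PLAIN PROOF. Target 1: count over the types: #{j<k : p (ty j)} = sum over t < D^d+2 of (if p t then 1 else 0) * cn ty t k, by induction on k.
Target 2: from target 1, exchange the sums. Target 3: type 0 is alive exactly for τ ≤ 2, type 1 exactly for τ ≤ 3, no exg for them; the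
class c itself is always alive, and never exg (dg c i + 1 ≠ dg c i).
Target 4: for τ ≤ 3 all D^d classes are alive (D^(d - qq d τ) = D^d, as qq d τ = 0 for τ ≤ 4); for τ ≥ 4 alive are those with
c'/D^(d-q) = c/D^(d-q), q = qq d τ ≤ d: exactly D^(d-q) numbers c' < D^d. For γ = 1, τ = 5+2i, i<d: exg: c'/D^(d-i) = c/D^(d-i) and
dg c' i + 1 = dg c i: these are the c' with c'/D^(d-1-i) = c/D^(d-1-i) - 1 (the last digit of c/D^(d-1-i) is dg c i ≥ 1 because D = 3 ≤ dg c i + 2), exactly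
D^(d-1-i) numbers; T ≥ 2d+6 covers all i. Target 5: c' > c is never exg (the first i digits agree and digit i of c' is smaller than that of c
would give c' < c), and for τ ≥ 2d+3 we have qq d τ = d, alive only c' = c. Target 6: as target 4 (without sum over τ). -/

/-- TARGET 1 -/
theorem pos_eq (D d γ N : ℕ) (ty : ℕ → ℕ) (τ c k : ℕ) (hty : ∀ j < k, ty j < D ^ d + 2) :
    pos D d γ N ty τ c k = ∑ t ∈ Finset.range (D ^ d + 2),
      ((if alv D d τ c t then 1 else 0) + N * (if exg D d γ τ c t then 1 else 0)) * cn ty t k := by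
  unfold pos
  rw [c7_cnt ty (D ^ d + 2) (fun t => alv D d τ c t) k hty,
    c7_cnt ty (D ^ d + 2) (fun t => exg D d γ τ c t) k hty, Finset.mul_sum, ← Finset.sum_add_distrib]
  apply Finset.sum_congr rfl
  intro t _
  ring

/-- TARGET 2 -/
theorem pm_eq (b D d γ N : ℕ) (ty : ℕ → ℕ) (T c k : ℕ) (hty : ∀ j < k, ty j < D ^ d + 2) :
    pm b D d γ N ty T c k = wt b D d γ N T c 0 * cn ty 0 k + wt b D d γ N T c 1 * cn ty 1 k +
      ∑ c' ∈ Finset.range (D ^ d), wt b D d γ N T c (c' + 2) * cn ty (c' + 2) k := by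
  have e : pm b D d γ N ty T c k = ∑ t ∈ Finset.range (D ^ d + 2), wt b D d γ N T c t * cn ty t k := by
    unfold pm wt
    simp only [pos_eq D d γ N ty _ c k hty, Finset.sum_mul]
    rw [Finset.sum_comm]
    apply Finset.sum_congr rfl
    intro t _
    apply Finset.sum_congr rfl
    intro τ _
    ring
  rw [e, Finset.sum_range_succ', Finset.sum_range_succ']
  ring

/-- TARGET 3 -/
theorem wt_eq (b D d γ N T c : ℕ) (hT : 4 ≤ T) :
    wt b D d γ N T c 0 = 1 + b + b ^ 2 ∧ wt b D d γ N T c 1 = 1 + b + b ^ 2 + b ^ 3 ∧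
    wt b D d γ N T c (c + 2) = RR b T := by
  refine ⟨?_, ?_, ?_⟩
  · unfold wt
    simp only [c7_alv0, c7_exg0]
    have : ∑ τ ∈ Finset.range T, ((if decide (τ ≤ 2) = true then 1 else 0) + N * (if false = true then 1 else 0)) * b ^ τ
        = ∑ τ ∈ Finset.range 3, b ^ τ := by
      symm
      have h1 : ∀ τ ∈ Finset.range 3, b ^ τ
          = ((if decide (τ ≤ 2) = true then 1 else 0) + N * (if false = true then 1 else 0)) * b ^ τ := by
        intro τ hτ
        have := Finset.mem_range.1 hτ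
        have h2 : τ ≤ 2 := by omega
        simp [h2]
      rw [Finset.sum_congr rfl h1]
      apply Finset.sum_subset
      · intro τ hτ
        have := Finset.mem_range.1 hτ
        exact Finset.mem_range.2 (by omega)
      · intro τ _ hτ
        have h2 : ¬ τ ≤ 2 := fun h => hτ (Finset.mem_range.2 (by omega))
        simp [h2]
    rw [this]
    simp [Finset.sum_range_succ]
  · unfold wt
    simp only [c7_alv1, c7_exg1]
    have : ∑ τ ∈ Finset.range T, ((if decide (τ ≤ 3) = true then 1 else 0) + N * (if false = true then 1 else 0)) * b ^ τ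
        = ∑ τ ∈ Finset.range 4, b ^ τ := by
      symm
      have h1 : ∀ τ ∈ Finset.range 4, b ^ τ
          = ((if decide (τ ≤ 3) = true then 1 else 0) + N * (if false = true then 1 else 0)) * b ^ τ := by
        intro τ hτ
        have := Finset.mem_range.1 hτ
        have h2 : τ ≤ 3 := by omega
        simp [h2]
      rw [Finset.sum_congr rfl h1]
      apply Finset.sum_subset
      · intro τ hτ
        have := Finset.mem_range.1 hτ
        exact Finset.mem_range.2 (by omega)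
      · intro τ _ hτ
        have h2 : ¬ τ ≤ 3 := fun h => hτ (Finset.mem_range.2 (by omega))
        simp [h2]
    rw [this]
    simp [Finset.sum_range_succ]
  · unfold wt RR
    apply Finset.sum_congr rfl
    intro τ _
    have h1 : alv D d τ c (c + 2) = true := (c7_alvc D d τ c c).2 (Or.inr rfl)
    have h2 : ¬ exg D d γ τ c (c + 2) = true := by
      intro h
      have := ((c7_exgc D d γ τ c c).1 h).2.2
      omega
    rw [if_pos h1, if_neg h2]
    simp

/-- TARGET 4 -/
theorem wt_sum (b D d γ N T c : ℕ) (hγ : (γ = 1 ∧ b = 3 ∧ D = 3) ∨ (γ = 2 ∧ 4 ≤ b ∧ D = 2))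
    (hT : 2 * d + 6 ≤ T) (hc : c < D ^ d) (hdg : ∀ i < d, D ≤ dg D d c i + 2) :
    ∑ c' ∈ Finset.range (D ^ d), wt b D d γ N T c (c' + 2) =
      cA b D d T + (if γ = 1 then N * cB b D d else 0) := by
  have hD : γ = 1 → D = 3 := by omega
  have hD2 : 2 ≤ D := by omega
  unfold wt
  rw [Finset.sum_comm]
  have e1 : ∀ τ ∈ Finset.range T, ∑ c' ∈ Finset.range (D ^ d),
      ((if alv D d τ c (c' + 2) then 1 else 0) + N * (if exg D d γ τ c (c' + 2) then 1 else 0)) * b ^ τ
      = D ^ (d - qq d τ) * b ^ τ + N * ((if γ = 1 ∧ 5 ≤ τ ∧ τ % 2 = 1 ∧ (τ - 5) / 2 < d then D ^ (d - 1 - (τ - 5) / 2) else 0) * b ^ τ) := by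
    intro τ _
    rw [← Finset.sum_mul, Finset.sum_add_distrib, ← Finset.mul_sum, c7_A D d τ c hD2 hc,
      c7_B D d γ τ c hD hD2 hc hdg]
    ring
  rw [Finset.sum_congr rfl e1, Finset.sum_add_distrib, ← Finset.mul_sum]
  congr 1
  by_cases hg : γ = 1
  · rw [if_pos hg]
    congr 1
    unfold cB
    have e2 : ∑ i ∈ Finset.range d, D ^ (d - 1 - i) * b ^ (5 + 2 * i)
        = ∑ τ ∈ (Finset.range d).image (fun i => 5 + 2 * i),
          ((if γ = 1 ∧ 5 ≤ τ ∧ τ % 2 = 1 ∧ (τ - 5) / 2 < d then D ^ (d - 1 - (τ - 5) / 2) else 0) * b ^ τ) := by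
      rw [Finset.sum_image]
      · apply Finset.sum_congr rfl
        intro i hi
        have hi' := Finset.mem_range.1 hi
        have e3 : (5 + 2 * i - 5) / 2 = i := by omega
        rw [e3, if_pos ⟨hg, by omega, by omega, hi'⟩]
      · intro i _ j _ hij
        simp only at hij
        omega
    rw [e2]
    symm
    apply Finset.sum_subset
    · intro τ hτ
      obtain ⟨i, hi, rfl⟩ := Finset.mem_image.1 hτ
      have hi' := Finset.mem_range.1 hi
      exact Finset.mem_range.2 (by omega)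
    · intro τ _ hτ
      rw [if_neg, zero_mul]
      rintro ⟨_, h2, h3, h4⟩
      apply hτ
      refine Finset.mem_image.2 ⟨(τ - 5) / 2, Finset.mem_range.2 h4, ?_⟩
      omega
  · rw [if_neg hg]
    have : ∑ τ ∈ Finset.range T, ((if γ = 1 ∧ 5 ≤ τ ∧ τ % 2 = 1 ∧ (τ - 5) / 2 < d then D ^ (d - 1 - (τ - 5) / 2) else 0) * b ^ τ) = 0 := by
      apply Finset.sum_eq_zero
      intro τ _
      rw [if_neg (fun h => hg h.1), zero_mul]
    rw [this, mul_zero]

/-- TARGET 5 -/
theorem wt_le (b D d γ N T c c' : ℕ) (hγ : (γ = 1 ∧ b = 3 ∧ D = 3) ∨ (γ = 2 ∧ 4 ≤ b ∧ D = 2))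
    (hT : 2 * d + 6 ≤ T) (hc : c < D ^ d) (hc' : c' < D ^ d) (h : c < c') :
    wt b D d γ N T c (c' + 2) ≤ ∑ τ ∈ Finset.range (2 * d + 3), b ^ τ := by
  have hd : 1 ≤ d := by
    by_contra hd
    have : d = 0 := by omega
    subst this
    simp at hc'
    omega
  have hex : ∀ τ, ¬ exg D d γ τ c (c' + 2) = true := by
    intro τ h1
    obtain ⟨⟨h2, h3, h4, h5⟩, h6, h7⟩ := (c7_exgc D d γ τ c c').1 h1
    rw [c7_u D d _ c h5, c7_u D d _ c' h5] at h6
    have h8 : c / D ^ (d - 1 - (τ - 5) / 2) ≤ c' / D ^ (d - 1 - (τ - 5) / 2) := Nat.div_le_div_right h.le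
    have hD : D = 3 := by omega
    subst hD
    omega
  unfold wt
  have e : ∀ τ ∈ Finset.range T, ((if alv D d τ c (c' + 2) then 1 else 0) + N * (if exg D d γ τ c (c' + 2) then 1 else 0)) * b ^ τ
      = (if alv D d τ c (c' + 2) then b ^ τ else 0) := by
    intro τ _
    rw [if_neg (hex τ)]
    by_cases ha : alv D d τ c (c' + 2) = true <;> simp [ha]
  rw [Finset.sum_congr rfl e]
  have e2 : ∑ τ ∈ Finset.range T, (if alv D d τ c (c' + 2) = true then b ^ τ else 0)
      = ∑ τ ∈ Finset.range (2 * d + 3), (if alv D d τ c (c' + 2) = true then b ^ τ else 0) := by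
    symm
    apply Finset.sum_subset
    · intro τ hτ
      have := Finset.mem_range.1 hτ
      exact Finset.mem_range.2 (by omega)
    · intro τ _ hτ
      have h2 : 2 * d + 3 ≤ τ := by
        by_contra h3
        exact hτ (Finset.mem_range.2 (by omega))
      rw [if_neg]
      intro h1
      have hq : qq d τ = d := by unfold qq; omega
      rcases (c7_alvc D d τ c c').1 h1 with h4 | h4
      · omega
      · rw [hq] at h4
        simp at h4
        omega
  rw [e2]
  apply Finset.sum_le_sum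
  intro τ _
  split_ifs
  · exact le_refl _
  · exact Nat.zero_le _

/-- TARGET 6: the number of events in a family stage does not depend on the letter -/
theorem pos_tot (b D d γ N : ℕ) (ty : ℕ → ℕ) (τ c k n0 n1 n2 : ℕ)
    (hγ : (γ = 1 ∧ b = 3 ∧ D = 3) ∨ (γ = 2 ∧ 4 ≤ b ∧ D = 2)) (hc : c < D ^ d)
    (hdg : ∀ i < d, D ≤ dg D d c i + 2) (hty : ∀ j < k, ty j < D ^ d + 2)
    (h0 : cn ty 0 k = n0) (h1 : cn ty 1 k = n1) (h2 : ∀ c' < D ^ d, cn ty (c' + 2) k = n2) :
    pos D d γ N ty τ c k = if τ ≤ 2 then n0 + n1 + D ^ d * n2 else if τ = 3 then n1 + D ^ d * n2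
      else D ^ (d - qq d τ) * n2 +
        (if γ = 1 ∧ 5 ≤ τ ∧ τ % 2 = 1 ∧ (τ - 5) / 2 < d then N * (D ^ (d - 1 - (τ - 5) / 2) * n2) else 0) := by
  have hD : γ = 1 → D = 3 := by omega
  have hD2 : 2 ≤ D := by omega
  rw [pos_eq D d γ N ty τ c k hty, Finset.sum_range_succ', Finset.sum_range_succ']
  have e1 : ∑ c' ∈ Finset.range (D ^ d), ((if alv D d τ c (c' + 1 + 1) = true then 1 else 0) +
      N * (if exg D d γ τ c (c' + 1 + 1) = true then 1 else 0)) * cn ty (c' + 1 + 1) k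
      = (D ^ (d - qq d τ) + N * (if γ = 1 ∧ 5 ≤ τ ∧ τ % 2 = 1 ∧ (τ - 5) / 2 < d then D ^ (d - 1 - (τ - 5) / 2) else 0)) * n2 := by
    rw [← c7_A D d τ c hD2 hc, ← c7_B D d γ τ c hD hD2 hc hdg, Finset.mul_sum, ← Finset.sum_add_distrib, Finset.sum_mul]
    apply Finset.sum_congr rfl
    intro c' hc'
    rw [show c' + 1 + 1 = c' + 2 from rfl, h2 c' (Finset.mem_range.1 hc')]
  rw [e1, h0, show (0 + 1 : ℕ) = 1 from rfl, h1, c7_alv0, c7_alv1, c7_exg0, c7_exg1]
  by_cases t2 : τ ≤ 2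
  · have hq : qq d τ = 0 := by unfold qq; omega
    have t3 : τ ≤ 3 := by omega
    have t5 : ¬ (γ = 1 ∧ 5 ≤ τ ∧ τ % 2 = 1 ∧ (τ - 5) / 2 < d) := by omega
    rw [if_neg t5, hq]
    simp [t2, t3]
    ring
  · by_cases t3 : τ = 3
    · have hq : qq d τ = 0 := by unfold qq; omega
      have t4 : τ ≤ 3 := by omega
      have t5 : ¬ (γ = 1 ∧ 5 ≤ τ ∧ τ % 2 = 1 ∧ (τ - 5) / 2 < d) := by omega
      rw [if_neg t5, hq, if_neg t2, if_pos t3]
      simp [t2, t4]
      ring
    · have t4 : ¬ τ ≤ 3 := by omega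
      rw [if_neg t2, if_neg t3]
      simp only [t2, t4, decide_false]
      by_cases t5 : γ = 1 ∧ 5 ≤ τ ∧ τ % 2 = 1 ∧ (τ - 5) / 2 < d
      · rw [if_pos t5, if_pos t5]
        simp
        ring
      · rw [if_neg t5]
        simp [t5]

end Pool.Agent.Helper231_T2

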