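import Mathlib
import Pool.Agent.Helper231_T2.Defs
import Pool.Agent.Helper231_T2.C7a
import Pool.Agent.Helper231_T2.C7b

set_option autoImplicit false

namespace Pool.Agent.Helper231_T2


/-
PLAIN PROOF. Write ty = lay D d H Yb z1 z2 kp, R = RR b T, S = T+e+4, f1 = 1+b+b^2, f2 = f1+b^3, Σ = cA b D d T + (if γ = 1 then N*cB b D d else 0),
Y x = Yx b D d γ N T H cls x = (x+1)*R + H*QQ (cls x). QQ c ≤ Qb b D d by wt_le (at most D^d terms).
1, 2: Y x*H + b*cc ≤ (x+1)*R*H + H^2*Qb + b*cc ≤ (x+2)*R*H (hY) ≤ Y x'*H for x < x', and ≤ (r+1)*R*H ≤ Yb*H for x < r.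
3: k = kc (cls x) (Y x'*H - (x+1)): rank ρ = (Y x' - 1)*H + (H - (x+1)), 1 ≤ x+1 ≤ r ≤ H, so ρ/H + 1 = Y x'. By pm_eq (lay_lt), cn_kc, wt_eq, with c = cls x:
 pm T c k = f1*Y x'*z1 + f2*Y x'*z2 + sum_{c'<c} wt c (c'+2)*Y x'*H + R*(Y x'*H - (x+1)) + sum_{c'>c} wt c (c'+2)*(Y x' - 1)*H, so
 pm T c k + (x+1)*R + H*QQ c = Y x'*(f1 z1 + f2 z2 + H*sum_{c'} wt c (c'+2)) = Y x' * b^S by wt_sum and hE1.
4: pos_tot with n0 = Yb*z1+nG, n1 = Yb*z2, n2 = (Yb+kp)*H (cn_tot).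
5: sum_{τ<T} pos τ (cls x) N * b^τ = pm T (cls x) N = f1*n0 + f2*n1 + n2*Σ (pm_eq, wt_eq, wt_sum), then hE4.
6: pos is monotone in k, so pm T c k ≤ pm T c N; b^2*pm T c N = b^(T+e+2)*l - (cc+2+b+N) by hE4, and b^2*(Y x + 1) ≤ b^2*(Yb+1) ≤ N (Y x ≤ Yb from 2, H > 0), so
 b^2*(Y x + pm T c k + 1) ≤ b^(T+e+2)*l. -/

theorem C11c_QQ_le (b D d γ N T c : ℕ) (hγ : (γ = 1 ∧ b = 3 ∧ D = 3) ∨ (γ = 2 ∧ 4 ≤ b ∧ D = 2))
    (hT : 2 * d + 6 ≤ T) (hc : c < D ^ d) : QQ b D d γ N T c ≤ Qb b D d := by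
  unfold QQ Qb
  calc ∑ c' ∈ Finset.Ico (c + 1) (D ^ d), wt b D d γ N T c (c' + 2)
      ≤ ∑ c' ∈ Finset.Ico (c + 1) (D ^ d), ∑ τ ∈ Finset.range (2 * d + 3), b ^ τ := by
        apply Finset.sum_le_sum
        intro c' hc'
        rw [Finset.mem_Ico] at hc'
        exact wt_le b D d γ N T c c' hγ hT hc hc'.2 (by omega)
    _ = (D ^ d - (c + 1)) * ∑ τ ∈ Finset.range (2 * d + 3), b ^ τ := by
        rw [Finset.sum_const, Nat.card_Ico, smul_eq_mul]
    _ ≤ _ := Nat.mul_le_mul_right _ (Nat.sub_le _ _)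

theorem C11c_step (b D d γ r e T H N z1 z2 Yb kp nG cc l : ℕ) (cls : ℕ → ℕ)
    (hp : Par b D d γ r e T H N z1 z2 Yb kp nG cc l)
    (hcls : ∀ x < r, cls x < D ^ d ∧ ∀ i < d, D ≤ dg D d (cls x) i + 2) (x : ℕ) (hx : x < r) :
    Yx b D d γ N T H cls x * H + b * cc ≤ (x + 2) * RR b T * H := by
  have h1 := C11c_QQ_le b D d γ N T (cls x) hp.hγ hp.hT (hcls x hx).1
  have h2 := hp.hY
  have h3 : H ^ 2 * QQ b D d γ N T (cls x) ≤ H ^ 2 * Qb b D d := Nat.mul_le_mul_left _ h1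
  unfold Yx
  calc ((x + 1) * RR b T + H * QQ b D d γ N T (cls x)) * H + b * cc
      = (x + 1) * RR b T * H + (H ^ 2 * QQ b D d γ N T (cls x) + b * cc) := by ring
    _ ≤ (x + 1) * RR b T * H + H * RR b T := by
        apply Nat.add_le_add_left; omega
    _ = _ := by ring

theorem C11c_RRpos (b T : ℕ) (hT : 0 < T) : 0 < RR b T := by
  unfold RR
  obtain ⟨t, rfl⟩ : ∃ t, T = t + 1 := ⟨T - 1, by omega⟩
  rw [Finset.sum_range_succ']
  simp

theorem C11c_pos_mono (D d γ N : ℕ) (ty : ℕ → ℕ) (τ c k k' : ℕ) (h : k ≤ k') :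
    pos D d γ N ty τ c k ≤ pos D d γ N ty τ c k' := by
  unfold pos
  apply Nat.add_le_add
  · exact ((List.range_sublist.2 h).filter _).length_le
  · exact Nat.mul_le_mul_left _ ((List.range_sublist.2 h).filter _).length_le

theorem C11c_pm_mono (b D d γ N : ℕ) (ty : ℕ → ℕ) (n c k k' : ℕ) (h : k ≤ k') :
    pm b D d γ N ty n c k ≤ pm b D d γ N ty n c k' := by
  unfold pm
  exact Finset.sum_le_sum (fun τ _ => Nat.mul_le_mul_right _ (C11c_pos_mono D d γ N ty τ c k k' h))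

theorem C11c_p3 (b D d γ r e T H N z1 z2 Yb kp nG cc l : ℕ) (cls : ℕ → ℕ)
    (hp : Par b D d γ r e T H N z1 z2 Yb kp nG cc l)
    (hcls : ∀ x < r, cls x < D ^ d ∧ ∀ i < d, D ≤ dg D d (cls x) i + 2)
    (h2 : ∀ x < r, Yx b D d γ N T H cls x * H + b * cc ≤ Yb * H) (x : ℕ) (hx : x < r) (x' : ℕ) (hx' : x' < r) :
    pm b D d γ N (lay D d H Yb z1 z2 kp) T (cls x)
      (kc D d H z1 z2 (cls x) (Yx b D d γ N T H cls x' * H - (x + 1))) + Yx b D d γ N T H cls x =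
        b ^ (T + e + 4) * Yx b D d γ N T H cls x' := by
  have hH0 := hp.hH0
  have hT := hp.hT
  have hrH := hp.hrH
  have hD : 0 < D := by rcases hp.hγ with h | h <;> omega
  have hR := C11c_RRpos b T (by omega)
  have hc := (hcls x hx).1
  have hdg := (hcls x hx).2
  have hYpos : 0 < Yx b D d γ N T H cls x' := by
    unfold Yx; positivity
  obtain ⟨w, hw⟩ : ∃ w, Yx b D d γ N T H cls x' = w + 1 := ⟨Yx b D d γ N T H cls x' - 1, by omega⟩
  have h2' := h2 x' hx'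
  rw [hw] at h2'
  rw [hw]
  obtain ⟨s, hs⟩ : ∃ s, H = s + (x + 1) := ⟨H - (x + 1), by omega⟩
  have hρ : (w + 1) * H - (x + 1) = H * w + s := by
    have : (w + 1) * H = H * w + s + (x + 1) := by rw [add_mul, one_mul, mul_comm w H]; omega
    omega
  rw [hρ]
  have hsH : s < H := by omega
  have hdiv : (H * w + s) / H = w := by
    rw [Nat.mul_add_div hH0, Nat.div_eq_of_lt hsH, add_zero]
  have hρlt : H * w + s < Yb * H := by
    have : (w + 1) * H = H * w + H := by ring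
    have h3 : 0 ≤ b * cc := Nat.zero_le _
    omega
  obtain ⟨k0, k1, k2, k3, k4⟩ := cn_kc D d H Yb z1 z2 kp (cls x) (H * w + s) hD hH0 hc hρlt
  rw [hdiv] at k0 k1 k2 k4
  rw [pm_eq b D d γ N _ T (cls x) _ (fun j _ => lay_lt D d H Yb z1 z2 kp j hD hH0), k0, k1]
  obtain ⟨w0, w1, w2⟩ := wt_eq b D d γ N T (cls x) (by omega)
  rw [w0, w1]
  have hsum := wt_sum b D d γ N T (cls x) hp.hγ hT hc hdg
  have hE1 := hp.hE1
  set f : ℕ → ℕ := fun c' => wt b D d γ N T (cls x) (c' + 2) with hf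
  set K := kc D d H z1 z2 (cls x) (H * w + s) with hK
  have split : ∀ g : ℕ → ℕ, ∑ c' ∈ Finset.range (D ^ d), g c' =
      ∑ c' ∈ Finset.range (cls x), g c' + g (cls x) + ∑ c' ∈ Finset.Ico (cls x + 1) (D ^ d), g c' := by
    intro g
    rw [← Finset.sum_range_succ, Finset.range_eq_Ico, Finset.range_eq_Ico,
      Finset.sum_Ico_consecutive g (Nat.zero_le _) (by omega)]
  have e1 : ∑ c' ∈ Finset.range (D ^ d), wt b D d γ N T (cls x) (c' + 2) *
      cn (lay D d H Yb z1 z2 kp) (c' + 2) K =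
      (w + 1) * H * ∑ c' ∈ Finset.range (cls x), f c' + RR b T * (H * w + s) +
      w * H * ∑ c' ∈ Finset.Ico (cls x + 1) (D ^ d), f c' := by
    rw [split, Finset.mul_sum, Finset.mul_sum, w2, k3]
    congr 1
    · congr 1
      apply Finset.sum_congr rfl
      intro c' hc'
      rw [Finset.mem_range] at hc'
      rw [k2 c' hc', mul_comm]
    · apply Finset.sum_congr rfl
      intro c' hc'
      rw [Finset.mem_Ico] at hc'
      rw [k4 c' hc'.2 (by omega), mul_comm]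
  have e2 : ∑ c' ∈ Finset.range (D ^ d), f c' =
      ∑ c' ∈ Finset.range (cls x), f c' + RR b T + ∑ c' ∈ Finset.Ico (cls x + 1) (D ^ d), f c' := by
    rw [split f]
    simp only [hf, w2]
  have e3 : QQ b D d γ N T (cls x) = ∑ c' ∈ Finset.Ico (cls x + 1) (D ^ d), f c' := rfl
  rw [e1]
  have e4 : Yx b D d γ N T H cls x = (x + 1) * RR b T + H * QQ b D d γ N T (cls x) := rfl
  rw [e4, e3, ← hE1, ← hsum]
  change _ = (_ + H * ∑ c' ∈ Finset.range (D ^ d), f c') * _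
  rw [e2]
  generalize ∑ c' ∈ Finset.range (cls x), f c' = A
  generalize ∑ c' ∈ Finset.Ico (cls x + 1) (D ^ d), f c' = B
  generalize RR b T = R
  rw [hs]
  ring

/-- TARGET -/
theorem C11c (b D d γ r e T H N z1 z2 Yb kp nG cc l : ℕ) (cls : ℕ → ℕ)
    (hp : Par b D d γ r e T H N z1 z2 Yb kp nG cc l)
    (hcls : ∀ x < r, cls x < D ^ d ∧ ∀ i < d, D ≤ dg D d (cls x) i + 2) :
    (∀ x' < r, ∀ x < x', Yx b D d γ N T H cls x * H + b * cc ≤ Yx b D d γ N T H cls x' * H) ∧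
    (∀ x < r, Yx b D d γ N T H cls x * H + b * cc ≤ Yb * H) ∧
    (∀ x < r, ∀ x' < r, pm b D d γ N (lay D d H Yb z1 z2 kp) T (cls x)
      (kc D d H z1 z2 (cls x) (Yx b D d γ N T H cls x' * H - (x + 1))) + Yx b D d γ N T H cls x =
        b ^ (T + e + 4) * Yx b D d γ N T H cls x') ∧
    (∀ x < r, ∀ x' < r, ∀ τ, pos D d γ N (lay D d H Yb z1 z2 kp) τ (cls x) N =
      pos D d γ N (lay D d H Yb z1 z2 kp) τ (cls x') N) ∧
    (∀ x < r, cc + 2 + b + N + b ^ 2 * ∑ τ ∈ Finset.range T,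
      pos D d γ N (lay D d H Yb z1 z2 kp) τ (cls x) N * b ^ τ = b ^ (T + e + 2) * l) ∧
    (∀ x < r, ∀ k ≤ N, Yx b D d γ N T H cls x + pm b D d γ N (lay D d H Yb z1 z2 kp) T (cls x) k + 1 ≤
      b ^ (T + e) * l) := by
  have hstep := C11c_step b D d γ r e T H N z1 z2 Yb kp nG cc l cls hp hcls
  have hγ := hp.hγ
  have hT := hp.hT
  have hH0 := hp.hH0
  have hD : 0 < D := by rcases hp.hγ with h | h <;> omega
  have hb : 0 < b := by rcases hp.hγ with h | h <;> omega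
  have h1 : ∀ x' < r, ∀ x < x', Yx b D d γ N T H cls x * H + b * cc ≤ Yx b D d γ N T H cls x' * H := by
    intro x' hx' x hx
    refine (hstep x (by omega)).trans ?_
    apply Nat.mul_le_mul_right
    calc (x + 2) * RR b T ≤ (x' + 1) * RR b T := Nat.mul_le_mul_right _ (by omega)
      _ ≤ _ := by unfold Yx; exact Nat.le_add_right _ _
  have h2 : ∀ x < r, Yx b D d γ N T H cls x * H + b * cc ≤ Yb * H := by
    intro x hx
    refine (hstep x hx).trans ?_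
    apply Nat.mul_le_mul_right
    calc (x + 2) * RR b T ≤ (r + 1) * RR b T := Nat.mul_le_mul_right _ (by omega)
      _ ≤ _ := hp.hYb
  have hcn := cn_tot D d H Yb z1 z2 kp nG hD hH0
  rw [← hp.hN] at hcn
  obtain ⟨hc0, hc1, hc2⟩ := hcn
  have hlay : ∀ k, ∀ j < k, lay D d H Yb z1 z2 kp j < D ^ d + 2 := fun k j _ => lay_lt D d H Yb z1 z2 kp j hD hH0
  have h5 : ∀ x < r, cc + 2 + b + N + b ^ 2 * ∑ τ ∈ Finset.range T,
      pos D d γ N (lay D d H Yb z1 z2 kp) τ (cls x) N * b ^ τ = b ^ (T + e + 2) * l := by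
    intro x hx
    rw [← hp.hE4]
    congr 1
    congr 1
    change pm b D d γ N (lay D d H Yb z1 z2 kp) T (cls x) N = _
    obtain ⟨w0, w1, w2⟩ := wt_eq b D d γ N T (cls x) (by omega)
    rw [pm_eq b D d γ N _ T (cls x) N (hlay N), hc0, hc1, w0, w1,
      ← wt_sum b D d γ N T (cls x) hγ hT (hcls x hx).1 (hcls x hx).2]
    have : ∑ c' ∈ Finset.range (D ^ d), wt b D d γ N T (cls x) (c' + 2) *
        cn (lay D d H Yb z1 z2 kp) (c' + 2) N =
        (Yb + kp) * H * ∑ c' ∈ Finset.range (D ^ d), wt b D d γ N T (cls x) (c' + 2) := by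
      rw [Finset.mul_sum]
      apply Finset.sum_congr rfl
      intro c' hc'
      rw [Finset.mem_range] at hc'
      rw [hc2 c' hc', mul_comm]
    rw [this]
    ring
  refine ⟨h1, h2, C11c_p3 b D d γ r e T H N z1 z2 Yb kp nG cc l cls hp hcls h2, ?_, h5, ?_⟩
  · intro x hx x' hx' τ
    rw [pos_tot b D d γ N (lay D d H Yb z1 z2 kp) τ (cls x) N _ _ _ hγ (hcls x hx).1 (hcls x hx).2 (hlay N)
        hc0 hc1 hc2,
      pos_tot b D d γ N (lay D d H Yb z1 z2 kp) τ (cls x') N _ _ _ hγ (hcls x' hx').1 (hcls x' hx').2 (hlay N)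
        hc0 hc1 hc2]
  · intro x hx k hk
    have h5x := h5 x hx
    have hm := C11c_pm_mono b D d γ N (lay D d H Yb z1 z2 kp) T (cls x) k N hk
    change cc + 2 + b + N + b ^ 2 * pm b D d γ N (lay D d H Yb z1 z2 kp) T (cls x) N = _ at h5x
    have hY : Yx b D d γ N T H cls x ≤ Yb := by
      have := h2 x hx
      exact Nat.le_of_mul_le_mul_right ((Nat.le_add_right _ _).trans this) hH0
    have hNY := hp.hNY
    generalize pm b D d γ N (lay D d H Yb z1 z2 kp) T (cls x) N = P at h5x hm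
    generalize pm b D d γ N (lay D d H Yb z1 z2 kp) T (cls x) k = Q at hm ⊢
    generalize Yx b D d γ N T H cls x = Y at hY ⊢
    have hb2 : 0 < b ^ 2 := by positivity
    apply Nat.le_of_mul_le_mul_left _ hb2
    calc b ^ 2 * (Y + Q + 1) ≤ b ^ 2 * (Yb + P + 1) := Nat.mul_le_mul_left _ (by omega)
      _ = b ^ 2 * (Yb + 1) + b ^ 2 * P := by ring
      _ ≤ cc + 2 + b + N + b ^ 2 * P := by omega
      _ = b ^ (T + e + 2) * l := h5x
      _ = b ^ 2 * (b ^ (T + e) * l) := by rw [pow_add b (T + e) 2]; ring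

end Pool.Agent.Helper231_T2

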