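import Mathlib
import Pool.Agent.Helper231_T2.Defs

set_option autoImplicit false

namespace Pool.Agent.Helper231_T2


/-
PLAIN PROOF. Claim for s ≤ e:  Fl s = flatMap over j < m of [ (f j i + κ * ps s j i) / b^s : i < cnt s j ], all these divisions exact.
s = 0: cnt 0 j = b*cc (0 ≠ e). Step s -> s+1: the local index of the element (j,i) is Cs s * j + i (all groups j+1 < m have length
Cs s; the last group may be shorter only at s = e). So its value is I = (f j i + κ * ps s j i)/b^s + κ*(Cs s*j+i)
= (f j i + κ * ps (s+1) j i)/b^s. For i >= 1 let de = dst j i; the elements with i >= 1 present at stage s are exactly those with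
de >= s (s=0: all i < b*cc; 1 ≤ s < e: i < (b-1)cc, these have de = e-1 or e; s = e: i < cnt e j, de = e).
By h3, f j i + κ * ps (de+1) j i = 2*b^de mod b^(de+1); for s < de the terms of index > s in ps are divisible by b^(s+1), so
f j i + κ * ps (s+1) j i = 0 mod b^(s+1), hence b | I and ch gives [I/b] (as 2b^de is divisible by b^(s+1)); for s = de: I = 2 mod b,
and b >= 3 so ch gives []. For i = 0: f j 0 = Z j, ps (s+1) j 0 = j * sum_{s' ≤ s} Cs s' b^s' = j*cc*b^(s+1)  (sum_{s'≤s} Cs s' b^s' = cc*b^(s+1):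
b*cc + (b-1)cc(b+...+b^s)), so I = Z j/b^s + κ j cc b: divisible by b. (b^(e+1) ∣ Z j.) So after the stage s the survivors are those with
i < cnt (s+1) j for s < e [s=0: i < (b-1)cc; e-1: i<(b-1)cc and not (j+1=m and (b-1)cc-l ≤ i); note e-1 ≥ 1], and only i = 0 for s = e:
then the value is (Z j + κ*j*cc*b^(e+1))/b^(e+1). 0 < l < (b-1)cc gives cnt e j ≥ 1.
It is convenient to use a lemma: stg (o 0) ((range n).flatMap G) = (range n).flatMap (fun k => stg (o k) (G k)) when
o (k+1) = o k + |G k|, and a similar lemma for a map over (range n): stg o ((range n).map g) = (range n).flatMap (fun i => ch (g i + κ*(o+i))). -/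

lemma stg_append (b N κ : ℕ) (w : ℕ → ℕ) (L1 L2 : List ℕ) : ∀ o : ℕ,
    stg b N κ w o (L1 ++ L2) = stg b N κ w o L1 ++ stg b N κ w (o + L1.length) L2 := by
  induction L1 with
  | nil => intro o; simp [stg]
  | cons t L ih =>
    intro o
    rw [List.cons_append, stg, stg, ih, List.append_assoc, List.length_cons]
    congr 3
    omega

lemma stg_map (b N κ : ℕ) (w : ℕ → ℕ) (g : ℕ → ℕ) (o n : ℕ) :
    stg b N κ w o ((List.range n).map g) =
      (List.range n).flatMap (fun i => ch b N w (g i + κ * (o + i))) := by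
  induction n with
  | zero => simp [stg]
  | succ n ih =>
    rw [List.range_succ, List.map_append, stg_append, ih, List.flatMap_append]
    simp [stg]

lemma length_flat (G : ℕ → List ℕ) (C n : ℕ) (h : ∀ k < n, (G k).length = C) :
    ((List.range n).flatMap G).length = C * n := by
  induction n with
  | zero => simp
  | succ n ih =>
    rw [List.range_succ, List.flatMap_append, List.length_append, ih (fun k hk => h k (by omega))]
    simp [h n (by omega), Nat.mul_succ]

lemma stg_flat (b N κ : ℕ) (w : ℕ → ℕ) (G : ℕ → List ℕ) (C n : ℕ)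
    (h : ∀ k, k + 1 < n → (G k).length = C) :
    stg b N κ w 0 ((List.range n).flatMap G) =
      (List.range n).flatMap (fun k => stg b N κ w (C * k) (G k)) := by
  induction n with
  | zero => simp [stg]
  | succ n ih =>
    rw [List.range_succ, List.flatMap_append, stg_append, ih (fun k hk => h k (by omega)),
      List.flatMap_append, length_flat G C n (fun k hk => h k (by omega))]
    simp

lemma flatMap_congr' (n : ℕ) (F G : ℕ → List ℕ) (h : ∀ k < n, F k = G k) :
    (List.range n).flatMap F = (List.range n).flatMap G := by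
  induction n with
  | zero => simp
  | succ n ih =>
    rw [List.range_succ, List.flatMap_append, List.flatMap_append, ih (fun k hk => h k (by omega))]
    simp [h n (by omega)]

lemma flat_single (g : ℕ → ℕ) (n : ℕ) :
    (List.range n).flatMap (fun i => [g i]) = (List.range n).map g := by
  induction n with
  | zero => simp
  | succ n ih =>
    rw [List.range_succ, List.flatMap_append, List.map_append, ih]
    simp

lemma flat_if (g : ℕ → ℕ) (n' n : ℕ) (h : n' ≤ n) :
    (List.range n).flatMap (fun i => if i < n' then [g i] else []) = (List.range n').map g := by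
  induction n with
  | zero =>
    have : n' = 0 := by omega
    subst this; simp
  | succ n ih =>
    rcases Nat.lt_or_ge n n' with h1 | h1
    · have : n' = n + 1 := by omega
      subst this
      rw [← flat_single g (n + 1)]
      apply flatMap_congr'
      intro k hk
      rw [if_pos hk]
    · rw [List.range_succ, List.flatMap_append, ih h1]
      have : ¬ n < n' := by omega
      simp [this]

/-- the children of the value `X / b ^ s` -/
lemma ch_div (b N : ℕ) (w : ℕ → ℕ) (X s : ℕ) (hb : 0 < b) (h : b ^ (s + 1) ∣ X) :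
    ch b N w (X / b ^ s) = [X / b ^ (s + 1)] := by
  obtain ⟨q, rfl⟩ := h
  have hbs : 0 < b ^ s := Nat.pow_pos hb
  have h1 : b ^ (s + 1) * q / b ^ s = b * q := by
    rw [pow_succ, mul_assoc, Nat.mul_div_cancel_left _ hbs]
  have h2 : b ^ (s + 1) * q / b ^ (s + 1) = q := Nat.mul_div_cancel_left _ (Nat.pow_pos hb)
  rw [h1, h2]
  unfold ch
  rw [if_pos (Nat.mul_mod_right b q), Nat.mul_div_cancel_left _ hb]

lemma ch_two (b N : ℕ) (w : ℕ → ℕ) (X s : ℕ) (hb : 3 ≤ b) (h : X % b ^ (s + 1) = 2 * b ^ s) :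
    ch b N w (X / b ^ s) = [] := by
  have hbs : 0 < b ^ s := Nat.pow_pos (by omega)
  have h0 := Nat.div_add_mod X (b ^ (s + 1))
  rw [h] at h0
  have h1 : X / b ^ s = b * (X / b ^ (s + 1)) + 2 := by
    conv_lhs => rw [← h0]
    have : b ^ (s + 1) * (X / b ^ (s + 1)) + 2 * b ^ s =
        (b * (X / b ^ (s + 1)) + 2) * b ^ s := by rw [pow_succ]; ring
    rw [this, Nat.mul_div_cancel _ hbs]
  rw [h1]
  unfold ch
  have h2 : (b * (X / b ^ (s + 1)) + 2) % b = 2 := by
    rw [Nat.mul_add_mod, Nat.mod_eq_of_lt (by omega)]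
  rw [h2]
  simp

lemma ps_succ (b cc n j i : ℕ) : ps b cc (n + 1) j i = ps b cc n j i + (Cs b cc n * j + i) * b ^ n := by
  unfold ps
  rw [Finset.sum_range_succ]

lemma ps_dvd (b cc j i s d : ℕ) : ∃ q, ps b cc (s + d) j i = ps b cc s j i + b ^ s * q := by
  induction d with
  | zero => exact ⟨0, by simp⟩
  | succ d ih =>
    obtain ⟨q, hq⟩ := ih
    refine ⟨q + (Cs b cc (s + d) * j + i) * b ^ d, ?_⟩
    rw [← add_assoc, ps_succ, hq, pow_add]
    ring

lemma ps_zero (b cc j s : ℕ) (hb : 1 ≤ b) : ps b cc (s + 1) j 0 = cc * b ^ (s + 1) * j := by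
  induction s with
  | zero =>
    unfold ps Cs
    rw [Finset.sum_range_one, if_pos rfl]
    ring
  | succ s ih =>
    rw [ps_succ, ih]
    obtain ⟨c, rfl⟩ : ∃ c, b = c + 1 := ⟨b - 1, by omega⟩
    simp [Cs]
    ring

/-- the value -/
def Vv (b cc κ : ℕ) (f : ℕ → ℕ → ℕ) (s j i : ℕ) : ℕ := (f j i + κ * ps b cc s j i) / b ^ s

lemma V_step (b cc κ : ℕ) (f : ℕ → ℕ → ℕ) (s j i : ℕ) (hb : 0 < b) :
    Vv b cc κ f s j i + κ * (Cs b cc s * j + i) = (f j i + κ * ps b cc (s + 1) j i) / b ^ s := by
  unfold Vv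
  have hbs : 0 < b ^ s := Nat.pow_pos hb
  rw [ps_succ, ← Nat.add_mul_div_right _ _ hbs]
  congr 1
  ring

lemma dst_alive (b cc e l m s j i : ℕ) (he : 2 ≤ e)
    (h : i < cnt b cc e l m s j) (hs : s ≤ e) : s ≤ dst b cc e l m j i := by
  have hxy : (b - 1) * cc ≤ b * cc := Nat.mul_le_mul_right _ (by omega)
  unfold cnt Cs at h
  unfold dst
  generalize (b - 1) * cc = x at *
  generalize b * cc = y at *
  split_ifs at h ⊢ <;> omega

lemma dst_dead (b cc e l m s j i : ℕ) (he : 2 ≤ e)
    (h : i < cnt b cc e l m s j) (hs : s < e) (h' : ¬ i < cnt b cc e l m (s + 1) j) :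
    dst b cc e l m j i = s := by
  have hxy : (b - 1) * cc ≤ b * cc := Nat.mul_le_mul_right _ (by omega)
  unfold cnt Cs at h h'
  unfold dst
  generalize (b - 1) * cc = x at *
  generalize b * cc = y at *
  split_ifs at h h' ⊢ <;> omega

lemma dst_last (b cc e l m j i : ℕ) (he : 2 ≤ e)
    (h : i < cnt b cc e l m e j) : dst b cc e l m j i = e := by
  have hxy : (b - 1) * cc ≤ b * cc := Nat.mul_le_mul_right _ (by omega)
  unfold cnt Cs at h
  unfold dst
  generalize (b - 1) * cc = x at *
  generalize b * cc = y at *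
  split_ifs at h ⊢ <;> omega

lemma cnt_le (b cc e l m s j : ℕ) (hs : s < e) : cnt b cc e l m (s + 1) j ≤ cnt b cc e l m s j := by
  have hxy : (b - 1) * cc ≤ b * cc := Nat.mul_le_mul_right _ (by omega)
  have h1 : cnt b cc e l m s j = Cs b cc s := by
    unfold cnt
    rw [if_neg (by omega)]
  have h2 : Cs b cc (s + 1) = (b - 1) * cc := by
    unfold Cs
    rw [if_neg (by omega)]
  have h3 : (b - 1) * cc ≤ Cs b cc s := by
    unfold Cs
    split_ifs <;> omega
  rw [h1]
  unfold cnt
  rw [h2]
  generalize (b - 1) * cc = x at *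
  split_ifs <;> omega

lemma cnt_full (b cc e l m s j : ℕ) (h : j + 1 < m) : cnt b cc e l m s j = Cs b cc s := by
  unfold cnt
  rw [if_neg (by omega)]

lemma cnt_lt (b cc e l m s j : ℕ) (h : s < e) : cnt b cc e l m s j = Cs b cc s := by
  unfold cnt
  rw [if_neg (by omega)]

lemma cnt_le0 (b cc e l m s j : ℕ) : cnt b cc e l m s j ≤ b * cc := by
  have hxy : (b - 1) * cc ≤ b * cc := Nat.mul_le_mul_right _ (by omega)
  unfold cnt Cs
  generalize (b - 1) * cc = x at *
  generalize b * cc = y at *
  split_ifs <;> omega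

lemma cnt_pos (b cc e l m s j : ℕ) (hl : l < (b - 1) * cc) : 1 ≤ cnt b cc e l m s j := by
  have hxy : (b - 1) * cc ≤ b * cc := Nat.mul_le_mul_right _ (by omega)
  unfold cnt Cs
  generalize (b - 1) * cc = x at *
  generalize b * cc = y at *
  split_ifs <;> omega

section
variable (b N κ cc e l m : ℕ) (w : ℕ → ℕ) (f : ℕ → ℕ → ℕ) (Z : ℕ → ℕ) (hb : 3 ≤ b) (he : 2 ≤ e)
    (hl0 : 0 < l) (hl : l < (b - 1) * cc) (hm : 0 < m)
    (h1 : ∀ j < m, f j 0 = Z j) (h2 : ∀ j < m, b ^ (e + 1) ∣ Z j)
    (h3 : ∀ j < m, ∀ i, 0 < i → i < b * cc →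
      (f j i + κ * ps b cc (dst b cc e l m j i + 1) j i) % b ^ (dst b cc e l m j i + 1) =
        2 * b ^ dst b cc e l m j i)

include hb h1 h2 in
lemma dvd0 (s j : ℕ) (hj : j < m) (hs : s ≤ e) : b ^ (s + 1) ∣ f j 0 + κ * ps b cc (s + 1) j 0 := by
  rw [h1 j hj, ps_zero b cc j s (by omega)]
  refine Dvd.dvd.add ((pow_dvd_pow b (by omega)).trans (h2 j hj)) ?_
  exact ⟨κ * (cc * j), by ring⟩

include h3 in
lemma dvd1 (s j i : ℕ) (hj : j < m) (hi : 0 < i) (hi' : i < b * cc)
    (hs : s + 1 ≤ dst b cc e l m j i) : b ^ (s + 1) ∣ f j i + κ * ps b cc (s + 1) j i := by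
  obtain ⟨d, hd⟩ : ∃ d, dst b cc e l m j i + 1 = (s + 1) + d := ⟨dst b cc e l m j i - s, by omega⟩
  obtain ⟨q, hq⟩ := ps_dvd b cc j i (s + 1) d
  have h4 : b ^ (s + 1) ∣ f j i + κ * ps b cc (dst b cc e l m j i + 1) j i := by
    have h5 : b ^ (s + 1) ∣ b ^ (dst b cc e l m j i + 1) := pow_dvd_pow b (by omega)
    have h6 : b ^ (s + 1) ∣ 2 * b ^ (dst b cc e l m j i) :=
      Dvd.dvd.mul_left (pow_dvd_pow b (by omega)) 2
    rw [← Nat.div_add_mod (f j i + κ * ps b cc (dst b cc e l m j i + 1) j i)
      (b ^ (dst b cc e l m j i + 1)), h3 j hj i hi hi']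
    exact Dvd.dvd.add (h5.mul_right _) h6
  rw [hd, hq] at h4
  have h7 : f j i + κ * (ps b cc (s + 1) j i + b ^ (s + 1) * q) =
      (f j i + κ * ps b cc (s + 1) j i) + b ^ (s + 1) * (κ * q) := by ring
  rw [h7] at h4
  exact (Nat.dvd_add_left (Dvd.intro _ rfl)).mp h4

include hb he hl h1 h2 h3 in
/-- the children of one event -/
lemma chEv (s j i : ℕ) (hj : j < m) (hs : s ≤ e) (hi : i < cnt b cc e l m s j) :
    ch b N w (Vv b cc κ f s j i + κ * (Cs b cc s * j + i)) =
      if i < (if s = e then 1 else cnt b cc e l m (s + 1) j) then [Vv b cc κ f (s + 1) j i] else [] := by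
  rw [V_step b cc κ f s j i (by omega)]
  have hi' : i < b * cc := lt_of_lt_of_le hi (cnt_le0 b cc e l m s j)
  rcases Nat.eq_zero_or_pos i with h0 | h0
  · subst h0
    rw [ch_div b N w _ s (by omega) (dvd0 b κ cc e m f Z hb h1 h2 s j hj hs)]
    rw [if_pos]
    · rfl
    · split_ifs
      · omega
      · exact cnt_pos b cc e l m (s + 1) j hl
  · have hal := dst_alive b cc e l m s j i he hi hs
    by_cases hd : dst b cc e l m j i = s
    · have h4 := h3 j hj i h0 hi'
      rw [hd] at h4
      rw [ch_two b N w _ s hb h4, if_neg]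
      split_ifs with hse
      · omega
      · intro h5
        have := dst_alive b cc e l m (s + 1) j i he h5 (by omega)
        omega
    · rw [ch_div b N w _ s (by omega) (dvd1 b κ cc e l m f h3 s j i hj h0 hi' (by omega)), if_pos]
      · rfl
      · split_ifs with hse
        · subst hse
          exact absurd (dst_last b cc s l m j i he hi) hd
        · by_contra h5
          exact hd (dst_dead b cc e l m s j i he hi (by omega) h5)

include hb he hl h1 h2 h3 in
lemma runs (s : ℕ) (hs : s ≤ e) :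
    Fl b N κ w ((List.range m).flatMap (fun j => (List.range (b * cc)).map (f j))) s =
      (List.range m).flatMap (fun j => (List.range (cnt b cc e l m s j)).map (Vv b cc κ f s j)) := by
  induction s with
  | zero =>
    unfold Fl
    apply flatMap_congr'
    intro j hj
    have h4 : cnt b cc e l m 0 j = b * cc := by
      rw [cnt_lt b cc e l m 0 j (by omega)]; rfl
    rw [h4]
    congr 1
    funext i
    simp [Vv, ps]
  | succ s ih =>
    rw [Fl, ih (by omega), stg_flat b N κ w _ (Cs b cc s) m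
      (fun j hj => by rw [List.length_map, List.length_range, cnt_full b cc e l m s j hj])]
    apply flatMap_congr'
    intro j hj
    rw [stg_map, flatMap_congr' _ _ _ (fun i hi =>
      chEv b N κ cc e l m w f Z hb he hl h1 h2 h3 s j i hj (by omega) hi)]
    rw [if_neg (by omega)]
    exact flat_if _ _ _ (cnt_le b cc e l m s j (by omega))

include hb he hl h1 h2 h3 in
lemma runs_last :
    Fl b N κ w ((List.range m).flatMap (fun j => (List.range (b * cc)).map (f j))) (e + 1) =
      (List.range m).map (fun j => Vv b cc κ f (e + 1) j 0) := by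
  rw [Fl, runs b N κ cc e l m w f Z hb he hl h1 h2 h3 e le_rfl,
    stg_flat b N κ w _ (Cs b cc e) m
      (fun j hj => by rw [List.length_map, List.length_range, cnt_full b cc e l m e j hj]),
    ← flat_single]
  apply flatMap_congr'
  intro j hj
  rw [stg_map, flatMap_congr' _ _ _ (fun i hi =>
    chEv b N κ cc e l m w f Z hb he hl h1 h2 h3 e j i hj le_rfl hi), if_pos rfl,
    flat_if _ _ _ (cnt_pos b cc e l m e j hl)]
  rfl

end

/-- TARGET -/
theorem C2 (b N κ cc e l m : ℕ) (w : ℕ → ℕ) (f : ℕ → ℕ → ℕ) (Z : ℕ → ℕ) (hb : 3 ≤ b) (he : 2 ≤ e)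
    (hl0 : 0 < l) (hl : l < (b - 1) * cc) (hm : 0 < m)
    (h1 : ∀ j < m, f j 0 = Z j) (h2 : ∀ j < m, b ^ (e + 1) ∣ Z j)
    (h3 : ∀ j < m, ∀ i, 0 < i → i < b * cc →
      (f j i + κ * ps b cc (dst b cc e l m j i + 1) j i) % b ^ (dst b cc e l m j i + 1) =
        2 * b ^ dst b cc e l m j i) :
    (∀ s < e, (Fl b N κ w ((List.range m).flatMap (fun j => (List.range (b * cc)).map (f j))) s).length =
      Cs b cc s * m) ∧
    (Fl b N κ w ((List.range m).flatMap (fun j => (List.range (b * cc)).map (f j))) e).length + l =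
      Cs b cc e * m ∧
    Fl b N κ w ((List.range m).flatMap (fun j => (List.range (b * cc)).map (f j))) (e + 1) =
      (List.range m).map (fun j => Z j / b ^ (e + 1) + κ * (cc * j)) := by
  refine ⟨?_, ?_, ?_⟩
  · intro s hs
    rw [runs b N κ cc e l m w f Z hb he hl h1 h2 h3 s hs.le]
    apply length_flat
    intro j _
    rw [List.length_map, List.length_range, cnt_lt b cc e l m s j hs]
  · rw [runs b N κ cc e l m w f Z hb he hl h1 h2 h3 e le_rfl]
    obtain ⟨m', rfl⟩ : ∃ m', m = m' + 1 := ⟨m - 1, by omega⟩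
    rw [List.range_succ, List.flatMap_append, List.length_append,
      length_flat _ (Cs b cc e) m' (fun j hj => by
        rw [List.length_map, List.length_range, cnt_full b cc e l (m' + 1) e j (by omega)])]
    have h4 : cnt b cc e l (m' + 1) e m' = Cs b cc e - l := by
      unfold cnt
      rw [if_pos ⟨rfl, rfl⟩]
    have h5 : Cs b cc e = (b - 1) * cc := by
      unfold Cs
      rw [if_neg (by omega)]
    have h6 : l ≤ Cs b cc e := by omega
    simp only [List.flatMap_cons, List.flatMap_nil, List.append_nil, List.length_map,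
      List.length_range, h4]
    rw [Nat.mul_succ]
    omega
  · rw [runs_last b N κ cc e l m w f Z hb he hl h1 h2 h3]
    apply List.map_congr_left
    intro j hj
    rw [List.mem_range] at hj
    unfold Vv
    rw [ps_zero b cc j e (by omega), h1 j hj]
    have h4 : κ * (cc * b ^ (e + 1) * j) = (κ * (cc * j)) * b ^ (e + 1) := by ring
    rw [h4, Nat.add_mul_div_right _ _ (Nat.pow_pos (by omega))]

end Pool.Agent.Helper231_T2

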