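import Mathlib
import Pool.Agent.Helper231_T2.Defs

set_option autoImplicit false

namespace Pool.Agent.Helper231_T2


/-! ### pre and dg -/

lemma pre_zero (D d c : ℕ) (hc : c < D ^ d) : pre D d c 0 = 0 := by
  unfold pre; simpa using Nat.div_eq_of_lt hc

lemma pre_full (D d c : ℕ) : pre D d c d = c := by
  unfold pre; simp

lemma pre_of_le (D d c q q' : ℕ) (h : q' ≤ q) (hq : q ≤ d) :
    pre D d c q' = pre D d c q / D ^ (q - q') := by
  unfold pre
  rw [Nat.div_div_eq_div_mul, ← pow_add]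
  congr 2; omega

lemma dg_eq (D d c i : ℕ) (hi : i < d) : dg D d c i = pre D d c (i + 1) % D := by
  unfold dg pre
  have : d - 1 - i = d - (i + 1) := by omega
  rw [this]

lemma pre_succ (D d c i : ℕ) (hi : i < d) :
    pre D d c (i + 1) = pre D d c i * D + dg D d c i := by
  rw [dg_eq D d c i hi, pre_of_le D d c (i + 1) i (by omega) (by omega)]
  have : i + 1 - i = 1 := by omega
  rw [this, pow_one, mul_comm]
  exact (Nat.div_add_mod _ _).symm

lemma dg_lt (D d c i : ℕ) (hD : 0 < D) : dg D d c i < D := Nat.mod_lt _ hD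

lemma pre_eq_of_le {D d c c' q q' : ℕ} (h : pre D d c q = pre D d c' q) (h' : q' ≤ q)
    (hq : q ≤ d) : pre D d c q' = pre D d c' q' := by
  rw [pre_of_le D d c q q' h' hq, pre_of_le D d c' q q' h' hq, h]

lemma dg_eq_of_lt {D d c c' q i : ℕ} (h : pre D d c q = pre D d c' q) (hi : i < q)
    (hq : q ≤ d) : dg D d c i = dg D d c' i := by
  rw [dg_eq D d c i (by omega), dg_eq D d c' i (by omega),
    pre_eq_of_le h (q' := i + 1) (by omega) hq]

lemma pre_succ_iff {D d c c' i : ℕ} (hi : i < d) :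
    pre D d c (i + 1) = pre D d c' (i + 1) ↔
      pre D d c i = pre D d c' i ∧ dg D d c i = dg D d c' i := by
  constructor
  · intro h
    exact ⟨pre_eq_of_le h (by omega) (by omega), dg_eq_of_lt h (by omega) (by omega)⟩
  · rintro ⟨h1, h2⟩
    rw [pre_succ D d c i hi, pre_succ D d c' i hi, h1, h2]

/-! ### alv, exg, pos -/

lemma alv_congr {D d c c' q τ : ℕ} (h : pre D d c q = pre D d c' q) (hq : q ≤ d)
    (hτ : τ ≤ 4 + 2 * q ∨ q = d) (t : ℕ) : alv D d τ c t = alv D d τ c' t := by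
  have h1 : pre D d c (qq d τ) = pre D d c' (qq d τ) := by
    rcases hτ with hτ | hτ
    · apply pre_eq_of_le h _ hq
      unfold qq; omega
    · subst hτ
      rw [pre_full, pre_full] at h
      rw [h]
  unfold alv
  rw [h1]

lemma exg_congr {D d γ c c' q τ : ℕ} (h : pre D d c q = pre D d c' q) (hq : q ≤ d)
    (hτ : τ ≤ 4 + 2 * q ∨ q = d) (t : ℕ) : exg D d γ τ c t = exg D d γ τ c' t := by
  rcases hτ with hτ | hτ
  · by_cases h1 : 5 ≤ τ ∧ τ % 2 = 1
    · have h2 : (τ - 5) / 2 < q := by omega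
      have h3 : pre D d c ((τ - 5) / 2) = pre D d c' ((τ - 5) / 2) :=
        pre_eq_of_le h (by omega) hq
      have h4 : dg D d c ((τ - 5) / 2) = dg D d c' ((τ - 5) / 2) := dg_eq_of_lt h h2 hq
      unfold exg
      rw [h3, h4]
    · have h5 : ∀ x, exg D d γ τ x t = false := by
        intro x
        unfold exg
        by_cases h6 : 5 ≤ τ
        · have h7 : ¬ τ % 2 = 1 := fun h8 => h1 ⟨h6, h8⟩
          simp [h7]
        · simp [h6]
      rw [h5, h5]
  · subst hτ
    rw [pre_full, pre_full] at h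
    rw [h]

lemma pos_congr {D d γ N : ℕ} {ty : ℕ → ℕ} {c c' q τ : ℕ} (h : pre D d c q = pre D d c' q)
    (hq : q ≤ d) (hτ : τ ≤ 4 + 2 * q ∨ q = d) (k : ℕ) :
    pos D d γ N ty τ c k = pos D d γ N ty τ c' k := by
  unfold pos
  have h1 : (fun j => alv D d τ c (ty j)) = fun j => alv D d τ c' (ty j) := by
    funext j; exact alv_congr h hq hτ _
  have h2 : (fun j => exg D d γ τ c (ty j)) = fun j => exg D d γ τ c' (ty j) := by
    funext j; exact exg_congr h hq hτ _
  rw [h1, h2]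

lemma pm_congr {b D d γ N : ℕ} {ty : ℕ → ℕ} {c c' q n : ℕ} (h : pre D d c q = pre D d c' q)
    (hq : q ≤ d) (hn : n ≤ 5 + 2 * q ∨ q = d) (k : ℕ) :
    pm b D d γ N ty n c k = pm b D d γ N ty n c' k := by
  unfold pm
  apply Finset.sum_congr rfl
  intro τ hτ
  rw [Finset.mem_range] at hτ
  rw [pos_congr h hq (by omega) k]

/-- the positions at the stages `≤ 3` do not depend on the class -/
lemma pos_small {D d γ N : ℕ} {ty : ℕ → ℕ} {c c' τ : ℕ} (hτ : τ ≤ 3) (k : ℕ) :
    pos D d γ N ty τ c k = pos D d γ N ty τ c' k := by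
  have h1 : ∀ x t, alv D d τ x t = (decide (τ ≤ 2) || (decide (τ = 3) && decide (t ≠ 0))) := by
    intro x t
    unfold alv
    have : ¬ 4 ≤ τ := by omega
    simp [this]
  have h2 : ∀ x t, exg D d γ τ x t = false := by
    intro x t
    unfold exg
    have : ¬ 5 ≤ τ := by omega
    simp [this]
  unfold pos
  simp only [h1, h2]

lemma pm_small {b D d γ N : ℕ} {ty : ℕ → ℕ} {c c' n : ℕ} (hn : n ≤ 4) (k : ℕ) :
    pm b D d γ N ty n c k = pm b D d γ N ty n c' k := by
  unfold pm
  apply Finset.sum_congr rfl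
  intro τ hτ
  rw [Finset.mem_range] at hτ
  rw [pos_small (by omega) k (c' := c')]

lemma pm_succ (b D d γ N : ℕ) (ty : ℕ → ℕ) (n c k : ℕ) :
    pm b D d γ N ty (n + 1) c k = pm b D d γ N ty n c k + pos D d γ N ty n c k * b ^ n := by
  unfold pm; rw [Finset.sum_range_succ]

lemma pm_dvd (b D d γ N : ℕ) (ty : ℕ → ℕ) (n m c k : ℕ) (h : n ≤ m) :
    ((b : ℤ) ^ n) ∣ (pm b D d γ N ty m c k : ℤ) - pm b D d γ N ty n c k := by
  induction m, h using Nat.le_induction with
  | base => simp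
  | succ m hm ih =>
    rw [pm_succ]
    push_cast
    have : (pm b D d γ N ty m c k : ℤ) + pos D d γ N ty m c k * b ^ m - pm b D d γ N ty n c k =
      ((pm b D d γ N ty m c k : ℤ) - pm b D d γ N ty n c k) + pos D d γ N ty m c k * b ^ m := by
      ring
    rw [this]
    exact dvd_add ih (Dvd.dvd.mul_left (pow_dvd_pow _ hm) _)

lemma pos_zero (D d γ N : ℕ) (ty : ℕ → ℕ) (c k : ℕ) : pos D d γ N ty 0 c k = k := by
  unfold pos
  have h1 : ∀ t, alv D d 0 c t = true := by intro t; simp [alv]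
  have h2 : ∀ t, exg D d γ 0 c t = false := by intro t; simp [exg]
  simp [h1, h2]

lemma pm_dvd_one (b D d γ N : ℕ) (ty : ℕ → ℕ) (n c k : ℕ) (hn : 1 ≤ n) :
    (b : ℤ) ∣ (pm b D d γ N ty n c k : ℤ) - k := by
  have h := pm_dvd b D d γ N ty 1 n c k hn
  have h1 : pm b D d γ N ty 1 c k = k := by
    rw [pm_succ, pos_zero]; simp [pm]
  rw [h1, pow_one] at h
  exact h

/-! ### monotonicity of alv and exg -/

lemma alv_iff (D d τ c t : ℕ) : alv D d τ c t = true ↔
    (τ ≤ 2 ∨ (τ = 3 ∧ t ≠ 0) ∨ (4 ≤ τ ∧ 2 ≤ t ∧ pre D d (t - 2) (qq d τ) = pre D d c (qq d τ))) := by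
  unfold alv
  simp only [Bool.or_eq_true, Bool.and_eq_true, decide_eq_true_eq]
  tauto

lemma exg_iff (D d γ τ c t : ℕ) : exg D d γ τ c t = true ↔
    (γ = 1 ∧ 2 ≤ t ∧ 5 ≤ τ ∧ τ % 2 = 1 ∧ (τ - 5) / 2 < d ∧
      pre D d (t - 2) ((τ - 5) / 2) = pre D d c ((τ - 5) / 2) ∧
      dg D d (t - 2) ((τ - 5) / 2) + 1 = dg D d c ((τ - 5) / 2)) := by
  unfold exg
  simp only [Bool.and_eq_true, decide_eq_true_eq]
  tauto

lemma alv_mono {D d τ c t : ℕ} (h : alv D d (τ + 1) c t = true) : alv D d τ c t = true := by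
  rw [alv_iff] at h ⊢
  rcases h with h | h | ⟨h1, h2, h3⟩
  · left; omega
  · left; omega
  · by_cases h4 : 4 ≤ τ
    · right; right
      refine ⟨h4, h2, ?_⟩
      apply pre_eq_of_le h3
      · unfold qq; omega
      · unfold qq; omega
    · right; left
      exact ⟨by omega, by omega⟩

lemma exg_alv {D d γ τ c t : ℕ} (h : exg D d γ (τ + 1) c t = true) :
    alv D d τ c t = true ∧ alv D d (τ + 1) c t = false := by
  rw [exg_iff] at h
  obtain ⟨h1, h2, h3, h4, h5, h6, h7⟩ := h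
  have e1 : qq d τ = (τ + 1 - 5) / 2 := by unfold qq; omega
  have e2 : qq d (τ + 1) = (τ + 1 - 5) / 2 + 1 := by unfold qq; omega
  constructor
  · rw [alv_iff]; right; right
    refine ⟨by omega, h2, ?_⟩
    rw [e1]; exact h6
  · rw [← Bool.not_eq_true, alv_iff]
    rintro (h | h | ⟨_, _, h⟩)
    · omega
    · omega
    · rw [e2] at h
      have := dg_eq_of_lt h (i := (τ + 1 - 5) / 2) (by omega) (by omega)
      omega

lemma exg_alv_self {D d γ τ c t : ℕ} (h : exg D d γ τ c t = true) :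
    alv D d τ c t = false := by
  have h5 : 5 ≤ τ := ((exg_iff _ _ _ _ _ _).1 h).2.2.1
  obtain ⟨τ', rfl⟩ : ∃ τ', τ = τ' + 1 := ⟨τ - 1, by omega⟩
  exact (exg_alv h).2

/-! ### the patterns -/

lemma pat_diff_eq (b D d γ c c' : ℕ) : (pat b D d γ c : ℤ) - pat b D d γ c' =
    ∑ i ∈ Finset.range d, (γ : ℤ) * ((dg D d c i : ℤ) - dg D d c' i) * (b : ℤ) ^ (4 + 2 * i) := by
  unfold pat
  push_cast
  rw [add_sub_add_left_eq_sub, ← Finset.sum_sub_distrib]
  apply Finset.sum_congr rfl
  intro i _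
  ring

lemma pat_diff {b D d γ c c' q : ℕ} (h : pre D d c q = pre D d c' q) (hq : q < d) :
    (b : ℤ) ^ (6 + 2 * q) ∣ (pat b D d γ c : ℤ) - pat b D d γ c' -
      (γ : ℤ) * ((dg D d c q : ℤ) - dg D d c' q) * (b : ℤ) ^ (4 + 2 * q) := by
  rw [pat_diff_eq, ← Finset.add_sum_erase _ _ (Finset.mem_range.2 hq), add_sub_cancel_left]
  apply Finset.dvd_sum
  intro i hi
  rw [Finset.mem_erase, Finset.mem_range] at hi
  rcases lt_or_gt_of_ne hi.1 with h1 | h1
  · rw [dg_eq_of_lt h h1 hq.le]; simp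
  · exact Dvd.dvd.mul_left (pow_dvd_pow _ (by omega)) _

lemma pat_dvd {b D d γ c c' q : ℕ} (h : pre D d c q = pre D d c' q) (hq : q ≤ d) :
    (b : ℤ) ^ (4 + 2 * q) ∣ (pat b D d γ c : ℤ) - pat b D d γ c' := by
  rw [pat_diff_eq]
  apply Finset.dvd_sum
  intro i hi
  rw [Finset.mem_range] at hi
  rcases lt_or_ge i q with h1 | h1
  · rw [dg_eq_of_lt h h1 hq]; simp
  · exact Dvd.dvd.mul_left (pow_dvd_pow _ (by omega)) _

lemma pat_one (b D d γ c : ℕ) : (b : ℤ) ^ 4 ∣ (pat b D d γ c : ℤ) - 1 := by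
  unfold pat
  push_cast
  rw [add_sub_cancel_left]
  apply Finset.dvd_sum
  intro i hi
  exact Dvd.dvd.mul_left (pow_dvd_pow _ (by omega)) _

/-! ### children of a value -/

lemma ch_pass {b N : ℕ} {w : ℕ → ℕ} {I : ℕ} (h : (b : ℤ) ∣ (I : ℤ)) : ch b N w I = [I / b] := by
  have : I % b = 0 := Nat.mod_eq_zero_of_dvd (by exact_mod_cast h)
  unfold ch; rw [if_pos this]

lemma mod_one {b I : ℕ} (hb : 2 ≤ b) (h : (b : ℤ) ∣ (I : ℤ) - 1) : I % b = 1 := by
  have h1 : (1 : ℤ) ≡ I [ZMOD b] := (Int.modEq_iff_dvd).2 h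
  have h2 : (1 : ℕ) ≡ I [MOD b] := by exact_mod_cast (Int.natCast_modEq_iff).1 (by exact_mod_cast h1)
  have h3 : 1 % b = I % b := h2
  rw [← h3, Nat.mod_eq_of_lt (by omega)]

lemma ch_exp {b N : ℕ} {w : ℕ → ℕ} {I : ℕ} (hb : 2 ≤ b) (h : (b : ℤ) ∣ (I : ℤ) - 1) :
    ch b N w I = (List.range N).map (fun k => (I - 1) / b + w k) := by
  have h1 := mod_one hb h
  unfold ch
  rw [if_neg (by omega), if_pos h1]

lemma ch_dead {b N : ℕ} {w : ℕ → ℕ} {I : ℕ} (h0 : ¬ (b : ℤ) ∣ (I : ℤ))
    (h1 : ¬ (b : ℤ) ∣ (I : ℤ) - 1) : ch b N w I = [] := by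
  have e0 : ¬ I % b = 0 := fun h => h0 (by exact_mod_cast Nat.dvd_of_mod_eq_zero h)
  have e1 : ¬ I % b = 1 := by
    intro h
    apply h1
    have h2 := Nat.div_add_mod I b
    rw [h] at h2
    refine ⟨(I / b : ℕ), ?_⟩
    have h3 : ((b * (I / b) + 1 : ℕ) : ℤ) = I := by rw [h2]
    push_cast at h3 ⊢
    linarith
  unfold ch
  rw [if_neg e0, if_neg e1]

/-- quotient by an exact power -/
lemma quot_mod {b τ x : ℕ} {a : ℤ} (hb : 0 < b) (h : (b : ℤ) ^ (τ + 1) ∣ (x : ℤ) - a * (b : ℤ) ^ τ) :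
    (b : ℤ) ∣ ((x / b ^ τ : ℕ) : ℤ) - a ∧ b ^ τ ∣ x := by
  have h1 : (b : ℤ) ^ τ ∣ (x : ℤ) := by
    have h2 : (b : ℤ) ^ τ ∣ (x : ℤ) - a * (b : ℤ) ^ τ := (pow_dvd_pow _ (Nat.le_succ _)).trans h
    have h3 := dvd_add h2 (Dvd.intro_left a rfl : (b : ℤ) ^ τ ∣ a * (b : ℤ) ^ τ)
    simpa using h3
  have h2 : b ^ τ ∣ x := by exact_mod_cast h1
  refine ⟨?_, h2⟩
  obtain ⟨m, hm⟩ := h
  obtain ⟨y, hy⟩ := h2
  have hbp : 0 < b ^ τ := pow_pos hb _
  have h3 : x / b ^ τ = y := by rw [hy]; exact Nat.mul_div_cancel_left _ hbp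
  rw [h3]
  refine ⟨m, ?_⟩
  have hbz : (b : ℤ) ^ τ ≠ 0 := by positivity
  apply mul_left_cancel₀ hbz
  have h4 : (x : ℤ) = (b : ℤ) ^ τ * y := by rw [hy]; push_cast; ring
  calc (b : ℤ) ^ τ * ((y : ℤ) - a) = (x : ℤ) - a * (b : ℤ) ^ τ := by rw [h4]; ring
    _ = (b : ℤ) ^ (τ + 1) * m := hm
    _ = _ := by ring

/-- the hypotheses of the target -/
structure Hyp (b D d γ N κ T : ℕ) (w ty : ℕ → ℕ) (sv : ℕ → Bool) (c z : ℕ) : Prop where
  hγ : (γ = 1 ∧ b = 3 ∧ D = 3) ∨ (γ = 2 ∧ 4 ≤ b ∧ D = 2)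
  hκ : κ % b = 1
  hN : γ = 1 → N % b = 1
  hT : 2 * d + 6 ≤ T
  hty : ∀ k < N, ty k < D ^ d + 2
  hf1 : ∀ k < N, ty k = 0 → (w k + κ * pm b D d γ N ty 3 0 k + 1) % b ^ 3 = 2 * b ^ 2
  hf2 : ∀ k < N, ty k = 1 → (w k + κ * pm b D d γ N ty 4 0 k + 1) % b ^ 4 = 2 * b ^ 3
  hk : ∀ k < N, ∀ c, ty k = c + 2 → (w k + κ * pm b D d γ N ty T c k + pat b D d γ c) % b ^ T =
      if sv k then 0 else 2 * b ^ (T - 1)
  hcnt : ∀ k < N, ∀ c, 2 ≤ ty k → c + 2 ≠ ty k →
      b ∣ ((List.range k).filter (fun j => ty j = c + 2)).length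
  hc : c < D ^ d
  hdg : ∀ i < d, D ≤ dg D d c i + 2
  hz : z % b ^ T = pat b D d γ c % b ^ T

section

variable {b D d γ N κ T : ℕ} {w ty : ℕ → ℕ} {sv : ℕ → Bool} {c z : ℕ}

lemma Hyp.hb (H : Hyp b D d γ N κ T w ty sv c z) : 3 ≤ b := by
  rcases H.hγ with h | h <;> omega

lemma Hyp.hD (H : Hyp b D d γ N κ T w ty sv c z) : 2 ≤ D := by
  rcases H.hγ with h | h <;> omega

lemma Hyp.not2 (H : Hyp b D d γ N κ T w ty sv c z) : ¬ (b : ℤ) ∣ 2 ∧ ¬ (b : ℤ) ∣ 1 := by
  have hb := H.hb
  constructor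
  · intro h
    have := Int.le_of_dvd (by norm_num) h
    omega
  · intro h
    have := Int.le_of_dvd (by norm_num) h
    omega

lemma dvd_of_eq' {a x y : ℤ} (h : a ∣ x) (e : x = y) : a ∣ y := e ▸ h

/-- conversion of a residue to a divisibility -/
lemma dvd_of_mod {x n r : ℕ} (h : x % n = r) : (n : ℤ) ∣ (x : ℤ) - r := by
  subst h
  refine ⟨(x / n : ℕ), ?_⟩
  have := Nat.div_add_mod x n
  have h2 : ((n * (x / n) + x % n : ℕ) : ℤ) = x := by rw [this]
  push_cast at h2 ⊢
  linarith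

lemma Hyp.zpat (H : Hyp b D d γ N κ T w ty sv c z) : (b : ℤ) ^ T ∣ (z : ℤ) - pat b D d γ c := by
  have h1 : (pat b D d γ c) ≡ z [MOD b ^ T] := H.hz.symm
  have h2 := (Nat.modEq_iff_dvd).1 h1
  exact_mod_cast h2

lemma Hyp.z1 (H : Hyp b D d γ N κ T w ty sv c z) : (b : ℤ) ^ 4 ∣ (z : ℤ) - 1 := by
  have h1 := H.zpat
  have hT := H.hT
  have h2 : (b : ℤ) ^ 4 ∣ (z : ℤ) - pat b D d γ c := (pow_dvd_pow _ (by omega)).trans h1
  have := dvd_add h2 (pat_one b D d γ c)
  simpa using this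

/-- the full sum of a class element -/
lemma Hyp.hkT (H : Hyp b D d γ N κ T w ty sv c z) {k c' : ℕ} (hkN : k < N) (ht : ty k = c' + 2) :
    (b : ℤ) ^ (T - 1) ∣ (w k : ℤ) + κ * pm b D d γ N ty T c' k + pat b D d γ c' := by
  have h1 := dvd_of_mod (H.hk k hkN c' ht)
  have hT := H.hT
  have h2 : (b : ℤ) ^ (T - 1) ∣ ((w k + κ * pm b D d γ N ty T c' k + pat b D d γ c' : ℕ) : ℤ) -
      ((if sv k then 0 else 2 * b ^ (T - 1) : ℕ) : ℤ) := by
    refine dvd_trans ?_ h1
    push_cast
    exact pow_dvd_pow _ (by omega)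
  have h3 : (b : ℤ) ^ (T - 1) ∣ ((if sv k then 0 else 2 * b ^ (T - 1) : ℕ) : ℤ) := by
    split_ifs
    · simp
    · push_cast; exact Dvd.intro_left 2 rfl
  have h4 := dvd_add h2 h3
  rw [sub_add_cancel] at h4
  push_cast at h4
  exact h4

lemma Hyp.hkn (H : Hyp b D d γ N κ T w ty sv c z) {k c' n : ℕ} (hkN : k < N) (ht : ty k = c' + 2)
    (hn : n ≤ T - 1) :
    (b : ℤ) ^ n ∣ (w k : ℤ) + κ * pm b D d γ N ty n c' k + pat b D d γ c' := by
  have h1 := (pow_dvd_pow (b : ℤ) hn).trans (H.hkT hkN ht)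
  have h2 := pm_dvd b D d γ N ty n T c' k (by omega)
  have h3 := dvd_sub h1 (Dvd.dvd.mul_left h2 (κ : ℤ))
  refine dvd_of_eq' h3 ?_
  ring

/-- the label sums of the classes -/
lemma Hyp.VR (H : Hyp b D d γ N κ T w ty sv c z) {k c' n q : ℕ} (hkN : k < N)
    (ht : ty k = c' + 2) (h : pre D d c q = pre D d c' q) (hq : q ≤ d) (hn : n ≤ T - 1)
    (hn' : n ≤ 5 + 2 * q ∨ q = d) :
    (b : ℤ) ^ n ∣ ((z + w k + κ * pm b D d γ N ty n c k : ℕ) : ℤ) -
      ((pat b D d γ c : ℤ) - pat b D d γ c') := by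
  rw [pm_congr h hq hn']
  have h1 := H.hkn hkN ht hn
  have h2 : (b : ℤ) ^ n ∣ (z : ℤ) - pat b D d γ c :=
    (pow_dvd_pow _ (by have := H.hT; omega)).trans H.zpat
  have h3 := dvd_add h1 h2
  refine dvd_of_eq' h3 ?_
  push_cast
  ring

/-- the value at the end -/
lemma Hyp.VT (H : Hyp b D d γ N κ T w ty sv c z) {k : ℕ} (hkN : k < N) (ht : ty k = c + 2) :
    (b : ℤ) ^ T ∣ ((z + w k + κ * pm b D d γ N ty T c k : ℕ) : ℤ) -
      (if sv k then 0 else 2 : ℤ) * (b : ℤ) ^ (T - 1) := by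
  have h1 := dvd_of_mod (H.hk k hkN c ht)
  have h2 := dvd_add h1 (by exact_mod_cast H.zpat : ((b ^ T : ℕ) : ℤ) ∣ (z : ℤ) - pat b D d γ c)
  push_cast at h2
  refine dvd_of_eq' h2 ?_
  push_cast
  split_ifs <;> ring

end

section

variable {b D d γ N κ T : ℕ} {w ty : ℕ → ℕ} {sv : ℕ → Bool} {c z : ℕ}

/-- label sum -/
def VV (b D d γ N κ : ℕ) (w ty : ℕ → ℕ) (c z n k : ℕ) : ℕ :=
  z + w k + κ * pm b D d γ N ty n c k

lemma VV_succ (n k : ℕ) : VV b D d γ N κ w ty c z (n + 1) k =
    VV b D d γ N κ w ty c z n k + κ * pos D d γ N ty n c k * b ^ n := by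
  unfold VV; rw [pm_succ]; ring

lemma Hyp.VR' (H : Hyp b D d γ N κ T w ty sv c z) {k c' n q : ℕ} (hkN : k < N)
    (ht : ty k = c' + 2) (h : pre D d c q = pre D d c' q) (hq : q ≤ d) (hn : n ≤ T - 1)
    (hn' : n ≤ 5 + 2 * q ∨ q = d) :
    (b : ℤ) ^ n ∣ (VV b D d γ N κ w ty c z n k : ℤ) -
      ((pat b D d γ c : ℤ) - pat b D d γ c') := H.VR hkN ht h hq hn hn'

/-- fillers -/
lemma Hyp.F1 (H : Hyp b D d γ N κ T w ty sv c z) {k : ℕ} (hkN : k < N) (ht : ty k = 0) :
    (b : ℤ) ^ 3 ∣ (VV b D d γ N κ w ty c z 3 k : ℤ) - 2 * (b : ℤ) ^ 2 := by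
  have h1 := dvd_of_mod (H.hf1 k hkN ht)
  rw [pm_small (c' := c) (by norm_num)] at h1
  have h2 : (b : ℤ) ^ 3 ∣ (z : ℤ) - 1 := (pow_dvd_pow _ (by norm_num)).trans H.z1
  have h3 := dvd_add h1 (by exact_mod_cast h2 : ((b ^ 3 : ℕ) : ℤ) ∣ (z : ℤ) - 1)
  push_cast at h3
  refine dvd_of_eq' h3 ?_
  unfold VV
  push_cast
  ring

lemma Hyp.F2 (H : Hyp b D d γ N κ T w ty sv c z) {k : ℕ} (hkN : k < N) (ht : ty k = 1) :
    (b : ℤ) ^ 4 ∣ (VV b D d γ N κ w ty c z 4 k : ℤ) - 2 * (b : ℤ) ^ 3 := by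
  have h1 := dvd_of_mod (H.hf2 k hkN ht)
  rw [pm_small (c' := c) (by norm_num)] at h1
  have h2 : (b : ℤ) ^ 4 ∣ (z : ℤ) - 1 := H.z1
  have h3 := dvd_add h1 (by exact_mod_cast h2 : ((b ^ 4 : ℕ) : ℤ) ∣ (z : ℤ) - 1)
  push_cast at h3
  refine dvd_of_eq' h3 ?_
  unfold VV
  push_cast
  ring

lemma VV_dvd {n m k : ℕ} (h : n ≤ m) : (b : ℤ) ^ n ∣ (VV b D d γ N κ w ty c z m k : ℤ) -
    VV b D d γ N κ w ty c z n k := by
  have h2 := pm_dvd b D d γ N ty n m c k h
  have h3 := Dvd.dvd.mul_left h2 (κ : ℤ)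
  refine dvd_of_eq' h3 ?_
  unfold VV
  push_cast
  ring

/-- `a = 0` below an exact power -/
lemma VV_low {n m k : ℕ} {a : ℤ} (h : (b : ℤ) ^ (m + 1) ∣ (VV b D d γ N κ w ty c z (m + 1) k : ℤ) -
    a * (b : ℤ) ^ m) (hn : n < m) : (b : ℤ) ^ (n + 1) ∣
      (VV b D d γ N κ w ty c z (n + 1) k : ℤ) - 0 * (b : ℤ) ^ n := by
  have h1 : (b : ℤ) ^ (n + 1) ∣ (b : ℤ) ^ (m + 1) := pow_dvd_pow _ (by omega)
  have h2 : (b : ℤ) ^ (n + 1) ∣ a * (b : ℤ) ^ m := Dvd.dvd.mul_left (pow_dvd_pow _ (by omega)) _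
  have h3 := dvd_sub (dvd_add (h1.trans h) h2)
    (VV_dvd (b := b) (D := D) (d := d) (γ := γ) (N := N) (κ := κ) (w := w) (ty := ty) (c := c)
      (z := z) (n := n + 1) (m := m + 1) (k := k) (by omega))
  refine dvd_of_eq' h3 ?_
  ring

/-- the three possible outcomes -/
def Out (b D d γ : ℕ) (c t τ : ℕ) (a : ℤ) : Prop :=
  (alv D d (τ + 1) c t = true ∧ a = 0) ∨ (exg D d γ (τ + 1) c t = true ∧ a = 1) ∨
    (alv D d (τ + 1) c t = false ∧ exg D d γ (τ + 1) c t = false ∧ ¬ (b : ℤ) ∣ a ∧ ¬ (b : ℤ) ∣ a - 1)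

/-- the digit comparison -/
lemma Hyp.digit (H : Hyp b D d γ N κ T w ty sv c z) {c' i : ℕ} (hi : i < d)
    (h : pre D d c i = pre D d c' i) :
    Out b D d γ c (c' + 2) (4 + 2 * i) ((γ : ℤ) * ((dg D d c i : ℤ) - dg D d c' i)) := by
  have hD := H.hD
  have h1 := dg_lt D d c i (by omega)
  have h2 := dg_lt D d c' i (by omega)
  have h3 := H.hdg i hi
  have hal : alv D d (4 + 2 * i + 1) c (c' + 2) = true ↔ dg D d c i = dg D d c' i := by
    rw [alv_iff]
    have e : qq d (4 + 2 * i + 1) = i + 1 := by unfold qq; omega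
    have e1 : c' + 2 - 2 = c' := by omega
    rw [e, e1, pre_succ_iff hi]
    constructor
    · rintro (h | h | ⟨_, _, _, h⟩)
      · omega
      · omega
      · exact h.symm
    · intro h4
      right; right
      exact ⟨by omega, by omega, h.symm, h4.symm⟩
  have hex : exg D d γ (4 + 2 * i + 1) c (c' + 2) = true ↔
      γ = 1 ∧ dg D d c' i + 1 = dg D d c i := by
    rw [exg_iff]
    have e : (4 + 2 * i + 1 - 5) / 2 = i := by omega
    have e1 : c' + 2 - 2 = c' := by omega
    rw [e, e1]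
    constructor
    · rintro ⟨h1, _, _, _, _, _, h2⟩
      exact ⟨h1, h2⟩
    · rintro ⟨h1, h2⟩
      exact ⟨h1, by omega, by omega, by omega, hi, h.symm, h2⟩
  unfold Out
  by_cases heq : dg D d c i = dg D d c' i
  · left
    exact ⟨hal.2 heq, by rw [heq]; simp⟩
  · right
    have hal' : alv D d (4 + 2 * i + 1) c (c' + 2) = false := by
      rw [← Bool.not_eq_true, hal]; exact heq
    by_cases hx : γ = 1 ∧ dg D d c' i + 1 = dg D d c i
    · left
      refine ⟨hex.2 hx, ?_⟩
      rw [hx.1, ← hx.2]; push_cast; ring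
    · right
      have hex' : exg D d γ (4 + 2 * i + 1) c (c' + 2) = false := by
        rw [← Bool.not_eq_true, hex]; exact hx
      refine ⟨hal', hex', ?_, ?_⟩
      · rcases H.hγ with ⟨g1, g2, g3⟩ | ⟨g1, g2, g3⟩
        · subst g1 g2 g3
          push_cast
          rw [one_mul]
          omega
        · subst g1 g3
          rintro ⟨m, hm⟩
          push_cast at hm
          have hb2 : (4 : ℤ) ≤ b := by exact_mod_cast g2
          have hle : |(b : ℤ) * m| ≤ 2 := by
            rw [← hm, abs_le]; constructor <;> omega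
          have hm0 : m = 0 := by
            by_contra hne
            have : 1 ≤ |m| := Int.one_le_abs hne
            rw [abs_mul, abs_of_nonneg (by omega : (0 : ℤ) ≤ b)] at hle
            nlinarith
          rw [hm0] at hm
          omega
      · rcases H.hγ with ⟨g1, g2, g3⟩ | ⟨g1, g2, g3⟩
        · subst g1 g2 g3
          push_cast
          rw [one_mul]
          have : ¬ dg 3 d c' i + 1 = dg 3 d c i := fun h => hx ⟨rfl, h⟩
          omega
        · subst g1 g3
          rintro ⟨m, hm⟩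
          push_cast at hm
          have hb2 : (4 : ℤ) ≤ b := by exact_mod_cast g2
          have hle : |(b : ℤ) * m| ≤ 3 := by
            rw [← hm, abs_le]; constructor <;> omega
          have hm0 : m = 0 := by
            by_contra hne
            have : 1 ≤ |m| := Int.one_le_abs hne
            rw [abs_mul, abs_of_nonneg (by omega : (0 : ℤ) ≤ b)] at hle
            nlinarith
          rw [hm0] at hm
          omega

/-- Lemma R -/
lemma Hyp.R (H : Hyp b D d γ N κ T w ty sv c z) {k τ : ℕ} (hkN : k < N) (hτ : τ + 1 < T)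
    (ha : alv D d τ c (ty k) = true) :
    ∃ a : ℤ, (b : ℤ) ^ (τ + 1) ∣ (VV b D d γ N κ w ty c z (τ + 1) k : ℤ) - a * (b : ℤ) ^ τ ∧
      Out b D d γ c (ty k) τ a := by
  have hb := H.hb
  have hT := H.hT
  have hn2 := H.not2
  rcases Nat.lt_or_ge (ty k) 2 with ht | ht
  · have hns : ∀ τ', exg D d γ τ' c (ty k) = false := by
      intro τ'
      rw [← Bool.not_eq_true, exg_iff]
      rintro ⟨_, h, _⟩
      omega
    rcases Nat.lt_or_ge (ty k) 1 with ht | ht1
    · have ht : ty k = 0 := by omega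
      have hle : τ ≤ 2 := by
        rw [alv_iff] at ha
        rcases ha with h | h | h
        · exact h
        · exact absurd ht h.2
        · omega
      rcases Nat.lt_or_ge τ 2 with h | h
      · refine ⟨0, VV_low (m := 2) (H.F1 hkN ht) h, Or.inl ⟨?_, rfl⟩⟩
        rw [alv_iff]; left; omega
      · have : τ = 2 := by omega
        subst this
        refine ⟨2, H.F1 hkN ht, Or.inr (Or.inr ⟨?_, hns _, hn2.1, ?_⟩)⟩
        · rw [← Bool.not_eq_true, alv_iff]
          rintro (h | h | h)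
          · omega
          · exact h.2 ht
          · omega
        · norm_num; exact_mod_cast hn2.2
    · have ht : ty k = 1 := by omega
      have hle : τ ≤ 3 := by
        rw [alv_iff] at ha
        rcases ha with h | h | h
        · omega
        · omega
        · omega
      rcases Nat.lt_or_ge τ 3 with h | h
      · refine ⟨0, VV_low (m := 3) (H.F2 hkN ht) h, Or.inl ⟨?_, rfl⟩⟩
        rw [alv_iff]
        rcases Nat.lt_or_ge τ 2 with h | h
        · left; omega
        · right; left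
          exact ⟨by omega, by omega⟩
      · have : τ = 3 := by omega
        subst this
        refine ⟨2, H.F2 hkN ht, Or.inr (Or.inr ⟨?_, hns _, hn2.1, ?_⟩)⟩
        · rw [← Bool.not_eq_true, alv_iff]
          rintro (h | h | h)
          · omega
          · omega
          · omega
        · norm_num; exact_mod_cast hn2.2
  · obtain ⟨c', hc'⟩ : ∃ c', ty k = c' + 2 := ⟨ty k - 2, by omega⟩
    have hc'D : c' < D ^ d := by have := H.hty k hkN; omega
    rcases Nat.lt_or_ge τ 4 with h4 | h4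
    · have hp : pre D d c 0 = pre D d c' 0 := by
        rw [pre_zero _ _ _ H.hc, pre_zero _ _ _ hc'D]
      refine ⟨0, ?_, Or.inl ⟨?_, rfl⟩⟩
      · have h1 := H.VR' hkN hc' hp (Nat.zero_le _) (n := τ + 1) (by omega) (Or.inl (by omega))
        have h2 := (pow_dvd_pow (b : ℤ) (by omega : τ + 1 ≤ 4 + 2 * 0)).trans
          (pat_dvd (γ := γ) (b := b) hp (Nat.zero_le _))
        refine dvd_of_eq' (dvd_add h1 h2) ?_
        ring
      · rw [alv_iff]
        rcases Nat.lt_or_ge τ 2 with h | h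
        · left; omega
        · rcases Nat.lt_or_ge τ 3 with h | h
          · right; left
            exact ⟨by omega, by omega⟩
          · right; right
            refine ⟨by omega, by omega, ?_⟩
            have e : qq d (τ + 1) = 0 := by unfold qq; omega
            have e1 : ty k - 2 = c' := by omega
            rw [e, e1, hp]
    · rw [alv_iff] at ha
      have hpq : pre D d c (qq d τ) = pre D d c' (qq d τ) := by
        rcases ha with h | h | ⟨_, _, h⟩
        · omega
        · omega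
        · rw [h.symm]; congr 1; omega
      rcases Nat.lt_or_ge τ (4 + 2 * d) with h5 | h5
      · rcases Nat.even_or_odd' τ with ⟨j, hj | hj⟩
        · obtain ⟨i, rfl⟩ : ∃ i, j = i + 2 := ⟨j - 2, by omega⟩
          have e : τ = 4 + 2 * i := by omega
          have hi : i < d := by omega
          have e1 : qq d τ = i := by unfold qq; omega
          rw [e1] at hpq
          refine ⟨(γ : ℤ) * ((dg D d c i : ℤ) - dg D d c' i), ?_, ?_⟩
          · have h1 := H.VR' hkN hc' hpq hi.le (n := τ + 1) (by omega) (Or.inl (by omega))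
            have h2 := (pow_dvd_pow (b : ℤ) (by omega : τ + 1 ≤ 6 + 2 * i)).trans
              (pat_diff (γ := γ) (b := b) hpq hi)
            refine dvd_of_eq' (dvd_add h1 h2) ?_
            rw [e]
            ring
          · rw [hc', e]
            exact H.digit hi hpq
        · obtain ⟨i, rfl⟩ : ∃ i, j = i + 2 := ⟨j - 2, by omega⟩
          have e : τ = 5 + 2 * i := by omega
          have hi : i < d := by omega
          have e1 : qq d τ = i + 1 := by unfold qq; omega
          rw [e1] at hpq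
          refine ⟨0, ?_, Or.inl ⟨?_, rfl⟩⟩
          · have h1 := H.VR' hkN hc' hpq (by omega) (n := τ + 1) (by omega) (Or.inl (by omega))
            have h2 := (pow_dvd_pow (b : ℤ) (by omega : τ + 1 ≤ 4 + 2 * (i + 1))).trans
              (pat_dvd (γ := γ) (b := b) hpq (by omega))
            refine dvd_of_eq' (dvd_add h1 h2) ?_
            ring
          · rw [alv_iff]
            right; right
            refine ⟨by omega, by omega, ?_⟩
            have e2 : qq d (τ + 1) = i + 1 := by unfold qq; omega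
            have e3 : ty k - 2 = c' := by omega
            rw [e2, e3, hpq]
      · have e1 : qq d τ = d := by unfold qq; omega
        rw [e1] at hpq
        refine ⟨0, ?_, Or.inl ⟨?_, rfl⟩⟩
        · have h1 := H.VR' hkN hc' hpq le_rfl (n := τ + 1) (by omega) (Or.inr rfl)
          rw [pre_full, pre_full] at hpq
          subst hpq
          refine dvd_of_eq' h1 ?_
          ring
        · rw [alv_iff]
          right; right
          refine ⟨by omega, by omega, ?_⟩
          have e2 : qq d (τ + 1) = d := by unfold qq; omega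
          have e3 : ty k - 2 = c' := by omega
          rw [e2, e3, hpq]

/-- at the end only the class `c` is alive -/
lemma Hyp.last (H : Hyp b D d γ N κ T w ty sv c z) {k τ : ℕ} (hτ : τ + 1 = T) :
    alv D d τ c (ty k) = true ↔ ty k = c + 2 := by
  have hT := H.hT
  have e1 : qq d τ = d := by unfold qq; omega
  rw [alv_iff, e1, pre_full, pre_full]
  constructor
  · rintro (h | h | ⟨_, h1, h2⟩)
    · omega
    · omega
    · omega
  · intro h
    right; right
    exact ⟨by omega, by omega, by omega⟩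

lemma Hyp.last_exg (H : Hyp b D d γ N κ T w ty sv c z) {k τ : ℕ} (hτ : τ + 1 = T) :
    exg D d γ τ c (ty k) = false := by
  have hT := H.hT
  rw [← Bool.not_eq_true, exg_iff]
  rintro ⟨_, _, _, _, h, _⟩
  omega

end

section

variable {b D d γ N κ T : ℕ} {w ty : ℕ → ℕ} {sv : ℕ → Bool} {c z : ℕ}

lemma filter_len (p : ℕ → Bool) (k : ℕ) :
    ((List.range k).filter p).length = ((Finset.range k).filter (fun j => p j = true)).card := by
  induction k with
  | zero => simp
  | succ k ih =>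
    rw [List.range_succ, List.filter_append, List.length_append, ih, Finset.range_add_one,
      Finset.filter_insert]
    by_cases h : p k = true
    · rw [if_pos h, Finset.card_insert_of_notMem (by simp)]
      simp [h]
    · rw [if_neg h]
      simp [h]

/-- a count of classes is the count of the own class modulo `b` -/
lemma Hyp.cnt (H : Hyp b D d γ N κ T w ty sv c z) (P : ℕ → Bool) (hP : ∀ t, P t = true → 2 ≤ t)
    {k : ℕ} (hkN : k < N) (ht : 2 ≤ ty k) :
    (b : ℤ) ∣ (((List.range k).filter (fun j => P (ty j))).length : ℤ) -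
      (if P (ty k) = true then (((List.range k).filter (fun j => decide (ty j = ty k))).length : ℤ)
        else 0) := by
  rw [filter_len, filter_len]
  have hmaps : ∀ j ∈ (Finset.range k).filter (fun j => P (ty j) = true),
      ty j ∈ Finset.range (D ^ d + 2) := by
    intro j hj
    rw [Finset.mem_filter, Finset.mem_range] at hj
    exact Finset.mem_range.2 (H.hty j (by omega))
  rw [Finset.card_eq_sum_card_fiberwise hmaps]
  have hmem : ty k ∈ Finset.range (D ^ d + 2) := Finset.mem_range.2 (H.hty k hkN)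
  rw [← Finset.add_sum_erase _ _ hmem]
  push_cast
  have h1 : (b : ℤ) ∣ ∑ x ∈ (Finset.range (D ^ d + 2)).erase (ty k),
      (({a ∈ {j ∈ Finset.range k | P (ty j) = true} | ty a = x}.card : ℕ) : ℤ) := by
    apply Finset.dvd_sum
    intro x hx
    rw [Finset.mem_erase] at hx
    by_cases hPx : P x = true
    · have h2x := hP x hPx
      have h3 := H.hcnt k hkN (x - 2) ht (by omega)
      have e : x - 2 + 2 = x := by omega
      rw [e, filter_len] at h3
      have h4 : ({a ∈ {j ∈ Finset.range k | P (ty j) = true} | ty a = x}) =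
          (Finset.range k).filter (fun j => decide (ty j = x) = true) := by
        ext j
        simp only [Finset.mem_filter, Finset.mem_range, decide_eq_true_eq]
        constructor
        · rintro ⟨⟨h, _⟩, h'⟩; exact ⟨h, h'⟩
        · rintro ⟨h, h'⟩; exact ⟨⟨h, by rw [h']; exact hPx⟩, h'⟩
      rw [h4]
      exact_mod_cast h3
    · have h4 : ({a ∈ {j ∈ Finset.range k | P (ty j) = true} | ty a = x}) = ∅ := by
        ext j
        simp only [Finset.mem_filter, Finset.mem_range, Finset.notMem_empty, iff_false]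
        rintro ⟨⟨_, h⟩, h'⟩
        rw [h'] at h
        exact hPx h
      rw [h4]
      simp
  have h2 : (({a ∈ {j ∈ Finset.range k | P (ty j) = true} | ty a = ty k}.card : ℕ) : ℤ) =
      (if P (ty k) = true then
        (((Finset.range k).filter (fun j => decide (ty j = ty k) = true)).card : ℤ) else 0) := by
    split_ifs with hPk
    · congr 2
      ext j
      simp only [Finset.mem_filter, Finset.mem_range, decide_eq_true_eq]
      constructor
      · rintro ⟨⟨h, _⟩, h'⟩; exact ⟨h, h'⟩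
      · rintro ⟨h, h'⟩; exact ⟨⟨h, by rw [h']; exact hPk⟩, h'⟩
    · have h4 : ({a ∈ {j ∈ Finset.range k | P (ty j) = true} | ty a = ty k}) = ∅ := by
        ext j
        simp only [Finset.mem_filter, Finset.mem_range, Finset.notMem_empty, iff_false]
        rintro ⟨⟨_, h⟩, h'⟩
        rw [h'] at h
        exact hPk h
      rw [h4]
      simp
  rw [h2, add_sub_cancel_left]
  exact h1

/-- the positions of an expanded element in its own view and in the view of the leader -/
lemma Hyp.posx (H : Hyp b D d γ N κ T w ty sv c z) {k c' i : ℕ} (hkN : k < N)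
    (ht : ty k = c' + 2) (hx : exg D d γ (5 + 2 * i) c (ty k) = true) :
    (b : ℤ) ∣ (pos D d γ N ty (5 + 2 * i) c k : ℤ) - pos D d γ N ty (5 + 2 * i) c' k := by
  have hb := H.hb
  have hx' := hx
  rw [exg_iff] at hx'
  obtain ⟨h1, h2, h3, h4, h5, h6, h7⟩ := hx'
  have e0 : (5 + 2 * i - 5) / 2 = i := by omega
  have e1 : ty k - 2 = c' := by omega
  rw [e0] at h5 h6 h7
  rw [e1] at h6 h7
  have hN1 : (b : ℤ) ∣ (N : ℤ) - 1 := by exact_mod_cast dvd_of_mod (H.hN h1)
  have hPa : ∀ x t, alv D d (5 + 2 * i) x t = true → 2 ≤ t := by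
    intro x t h
    rw [alv_iff] at h
    rcases h with h | h | h
    · omega
    · omega
    · exact h.2.1
  have hPe : ∀ x t, exg D d γ (5 + 2 * i) x t = true → 2 ≤ t := by
    intro x t h
    rw [exg_iff] at h
    exact h.2.1
  have c1 := H.cnt (fun t => alv D d (5 + 2 * i) c t) (hPa c) hkN h2
  have c2 := H.cnt (fun t => exg D d γ (5 + 2 * i) c t) (hPe c) hkN h2
  have c3 := H.cnt (fun t => alv D d (5 + 2 * i) c' t) (hPa c') hkN h2
  have c4 := H.cnt (fun t => exg D d γ (5 + 2 * i) c' t) (hPe c') hkN h2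
  have a1 : ¬ alv D d (5 + 2 * i) c (ty k) = true := by rw [exg_alv_self hx]; simp
  have a3 : alv D d (5 + 2 * i) c' (ty k) = true := by
    rw [alv_iff]; right; right
    refine ⟨by omega, h2, by rw [e1]⟩
  have a4 : ¬ exg D d γ (5 + 2 * i) c' (ty k) = true := by
    rw [exg_iff]
    rintro ⟨_, _, _, _, _, _, h⟩
    rw [e1] at h
    omega
  rw [if_neg a1] at c1
  rw [if_pos hx] at c2
  rw [if_pos a3] at c3
  rw [if_neg a4] at c4
  set C := (((List.range k).filter (fun j => decide (ty j = ty k))).length : ℤ)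
  unfold pos
  push_cast
  have g1 := dvd_add c1 (Dvd.dvd.mul_left c2 (N : ℤ))
  have g2 := dvd_add c3 (Dvd.dvd.mul_left c4 (N : ℤ))
  have g3 := dvd_sub g1 g2
  have g4 := dvd_add g3 (Dvd.dvd.mul_left hN1 C)
  refine dvd_of_eq' g4 ?_
  ring

/-- the residue of `w` -/
lemma Hyp.wres (H : Hyp b D d γ N κ T w ty sv c z) {k : ℕ} (hkN : k < N) :
    (b : ℤ) ∣ (κ : ℤ) * k + w k + 1 := by
  have hT := H.hT
  have key : ∀ (n c' p : ℕ), 1 ≤ n → (b : ℤ) ∣ (w k : ℤ) + κ * pm b D d γ N ty n c' k + p →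
      (b : ℤ) ∣ (p : ℤ) - 1 → (b : ℤ) ∣ (κ : ℤ) * k + w k + 1 := by
    intro n c' p hn h1 h2
    have h3 := pm_dvd_one b D d γ N ty n c' k hn
    have h4 := dvd_sub (dvd_sub h1 (Dvd.dvd.mul_left h3 (κ : ℤ))) h2
    refine dvd_of_eq' h4 ?_
    ring
  rcases Nat.lt_or_ge (ty k) 2 with ht | ht
  · rcases Nat.lt_or_ge (ty k) 1 with ht | ht1
    · have ht : ty k = 0 := by omega
      have h1 := dvd_of_mod (H.hf1 k hkN ht)
      push_cast at h1
      have h2 : (b : ℤ) ∣ (b : ℤ) ^ 3 := dvd_pow_self _ (by norm_num)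
      have h3 : (b : ℤ) ∣ 2 * (b : ℤ) ^ 2 := Dvd.dvd.mul_left (dvd_pow_self _ (by norm_num)) _
      have h4 := dvd_add (h2.trans h1) h3
      refine key 3 0 1 (by norm_num) ?_ (by simp)
      refine dvd_of_eq' h4 ?_
      push_cast
      ring
    · have ht : ty k = 1 := by omega
      have h1 := dvd_of_mod (H.hf2 k hkN ht)
      push_cast at h1
      have h2 : (b : ℤ) ∣ (b : ℤ) ^ 4 := dvd_pow_self _ (by norm_num)
      have h3 : (b : ℤ) ∣ 2 * (b : ℤ) ^ 3 := Dvd.dvd.mul_left (dvd_pow_self _ (by norm_num)) _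
      have h4 := dvd_add (h2.trans h1) h3
      refine key 4 0 1 (by norm_num) ?_ (by simp)
      refine dvd_of_eq' h4 ?_
      push_cast
      ring
  · obtain ⟨c', hc'⟩ : ∃ c', ty k = c' + 2 := ⟨ty k - 2, by omega⟩
    have h1 := H.hkT hkN hc'
    have h2 : (b : ℤ) ∣ (b : ℤ) ^ (T - 1) := dvd_pow_self _ (by omega)
    have h3 : (b : ℤ) ∣ (pat b D d γ c' : ℤ) - 1 :=
      (dvd_pow_self (b : ℤ) (by norm_num : (4 : ℕ) ≠ 0)).trans (pat_one b D d γ c')
    exact key T c' _ (by omega) (h2.trans h1) h3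

/-- children of an expanded element -/
def CE (b D d γ N κ : ℕ) (w ty : ℕ → ℕ) (c z τ k : ℕ) : List ℕ :=
  (List.range N).map (fun k' => (VV b D d γ N κ w ty c z τ k / b ^ (τ - 1) - 1) / b + w k')

lemma Hyp.CD (H : Hyp b D d γ N κ T w ty sv c z) {k k' τ : ℕ} (hkN : k < N) (hk'N : k' < N)
    (hx : exg D d γ τ c (ty k) = true) :
    ch b N w ((VV b D d γ N κ w ty c z τ k / b ^ (τ - 1) - 1) / b + w k' +
      κ * (pos D d γ N ty τ c k + k')) = [] := by
  have hb := H.hb
  have hT := H.hT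
  have hn2 := H.not2
  have hx' := hx
  rw [exg_iff] at hx'
  obtain ⟨h1, h2, h3, h4, h5, h6, h7⟩ := hx'
  obtain ⟨c', hc'⟩ : ∃ c', ty k = c' + 2 := ⟨ty k - 2, by omega⟩
  obtain ⟨i, rfl⟩ : ∃ i, τ = 5 + 2 * i := ⟨(τ - 5) / 2, by omega⟩
  have e0 : (5 + 2 * i - 5) / 2 = i := by omega
  have e1 : ty k - 2 = c' := by omega
  rw [e0] at h5 h6 h7
  rw [e1] at h6 h7
  have hpos := H.posx hkN hc' hx
  -- the value of the own view
  have g1 := H.hkn hkN hc' (n := 6 + 2 * i) (by omega)
  have g2 : (b : ℤ) ^ (6 + 2 * i) ∣ (z : ℤ) - pat b D d γ c :=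
    (pow_dvd_pow _ (by omega)).trans H.zpat
  have g3 := pat_diff (γ := γ) (b := b) h6.symm h5
  have g4 := dvd_add (dvd_add g1 g2) g3
  have e2 : pm b D d γ N ty (6 + 2 * i) c' k = pm b D d γ N ty (5 + 2 * i) c k +
      pos D d γ N ty (5 + 2 * i) c' k * b ^ (5 + 2 * i) := by
    have : 6 + 2 * i = 5 + 2 * i + 1 := by omega
    rw [this, pm_succ, pm_congr h6 h5.le (Or.inl le_rfl)]
  have e3 : ((dg D d c i : ℤ) - dg D d c' i) = 1 := by rw [← h7]; push_cast; ring
  rw [e2, e3, h1] at g4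
  have g5 : (b : ℤ) ^ (6 + 2 * i) ∣ (VV b D d 1 N κ w ty c z (5 + 2 * i) k : ℤ) -
      ((b : ℤ) ^ (4 + 2 * i) - κ * pos D d 1 N ty (5 + 2 * i) c' k * (b : ℤ) ^ (5 + 2 * i)) := by
    refine dvd_of_eq' g4 ?_
    unfold VV
    push_cast
    ring
  rw [h1] at hpos ⊢
  obtain ⟨m, hm⟩ := g5
  set V := VV b D d 1 N κ w ty c z (5 + 2 * i) k
  set p := pos D d 1 N ty (5 + 2 * i) c k
  set p' := pos D d 1 N ty (5 + 2 * i) c' k
  have hV : (V : ℤ) = (b : ℤ) ^ (4 + 2 * i) * (1 + b * (- κ * p' + m * b)) := by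
    have : (V : ℤ) = ((b : ℤ) ^ (4 + 2 * i) - κ * p' * (b : ℤ) ^ (5 + 2 * i)) +
      (b : ℤ) ^ (6 + 2 * i) * m := by linarith
    rw [this]; ring
  have hbz : (0 : ℤ) < b := by positivity
  have hpz : (0 : ℤ) < (b : ℤ) ^ (4 + 2 * i) := by positivity
  have hq0 : (0 : ℤ) ≤ - κ * p' + m * b := by
    have hV0 : (0 : ℤ) ≤ V := by positivity
    rw [hV] at hV0
    have h0 := nonneg_of_mul_nonneg_right hV0 hpz
    by_contra hneg
    push Not at hneg
    nlinarith
  obtain ⟨q, hq⟩ := Int.eq_ofNat_of_zero_le hq0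
  rw [hq] at hV
  have hVn : V = b ^ (4 + 2 * i) * (1 + b * q) := by exact_mod_cast hV
  have e4 : 5 + 2 * i - 1 = 4 + 2 * i := by omega
  have hdiv : (V / b ^ (5 + 2 * i - 1) - 1) / b = q := by
    rw [e4, hVn, Nat.mul_div_cancel_left _ (by positivity), Nat.add_sub_cancel_left,
      Nat.mul_div_cancel_left _ (by omega)]
  rw [hdiv]
  have hval : (b : ℤ) ∣ ((q + w k' + κ * (p + k') : ℕ) : ℤ) + 1 := by
    have w1 := H.wres hk'N
    have w2 := Dvd.dvd.mul_left hpos (κ : ℤ)
    have w3 : (b : ℤ) ∣ m * b := Dvd.intro_left m rfl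
    have w4 := dvd_add (dvd_add w1 w2) w3
    refine dvd_of_eq' w4 ?_
    push_cast
    have : (q : ℤ) = - κ * p' + m * b := hq.symm
    rw [this]
    ring
  apply ch_dead
  · intro h
    have := dvd_sub hval h
    rw [add_sub_cancel_left] at this
    exact hn2.2 this
  · intro h
    have := dvd_sub hval h
    refine hn2.1 (dvd_of_eq' this ?_)
    ring

end

section

variable {b D d γ N κ T : ℕ} {w ty : ℕ → ℕ} {sv : ℕ → Bool} {c z : ℕ}

/-! ### the stages -/

lemma stg_append (L L' : List ℕ) (i : ℕ) :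
    stg b N κ w i (L ++ L') = stg b N κ w i L ++ stg b N κ w (i + L.length) L' := by
  induction L generalizing i with
  | nil => simp [stg]
  | cons t L ih =>
    rw [List.cons_append, stg, stg, ih, List.append_assoc, List.length_cons]
    have : i + 1 + L.length = i + (L.length + 1) := by omega
    rw [this]

lemma stg_single (t i : ℕ) : stg b N κ w i [t] = ch b N w (t + κ * i) := by
  rw [stg, stg, List.append_nil]

lemma stg_flatMap (G : ℕ → List ℕ) (n : ℕ) :
    stg b N κ w 0 ((List.range n).flatMap G) =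
      (List.range n).flatMap (fun k => stg b N κ w ((List.range k).flatMap G).length (G k)) := by
  induction n with
  | zero => simp [stg]
  | succ n ih =>
    rw [List.range_succ, List.flatMap_append, stg_append, ih, List.flatMap_append, Nat.zero_add,
      List.flatMap_singleton, List.flatMap_singleton]

lemma stg_dead (f : ℕ → ℕ) (i n : ℕ) (h : ∀ k < n, ch b N w (f k + κ * (i + k)) = []) :
    stg b N κ w i ((List.range n).map f) = [] := by
  induction n with
  | zero => simp [stg]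
  | succ n ih =>
    rw [List.range_succ, List.map_append, stg_append, ih (fun k hk => h k (by omega)),
      List.nil_append, List.map_singleton, stg_single, List.length_map, List.length_range]
    exact h n (Nat.lt_succ_self n)

/-- elements of the local run which come from the element `k` -/
def E (b D d γ N κ : ℕ) (w ty : ℕ → ℕ) (c z τ k : ℕ) : List ℕ :=
  if alv D d τ c (ty k) = true then [VV b D d γ N κ w ty c z τ k / b ^ τ]
  else if exg D d γ τ c (ty k) = true then CE b D d γ N κ w ty c z τ k else []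

lemma len_E (τ k : ℕ) :
    ((List.range k).flatMap (E b D d γ N κ w ty c z τ)).length = pos D d γ N ty τ c k := by
  induction k with
  | zero => simp [pos]
  | succ k ih =>
    rw [List.range_succ, List.flatMap_append, List.length_append, ih, List.flatMap_singleton]
    unfold pos
    rw [List.range_succ, List.filter_append, List.filter_append, List.length_append,
      List.length_append]
    unfold E
    by_cases h1 : alv D d τ c (ty k) = true
    · have h2 : ¬ exg D d γ τ c (ty k) = true := by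
        intro h; rw [exg_alv_self h] at h1; exact Bool.false_ne_true h1
      rw [if_pos h1]
      simp [h1, h2]
      ring
    · rw [if_neg h1]
      by_cases h2 : exg D d γ τ c (ty k) = true
      · rw [if_pos h2]
        simp [h1, h2, CE]
        ring
      · rw [if_neg h2]
        simp [h1, h2]

lemma Hyp.stepE (H : Hyp b D d γ N κ T w ty sv c z) {k τ : ℕ} (hkN : k < N) (hτ : τ + 1 < T) :
    stg b N κ w (pos D d γ N ty τ c k) (E b D d γ N κ w ty c z τ k) =
      E b D d γ N κ w ty c z (τ + 1) k := by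
  have hb := H.hb
  by_cases h1 : alv D d τ c (ty k) = true
  · obtain ⟨a, ha, hout⟩ := H.R hkN hτ h1
    obtain ⟨hI, -⟩ := quot_mod (by omega) ha
    have hIv : VV b D d γ N κ w ty c z τ k / b ^ τ + κ * pos D d γ N ty τ c k =
        VV b D d γ N κ w ty c z (τ + 1) k / b ^ τ := by
      rw [VV_succ, Nat.add_mul_div_right _ _ (by positivity)]
    unfold E
    rw [if_pos h1, stg_single, hIv]
    set I := VV b D d γ N κ w ty c z (τ + 1) k / b ^ τ with hIdef
    rcases hout with ⟨o1, o2⟩ | ⟨o1, o2⟩ | ⟨o1, o2, o3, o4⟩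
    · rw [o2, sub_zero] at hI
      rw [ch_pass hI, if_pos o1, hIdef, Nat.div_div_eq_div_mul, ← pow_succ]
    · rw [o2] at hI
      rw [ch_exp (by omega) hI, if_neg (by rw [exg_alv_self o1]; simp), if_pos o1]
      rfl
    · rw [ch_dead, if_neg (by rw [o1]; simp), if_neg (by rw [o2]; simp)]
      · intro h
        have := dvd_sub h hI
        exact o3 (dvd_of_eq' this (by ring))
      · intro h
        have := dvd_sub h hI
        exact o4 (dvd_of_eq' this (by ring))
  · have hn1 : ¬ alv D d (τ + 1) c (ty k) = true := fun h => h1 (alv_mono h)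
    have hn2 : ¬ exg D d γ (τ + 1) c (ty k) = true := fun h => h1 (exg_alv h).1
    have e2 : E b D d γ N κ w ty c z (τ + 1) k = [] := by
      unfold E; rw [if_neg hn1, if_neg hn2]
    rw [e2]
    by_cases h2 : exg D d γ τ c (ty k) = true
    · have e1 : E b D d γ N κ w ty c z τ k = CE b D d γ N κ w ty c z τ k := by
        unfold E; rw [if_neg h1, if_pos h2]
      rw [e1]
      unfold CE
      exact stg_dead _ _ _ (fun k' hk' => H.CD hkN hk' h2)
    · have e1 : E b D d γ N κ w ty c z τ k = [] := by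
        unfold E; rw [if_neg h1, if_neg h2]
      rw [e1, stg]

lemma Hyp.stepT (H : Hyp b D d γ N κ T w ty sv c z) {k τ : ℕ} (hkN : k < N) (hτ : τ + 1 = T) :
    stg b N κ w (pos D d γ N ty τ c k) (E b D d γ N κ w ty c z τ k) =
      if (decide (ty k = c + 2) && sv k) = true then [VV b D d γ N κ w ty c z T k / b ^ T] else [] := by
  have hb := H.hb
  have hn2 := H.not2
  have hx : ¬ exg D d γ τ c (ty k) = true := by rw [H.last_exg hτ]; simp
  by_cases h1 : alv D d τ c (ty k) = true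
  · have ht := (H.last hτ).1 h1
    have hV := H.VT hkN ht
    have e0 : T - 1 = τ := by omega
    rw [e0] at hV
    have hV' : (b : ℤ) ^ (τ + 1) ∣ (VV b D d γ N κ w ty c z (τ + 1) k : ℤ) -
        (if sv k then 0 else 2 : ℤ) * (b : ℤ) ^ τ := by
      rw [hτ]; exact hV
    obtain ⟨hI, -⟩ := quot_mod (by omega) hV'
    have hIv : VV b D d γ N κ w ty c z τ k / b ^ τ + κ * pos D d γ N ty τ c k =
        VV b D d γ N κ w ty c z (τ + 1) k / b ^ τ := by
      rw [VV_succ, Nat.add_mul_div_right _ _ (by positivity)]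
    have e1 : E b D d γ N κ w ty c z τ k = [VV b D d γ N κ w ty c z τ k / b ^ τ] := by
      unfold E; rw [if_pos h1]
    rw [e1, stg_single, hIv]
    by_cases hs : sv k = true
    · rw [if_pos hs, sub_zero] at hI
      rw [ch_pass hI, if_pos (by simp [ht, hs]), Nat.div_div_eq_div_mul, ← pow_succ, hτ]
    · rw [if_neg hs] at hI
      rw [if_neg (by simp [hs]), ch_dead]
      · intro h
        have := dvd_sub h hI
        exact hn2.1 (dvd_of_eq' this (by ring))
      · intro h
        have := dvd_sub h hI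
        exact hn2.2 (dvd_of_eq' this (by ring))
  · have ht : ¬ ty k = c + 2 := fun h => h1 ((H.last hτ).2 h)
    have e1 : E b D d γ N κ w ty c z τ k = [] := by
      unfold E; rw [if_neg h1, if_neg hx]
    rw [e1, stg, if_neg (by simp [ht])]

lemma flatMap_congr' (n : ℕ) (f g : ℕ → List ℕ) (h : ∀ k < n, f k = g k) :
    (List.range n).flatMap f = (List.range n).flatMap g := by
  induction n with
  | zero => simp
  | succ n ih =>
    rw [List.range_succ, List.flatMap_append, List.flatMap_append, ih (fun k hk => h k (by omega)),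
      List.flatMap_singleton, List.flatMap_singleton, h n (Nat.lt_succ_self n)]

lemma flatMap_if (L : List ℕ) (p : ℕ → Bool) (f : ℕ → ℕ) :
    L.flatMap (fun k => if p k = true then [f k] else []) = (L.filter p).map f := by
  induction L with
  | nil => simp
  | cons a L ih =>
    rw [List.flatMap_cons, ih]
    by_cases h : p a = true
    · simp [h]
    · simp [h]

lemma Hyp.LocE (H : Hyp b D d γ N κ T w ty sv c z) {τ : ℕ} (hτ : τ < T) :
    Loc b N κ w z τ = (List.range N).flatMap (E b D d γ N κ w ty c z τ) := by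
  induction τ with
  | zero =>
    rw [Loc]
    have h1 : ∀ k, E b D d γ N κ w ty c z 0 k = [z + w k] := by
      intro k
      have : alv D d 0 c (ty k) = true := by rw [alv_iff]; left; omega
      unfold E
      rw [if_pos this]
      simp [VV, pm]
    have h2 : (List.range N).flatMap (E b D d γ N κ w ty c z 0) =
        (List.range N).flatMap (fun k => if (fun _ => true) k = true then [z + w k] else []) := by
      apply flatMap_congr'
      intro k _
      rw [h1]; simp
    rw [h2, flatMap_if]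
    simp
  | succ τ ih =>
    rw [Loc, ih (by omega), stg_flatMap]
    apply flatMap_congr'
    intro k hkN
    rw [len_E]
    exact H.stepE hkN hτ

end

/-- TARGET -/
theorem C3 (b D d γ N κ T : ℕ) (w ty : ℕ → ℕ) (sv : ℕ → Bool)
    (hγ : (γ = 1 ∧ b = 3 ∧ D = 3) ∨ (γ = 2 ∧ 4 ≤ b ∧ D = 2))
    (hκ : κ % b = 1) (hN : γ = 1 → N % b = 1) (hT : 2 * d + 6 ≤ T)
    (hty : ∀ k < N, ty k < D ^ d + 2)
    (hf1 : ∀ k < N, ty k = 0 → (w k + κ * pm b D d γ N ty 3 0 k + 1) % b ^ 3 = 2 * b ^ 2)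
    (hf2 : ∀ k < N, ty k = 1 → (w k + κ * pm b D d γ N ty 4 0 k + 1) % b ^ 4 = 2 * b ^ 3)
    (hk : ∀ k < N, ∀ c, ty k = c + 2 → (w k + κ * pm b D d γ N ty T c k + pat b D d γ c) % b ^ T =
      if sv k then 0 else 2 * b ^ (T - 1))
    (hcnt : ∀ k < N, ∀ c, 2 ≤ ty k → c + 2 ≠ ty k → b ∣ ((List.range k).filter (fun j => ty j = c + 2)).length)
    (c : ℕ) (hc : c < D ^ d) (hdg : ∀ i < d, D ≤ dg D d c i + 2)
    (z : ℕ) (hz : z % b ^ T = pat b D d γ c % b ^ T) :
    (∀ τ < T, (Loc b N κ w z τ).length = pos D d γ N ty τ c N) ∧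
    Loc b N κ w z T = ((List.range N).filter (fun k => decide (ty k = c + 2) && sv k)).map
      (fun k => (z + w k + κ * pm b D d γ N ty T c k) / b ^ T) ∧
    ∀ k < N, ty k = c + 2 → sv k = true → b ^ T ∣ z + w k + κ * pm b D d γ N ty T c k := by
  have H : Hyp b D d γ N κ T w ty sv c z := ⟨hγ, hκ, hN, hT, hty, hf1, hf2, hk, hcnt, hc, hdg, hz⟩
  refine ⟨?_, ?_, ?_⟩
  · intro τ hτ
    rw [H.LocE hτ, len_E]
  · obtain ⟨τ, hτ⟩ : ∃ τ, T = τ + 1 := ⟨T - 1, by omega⟩
    have h1 : Loc b N κ w z T = (List.range N).flatMap (fun k =>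
        if (fun k => decide (ty k = c + 2) && sv k) k = true then
          [(z + w k + κ * pm b D d γ N ty T c k) / b ^ T] else []) := by
      rw [hτ, Loc, H.LocE (by omega), stg_flatMap]
      apply flatMap_congr'
      intro k hkN
      rw [len_E, H.stepT hkN hτ.symm, hτ]
      rfl
    rw [h1, flatMap_if]
  · intro k hkN ht hs
    have h1 := H.VT hkN ht
    rw [if_pos hs, zero_mul, sub_zero] at h1
    exact_mod_cast h1

end Pool.Agent.Helper231_T2

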