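import Mathlib
import Pool.Agent.Helper231_T2.Defs
import Pool.Agent.Helper231_T2.C2
import Pool.Agent.Helper231_T2.C3
import Pool.Agent.Helper231_T2.C7a
import Pool.Agent.Helper231_T2.C11c

set_option autoImplicit false

namespace Pool.Agent.Helper231_T2


theorem c11_flen (p : ℕ → Bool) (k k' : ℕ) (h : k ≤ k') :
    ((List.range k).filter p).length ≤ ((List.range k').filter p).length :=
  List.Sublist.length_le ((List.range_sublist.mpr h).filter p)

theorem c11_pos_mono (D d γ N : ℕ) (ty : ℕ → ℕ) (τ c k k' : ℕ) (h : k ≤ k') :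
    pos D d γ N ty τ c k ≤ pos D d γ N ty τ c k' := by
  unfold pos
  exact Nat.add_le_add (c11_flen _ _ _ h) (Nat.mul_le_mul_left _ (c11_flen _ _ _ h))

theorem c11_pm_mono (b D d γ N : ℕ) (ty : ℕ → ℕ) (n c k k' : ℕ) (h : k ≤ k') :
    pm b D d γ N ty n c k ≤ pm b D d γ N ty n c k' := by
  unfold pm
  exact Finset.sum_le_sum (fun τ _ => Nat.mul_le_mul_right _ (c11_pos_mono D d γ N ty τ c k k' h))

theorem c11_pos_small (D d γ N : ℕ) (ty : ℕ → ℕ) (τ c k : ℕ) (hτ : τ ≤ 2) :
    pos D d γ N ty τ c k = k := by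
  unfold pos
  have h1 : (List.range k).filter (fun j => alv D d τ c (ty j)) = List.range k := by
    rw [List.filter_eq_self]
    intro a _
    simp [alv, hτ]
  have h2 : (List.range k).filter (fun j => exg D d γ τ c (ty j)) = [] := by
    rw [List.filter_eq_nil_iff]
    intro a _
    have : ¬ 5 ≤ τ := by omega
    simp [exg, this]
  rw [h1, h2]
  simp

theorem c11_pm_two (b D d γ N : ℕ) (ty : ℕ → ℕ) (n c k : ℕ) (hn : 2 ≤ n) :
    ∃ q, pm b D d γ N ty n c k = k + k * b + b ^ 2 * q := by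
  obtain ⟨m, rfl⟩ : ∃ m, n = m + 2 := ⟨n - 2, by omega⟩
  refine ⟨∑ τ ∈ Finset.range m, pos D d γ N ty (τ + 2) c k * b ^ τ, ?_⟩
  unfold pm
  rw [Finset.sum_range_succ', Finset.sum_range_succ']
  rw [c11_pos_small D d γ N ty 0 c k (by omega), c11_pos_small D d γ N ty (0 + 1) c k (by omega)]
  rw [Finset.mul_sum]
  have : ∑ τ ∈ Finset.range m, pos D d γ N ty (τ + 1 + 1) c k * b ^ (τ + 1 + 1) =
      ∑ τ ∈ Finset.range m, b ^ 2 * (pos D d γ N ty (τ + 2) c k * b ^ τ) := by
    refine Finset.sum_congr rfl (fun τ _ => ?_)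
    ring
  rw [this]
  ring

theorem c11_pat (b D d γ c : ℕ) : ∃ q, pat b D d γ c = 1 + b ^ 2 * q := by
  refine ⟨∑ i ∈ Finset.range d, γ * dg D d c i * b ^ (2 + 2 * i), ?_⟩
  unfold pat
  rw [Finset.mul_sum]
  congr 1
  refine Finset.sum_congr rfl (fun i _ => ?_)
  ring

/-- the arithmetic of the first claim -/
theorem c11_first (b κ k wk q q' A : ℕ) (h : b ^ 2 ∣ A) (hA : A = wk + κ * (k + k * b + b ^ 2 * q) + (1 + b ^ 2 * q')) :
    (κ * k + wk + 1) % b = 0 ∧ (κ * k * (1 + b) + wk + 1) % b ^ 2 = 0 := by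
  have h1 : b ^ 2 ∣ κ * k * (1 + b) + wk + 1 := by
    have h2 : A = (κ * k * (1 + b) + wk + 1) + b ^ 2 * (κ * q + q') := by rw [hA]; ring
    rw [h2] at h
    exact (Nat.dvd_add_left (Dvd.intro _ rfl)).mp h
  refine ⟨?_, Nat.mod_eq_zero_of_dvd h1⟩
  have h3 : b ∣ κ * k * (1 + b) + wk + 1 := dvd_trans (dvd_pow_self b (by norm_num)) h1
  have h4 : κ * k * (1 + b) + wk + 1 = (κ * k + wk + 1) + b * (κ * k) := by ring
  rw [h4] at h3
  exact Nat.mod_eq_zero_of_dvd ((Nat.dvd_add_left (Dvd.intro _ rfl)).mp h3)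

theorem c11_dvd_of_mod (m M A r : ℕ) (h1 : m ∣ M) (h2 : A % M = r) (h3 : m ∣ r) : m ∣ A := by
  have h := Nat.div_add_mod A M
  rw [h2] at h
  rw [← h]
  exact dvd_add (dvd_mul_of_dvd_left h1 _) h3

/-- letters -/
theorem c11_getD_mem (L : List ℕ) (j : ℕ) (hj : j < L.length) : L.getD j 0 ∈ L := by
  rw [List.getD_eq_getElem L 0 hj]
  exact List.getElem_mem hj

theorem c11_getD_lt (L : List ℕ) (hL : L.Pairwise (· < ·)) (j : ℕ) (hj : j + 1 < L.length) :
    L.getD j 0 < L.getD (j + 1) 0 := by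
  rw [List.getD_eq_getElem L 0 (by omega : j < L.length), List.getD_eq_getElem L 0 hj]
  exact List.pairwise_iff_getElem.mp hL j (j + 1) (by omega) hj (by omega)

theorem c11_RR_pos (b T : ℕ) (hT : 0 < T) : 1 ≤ RR b T := by
  unfold RR
  have : b ^ 0 ≤ ∑ τ ∈ Finset.range T, b ^ τ :=
    Finset.single_le_sum (f := fun τ => b ^ τ) (fun i _ => Nat.zero_le _) (Finset.mem_range.mpr hT)
  simpa using this

theorem c11_Y_pos (b D d γ N T H : ℕ) (cls : ℕ → ℕ) (x : ℕ) (hT : 0 < T) :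
    1 ≤ Yx b D d γ N T H cls x := by
  unfold Yx
  have := c11_RR_pos b T hT
  nlinarith [Nat.zero_le (H * QQ b D d γ N T (cls x)), Nat.zero_le (x * RR b T)]

/-- the value at the first element of a group of survivors -/
theorem c11_val0 (b D d γ r e T H N z1 z2 Yb kp nG cc l κ : ℕ) (cls X w : ℕ → ℕ) (α : ℕ → List ℕ)
    (hp : Par b D d γ r e T H N z1 z2 Yb kp nG cc l)
    (hcls : ∀ x < r, cls x < D ^ d ∧ ∀ i < d, D ≤ dg D d (cls x) i + 2)
    (hα : ∀ x < r, α x ≠ [] ∧ (α x).Pairwise (· < ·) ∧ ∀ y ∈ α x, y < r)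
    (hW : WF b D d r e T H N z1 z2 cc l κ (lay D d H Yb z1 z2 kp) cls (Yx b D d γ N T H cls)
      (pm b D d γ N (lay D d H Yb z1 z2 kp) 3 0) (pm b D d γ N (lay D d H Yb z1 z2 kp) 4 0)
      (pat b D d γ) X w (pm b D d γ N (lay D d H Yb z1 z2 kp) T) α)
    (x : ℕ) (hx : x < r) (j : ℕ) (hj : j < (α x).length) :
    κ * Yx b D d γ N T H cls x + X x +
      w (kc D d H z1 z2 (cls x) (rho H (Yx b D d γ N T H cls) α x j)) +
      κ * pm b D d γ N (lay D d H Yb z1 z2 kp) T (cls x)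
        (kc D d H z1 z2 (cls x) (rho H (Yx b D d γ N T H cls) α x j)) =
    b ^ T * (b ^ (e + 3) * (1 + b * (κ * Yx b D d γ N T H cls ((α x).getD j 0) + X ((α x).getD j 0)))) := by
  have hx' : (α x).getD j 0 < r := (hα x hx).2.2 _ (c11_getD_mem _ _ hj)
  have h3 := (C11c b D d γ r e T H N z1 z2 Yb kp nG cc l cls hp hcls).2.2.1 x hx _ hx'
  have htr := hW.tr x hx j hj
  have hr : rho H (Yx b D d γ N T H cls) α x j =
    Yx b D d γ N T H cls ((α x).getD j 0) * H - (x + 1) := rfl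
  rw [← hr] at h3
  set k := kc D d H z1 z2 (cls x) (rho H (Yx b D d γ N T H cls) α x j) with hk
  set P := pm b D d γ N (lay D d H Yb z1 z2 kp) T (cls x) k with hP
  set Y := Yx b D d γ N T H cls x with hY
  set Y' := Yx b D d γ N T H cls ((α x).getD j 0) with hY'
  calc κ * Y + X x + w k + κ * P = κ * (P + Y) + (w k + X x) := by ring
    _ = κ * (b ^ (T + e + 4) * Y') + (b ^ (T + e + 3) + b ^ (T + e + 4) * X ((α x).getD j 0)) := by
        rw [h3, htr]
    _ = b ^ T * (b ^ (e + 3) * (1 + b * (κ * Y' + X ((α x).getD j 0)))) := by ring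

theorem c11_dvd (b D d γ r e T H N z1 z2 Yb kp nG cc l κ : ℕ) (cls X w : ℕ → ℕ) (α : ℕ → List ℕ)
    (hp : Par b D d γ r e T H N z1 z2 Yb kp nG cc l)
    (hcls : ∀ x < r, cls x < D ^ d ∧ ∀ i < d, D ≤ dg D d (cls x) i + 2)
    (hα : ∀ x < r, α x ≠ [] ∧ (α x).Pairwise (· < ·) ∧ ∀ y ∈ α x, y < r)
    (hW : WF b D d r e T H N z1 z2 cc l κ (lay D d H Yb z1 z2 kp) cls (Yx b D d γ N T H cls)
      (pm b D d γ N (lay D d H Yb z1 z2 kp) 3 0) (pm b D d γ N (lay D d H Yb z1 z2 kp) 4 0)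
      (pat b D d γ) X w (pm b D d γ N (lay D d H Yb z1 z2 kp) T) α)
    (x : ℕ) (hx : x < r) (j : ℕ) (hj : j < (α x).length) (i : ℕ) (hi : i < b * cc) :
    b ^ T ∣ κ * Yx b D d γ N T H cls x + X x +
      w (kc D d H z1 z2 (cls x) (rho H (Yx b D d γ N T H cls) α x j + i)) +
      κ * pm b D d γ N (lay D d H Yb z1 z2 kp) T (cls x)
        (kc D d H z1 z2 (cls x) (rho H (Yx b D d γ N T H cls) α x j + i)) := by
  rcases Nat.eq_zero_or_pos i with h0 | h0
  · subst h0
    rw [Nat.add_zero, c11_val0 b D d γ r e T H N z1 z2 Yb kp nG cc l κ cls X w α hp hcls hα hW x hx j hj]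
    exact Dvd.intro _ rfl
  · have h := hW.sv x hx j hj i hi h0
    have h1 := c11_dvd_of_mod (b ^ T) _ _ _ (pow_dvd_pow b (by omega)) h
      (dvd_mul_of_dvd_right (pow_dvd_pow b (by omega)) 2)
    have h2 : b ^ T ∣ κ * b ^ T * ps b cc (dst b cc e l (α x).length j i + 1) j i :=
      ⟨κ * ps b cc (dst b cc e l (α x).length j i + 1) j i, by ring⟩
    exact (Nat.dvd_add_left h2).mp h1

/-- from the value of a survivor to the label condition -/
theorem c11_lab (m ζ pt wk κP : ℕ) (h1 : ζ % m = pt % m) (h2 : m ∣ ζ + wk + κP) : (wk + κP + pt) % m = 0 := by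
  have h3 : (wk + κP + pt) ≡ (wk + κP + ζ) [MOD m] := Nat.ModEq.add_left _ h1.symm
  have h4 : wk + κP + ζ = ζ + wk + κP := by ring
  rw [h4] at h3
  have h5 : (ζ + wk + κP) % m = 0 := Nat.mod_eq_zero_of_dvd h2
  have h6 : (wk + κP + pt) % m = (ζ + wk + κP) % m := h3
  rw [h6, h5]
/-- TARGET -/
theorem C11d1 (b D d γ r e T H N z1 z2 Yb kp nG cc l κ : ℕ) (cls X w : ℕ → ℕ) (α : ℕ → List ℕ)
    (hp : Par b D d γ r e T H N z1 z2 Yb kp nG cc l) (hκ : κ % b = 1)
    (hcls : ∀ x < r, cls x < D ^ d ∧ ∀ i < d, D ≤ dg D d (cls x) i + 2)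
    (hcls2 : ∀ x' < r, ∀ x < x', cls x' < cls x)
    (hα : ∀ x < r, α x ≠ [] ∧ (α x).Pairwise (· < ·) ∧ ∀ y ∈ α x, y < r)
    (hW : WF b D d r e T H N z1 z2 cc l κ (lay D d H Yb z1 z2 kp) cls (Yx b D d γ N T H cls)
      (pm b D d γ N (lay D d H Yb z1 z2 kp) 3 0) (pm b D d γ N (lay D d H Yb z1 z2 kp) 4 0)
      (pat b D d γ) X w (pm b D d γ N (lay D d H Yb z1 z2 kp) T) α) :
    (∀ k < N, (κ * k + w k + 1) % b = 0 ∧ (κ * k * (1 + b) + w k + 1) % b ^ 2 = 0) ∧
    ∀ x < r, (∀ τ < T, (Loc b N κ w (κ * Yx b D d γ N T H cls x + X x) τ).length =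
        pos D d γ N (lay D d H Yb z1 z2 kp) τ (cls x) N) ∧
      (∀ s < e, (Fl b N κ w (Loc b N κ w (κ * Yx b D d γ N T H cls x + X x) T) s).length =
        Cs b cc s * (α x).length) ∧
      (Fl b N κ w (Loc b N κ w (κ * Yx b D d γ N T H cls x + X x) T) e).length + l = Cs b cc e * (α x).length ∧
      Fl b N κ w (Loc b N κ w (κ * Yx b D d γ N T H cls x + X x) T) (e + 1) = (List.range (α x).length).map
        (fun j => b ^ 2 * (1 + b * (κ * Yx b D d γ N T H cls ((α x).getD j 0) + X ((α x).getD j 0))) +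
          κ * (cc * j)) ∧
      (Loc b N κ w (κ * Yx b D d γ N T H cls x + X x) T).Pairwise (· < ·) ∧
      ∀ t ∈ Loc b N κ w (κ * Yx b D d γ N T H cls x + X x) T, t < κ * (b ^ e * l) := by
  have hb3 : 3 ≤ b := by
    rcases hp.hγ with ⟨_, h, _⟩ | ⟨_, h, _⟩ <;> omega
  have hD : 0 < D := by
    rcases hp.hγ with ⟨_, _, h⟩ | ⟨_, _, h⟩ <;> omega
  have hT6 : 6 ≤ T := by have := hp.hT; omega
  have hH := hp.hH0
  have hbT : 0 < b ^ T := Nat.pow_pos (by omega)
  obtain ⟨c1, c2, c3, c4, c5, c6⟩ := C11c b D d γ r e T H N z1 z2 Yb kp nG cc l cls hp hcls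
  have hsurv := c11_dvd b D d γ r e T H N z1 z2 Yb kp nG cc l κ cls X w α hp hcls hα hW
  have hlab : ∀ x < r, ∀ j < (α x).length, ∀ i < b * cc,
      (w (kc D d H z1 z2 (cls x) (rho H (Yx b D d γ N T H cls) α x j + i)) +
      κ * pm b D d γ N (lay D d H Yb z1 z2 kp) T (cls x)
        (kc D d H z1 z2 (cls x) (rho H (Yx b D d γ N T H cls) α x j + i)) + pat b D d γ (cls x)) % b ^ T = 0 := by
    intro x hx j hj i hi
    exact c11_lab _ _ _ _ _ (hW.x1 x hx) (hsurv x hx j hj i hi)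
  have htylt : ∀ k < N, lay D d H Yb z1 z2 kp k < D ^ d + 2 := fun k _ => lay_lt D d H Yb z1 z2 kp k hD hH
  have hNge : Yb * (z1 + z2 + D ^ d * H) ≤ N := by have := hp.hN; omega
  classical
  -- the survivor predicate
  let sv : ℕ → Bool := fun k => decide (∃ x < r, cls x + 2 = lay D d H Yb z1 z2 kp k ∧
    ∃ j < (α x).length, ∃ i < b * cc, k = kc D d H z1 z2 (cls x) (rho H (Yx b D d γ N T H cls) α x j + i))
  have hsvdef : ∀ k, sv k = true ↔ ∃ x < r, cls x + 2 = lay D d H Yb z1 z2 kp k ∧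
    ∃ j < (α x).length, ∃ i < b * cc,
      k = kc D d H z1 z2 (cls x) (rho H (Yx b D d γ N T H cls) α x j + i) := by
    intro k
    simp only [sv, decide_eq_true_eq]
  have hk : ∀ k < N, ∀ c, lay D d H Yb z1 z2 kp k = c + 2 →
      (w k + κ * pm b D d γ N (lay D d H Yb z1 z2 kp) T c k + pat b D d γ c) % b ^ T =
      if sv k then 0 else 2 * b ^ (T - 1) := by
    intro k hkN c hc
    by_cases hs : sv k = true
    · rw [if_pos hs]
      obtain ⟨x, hx, hcx, j, hj, i, hi, hkk⟩ := (hsvdef k).mp hs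
      have hcc : c = cls x := by omega
      subst hcc
      have := hlab x hx j hj i hi
      rw [← hkk] at this
      exact this
    · rw [if_neg hs]
      refine hW.kl k hkN c hc ?_
      rintro ⟨x, hx, hcx, j, hj, i, hi, hkk⟩
      apply hs
      rw [hsvdef]
      refine ⟨x, hx, by omega, j, hj, i, hi, ?_⟩
      rw [hcx]
      exact hkk
  have hpw := fun x (hx : x < r) => (hα x hx).2.1
  refine ⟨?_, ?_⟩
  · -- first claim
    intro k hkN
    have hlt := htylt k hkN
    have hb2T : b ^ 2 ∣ b ^ T := pow_dvd_pow b (by omega)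
    rcases Nat.lt_or_ge (lay D d H Yb z1 z2 kp k) 2 with hlt2 | hge2
    · rcases Nat.lt_or_ge (lay D d H Yb z1 z2 kp k) 1 with hlt1 | hge1
      · have h := hW.f1 k hkN (by omega)
        obtain ⟨q, hq⟩ := c11_pm_two b D d γ N (lay D d H Yb z1 z2 kp) 3 0 k (by norm_num)
        refine c11_first b κ k (w k) q 0 _ (c11_dvd_of_mod (b ^ 2) _ _ _
          (pow_dvd_pow b (by norm_num)) h (dvd_mul_of_dvd_right dvd_rfl 2)) ?_
        rw [hq, Nat.mul_zero, Nat.add_zero]
      · have h := hW.f2 k hkN (by omega)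
        obtain ⟨q, hq⟩ := c11_pm_two b D d γ N (lay D d H Yb z1 z2 kp) 4 0 k (by norm_num)
        refine c11_first b κ k (w k) q 0 _ (c11_dvd_of_mod (b ^ 2) _ _ _
          (pow_dvd_pow b (by norm_num)) h (dvd_mul_of_dvd_right (pow_dvd_pow b (by norm_num)) 2)) ?_
        rw [hq, Nat.mul_zero, Nat.add_zero]
    · obtain ⟨c, hc⟩ : ∃ c, lay D d H Yb z1 z2 kp k = c + 2 := ⟨lay D d H Yb z1 z2 kp k - 2, by omega⟩
      have h := hk k hkN c hc
      obtain ⟨q, hq⟩ := c11_pm_two b D d γ N (lay D d H Yb z1 z2 kp) T c k (by omega)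
      obtain ⟨q', hq'⟩ := c11_pat b D d γ c
      refine c11_first b κ k (w k) q q' _ (c11_dvd_of_mod (b ^ 2) _ _ _ hb2T h ?_) ?_
      · split_ifs
        · exact dvd_zero _
        · exact dvd_mul_of_dvd_right (pow_dvd_pow b (by omega)) 2
      · rw [hq, hq']
  · -- the letters
    intro x hx
    have hcx := (hcls x hx).1
    have hC3 := C3 b D d γ N κ T w (lay D d H Yb z1 z2 kp) sv hp.hγ hκ
      (by intro h; have := hp.hNb; rw [if_pos h] at this; exact this) hp.hT htylt hW.f1 hW.f2 hk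
      (by
        intro k hkN c h2 h3
        have hk' : k < Yb * (z1 + z2 + D ^ d * H) + kp * (D ^ d * H) + nG := by rw [← hp.hN]; exact hkN
        exact lay_dvd D d H Yb z1 z2 kp nG b hD hH hp.hH k hk' c h2 h3)
      (cls x) hcx (hcls x hx).2 (κ * Yx b D d γ N T H cls x + X x) (hW.x1 x hx)
    obtain ⟨hL1, hL2, hL3⟩ := hC3
    -- gaps
    have hY1 : ∀ y, 1 ≤ Yx b D d γ N T H cls y := fun y => c11_Y_pos b D d γ N T H cls y (by omega)
    have hgap : ∀ j, j + 1 < (α x).length → rho H (Yx b D d γ N T H cls) α x j + b * cc ≤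
        rho H (Yx b D d γ N T H cls) α x (j + 1) := by
      intro j hj
      have h1 := c11_getD_lt (α x) (hpw x hx) j hj
      have h2 : (α x).getD (j + 1) 0 < r := (hα x hx).2.2 _ (c11_getD_mem _ _ hj)
      have h3 := c1 _ h2 _ h1
      have h4 := hY1 ((α x).getD j 0)
      have h5 : H ≤ Yx b D d γ N T H cls ((α x).getD j 0) * H := Nat.le_mul_of_pos_left _ h4
      have h6 := hp.hrH
      unfold rho
      omega
    have hgap2 : ∀ j < (α x).length, rho H (Yx b D d γ N T H cls) α x j + b * cc ≤ Yb * H := by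
      intro j hj
      have h2 : (α x).getD j 0 < r := (hα x hx).2.2 _ (c11_getD_mem _ _ hj)
      have h3 := c2 _ h2
      unfold rho
      omega
    have hinj : ∀ y < r, cls y = cls x → y = x := by
      intro y hy hyx
      rcases Nat.lt_trichotomy y x with h | h | h
      · have := hcls2 x hx y h; omega
      · exact h
      · have := hcls2 y hy x h; omega
    have hflt := lay_surv D d H Yb z1 z2 kp (cls x) N (α x).length (b * cc)
      (fun j => rho H (Yx b D d γ N T H cls) α x j) sv hD hH hcx hNge hgap hgap2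
      (by
        intro k hkN hkc
        rw [hsvdef]
        constructor
        · rintro ⟨y, hy, hcy, j, hj, i, hi, hkk⟩
          have : y = x := hinj y hy (by omega)
          subst this
          exact ⟨j, hj, i, hi, hkk⟩
        · rintro ⟨j, hj, i, hi, hkk⟩
          exact ⟨x, hx, by omega, j, hj, i, hi, hkk⟩)
    set ζ := κ * Yx b D d γ N T H cls x + X x with hζ
    set P := pm b D d γ N (lay D d H Yb z1 z2 kp) T (cls x) with hP
    set Y := Yx b D d γ N T H cls with hYdef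
    have hflat : Loc b N κ w ζ T = (List.range (α x).length).flatMap (fun j => (List.range (b * cc)).map
        ((fun j i => (ζ + w (kc D d H z1 z2 (cls x) (rho H Y α x j + i)) +
          κ * P (kc D d H z1 z2 (cls x) (rho H Y α x j + i))) / b ^ T) j)) := by
      rw [hL2, hflt, List.map_flatMap]
      simp only [List.map_map, Function.comp_def]
    have hval : ∀ j < (α x).length, ∀ i < b * cc,
        b ^ T * ((ζ + w (kc D d H z1 z2 (cls x) (rho H Y α x j + i)) +
          κ * P (kc D d H z1 z2 (cls x) (rho H Y α x j + i))) / b ^ T) =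
        ζ + w (kc D d H z1 z2 (cls x) (rho H Y α x j + i)) +
          κ * P (kc D d H z1 z2 (cls x) (rho H Y α x j + i)) := by
      intro j hj i hi
      exact Nat.mul_div_cancel' (hsurv x hx j hj i hi)
    have hcc0 : 0 < b * cc := by
      rcases Nat.eq_zero_or_pos cc with h | h
      · have := hp.hl
        rw [h, Nat.mul_zero] at this
        omega
      · exact Nat.mul_pos (by omega) h
    have hC2 := C2 b N κ cc e l (α x).length w
      (fun j i => (ζ + w (kc D d H z1 z2 (cls x) (rho H Y α x j + i)) +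
          κ * P (kc D d H z1 z2 (cls x) (rho H Y α x j + i))) / b ^ T)
      (fun j => b ^ (e + 3) * (1 + b * (κ * Y ((α x).getD j 0) + X ((α x).getD j 0)))) hb3 hp.he hp.hl0 hp.hl
      (List.length_pos_iff.mpr (hα x hx).1)
      (by
        intro j hj
        have h := c11_val0 b D d γ r e T H N z1 z2 Yb kp nG cc l κ cls X w α hp hcls hα hW x hx j hj
        simp only [Nat.add_zero]
        exact Nat.div_eq_of_eq_mul_right hbT h)
      (by
        intro j _
        exact dvd_mul_of_dvd_left (pow_dvd_pow b (by omega)) _)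
      (by
        intro j hj i hi0 hi
        have h := hW.sv x hx j hj i hi hi0
        have hv := hval j hj i hi
        set δ := dst b cc e l (α x).length j i with hδ
        have e1 : ζ + w (kc D d H z1 z2 (cls x) (rho H Y α x j + i)) +
            κ * P (kc D d H z1 z2 (cls x) (rho H Y α x j + i)) + κ * b ^ T * ps b cc (δ + 1) j i =
            b ^ T * ((ζ + w (kc D d H z1 z2 (cls x) (rho H Y α x j + i)) +
          κ * P (kc D d H z1 z2 (cls x) (rho H Y α x j + i))) / b ^ T + κ * ps b cc (δ + 1) j i) := by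
          rw [Nat.mul_add, hv]
          ring
        rw [e1] at h
        have e2 : b ^ (T + δ + 1) = b ^ T * b ^ (δ + 1) := by rw [← pow_add, Nat.add_assoc]
        have e3 : 2 * b ^ (T + δ) = b ^ T * (2 * b ^ δ) := by rw [pow_add]; ring
        rw [e2, Nat.mul_mod_mul_left, e3] at h
        exact Nat.eq_of_mul_eq_mul_left hbT h)
    obtain ⟨hF1, hF2, hF3⟩ := hC2
    rw [← hflat] at hF1 hF2 hF3
    refine ⟨hL1, hF1, hF2, ?_, ?_, ?_⟩
    · rw [hF3]
      refine List.map_congr_left (fun j _ => ?_)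
      congr 1
      have e1 : b ^ (e + 3) * (1 + b * (κ * Y ((α x).getD j 0) + X ((α x).getD j 0))) =
        b ^ (e + 1) * (b ^ 2 * (1 + b * (κ * Y ((α x).getD j 0) + X ((α x).getD j 0)))) := by ring
      rw [e1]
      exact Nat.mul_div_cancel_left _ (Nat.pow_pos (by omega))
    · rw [hL2, List.pairwise_map]
      refine List.Pairwise.imp_of_mem ?_ (List.Pairwise.filter _ (List.pairwise_lt_range (n := N)))
      intro k k' hkm hkm' hkk
      rw [List.mem_filter, List.mem_range, Bool.and_eq_true, decide_eq_true_eq] at hkm hkm'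
      have d1 := hL3 k hkm.1 hkm.2.1 hkm.2.2
      have d2 := hL3 k' hkm'.1 hkm'.2.1 hkm'.2.2
      have h1 := hW.w1 k' hkm'.1 k hkk
      have h2 : P k ≤ P k' := c11_pm_mono b D d γ N _ T (cls x) k k' hkk.le
      have h3 : κ * P k ≤ κ * P k' := Nat.mul_le_mul_left _ h2
      refine Nat.div_lt_div_of_lt_of_dvd d2 ?_
      omega
    · intro t ht
      rw [hL2, List.mem_map] at ht
      obtain ⟨k, hkm, rfl⟩ := ht
      rw [List.mem_filter, List.mem_range, Bool.and_eq_true, decide_eq_true_eq] at hkm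
      have d1 := hL3 k hkm.1 hkm.2.1 hkm.2.2
      have h6 := c6 x hx k hkm.1.le
      have h2 := hW.w2 k hkm.1 x hx
      rw [Nat.div_lt_iff_lt_mul hbT]
      calc ζ + w k + κ * P k < κ * (Y x + P k + 1) := by rw [hζ]; nlinarith
        _ ≤ κ * (b ^ (T + e) * l) := Nat.mul_le_mul_left _ h6
        _ = κ * (b ^ e * l) * b ^ T := by rw [pow_add]; ring

end Pool.Agent.Helper231_T2

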