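import Mathlib
import Pool.Agent.Helper231_T2.Defs

set_option autoImplicit false

namespace Pool.Agent.Helper231_T2


/-
PLAIN PROOF. D = 2: cls x = 2^d - 1 - x (all conditions on digits are trivial). D = 3: let g : ℕ → ℕ → ℕ, g 0 y = 0,
g (n+1) y = 3 * g n (y/2) + 1 + y % 2 (ternary number with n+1 digits 1 + bits of y); for y < 2^n: g n y < 3^n, digits in {1,2}, strictly
increasing in y (for y < 2^n). cls x = g d (2^d - 1 - x). -/

/-- the ternary number with `n` digits one plus the last `n` bits of `y` -/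
def c6cg : ℕ → ℕ → ℕ
  | 0, _ => 0
  | n + 1, y => 3 * c6cg n (y / 2) + 1 + y % 2

theorem c6cg_lt : ∀ n y : ℕ, c6cg n y < 3 ^ n
  | 0, _ => by simp [c6cg]
  | n + 1, y => by
    have h1 := c6cg_lt n (y / 2)
    have h2 : y % 2 < 2 := Nat.mod_lt _ (by norm_num)
    rw [c6cg, pow_succ]
    omega

theorem c6cg_digit : ∀ n y j : ℕ, j < n → 1 ≤ c6cg n y / 3 ^ j % 3
  | 0, _, j, h => absurd h (Nat.not_lt_zero j)
  | n + 1, y, 0, _ => by
    have h2 : y % 2 < 2 := Nat.mod_lt _ (by norm_num)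
    rw [c6cg, pow_zero, Nat.div_one]
    omega
  | n + 1, y, j + 1, h => by
    have h1 := c6cg_digit n (y / 2) j (by omega)
    have h2 : y % 2 < 2 := Nat.mod_lt _ (by norm_num)
    have h3 : c6cg (n + 1) y / 3 ^ (j + 1) = c6cg n (y / 2) / 3 ^ j := by
      rw [pow_succ', ← Nat.div_div_eq_div_mul, c6cg]
      congr 1
      omega
    rw [h3]
    exact h1

theorem c6cg_mono : ∀ n y y' : ℕ, y < y' → y' < 2 ^ n → c6cg n y < c6cg n y'
  | 0, y, y', h, h' => by
    rw [pow_zero] at h'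
    omega
  | n + 1, y, y', h, h' => by
    have h2 : y % 2 < 2 := Nat.mod_lt _ (by norm_num)
    rw [pow_succ] at h'
    rw [c6cg, c6cg]
    rcases Nat.lt_or_ge (y / 2) (y' / 2) with h3 | h3
    · have h4 := c6cg_mono n (y / 2) (y' / 2) h3 (by omega)
      omega
    · have h4 : y / 2 = y' / 2 := le_antisymm (Nat.div_le_div_right h.le) h3
      rw [h4]
      omega

/-- TARGET: the classes of the letters -/
theorem C6c (D d r : ℕ) (hD : D = 2 ∨ D = 3) (hr : r ≤ 2 ^ d) :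
    ∃ cls : ℕ → ℕ, (∀ x < r, cls x < D ^ d ∧ ∀ i < d, D ≤ dg D d (cls x) i + 2) ∧
      ∀ x' < r, ∀ x < x', cls x' < cls x := by
  rcases hD with rfl | rfl
  · refine ⟨fun x => 2 ^ d - 1 - x, ?_, ?_⟩
    · intro x hx
      refine ⟨?_, fun i _ => by omega⟩
      show 2 ^ d - 1 - x < 2 ^ d
      omega
    · intro x' hx' x hx
      show 2 ^ d - 1 - x' < 2 ^ d - 1 - x
      omega
  · refine ⟨fun x => c6cg d (2 ^ d - 1 - x), ?_, ?_⟩
    · intro x hx
      refine ⟨c6cg_lt _ _, fun i hi => ?_⟩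
      have h1 := c6cg_digit d (2 ^ d - 1 - x) (d - 1 - i) (by omega)
      show 3 ≤ c6cg d (2 ^ d - 1 - x) / 3 ^ (d - 1 - i) % 3 + 2
      omega
    · intro x' hx' x hx
      show c6cg d (2 ^ d - 1 - x') < c6cg d (2 ^ d - 1 - x)
      exact c6cg_mono d _ _ (by omega) (by omega)

end Pool.Agent.Helper231_T2

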