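import Mathlib
import Pool.Agent.Helper231_T2.Defs

set_option autoImplicit false

namespace Pool.Agent.Helper231_T2


/-
PLAIN PROOF. (checked by a program, with slightly different constants) f1 = 1+b+b^2, f2 = f1+b^3 (f2 = 1 mod f1 since b^3-1 = (b-1)f1),
ω = 1+b^2*f1, q = 2^d, R = RR b T, (b-1)*R = b^T - 1.
Choose h with b^h ≥ 8*b^4*(r+3), H = b^h (h ≥ 1), e = h+d+10, T ≥ 2d+6 with R ≥ 8*H*Qb and R ≥ b^8 (R ≥ b^(T-1) ≥ T-1 .. any large T). S = T+e+4.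
cA ≤ q*R ≤ 2^d*b^T. So H*cA ≤ H*2^d*b^T ≤ b^(h+d+T) = b^(S-14), and M := b^S - H*cA ≥ b^S/2 ≥ f1*f2.
z2 := M % f1, z1 := (M - f2*z2)/f1 (exact, ≥ 0): z1*f1 + z2*f2 = M: this is hE1 (γ = 2).
nb := z1+z2+q*H; f1*nb ≤ M + f1*q*H ≤ 2*b^S, so nb ≤ 2*b^(S-2) (f1 ≥ b^2).  Yb := (r+1)*R, kp := 0.
μ := Yb*nb/b^(S-2) + 2 ≤ 2*Yb + 2, so l := μ + b^4*Yb ≤ 2*b^4*Yb = 2*b^4*(r+1)*R.   L := 4*b^3*(r+3)*R.  (b-1)*L ≥ 2*b^4*(r+3)*R > l since 4(b-1) ≥ 2b.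
V := μ*b^(S-2) - (2+b+Yb*nb) - L ≥ b^(S-2) - 2 - b - L ≥ b*ω, because μ*b^(S-2) ≥ Yb*nb + b^(S-2) and L ≤ H*R ≤ b^(h+T) ≤ b^(S-2)/4.
r0 := the number < b with b | r0 + Yb*nb; v := V/ω ≥ b; nG := v - ((v - r0) % b) (so v-b < nG ≤ v, nG = r0 mod b), cc := L + (V - ω*nG), so
L ≤ cc < L + b*ω and cc + 2 + b + Yb*nb + ω*nG = μ*b^(S-2). N := Yb*nb + nG = 0 mod b.
hE4: left side = cc+2+b+Yb*nb+nG + b^2*(f1*nG + Yb*(z1 f1 + z2 f2 + H cA)) = μ*b^(S-2) + b^2*Yb*b^S = b^(S-2)*(μ + b^4*Yb). (T+e+2 = S-2.)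
hY: b*cc ≤ b*L + b^2*ω = 4b^4(r+3)R + b^2 ω ≤ H*R/2 + b^2 ω, b^2*ω ≤ b^8 ≤ R ≤ H*R/8, H^2*Qb ≤ H*R/8. hNY: N ≥ Yb*nb ≥ Yb*H ≥ Yb*8b^4 ≥ b^2*(Yb+1). r ≤ H clear. -/

theorem C9a_RR (b T : ℕ) (hb : 4 ≤ b) : RR b T * (b - 1) + 1 = b ^ T := by
  obtain ⟨x, rfl⟩ : ∃ x, b = x + 1 := ⟨b - 1, by omega⟩
  rw [RR, Nat.add_sub_cancel]
  exact geom_sum_mul_add x T

theorem C9a_RR_ge (b T : ℕ) (hb : 4 ≤ b) : T ≤ RR b T := by
  rw [RR]
  calc T = ∑ τ ∈ Finset.range T, 1 := by simp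
    _ ≤ _ := Finset.sum_le_sum fun i _ => Nat.one_le_pow _ _ (by omega)

theorem C9a_RR_le (b T : ℕ) (hb : 4 ≤ b) : RR b T ≤ b ^ T := by
  rw [← C9a_RR b T hb]
  obtain ⟨x, rfl⟩ : ∃ x, b = x + 4 := ⟨b - 4, by omega⟩
  have : x + 4 - 1 = x + 3 := by omega
  rw [this]
  nlinarith [Nat.zero_le (RR (x + 4) T), Nat.zero_le (x * RR (x + 4) T)]

theorem C9a_cA (b d T : ℕ) : cA b 2 d T ≤ 2 ^ d * RR b T := by
  rw [cA, RR, Finset.mul_sum]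
  refine Finset.sum_le_sum fun i _ => Nat.mul_le_mul_right _ ?_
  exact Nat.pow_le_pow_right (by norm_num) (Nat.sub_le _ _)

/-- the division with the two coins `f1` and `b * f1 + 1` -/
theorem C9a_coins (b f1 M : ℕ) (hf : 0 < f1) (hM : b * f1 * f1 ≤ M) :
    ∃ z1 z2 : ℕ, z1 * f1 + z2 * (b * f1 + 1) = M := by
  refine ⟨M / f1 - b * (M % f1), M % f1, ?_⟩
  have h1 : M % f1 < f1 := Nat.mod_lt _ hf
  have h2 : b * f1 ≤ M / f1 := (Nat.le_div_iff_mul_le hf).2 hM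
  have h3 : b * (M % f1) ≤ M / f1 := (Nat.mul_le_mul_left b h1.le).trans h2
  obtain ⟨k, hk⟩ := Nat.exists_eq_add_of_le h3
  have h4 := Nat.div_add_mod M f1
  have h5 : M / f1 - b * (M % f1) = k := by omega
  rw [h5]
  calc k * f1 + M % f1 * (b * f1 + 1) = f1 * (b * (M % f1) + k) + M % f1 := by ring
    _ = f1 * (M / f1) + M % f1 := by rw [hk]
    _ = M := h4

/-- the choice of `nG` -/
theorem C9a_nG (b w V X : ℕ) (hb : 0 < b) (hw : 0 < w) (hV : b * w ≤ V) :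
    ∃ nG c0 : ℕ, (X + nG) % b = 0 ∧ c0 + w * nG = V ∧ c0 < b * w := by
  have hr : ∃ r0, r0 < b ∧ (X + r0) % b = 0 := by
    refine ⟨(b - X % b) % b, Nat.mod_lt _ hb, ?_⟩
    have h1 : X % b < b := Nat.mod_lt _ hb
    rw [Nat.add_mod, Nat.mod_mod]
    rcases Nat.eq_zero_or_pos (X % b) with h0 | h0
    · rw [h0]; simp
    · rw [Nat.mod_eq_of_lt (a := b - X % b) (by omega)]
      have : X % b + (b - X % b) = b := by omega
      rw [this, Nat.mod_self]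
  obtain ⟨r0, hr0, hr1⟩ := hr
  have hv : b ≤ V / w := (Nat.le_div_iff_mul_le hw).2 hV
  obtain ⟨k, hk⟩ := Nat.exists_eq_add_of_le (hr0.le.trans hv)
  have h1 := Nat.div_add_mod k b
  have h2 := Nat.div_add_mod V w
  have h3 : V % w < w := Nat.mod_lt _ hw
  have h4 : k % b < b := Nat.mod_lt _ hb
  refine ⟨r0 + b * (k / b), V % w + w * (k % b), ?_, ?_, ?_⟩
  · rw [← add_assoc, Nat.add_mul_mod_self_left, hr1]
  · calc V % w + w * (k % b) + w * (r0 + b * (k / b)) = w * (r0 + (b * (k / b) + k % b)) + V % w := by ring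
      _ = w * (V / w) + V % w := by rw [h1, ← hk]
      _ = V := h2
  · have h5 : k % b + 1 ≤ b := h4
    calc V % w + w * (k % b) < w + w * (k % b) := by omega
      _ = w * (k % b + 1) := by ring
      _ ≤ w * b := Nat.mul_le_mul_left w h5
      _ = b * w := by ring

/-- TARGET -/
theorem C9a (b d r : ℕ) (hb : 4 ≤ b) :
    ∃ e T H N z1 z2 Yb kp nG cc l, Par b 2 d 2 r e T H N z1 z2 Yb kp nG cc l := by
  -- the parameters
  obtain ⟨h, hh⟩ : ∃ h, h = 8 * b ^ 4 * (r + 3) := ⟨_, rfl⟩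
  have hb0 : 0 < b := by omega
  have hb4 : 1 ≤ b ^ 4 := Nat.one_le_pow _ _ hb0
  have hh1 : 1 ≤ h := by rw [hh]; exact Nat.one_le_iff_ne_zero.2 (by positivity)
  obtain ⟨H, hH⟩ : ∃ H, H = b ^ h := ⟨_, rfl⟩
  have hHge : 8 * b ^ 4 * (r + 3) ≤ H := by
    rw [hH, ← hh]; exact (Nat.lt_pow_self (by omega)).le
  obtain ⟨T, hT⟩ : ∃ T, T = 2 * d + 6 + 8 * (H * Qb b 2 d) + b ^ 8 := ⟨_, rfl⟩
  obtain ⟨R, hR⟩ : ∃ R, R = RR b T := ⟨_, rfl⟩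
  have hRT : T ≤ R := by rw [hR]; exact C9a_RR_ge b T hb
  have hR1 : 8 * (H * Qb b 2 d) ≤ R := by omega
  have hR2 : b ^ 8 ≤ R := by omega
  have hRle : R ≤ b ^ T := by rw [hR]; exact C9a_RR_le b T hb
  have hcA : cA b 2 d T ≤ 2 ^ d * R := by rw [hR]; exact C9a_cA b d T
  obtain ⟨c, hc⟩ : ∃ c, c = cA b 2 d T := ⟨_, rfl⟩
  rw [← hc] at hcA
  obtain ⟨Z, hZ⟩ : ∃ Z, Z = b ^ (h + d + T) := ⟨_, rfl⟩
  have hZ1 : 1 ≤ Z := by rw [hZ]; exact Nat.one_le_pow _ _ hb0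
  obtain ⟨W, hW⟩ : ∃ W, W = b ^ (T + (h + d + 10) + 2) := ⟨_, rfl⟩
  have hWZ : W = b ^ 12 * Z := by rw [hW, hZ, ← pow_add]; congr 1; ring
  have hS : b ^ (T + (h + d + 10) + 4) = b ^ 2 * W := by rw [hW, ← pow_add]; congr 1; ring
  have h2d : 2 ^ d ≤ b ^ d := Nat.pow_le_pow_left (by omega) d
  have hHc : H * c ≤ Z := by
    calc H * c ≤ b ^ h * (b ^ d * b ^ T) := by
          rw [hH]
          exact Nat.mul_le_mul_left _ (hcA.trans (Nat.mul_le_mul h2d hRle))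
      _ = Z := by rw [hZ, ← pow_add, ← pow_add]; congr 1; ring
  have hqH : 2 ^ d * H ≤ Z := by
    calc 2 ^ d * H ≤ b ^ d * b ^ h * 1 := by
          rw [hH, mul_one]; exact Nat.mul_le_mul_right _ h2d
      _ ≤ b ^ d * b ^ h * b ^ T := Nat.mul_le_mul_left _ (Nat.one_le_pow _ _ hb0)
      _ = Z := by rw [hZ, ← pow_add, ← pow_add]; congr 1; ring
  have hHR : H * R ≤ Z := by
    calc H * R ≤ b ^ h * b ^ T * 1 := by
          rw [hH, mul_one]; exact Nat.mul_le_mul_left _ hRle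
      _ ≤ b ^ h * b ^ T * b ^ d := Nat.mul_le_mul_left _ (Nat.one_le_pow _ _ hb0)
      _ = Z := by rw [hZ, ← pow_add, ← pow_add]; congr 1; ring
  -- powers of `b`
  have p2 : b * 4 ≤ b ^ 2 := by rw [pow_two]; exact Nat.mul_le_mul_left b hb
  have p3 : b ^ 2 * 4 ≤ b ^ 3 := by rw [pow_succ b 2]; exact Nat.mul_le_mul_left _ hb
  have p4 : b ^ 3 * 4 ≤ b ^ 4 := by rw [pow_succ b 3]; exact Nat.mul_le_mul_left _ hb
  have p5 : b ^ 4 * 4 ≤ b ^ 5 := by rw [pow_succ b 4]; exact Nat.mul_le_mul_left _ hb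
  have p6 : b ^ 5 * 4 ≤ b ^ 6 := by rw [pow_succ b 5]; exact Nat.mul_le_mul_left _ hb
  have p7 : b ^ 6 * 4 ≤ b ^ 7 := by rw [pow_succ b 6]; exact Nat.mul_le_mul_left _ hb
  have p8 : b ^ 7 * 4 ≤ b ^ 8 := by rw [pow_succ b 7]; exact Nat.mul_le_mul_left _ hb
  have p12 : b ^ 8 ≤ b ^ 12 := Nat.pow_le_pow_right hb0 (by norm_num)
  obtain ⟨f, hf⟩ : ∃ f, f = 1 + b + b ^ 2 := ⟨_, rfl⟩
  have hf2 : f ≤ 2 * b ^ 2 := by omega
  have hf2' : b ^ 2 ≤ f := by omega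
  have hf0 : 0 < f := by omega
  have hF2 : 1 + b + b ^ 2 + b ^ 3 = b * f + 1 := by rw [hf]; ring
  -- the mass
  obtain ⟨M, hM⟩ : ∃ M, M + H * c = b ^ 2 * W := by
    refine ⟨b ^ 2 * W - H * c, Nat.sub_add_cancel ?_⟩
    rw [hWZ]
    have : 1 * Z ≤ b ^ 2 * b ^ 12 * Z := Nat.mul_le_mul_right _ (Nat.one_le_iff_ne_zero.2 (by positivity))
    calc H * c ≤ Z := hHc
      _ ≤ _ := by rw [← mul_assoc]; omega
  have hWb : b ^ 8 * Z ≤ W := by rw [hWZ]; exact Nat.mul_le_mul_right _ p12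
  have hWb' : b ^ 8 ≤ W := le_trans (Nat.le_mul_of_pos_right _ hZ1) hWb
  have hZW : 4 * Z ≤ W := by
    refine le_trans (Nat.mul_le_mul_right _ ?_) hWb
    omega
  have hW2 : W ≤ b ^ 2 * W := Nat.le_mul_of_pos_left _ (by positivity)
  have hMW : b * f * f ≤ M := by
    have e1 : b * f * f ≤ b * (2 * b ^ 2) * (2 * b ^ 2) := by gcongr
    have e2 : b * (2 * b ^ 2) * (2 * b ^ 2) = 4 * b ^ 5 := by ring
    omega
  obtain ⟨z1, z2, hz⟩ := C9a_coins b f M hf0 hMW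
  obtain ⟨nb, hnb⟩ : ∃ nb, nb = z1 + z2 + 2 ^ d * H := ⟨_, rfl⟩
  have hnbW : nb ≤ 2 * W := by
    have e1 : b ^ 2 * nb ≤ b ^ 2 * (2 * W) := by
      have e2 : b ^ 2 * z1 ≤ z1 * f := by rw [mul_comm]; exact Nat.mul_le_mul_left _ hf2'
      have e3 : b ^ 2 * z2 ≤ z2 * (b * f + 1) := by
        have : b ^ 2 ≤ b * f + 1 :=
          hf2'.trans ((Nat.le_mul_of_pos_left f hb0).trans (Nat.le_succ _))
        rw [mul_comm]; exact Nat.mul_le_mul_left _ this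
      have e4 : b ^ 2 * (2 ^ d * H) ≤ b ^ 2 * Z := Nat.mul_le_mul_left _ hqH
      have e5 : b ^ 2 * Z ≤ b ^ 2 * W := Nat.mul_le_mul_left _ (by omega)
      rw [hnb]
      calc b ^ 2 * (z1 + z2 + 2 ^ d * H) = b ^ 2 * z1 + b ^ 2 * z2 + b ^ 2 * (2 ^ d * H) := by ring
        _ ≤ M + b ^ 2 * W := by omega
        _ ≤ b ^ 2 * W + b ^ 2 * W := by omega
        _ = b ^ 2 * (2 * W) := by ring
    exact Nat.le_of_mul_le_mul_left e1 (by positivity)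
  obtain ⟨Y, hY⟩ : ∃ Y, Y = (r + 1) * R := ⟨_, rfl⟩
  have hR0 : 1 ≤ R := by
    have : 1 ≤ b ^ 8 := Nat.one_le_pow _ _ hb0
    omega
  have hY1 : 1 ≤ Y := by rw [hY]; exact Nat.mul_pos (Nat.succ_pos r) hR0
  have hW0 : 0 < W := by
    have : 1 ≤ b ^ 8 := Nat.one_le_pow _ _ hb0
    omega
  obtain ⟨μ, hμ⟩ : ∃ μ, μ = Y * nb / W + 2 := ⟨_, rfl⟩
  have hμ1 : μ ≤ 2 * Y + 2 := by
    have : Y * nb / W ≤ 2 * Y := by
      refine Nat.div_le_of_le_mul ?_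
      calc Y * nb ≤ Y * (2 * W) := Nat.mul_le_mul_left _ hnbW
        _ = W * (2 * Y) := by ring
    omega
  have hμ2 : Y * nb + W ≤ μ * W := by
    have e1 := Nat.lt_div_mul_add (a := Y * nb) hW0
    have e2 : (Y * nb / W + 2) * W = Y * nb / W * W + W + W := by ring
    rw [hμ, e2]
    omega
  obtain ⟨L, hL⟩ : ∃ L, L = 4 * b ^ 3 * (r + 3) * R := ⟨_, rfl⟩
  have hL1 : 2 * (b * L) ≤ H * R := by
    calc 2 * (b * L) = 8 * b ^ 4 * (r + 3) * R := by rw [hL]; ring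
      _ ≤ H * R := Nat.mul_le_mul_right _ hHge
  have hLZ : L ≤ Z := by
    have e1 : L ≤ b * L := Nat.le_mul_of_pos_left _ hb0
    omega
  obtain ⟨w, hw⟩ : ∃ w, w = 1 + b ^ 2 * f := ⟨_, rfl⟩
  have hw0 : 0 < w := by omega
  have hw1 : w ≤ b ^ 5 := by
    have : b ^ 2 * f ≤ b ^ 2 * (2 * b ^ 2) := Nat.mul_le_mul_left _ hf2
    have e : b ^ 2 * (2 * b ^ 2) = 2 * b ^ 4 := by ring
    omega
  have hbw : b * w ≤ b ^ 6 := by
    calc b * w ≤ b * b ^ 5 := Nat.mul_le_mul_left _ hw1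
      _ = b ^ 6 := by ring
  obtain ⟨V, hV⟩ : ∃ V, V + (2 + b + Y * nb) + L = μ * W := by
    refine ⟨μ * W - (2 + b + Y * nb) - L, ?_⟩
    omega
  have hVb : b * w ≤ V := by omega
  obtain ⟨nG, c0, hn1, hn2, hn3⟩ := C9a_nG b w V (Y * nb) hb0 hw0 hVb
  obtain ⟨l, hl⟩ : ∃ l, l = μ + b ^ 4 * Y := ⟨_, rfl⟩
  refine ⟨h + d + 10, T, H, Y * nb + nG, z1, z2, Y, 0, nG, L + c0, l, ?_⟩
  have hcond : ((2 : ℕ) = 1) = False := by simp
  refine ⟨Or.inr ⟨rfl, hb, rfl⟩, by omega, by omega, ?_, ?_, ?_, ?_, ?_, ?_, ?_, ?_, ?_, ?_, ?_, ?_⟩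
  · rw [hH]; exact dvd_pow_self b (by omega)
  · rw [hH]; positivity
  · refine le_trans (le_trans (Nat.le_add_right r 3) ?_) hHge
    exact Nat.le_mul_of_pos_left _ (by positivity)
  · rw [hn1]; simp
  · rw [← hnb]; ring
  · rw [hS, ← hc, ← hf]
    have : f + b ^ 3 = b * f + 1 := by rw [← hF2, hf]
    rw [this]
    simp only [hcond, if_false, add_zero]
    omega
  · rw [← hW, ← hc, ← hf]
    have : f + b ^ 3 = b * f + 1 := by rw [← hF2, hf]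
    rw [this]
    simp only [hcond, if_false, add_zero]
    calc L + c0 + 2 + b + (Y * nb + nG) + b ^ 2 * ((Y * z1 + nG) * f + Y * z2 * (b * f + 1) +
          Y * H * c) = (c0 + (1 + b ^ 2 * f) * nG) + (2 + b + Y * nb) + L +
          b ^ 2 * Y * ((z1 * f + z2 * (b * f + 1)) + H * c) := by ring
      _ = V + (2 + b + Y * nb) + L + b ^ 2 * Y * (b ^ 2 * W) := by rw [hz, hM, ← hw, hn2]
      _ = μ * W + b ^ 2 * Y * (b ^ 2 * W) := by rw [hV]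
      _ = W * l := by rw [hl]; ring
  · have h2μ : 2 ≤ μ := by rw [hμ]; exact Nat.le_add_left _ _
    rw [hl]
    exact lt_of_lt_of_le (by norm_num) (h2μ.trans (Nat.le_add_right _ _))
  · have e1 : l ≤ 2 * b ^ 4 * Y := by
      have : 4 * Y ≤ b ^ 4 * Y := Nat.mul_le_mul_right _ (by omega)
      have e5 : 2 * b ^ 4 * Y = b ^ 4 * Y + b ^ 4 * Y := by ring
      rw [hl, e5]
      omega
    have e2 : 2 * b ^ 4 * Y < (b - 1) * L := by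
      obtain ⟨x, hx⟩ : ∃ x, b = x + 1 := ⟨b - 1, by omega⟩
      have e3 : b ≤ 2 * (b - 1) := by omega
      calc 2 * b ^ 4 * Y = 2 * b ^ 3 * b * ((r + 1) * R) := by rw [hY]; ring
        _ < 2 * b ^ 3 * b * ((r + 3) * R) := by
            refine Nat.mul_lt_mul_of_pos_left ?_ (by positivity)
            exact Nat.mul_lt_mul_of_pos_right (by omega) hR0
        _ ≤ 2 * b ^ 3 * (2 * (b - 1)) * ((r + 3) * R) := by gcongr
        _ = (b - 1) * L := by rw [hL]; ring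
    calc l < (b - 1) * L := lt_of_le_of_lt e1 e2
      _ ≤ (b - 1) * (L + c0) := Nat.mul_le_mul_left _ (Nat.le_add_right _ _)
  · rw [← hR]
    have e1 : b * c0 ≤ b ^ 7 := by
      calc b * c0 ≤ b * (b * w) := Nat.mul_le_mul_left _ hn3.le
        _ ≤ b * b ^ 6 := Nat.mul_le_mul_left _ hbw
        _ = b ^ 7 := by ring
    have e2 : 8 * (H ^ 2 * Qb b 2 d) ≤ H * R := by
      calc 8 * (H ^ 2 * Qb b 2 d) = H * (8 * (H * Qb b 2 d)) := by ring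
        _ ≤ H * R := Nat.mul_le_mul_left _ hR1
    have e3 : 8 * R ≤ H * R := by
      refine Nat.mul_le_mul_right _ (le_trans ?_ hHge)
      have e5 : 1 ≤ b ^ 4 * (r + 3) := Nat.one_le_iff_ne_zero.2 (by positivity)
      calc 8 = 8 * 1 := rfl
        _ ≤ 8 * (b ^ 4 * (r + 3)) := Nat.mul_le_mul_left _ e5
        _ = 8 * b ^ 4 * (r + 3) := by ring
    have e4 : b * (L + c0) = b * L + b * c0 := by ring
    rw [e4]
    omega
  · rw [← hR, hY]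
  · have e1 : Y * H ≤ Y * nb := by
      refine Nat.mul_le_mul_left _ ?_
      rw [hnb]
      have : 1 * H ≤ 2 ^ d * H := Nat.mul_le_mul_right _ (Nat.one_le_pow _ _ (by norm_num))
      omega
    have e2 : Y * (8 * b ^ 4 * (r + 3)) ≤ Y * H := Nat.mul_le_mul_left _ hHge
    have e3 : b ^ 2 * (Y + 1) ≤ Y * (8 * b ^ 4 * (r + 3)) := by
      have e5 : b ^ 2 ≤ b ^ 4 := by omega
      calc b ^ 2 * (Y + 1) ≤ b ^ 4 * (Y + Y) := Nat.mul_le_mul e5 (by omega)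
        _ = Y * (2 * b ^ 4 * 1) := by ring
        _ ≤ Y * (8 * b ^ 4 * (r + 3)) := by gcongr <;> omega
    omega

end Pool.Agent.Helper231_T2

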