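import Mathlib
import Pool.Agent.Helper231_T2.Defs

set_option autoImplicit false

namespace Pool.Agent.Helper231_T2


/-
PLAIN PROOF. q = 3^d, c2 = cB 3 3 d ≥ 1 (d ≥ 1), R = RR 3 T = (3^T-1)/2, 13 = 1+3+9, 40 = 13+27 = 1 mod 13.
H1 := 90000*(r+1), H := 12*H1 (3 | H), Q := Qb 3 3 d.
e is chosen so large that with M0 := 3^e / (H1*c2*(r+1)) (floor) the following hold (all say: 3^e ≥ a constant depending on d, r):
 M0 ≥ 1, 3^e ≤ 2*M0*H1*c2*(r+1), 3*H*c2 ≤ M0, 520 ≤ M0, 60*q*H ≤ M0, (r+1)*q*H^2*c2 ≤ 10*3^e, 3^e ≥ H*q, and what is needed below.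
T is chosen so large (R ≥ anything depending on d,r,e): T ≥ 2d+6, R ≥ 18*M0 + 117*q*H + 4*H*Q + 81*... .
S = T+e+4, t = 3^T, so t = 2R+1, 3^S = 81*3^e*t. cA ≤ q*R, so H*cA ≤ H*q*t/2 ≤ 3^S/162.
N := the largest number = 1 mod 3 with H*(cA + N*c2) ≤ 3^S - M0: N0 := (3^S - M0 - H*cA)/(H*c2), N := N0 - ((N0 + 2) % 3).
M := 3^S - H*(cA + N*c2), so M0 ≤ M < M0 + 3*H*c2 ≤ 2*M0. z2 := M % 13, z1 := (M - 40*z2)/13 (exact, M ≥ 520). hE1 holds. nb := z1+z2+q*H, 13*nb ≤ M + 13*q*H.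
Yb := (r+1)*R.  Step := 9*M + 117*q*H ≤ H1*R =: L (T large).   U := 118*N + 5 - 117*Yb*nb (≥ 0 if Yb*nb ≤ N).
kp := least number with kp*Step ≥ U + L; cc := kp*Step - U, so L ≤ cc < L + Step ≤ 2L.   l := 81*(Yb+kp), nG := N - Yb*nb - kp*q*H.
hE4: with 13 z1 + 40 z2 = M, H*(cA+N*c2) = 3^S - M: left side = cc+5+N+9*(13*nG + Yb*M + (Yb+kp)*(3^S - M)) = cc+5+118N-117 Yb nb-kp*(117qH+9M)+9(Yb+kp)3^S
 = 9*(Yb+kp)*3^S = 3^(S-2)*81*(Yb+kp).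
hY: 3cc + H^2*Q ≤ 6L + H^2*Q = H*R/2 + H^2 Q ≤ H*R if R ≥ 2*H*Q.
Sizes: N ≤ 3^S/(H c2) = 81*3^e*t/(H c2); N ≥ 40*3^e*t/(H c2) (since M0 + H cA ≤ 3^S/3 and N ≥ N0 - 2).
 Yb*nb ≤ N/4: Yb*nb ≤ (r+1)*(t/2)*(2M0/13 + qH), and (r+1)*(2M0/13)*H*c2 = (24/13)*(r+1)*M0*H1*c2 ≤ (24/13)*3^e, (r+1) q H^2 c2 ≤ 10*3^e: so
   4*Yb*nb*H*c2 ≤ 2t*(1.85+10)*3^e = 23.7*3^e*t ≤ 40*3^e*t ≤ N*H*c2.
 kp ≤ (U+L)/Step + 1 ≤ (118N+5+L)/(9*M0) + 1.
 hl: need 81*(r+1)*R + 81*kp < 2*cc, enough < 2*L = 2*H1*R: 81*(r+1) ≤ H1/2 clear; 81*kp ≤ H1*R: 118*81*N/(9 M0) ≤ 118*9*81*3^e*t/(H*c2*M0) = 86022*3^e*t/(12*H1*c2*M0)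
    ≤ 86022*t*2*(r+1)/12 (3^e ≤ 2 M0 H1 c2 (r+1)) ≤ 14400*(r+1)*t ≤ 0.17*H1*t ≤ 0.4*H1*R; the rest 81*(5+L)/(9 M0) + 81 ≤ 0.1*H1*R for M0 large, R large.
 nG ≥ 0: kp*q*H ≤ N/2: 118*N*q*H/(9*M0) ≤ N/4 as M0 ≥ 60*q*H; (5+L)*q*H/(9*M0) ≤ (5+L)/540 ≤ N/8: N ≥ 40*3^e*t/(H c2) and L ≤ H1*t/2: e large; q*H ≤ N/8: T large.
 hNY: 9*(Yb+1) ≤ N: Yb+1 ≤ (r+1)*t, N ≥ 40*3^e*t/(H c2): e large.
You may choose other constants, or a different order of choices, if it is simpler. (Any parameters satisfying Par are fine.) -/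

theorem C9b_exN (G X : ℕ) (hG : 0 < G) (hX : 3 * G ≤ X) :
    ∃ N, N % 3 = 1 ∧ G * N ≤ X ∧ X < G * (N + 3) := by
  have h1 : 3 ≤ X / G := by
    rw [Nat.le_div_iff_mul_le hG]; linarith
  have h2 : G * (X / G) ≤ X := Nat.mul_div_le X G
  have h3 : X < G * (X / G + 1) := by
    have := Nat.lt_mul_div_succ X hG
    simpa using this
  refine ⟨X / G - (X / G + 2) % 3, ?_, ?_, ?_⟩
  · omega
  · exact (Nat.mul_le_mul_left G (by omega)).trans h2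
  · exact lt_of_lt_of_le h3 (Nat.mul_le_mul_left G (by omega))

theorem C9b_core (q c2 Q r R A E M0 : ℕ) (hq : 1 ≤ q) (hc2 : 1 ≤ c2)
    (h2 : M0 * ((90000 * (r + 1)) * c2 * (r + 1)) ≤ E)
    (h3 : E ≤ 2 * M0 * ((90000 * (r + 1)) * c2 * (r + 1)))
    (h4 : 520 + 3 * ((12 * (90000 * (r + 1))) * c2) + 118 * (q * (12 * (90000 * (r + 1)))) ≤ M0)
    (h6 : A ≤ q * R)
    (h9 : 2 * ((12 * (90000 * (r + 1))) * Q) + 18 * M0 + 117 * (q * (12 * (90000 * (r + 1)))) + 200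
      ≤ R) :
    ∃ H N z1 z2 Yb kp nG cc l : ℕ, 3 ∣ H ∧ 0 < H ∧ r ≤ H ∧ N % 3 = 1 ∧
      N = Yb * (z1 + z2 + q * H) + kp * (q * H) + nG ∧
      13 * z1 + 40 * z2 + H * (A + N * c2) = 81 * E * (2 * R + 1) ∧
      cc + 5 + N + 9 * (13 * (Yb * z1 + nG) + 40 * (Yb * z2) + (Yb + kp) * (H * (A + N * c2)))
        = 9 * E * (2 * R + 1) * l ∧
      0 < l ∧ l < 2 * cc ∧ 3 * cc + H * (H * Q) ≤ H * R ∧ (r + 1) * R ≤ Yb ∧ 9 * (Yb + 1) ≤ N := by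
  obtain ⟨r1, hr1⟩ : ∃ r1, r1 = r + 1 := ⟨_, rfl⟩
  rw [← hr1] at h2 h3 h4 h9
  have hr1p : 1 ≤ r1 := by omega
  obtain ⟨H1, hH1⟩ : ∃ H1, H1 = 90000 * r1 := ⟨_, rfl⟩
  rw [← hH1] at h2 h3 h4 h9
  obtain ⟨H, hH⟩ : ∃ H, H = 12 * H1 := ⟨_, rfl⟩
  rw [← hH] at h4 h9
  obtain ⟨K, hK⟩ : ∃ K, K = H1 * c2 * r1 := ⟨_, rfl⟩
  rw [← hK] at h2 h3
  obtain ⟨G, hG⟩ : ∃ G, G = H * c2 := ⟨_, rfl⟩
  rw [← hG] at h4
  obtain ⟨P, hP⟩ : ∃ P, P = q * H := ⟨_, rfl⟩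
  rw [← hP] at h4 h9
  have hH1p : 90000 ≤ H1 := by omega
  have hHp : 1 ≤ H := by omega
  have hPp : 1 ≤ P := by rw [hP]; exact Nat.mul_pos hq hHp
  have hGp : 1 ≤ G := by rw [hG]; exact Nat.mul_pos hHp hc2
  have hKH1 : H1 ≤ K := by
    rw [hK, mul_assoc]; exact Nat.le_mul_of_pos_right _ (Nat.mul_pos hc2 hr1p)
  have hKp : 1 ≤ K := by omega
  have hM0E : M0 ≤ E := (Nat.le_mul_of_pos_right M0 hKp).trans h2
  have hGM : 3 * G ≤ M0 := by omega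
  have hPM : 118 * P ≤ M0 := by omega
  have hR : 200 ≤ R := by omega
  -- H * A ≤ E * R
  have hHA : H * A ≤ E * R := by
    calc H * A ≤ H * (q * R) := Nat.mul_le_mul_left _ h6
      _ = P * R := by rw [hP]; ring
      _ ≤ E * R := Nat.mul_le_mul_right _ (by omega)
  have h2E : 2 * E ≤ E * R := by
    rw [mul_comm 2 E]; exact Nat.mul_le_mul_left _ (by omega)
  -- the total
  obtain ⟨W, hW⟩ : ∃ W, W = 81 * E * (2 * R + 1) := ⟨_, rfl⟩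
  have hW1 : W = 162 * (E * R) + 81 * E := by rw [hW]; ring
  have hX : 3 * G ≤ W - M0 - H * A := by omega
  obtain ⟨N, hN3, hN1, hN2⟩ := C9b_exN G (W - M0 - H * A) hGp hX
  obtain ⟨M, hM⟩ : ∃ M, M + H * A + G * N = W := ⟨W - H * A - G * N, by omega⟩
  have hM1 : M0 ≤ M := by omega
  have hM2 : M ≤ 2 * M0 := by
    have : G * (N + 3) = G * N + 3 * G := by ring
    omega
  obtain ⟨z1, z2, hz⟩ : ∃ z1 z2, 13 * z1 + 40 * z2 = M :=
    ⟨M / 13 - 3 * (M % 13), M % 13, by omega⟩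
  -- lower bound of N
  have hGN : 160 * (E * R) ≤ G * N := by omega
  -- Yb
  obtain ⟨Yb, hYb⟩ : ∃ Yb, Yb = r1 * R := ⟨_, rfl⟩
  obtain ⟨nb, hnb⟩ : ∃ nb, nb = z1 + z2 + P := ⟨_, rfl⟩
  have hnb1 : 13 * nb ≤ 2 * M0 + 13 * P := by omega
  have hPK : 118 * (P * K) ≤ E := by
    calc 118 * (P * K) = (118 * P) * K := by ring
      _ ≤ M0 * K := Nat.mul_le_mul_right _ hPM
      _ ≤ E := h2
  have hYn : 4 * (Yb * nb) ≤ N := by
    have e1 : G * (13 * (4 * (Yb * nb))) ≤ G * (13 * N) := by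
      calc G * (13 * (4 * (Yb * nb))) = 4 * (r1 * R * G) * (13 * nb) := by rw [hYb]; ring
        _ ≤ 4 * (r1 * R * G) * (2 * M0 + 13 * P) := Nat.mul_le_mul_left _ hnb1
        _ = R * (96 * (M0 * K) + 624 * (P * K)) := by rw [hG, hH, hK]; ring
        _ ≤ R * (96 * E + 6 * E) := by
            apply Nat.mul_le_mul_left
            have : 96 * (M0 * K) ≤ 96 * E := Nat.mul_le_mul_left _ h2
            omega
        _ = 102 * (E * R) := by ring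
        _ ≤ 13 * (G * N) := by omega
        _ = G * (13 * N) := by ring
    have e2 := Nat.le_of_mul_le_mul_left e1 hGp
    omega
  -- L
  obtain ⟨L, hL⟩ : ∃ L, L = H1 * R := ⟨_, rfl⟩
  have hLN : 480 * L ≤ N := by
    have e1 : 3 * (G * H1) ≤ E := by
      calc 3 * (G * H1) = (3 * G) * H1 := by ring
        _ ≤ M0 * K := Nat.mul_le_mul hGM hKH1
        _ ≤ E := h2
    have e2 : G * (480 * L) ≤ G * N := by
      calc G * (480 * L) = 160 * ((3 * (G * H1)) * R) := by rw [hL]; ring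
        _ ≤ 160 * (E * R) := Nat.mul_le_mul_left _ (Nat.mul_le_mul_right _ e1)
        _ ≤ G * N := hGN
    exact Nat.le_of_mul_le_mul_left e2 hGp
  have hLR : 90000 * (r1 * R) = L := by rw [hL, hH1]; ring
  have hRr : R ≤ r1 * R := Nat.le_mul_of_pos_left _ hr1p
  -- Step
  obtain ⟨St, hSt⟩ : ∃ St, St = 9 * M + 117 * P := ⟨_, rfl⟩
  have hStL : St ≤ L := by omega
  have hStp : 0 < St := by omega
  obtain ⟨U, hU⟩ : ∃ U, U + 117 * (Yb * nb) = 118 * N + 5 :=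
    ⟨118 * N + 5 - 117 * (Yb * nb), by omega⟩
  obtain ⟨k, hk⟩ : ∃ k, k = (U + L) / St := ⟨_, rfl⟩
  have hk1 : St * k ≤ U + L := by rw [hk]; exact Nat.mul_div_le _ _
  have hk2 : U + L < St * (k + 1) := by
    rw [hk]; have := Nat.lt_mul_div_succ (U + L) hStp; simpa using this
  have hk3 : St * (k + 1) = St * k + St := by ring
  obtain ⟨cc, hcc⟩ : ∃ cc, cc + U = St * (k + 1) := ⟨St * (k + 1) - U, by omega⟩
  have hcc1 : L < cc := by omega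
  have hcc2 : cc ≤ 2 * L := by omega
  have hkM : 9 * (M0 * k) ≤ 118 * N + 5 + L := by
    have : 9 * (M0 * k) ≤ St * k := by
      calc 9 * (M0 * k) = (9 * M0) * k := by ring
        _ ≤ St * k := Nat.mul_le_mul_right _ (by omega)
    omega
  -- kp * P
  have hkP : 1062 * (P * k) ≤ 118 * N + 5 + L := by
    have : 1062 * (P * k) ≤ 9 * (M0 * k) := by
      calc 1062 * (P * k) = 9 * ((118 * P) * k) := by ring
        _ ≤ 9 * (M0 * k) := Nat.mul_le_mul_left _ (Nat.mul_le_mul_right _ hPM)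
    omega
  have hkP2 : (k + 1) * P = P * k + P := by ring
  have hnG : Yb * nb + (k + 1) * P ≤ N := by
    rw [hkP2]; omega
  obtain ⟨nG, hnG'⟩ : ∃ nG, Yb * nb + (k + 1) * P + nG = N :=
    ⟨N - (Yb * nb + (k + 1) * P), by omega⟩
  -- upper bound of N
  have hNu : 2 * N ≤ 27 * (M0 * (r1 * (2 * R + 1))) := by
    have hH1pos : 0 < H1 * c2 := Nat.mul_pos (by omega) hc2
    have e1 : (H1 * c2) * (12 * N) ≤ (H1 * c2) * (162 * (M0 * (r1 * (2 * R + 1)))) := by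
      calc (H1 * c2) * (12 * N) = G * N := by rw [hG, hH]; ring
        _ ≤ W := by omega
        _ = 81 * (2 * R + 1) * E := by rw [hW]; ring
        _ ≤ 81 * (2 * R + 1) * (2 * M0 * K) := Nat.mul_le_mul_left _ h3
        _ = (H1 * c2) * (162 * (M0 * (r1 * (2 * R + 1)))) := by rw [hK]; ring
    have e2 := Nat.le_of_mul_le_mul_left e1 hH1pos
    omega
  have hkb : 4680 * k ≤ 828360 * (r1 * (2 * R + 1)) + 5 + L := by
    have hM0p : 0 < M0 := by omega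
    have e1 : M0 * (4680 * k) ≤ M0 * (828360 * (r1 * (2 * R + 1)) + 5 + L) := by
      have e3 : M0 * (4680 * k) = 520 * (9 * (M0 * k)) := by ring
      have e4 : M0 * (828360 * (r1 * (2 * R + 1)) + 5 + L)
          = 828360 * (M0 * (r1 * (2 * R + 1))) + M0 * (5 + L) := by ring
      have e5 : 520 * (5 + L) ≤ M0 * (5 + L) := Nat.mul_le_mul_right _ (by omega)
      rw [e3, e4]
      omega
    exact Nat.le_of_mul_le_mul_left e1 hM0p
  have hrt : r1 * (2 * R + 1) = 2 * (r1 * R) + r1 := by ring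
  have hr1R : 200 * r1 ≤ r1 * R := by
    rw [mul_comm 200 r1]; exact Nat.mul_le_mul_left _ hR
  rw [hrt] at hkb
  have hYbk : 81 * (Yb + (k + 1)) ≤ 2 * L := by
    rw [hYb]; omega
  have hMW : M + H * (A + N * c2) = W := by
    rw [← hM, hG]; ring
  refine ⟨H, N, z1, z2, Yb, k + 1, nG, cc, 81 * (Yb + (k + 1)), ?_, by omega, by omega, hN3, ?_, ?_,
    ?_, by omega, by omega, ?_, ?_, ?_⟩
  · rw [hH]; exact Dvd.dvd.mul_right (by norm_num) _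
  · rw [← hP, ← hnb]; exact hnG'.symm
  · rw [hz, hMW, hW]
  · have e1 : H * (A + N * c2) = W - M := by omega
    have e2 : (H * (A + N * c2) : ℤ) = W - M := by
      have := congrArg (fun x : ℕ => (x : ℤ)) hMW
      push_cast at this
      linarith
    have e3 : (N : ℤ) = Yb * nb + (k + 1) * P + nG := by exact_mod_cast hnG'.symm
    have e4 : (cc : ℤ) + U = St * (k + 1) := by exact_mod_cast hcc
    have e5 : (St : ℤ) = 9 * M + 117 * P := by exact_mod_cast hSt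
    have e6 : (U : ℤ) + 117 * (Yb * nb) = 118 * N + 5 := by exact_mod_cast hU
    have e7 : 13 * (z1 : ℤ) + 40 * z2 = M := by exact_mod_cast hz
    have e8 : (W : ℤ) = 81 * E * (2 * R + 1) := by exact_mod_cast hW
    zify
    rw [show (H : ℤ) * (A + N * c2) = W - M from e2]
    linear_combination e4 - e6 + (k + 1) * e5 - 117 * e3 + 9 * Yb * e7 + 9 * (Yb + (k + 1)) * e8
  · have e1 : H * (2 * (H * Q)) ≤ H * R := Nat.mul_le_mul_left _ (by omega)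
    have e2 : 3 * cc ≤ 6 * L := by omega
    have e3 : 12 * L = H * R := by rw [hL, hH]; ring
    have e4 : H * (2 * (H * Q)) = 2 * (H * (H * Q)) := by ring
    omega
  · rw [← hr1, hYb]
  · rw [hYb]; omega

theorem C9b_RR (T : ℕ) : 2 * RR 3 T + 1 = 3 ^ T := by
  unfold RR
  induction T with
  | zero => simp
  | succ n ih => rw [Finset.sum_range_succ, pow_succ]; omega

theorem C9b_RR_ge (T : ℕ) : T ≤ RR 3 T := by
  unfold RR
  induction T with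
  | zero => simp
  | succ n ih =>
    rw [Finset.sum_range_succ]
    have : 0 < 3 ^ n := by positivity
    omega

theorem C9b_cA (d T : ℕ) : cA 3 3 d T ≤ 3 ^ d * RR 3 T := by
  unfold cA RR
  rw [Finset.mul_sum]
  apply Finset.sum_le_sum
  intro τ _
  apply Nat.mul_le_mul_right
  exact Nat.pow_le_pow_right (by norm_num) (by omega)

theorem C9b_cB (d : ℕ) (hd : 1 ≤ d) : 1 ≤ cB 3 3 d := by
  unfold cB
  have h0 : 0 ∈ Finset.range d := Finset.mem_range.2 (by omega)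
  refine le_trans ?_ (Finset.single_le_sum (f := fun i => 3 ^ (d - 1 - i) * 3 ^ (5 + 2 * i))
    (fun _ _ => Nat.zero_le _) h0)
  exact Nat.mul_pos (by positivity) (by positivity)

/-- TARGET -/
theorem C9b (d r : ℕ) (hd : 1 ≤ d) :
    ∃ e T H N z1 z2 Yb kp nG cc l, Par 3 3 d 1 r e T H N z1 z2 Yb kp nG cc l := by
  obtain ⟨q, hq⟩ : ∃ q, q = 3 ^ d := ⟨_, rfl⟩
  obtain ⟨c2, hc2⟩ : ∃ c2, c2 = cB 3 3 d := ⟨_, rfl⟩
  obtain ⟨Q, hQ⟩ : ∃ Q, Q = Qb 3 3 d := ⟨_, rfl⟩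
  have hc2p : 1 ≤ c2 := by rw [hc2]; exact C9b_cB d hd
  have hqp : 1 ≤ q := by rw [hq]; exact Nat.one_le_pow _ _ (by norm_num)
  obtain ⟨K, hK⟩ : ∃ K, K = (90000 * (r + 1)) * c2 * (r + 1) := ⟨_, rfl⟩
  have hKp : 0 < K := by
    rw [hK]; exact Nat.mul_pos (Nat.mul_pos (by omega) hc2p) (by omega)
  obtain ⟨B, hB⟩ : ∃ B, B = 520 + 3 * ((12 * (90000 * (r + 1))) * c2) +
    118 * (q * (12 * (90000 * (r + 1)))) := ⟨_, rfl⟩
  obtain ⟨e, he⟩ : ∃ e, e = B * K := ⟨_, rfl⟩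
  have he2 : 2 ≤ e := by
    rw [he]
    calc 2 ≤ B * 1 := by omega
      _ ≤ B * K := Nat.mul_le_mul_left _ hKp
  obtain ⟨E, hE⟩ : ∃ E, E = 3 ^ e := ⟨_, rfl⟩
  have hEe : e ≤ E := by rw [hE]; exact (Nat.lt_pow_self (by norm_num)).le
  obtain ⟨M0, hM0⟩ : ∃ M0, M0 = E / K := ⟨_, rfl⟩
  have h4 : B ≤ M0 := by
    rw [hM0, Nat.le_div_iff_mul_le hKp, ← he]; exact hEe
  have h2 : M0 * K ≤ E := by rw [hM0]; exact Nat.div_mul_le_self _ _
  have h3 : E ≤ 2 * M0 * K := by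
    have h5 : E < K * (M0 + 1) := by
      rw [hM0]; have := Nat.lt_mul_div_succ E hKp; simpa using this
    have h6 : K * (M0 + 1) ≤ 2 * M0 * K := by
      rw [mul_comm K]; apply Nat.mul_le_mul_right; omega
    omega
  obtain ⟨T, hT⟩ : ∃ T, T = 2 * d + 6 + (2 * ((12 * (90000 * (r + 1))) * Q) + 18 * M0 +
    117 * (q * (12 * (90000 * (r + 1)))) + 200) := ⟨_, rfl⟩
  have hRT := C9b_RR_ge T
  have hRR := C9b_RR T
  have hA := C9b_cA d T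
  rw [← hq] at hA
  obtain ⟨H, N, z1, z2, Yb, kp, nG, cc, l, a1, a2, a3, a4, a5, a6, a7, a8, a9, a10, a11, a12⟩ :=
    C9b_core q c2 Q r (RR 3 T) (cA 3 3 d T) E M0 hqp hc2p (by rw [← hK]; exact h2)
      (by rw [← hK]; exact h3) (by rw [← hB]; exact h4) hA (by omega)
  rw [hRR, hE] at a6 a7
  rw [hc2] at a6 a7
  have p1 : 81 * 3 ^ e * 3 ^ T = 3 ^ (T + e + 4) := by
    rw [pow_add, pow_add]; ring
  have p2 : 9 * 3 ^ e * 3 ^ T = 3 ^ (T + e + 2) := by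
    rw [pow_add, pow_add]; ring
  rw [p1] at a6
  rw [p2] at a7
  refine ⟨e, T, H, N, z1, z2, Yb, kp, nG, cc, l, ?_⟩
  constructor
  · left; exact ⟨rfl, rfl, rfl⟩
  · exact he2
  · omega
  · exact a1
  · exact a2
  · exact a3
  · simpa using a4
  · rw [← hq]; exact a5
  · rw [if_pos rfl, ← a6]; ring
  · rw [if_pos rfl, ← a7]; ring
  · exact a8
  · norm_num; exact a9
  · rw [← hQ]
    calc 3 * cc + H ^ 2 * Q = 3 * cc + H * (H * Q) := by ring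
      _ ≤ H * RR 3 T := a10
  · exact a11
  · norm_num; exact a12

end Pool.Agent.Helper231_T2

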