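import Mathlib
import Pool.Agent.Helper231_T2.Defs
import Pool.Agent.Helper231_T2.C7a
import Pool.Agent.Helper231_T2.C9a
import Pool.Agent.Helper231_T2.C9b
import Pool.Agent.Helper231_T2.C10
import Pool.Agent.Helper231_T2.C6c
import Pool.Agent.Helper231_T2.C11a
import Pool.Agent.Helper231_T2.C11c
import Pool.Agent.Helper231_T2.C11d1

set_option autoImplicit false

namespace Pool.Agent.Helper231_T2


/-
PLAIN PROOF. d := r (r ≤ 2^r, 1 ≤ d). b = 3: D = 3, γ = 1, Par from C9b; b ≥ 4: D = 2, γ = 2, Par from C9a. cls from C6c. Y := Yx .. cls; hypotheses of C11a from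
C11c (parts 1, 2; Y x ≥ (x+1)*RR > 0 as T ≥ 6), hp, lay_kc; 6 ≤ T; 0 < cc from hl; hS: b^(T+e+4) ≥ H*cA b D d T ≥ H*(1+b+b^2) (terms τ = 0,1,2 of cA are D^d*b^τ ≥ b^τ)
≥ 13*H ≥ 2*(r+3), as H ≥ r, H ≥ 1 .. (H ≥ b ≥ 3 because b ∣ H and H > 0). P3 := fun _ => pm .. 3 0, P4 := fun _ => pm .. 4 0, P := fun _ => pm .. T, pt := pat.
C11a gives K0; C10a / C10b with K0 + b^2 give κ (hE4 of Par gives (cc+2+b+N) = 0 mod b, with N mod b from hNb: b=3: N = 1, so cc = 0 mod 3; b ≥ 4: N = 0, so cc+2 = 0 mod b).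
Then C11d1. mm τ := pos .. τ (cls 0) N (r > 0; C11c part 4 for other letters), ζ x := κ*Y x + X x, F x := Loc .. (ζ x) T. hw2 of Gad is hW.w3. -/

theorem c11_main (b D d γ r e T H N z1 z2 Yb kp nG cc l : ℕ) (α : ℕ → List ℕ) (hb : 3 ≤ b) (hr : 0 < r) (hdr : d = r)
    (hD : D = 2 ∨ D = 3)
    (hα : ∀ x < r, α x ≠ [] ∧ (α x).Pairwise (· < ·) ∧ ∀ y ∈ α x, y < r)
    (hp : Par b D d γ r e T H N z1 z2 Yb kp nG cc l)
    (hκ : ∀ K0 : ℕ, ∃ κ : ℕ, K0 ≤ κ ∧ (b - 1) ∣ κ ∧ κ % b = 1 ∧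
      ((b = 3 ∧ N % 3 = 1 ∧ cc % 3 = 0 ∧ (κ * (cc + 13)) % 27 = 10) ∨
        (4 ≤ b ∧ N % b = 0 ∧ (cc + 2) % b = 0 ∧ (κ * (cc + 1)) % b ^ 2 = b ^ 2 - 1))) :
    ∃ (N κ cc e l T : ℕ) (w ζ mm : ℕ → ℕ) (F : ℕ → List ℕ), Gad b α r N κ cc e l T w ζ mm F := by
  have hD0 : 0 < D := by omega
  have h2r : r ≤ 2 ^ d := by rw [hdr]; exact Nat.lt_two_pow_self.le
  obtain ⟨cls, hcls, hcls2⟩ := C6c D d r hD h2r
  obtain ⟨c1, c2, c3, c4, c5, c6⟩ := C11c b D d γ r e T H N z1 z2 Yb kp nG cc l cls hp hcls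
  have hT : 6 ≤ T := by have := hp.hT; omega
  have hcc : 0 < cc := by
    rcases Nat.eq_zero_or_pos cc with h | h
    · have := hp.hl
      rw [h, Nat.mul_zero] at this
      omega
    · exact h
  have hS : 2 * (r + 3) ≤ b ^ (T + e + 4) := by
    have h1 : r + 3 < 2 ^ (r + 3) := Nat.lt_two_pow_self
    have h2 : 2 * (r + 3) ≤ 2 ^ (r + 4) := by
      rw [show r + 4 = (r + 3) + 1 by ring, pow_succ]
      omega
    have h3 : 2 ^ (r + 4) ≤ 2 ^ (T + e + 4) := Nat.pow_le_pow_right (by norm_num) (by have := hp.hT; omega)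
    have h4 : 2 ^ (T + e + 4) ≤ b ^ (T + e + 4) := Nat.pow_le_pow_left (by omega) _
    omega
  have hYb : Yb * (z1 + z2 + D ^ d * H) ≤ N := by
    have := hp.hN
    rw [this]
    omega
  have hRR : 0 < RR b T := by
    unfold RR
    apply Finset.sum_pos
    · intro τ _
      exact Nat.pow_pos (by omega)
    · exact ⟨0, Finset.mem_range.2 (by omega)⟩
  have hY0 : ∀ x < r, 0 < Yx b D d γ N T H cls x := by
    intro x _
    unfold Yx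
    have : 0 < (x + 1) * RR b T := Nat.mul_pos (by omega) hRR
    omega
  have hH0 : 0 < H := hp.hH0
  obtain ⟨K0, hK⟩ := C11a b D d r e T H N z1 z2 Yb cc l (lay D d H Yb z1 z2 kp) cls (Yx b D d γ N T H cls) (pat b D d γ)
    (fun _ => pm b D d γ N (lay D d H Yb z1 z2 kp) 3 0) (fun _ => pm b D d γ N (lay D d H Yb z1 z2 kp) 4 0)
    (fun _ => pm b D d γ N (lay D d H Yb z1 z2 kp) T) α hb hD0 hT hr hp.hrH hcc hS hYb
    (fun x hx => (hcls x hx).1) hcls2 (fun x hx => (hα x hx).2) hY0 c1 c2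
    (fun c hc ρ hρ => (lay_kc D d H Yb z1 z2 kp c hD0 hH0 hc).1 ρ hρ)
  obtain ⟨κ, hκ0, hκ1, hκ2, hκ3⟩ := hκ (K0 + b ^ 2)
  obtain ⟨X, w, hW⟩ := hK κ (by omega)
  obtain ⟨d1, d2⟩ := C11d1 b D d γ r e T H N z1 z2 Yb kp nG cc l κ cls X w α hp hκ2 hcls hcls2 hα hW
  refine ⟨N, κ, cc, e, l, T, w, fun x => κ * Yx b D d γ N T H cls x + X x,
    fun τ => pos D d γ N (lay D d H Yb z1 z2 kp) τ (cls 0) N,
    fun x => Loc b N κ w (κ * Yx b D d γ N T H cls x + X x) T, ?_⟩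
  refine ⟨hp.he, hp.hl0, hp.hl, hκ2, hκ1, by omega, hW.w0, hW.w1, hW.w3, fun k hk => (d1 k hk).1, fun k hk => (d1 k hk).2,
    hκ3, c5 0 hr, ?_, ?_, ?_, ?_⟩
  · intro x hx
    refine ⟨fun τ hτ => ?_, rfl⟩
    rw [(d2 x hx).1 τ hτ]
    exact c4 x hx 0 hr τ
  · intro x hx
    exact ⟨(d2 x hx).2.1, (d2 x hx).2.2.1, (d2 x hx).2.2.2.1⟩
  · intro x hx
    exact (d2 x hx).2.2.2.2.1
  · intro x hx
    exact (d2 x hx).2.2.2.2.2

theorem par_cc (b D d γ r e T H N z1 z2 Yb kp nG cc l : ℕ) (hp : Par b D d γ r e T H N z1 z2 Yb kp nG cc l) :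
    (cc + 2 + N) % b = 0 := by
  have h := hp.hE4
  have h1 : b ∣ b ^ (T + e + 2) * l := Dvd.dvd.mul_right (dvd_pow_self b (by omega)) l
  rw [← h] at h1
  have h2 : b ∣ b ^ 2 * ((Yb * z1 + nG) * (1 + b + b ^ 2) + Yb * z2 * (1 + b + b ^ 2 + b ^ 3) +
    (Yb + kp) * H * (cA b D d T + (if γ = 1 then N * cB b D d else 0))) := Dvd.dvd.mul_right (dvd_pow_self b (by norm_num)) _
  have h3 := (Nat.dvd_add_left h2).1 h1
  rw [show cc + 2 + b + N = (cc + 2 + N) + b by ring] at h3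
  exact Nat.mod_eq_zero_of_dvd ((Nat.dvd_add_left (dvd_refl b)).1 h3)

/-- TARGET -/
theorem C11d (b r : ℕ) (α : ℕ → List ℕ) (hb : 3 ≤ b) (hr : 0 < r)
    (hα : ∀ x < r, α x ≠ [] ∧ (α x).Pairwise (· < ·) ∧ ∀ y ∈ α x, y < r) :
    ∃ (N κ cc e l T : ℕ) (w ζ mm : ℕ → ℕ) (F : ℕ → List ℕ), Gad b α r N κ cc e l T w ζ mm F := by
  rcases Nat.lt_or_ge b 4 with h4 | h4
  · obtain rfl : b = 3 := by omega
    obtain ⟨e, T, H, N, z1, z2, Yb, kp, nG, cc, l, hp⟩ := C9b r r hr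
    have hN : N % 3 = 1 := by simpa using hp.hNb
    have hc := par_cc _ _ _ _ _ _ _ _ _ _ _ _ _ _ _ _ hp
    have hcc : cc % 3 = 0 := by omega
    refine c11_main 3 3 r 1 r e T H N z1 z2 Yb kp nG cc l α hb hr rfl (Or.inr rfl) hα hp ?_
    intro K0
    obtain ⟨κ, k1, k2, k3, k4⟩ := C10b cc K0 hcc
    exact ⟨κ, k1, k2, k3, Or.inl ⟨rfl, hN, hcc, k4⟩⟩
  · obtain ⟨e, T, H, N, z1, z2, Yb, kp, nG, cc, l, hp⟩ := C9a b r r h4
    have hN : N % b = 0 := by simpa using hp.hNb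
    have hc := par_cc _ _ _ _ _ _ _ _ _ _ _ _ _ _ _ _ hp
    have hcc : (cc + 2) % b = 0 := by
      have h1 : b ∣ cc + 2 + N := Nat.dvd_of_mod_eq_zero hc
      exact Nat.mod_eq_zero_of_dvd ((Nat.dvd_add_left (Nat.dvd_of_mod_eq_zero hN)).1 h1)
    refine c11_main b 2 r 2 r e T H N z1 z2 Yb kp nG cc l α hb hr rfl (Or.inl rfl) hα hp ?_
    intro K0
    obtain ⟨κ, k1, k2, k3, k4⟩ := C10a b cc K0 h4 hcc
    exact ⟨κ, k1, k2, k3, Or.inr ⟨h4, hN, hcc, k4⟩⟩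

end Pool.Agent.Helper231_T2

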