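import Mathlib
import Pool.Agent.Helper231_T2.Defs

set_option autoImplicit false

namespace Pool.Agent.Helper231_T2


theorem ch_shift (b N : ℕ) (w : ℕ → ℕ) (hb : 2 ≤ b) (I c : ℕ) :
    ch b N w (I + b * c) = (ch b N w I).map (fun t => t + c) := by
  unfold ch
  have h1 : (I + b * c) % b = I % b := Nat.add_mul_mod_self_left I b c
  rw [h1]
  split_ifs with h2 h3
  · rw [Nat.add_mul_div_left _ _ (by omega : 0 < b)]
    rfl
  · rw [List.map_map]
    apply List.map_congr_left
    intro k _
    have h4 : 1 ≤ I := by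
      rcases Nat.eq_zero_or_pos I with h | h
      · subst h
        simp at h2
      · exact h
    have h5 : I + b * c - 1 = (I - 1) + b * c := by omega
    rw [h5, Nat.add_mul_div_left _ _ (by omega : 0 < b)]
    simp only [Function.comp]
    omega
  · rfl

/-- TARGET 1 -/
theorem C1_run (b N κ : ℕ) (w : ℕ → ℕ) (L M : List ℕ) (i : ℕ) :
    (es b N κ w)^[L.length] (i, L ++ M) = (i + L.length, M ++ stg b N κ w i L) := by
  induction L generalizing i M with
  | nil => simp [stg]
  | cons t L ih =>
    rw [List.length_cons, Function.iterate_succ_apply]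
    have h1 : es b N κ w (i, t :: L ++ M) = (i + 1, L ++ (M ++ ch b N w (t + κ * i))) := by
      rw [List.cons_append, es, List.append_assoc]
    rw [h1, ih]
    rw [stg, List.append_assoc]
    congr 1
    omega

/-- TARGET 2 -/
theorem C1_append (b N κ : ℕ) (w : ℕ → ℕ) (L M : List ℕ) (i : ℕ) :
    stg b N κ w i (L ++ M) = stg b N κ w i L ++ stg b N κ w (i + L.length) M := by
  induction L generalizing i with
  | nil => simp [stg]
  | cons t L ih =>
    rw [List.cons_append, stg, stg, ih, List.length_cons, List.append_assoc]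
    congr 3
    omega

theorem stg_shift (b N κ : ℕ) (w : ℕ → ℕ) (hb : 2 ≤ b) (L : List ℕ) (i j s c : ℕ) (h : s + i = j + b * c) :
    stg b N κ w i (L.map (fun t => t + κ * s)) =
      (stg b N κ w j L).map (fun t => t + κ * c) := by
  induction L generalizing i j with
  | nil => rfl
  | cons t L ih =>
    rw [List.map_cons, stg, stg, List.map_append, ih (i + 1) (j + 1) (by omega)]
    congr 1
    have h1 : t + κ * s + κ * i = (t + κ * j) + b * (κ * c) := by
      have : κ * s + κ * i = κ * j + b * (κ * c) := by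
        rw [← Nat.mul_add, h]; ring
      omega
    rw [h1, ch_shift b N w hb]

/-- TARGET 3 (shift lemma): `ch (I + b * κ * c) = (ch I).map (· + κ * c)` -/
theorem C1_shift (b N κ : ℕ) (w : ℕ → ℕ) (hb : 2 ≤ b) (L : List ℕ) (i s : ℕ) (h : b ∣ s + i) :
    stg b N κ w i (L.map (fun t => t + κ * s)) =
      (stg b N κ w 0 L).map (fun t => t + κ * ((s + i) / b)) := by
  apply stg_shift b N κ w hb
  rw [Nat.mul_div_cancel' h, zero_add]

theorem grp_succ (κ n : ℕ) (P : ℕ → List ℕ) (s : ℕ → ℕ) :
    grp κ (n + 1) P s = grp κ n P s ++ (P n).map (fun t => t + κ * s n) := by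
  unfold grp
  rw [List.range_succ, List.flatMap_append]
  simp

theorem grp_length (κ n : ℕ) (P : ℕ → List ℕ) (s o : ℕ → ℕ)
    (ho : ∀ g < n, o (g + 1) = o g + (P g).length) : (grp κ n P s).length + o 0 = o n := by
  induction n with
  | zero => simp [grp]
  | succ n ih =>
    rw [grp_succ, List.length_append, List.length_map]
    have h1 := ih (fun g hg => ho g (by omega))
    have h2 := ho n (by omega)
    omega

/-- TARGET 4 -/
theorem C1_grp (b N κ : ℕ) (w : ℕ → ℕ) (hb : 2 ≤ b) (n : ℕ) (P : ℕ → List ℕ) (s o : ℕ → ℕ)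
    (ho : ∀ g < n, o (g + 1) = o g + (P g).length) (hd : ∀ g < n, b ∣ s g + o g) :
    stg b N κ w (o 0) (grp κ n P s) =
      grp κ n (fun g => stg b N κ w 0 (P g)) (fun g => (s g + o g) / b) := by
  induction n with
  | zero => simp [grp, stg]
  | succ n ih =>
    rw [grp_succ, grp_succ, C1_append, ih (fun g hg => ho g (by omega)) (fun g hg => hd g (by omega))]
    congr 1
    have h1 := grp_length κ n P s o (fun g hg => ho g (by omega))
    have h2 : o 0 + (grp κ n P s).length = o n := by omega
    rw [h2]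
    exact C1_shift b N κ w hb (P n) (o n) (s n) (hd n (by omega))

/-- TARGET 5 -/
theorem C1_grprun (b N κ : ℕ) (w : ℕ → ℕ) (hb : 2 ≤ b) (n : ℕ) (P : ℕ → List ℕ) (s o : ℕ → ℕ)
    (ho : ∀ g < n, o (g + 1) = o g + (P g).length) (hd : ∀ g < n, b ∣ s g + o g) :
    (grp κ n P s).length + o 0 = o n ∧
    (es b N κ w)^[(grp κ n P s).length] (o 0, grp κ n P s) =
      (o n, grp κ n (fun g => stg b N κ w 0 (P g)) (fun g => (s g + o g) / b)) := by
  have h1 := grp_length κ n P s o ho
  refine ⟨h1, ?_⟩
  have h2 := C1_run b N κ w (grp κ n P s) [] (o 0)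
  rw [List.append_nil, List.nil_append] at h2
  rw [h2, C1_grp b N κ w hb n P s o ho hd]
  congr 1
  omega

/-- TARGET 6: a list given by a function of `k`, with local indices -/
theorem C1_flat (b N κ : ℕ) (w : ℕ → ℕ) (n : ℕ) (G : ℕ → List ℕ) (o : ℕ → ℕ)
    (ho : ∀ k < n, o (k + 1) = o k + (G k).length) :
    stg b N κ w (o 0) ((List.range n).flatMap G) =
      (List.range n).flatMap (fun k => stg b N κ w (o k) (G k)) := by
  have key : ∀ m ≤ n, stg b N κ w (o 0) ((List.range m).flatMap G) =
      (List.range m).flatMap (fun k => stg b N κ w (o k) (G k)) ∧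
      o 0 + ((List.range m).flatMap G).length = o m := by
    intro m hm
    induction m with
    | zero => simp [stg]
    | succ m ih =>
      obtain ⟨ih1, ih2⟩ := ih (by omega)
      rw [List.range_succ, List.flatMap_append, List.flatMap_append]
      have e1 : List.flatMap G [m] = G m := by simp
      have e2 : List.flatMap (fun k => stg b N κ w (o k) (G k)) [m] = stg b N κ w (o m) (G m) := by simp
      rw [e1, e2, C1_append, ih1, ih2, List.length_append]
      refine ⟨rfl, ?_⟩
      have h2 := ho m (by omega)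
      omega
  exact (key n le_rfl).1

/-- TARGET 7: the family stages of a cycle -/
theorem C1_fam (b N κ : ℕ) (w : ℕ → ℕ) (hb : 2 ≤ b) (G T : ℕ) (Lo : ℕ → ℕ → List ℕ)
    (mm η A B : ℕ → ℕ) (h1 : ∀ g < G, ∀ t < T, Lo g (t + 1) = stg b N κ w 0 (Lo g t))
    (h2 : ∀ g < G, ∀ t < T, (Lo g t).length = mm t)
    (h3 : ∀ t < T, b * η (t + 1) = η t + mm t)
    (h4 : ∀ t < T, A (t + 1) = A t + mm t * G)
    (h5 : ∀ t < T, b * B (t + 1) = B t + A t) :
    (es b N κ w)^[∑ t ∈ Finset.range T, mm t * G] (A 0, grp κ G (fun g => Lo g 0) (fun g => B 0 + η 0 * g)) =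
      (A T, grp κ G (fun g => Lo g T) (fun g => B T + η T * g)) := by
  have key : ∀ m ≤ T, (es b N κ w)^[∑ t ∈ Finset.range m, mm t * G]
      (A 0, grp κ G (fun g => Lo g 0) (fun g => B 0 + η 0 * g)) =
      (A m, grp κ G (fun g => Lo g m) (fun g => B m + η m * g)) := by
    intro m hm
    induction m with
    | zero => simp
    | succ m ih =>
      have ih' := ih (by omega)
      rw [Finset.sum_range_succ, Nat.add_comm, Function.iterate_add_apply, ih']
      have ho : ∀ g < G, (fun g => A m + mm m * g) (g + 1) =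
          (fun g => A m + mm m * g) g + ((fun g => Lo g m) g).length := by
        intro g hg
        simp only
        rw [h2 g hg m (by omega)]
        ring
      have hsum : ∀ g, (B m + η m * g) + (A m + mm m * g) = b * (B (m + 1) + η (m + 1) * g) := by
        intro g
        have e1 := h5 m (by omega)
        have e2 := h3 m (by omega)
        rw [Nat.mul_add, e1, ← Nat.mul_assoc, e2]
        ring
      have hd : ∀ g < G, b ∣ (fun g => B m + η m * g) g + (fun g => A m + mm m * g) g := by
        intro g _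
        exact ⟨_, hsum g⟩
      obtain ⟨r1, r2⟩ := C1_grprun b N κ w hb G (fun g => Lo g m) (fun g => B m + η m * g)
        (fun g => A m + mm m * g) ho hd
      simp only [Nat.mul_zero, Nat.add_zero] at r1 r2
      have hlen : (grp κ G (fun g => Lo g m) (fun g => B m + η m * g)).length = mm m * G := by omega
      rw [hlen] at r2
      rw [r2, h4 m (by omega)]
      have hs : (fun g => (B m + η m * g + (A m + mm m * g)) / b) = (fun g => B (m + 1) + η (m + 1) * g) := by
        funext g
        rw [hsum g, Nat.mul_div_cancel_left _ (by omega : 0 < b)]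
      rw [hs]
      congr 1
      unfold grp
      apply List.flatMap_congr
      intro g hg
      rw [List.mem_range] at hg
      simp only
      rw [h1 g hg m (by omega)]
  exact key T le_rfl

/-- TARGET 8: existence of the sequence `B` -/
theorem C1_seq (b : ℕ) (hb : 2 ≤ b) (S : ℕ) : ∀ (A : ℕ → ℕ) (B0 BS : ℕ),
    b ^ S * BS = (∑ s ∈ Finset.range S, b ^ s * A s) + B0 →
    ∃ B : ℕ → ℕ, B 0 = B0 ∧ B S = BS ∧ ∀ s < S, b * B (s + 1) = B s + A s := by
  induction S with
  | zero =>
    intro A B0 BS h
    refine ⟨fun _ => B0, rfl, ?_, fun s hs => absurd hs (Nat.not_lt_zero _)⟩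
    simp at h
    exact h.symm
  | succ S ih =>
    intro A B0 BS h
    rw [Finset.sum_range_succ'] at h
    have e1 : ∑ k ∈ Finset.range S, b ^ (k + 1) * A (k + 1) = b * ∑ k ∈ Finset.range S, b ^ k * A (k + 1) := by
      rw [Finset.mul_sum]
      refine Finset.sum_congr rfl (fun k _ => ?_)
      ring
    rw [e1, pow_zero, one_mul] at h
    have hdvd : b ∣ A 0 + B0 := by
      have h2 : b ∣ b * (∑ k ∈ Finset.range S, b ^ k * A (k + 1)) + (A 0 + B0) := by
        rw [← Nat.add_assoc, ← h, pow_succ]
        exact ⟨b ^ S * BS, by ring⟩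
      exact (Nat.dvd_add_right (Nat.dvd_mul_right _ _)).1 h2
    obtain ⟨B1, hB1⟩ := hdvd
    have h3 : b ^ S * BS = (∑ k ∈ Finset.range S, b ^ k * A (k + 1)) + B1 := by
      have h4 : b * (b ^ S * BS) = b * ((∑ k ∈ Finset.range S, b ^ k * A (k + 1)) + B1) := by
        rw [Nat.mul_add, ← hB1, ← Nat.mul_assoc, ← pow_succ', h]
        ring
      exact Nat.eq_of_mul_eq_mul_left (by omega) h4
    obtain ⟨B, hB0, hBS, hBs⟩ := ih (fun k => A (k + 1)) B1 BS h3
    refine ⟨fun n => match n with | 0 => B0 | (n + 1) => B n, rfl, hBS, ?_⟩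
    intro s hs
    rcases s with _ | s
    · simp only
      rw [hB0, ← hB1, Nat.add_comm]
    · exact hBs s (by omega)

end Pool.Agent.Helper231_T2

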