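import Mathlib
import Pool.Agent.Helper231_T2.Defs
import Pool.Agent.Helper231_T2.C1

set_option autoImplicit false

namespace Pool.Agent.Helper231_T2


/-
PLAIN PROOF. Let G = |μ|, x_g = μ.getD g 0, m_g = |α x_g|, n(g) = sum_{g'<g} m_g' (so n(G) = n = |wd α μ|), A_0 = (b-1)B + b*b^e*l*G,
M_s = Cs s * n - (if s = e then l*G else 0) for s ≤ e, M_{e+1} = n, A_{s+1} = A_s + M_s.
Identity: with B' as in the statement,  b^(e+2) * B' = sum_{s<e+2} b^s * A_s + B.  [sum_{s<e+2} b^s A_s = A_0 (b^(e+2)-1)/(b-1) +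
sum_{s≤e+1} M_s (b^(e+2)-b^(s+1))/(b-1), sum_{s≤e+1} M_s b^s = (cc+1) b^(e+1) n - b^e l G  (as sum_{s≤e} Cs s b^s = cc b^(e+1)),
sum_{s≤e+1} M_s = b cc n + e (b-1) cc n - l G + n.] It may be easier to avoid this identity: define B_s explicitly, with g(s) :=
(b^s - 1)/(b-1) = sum_{i<s} b^i:   B_s = B + s*cc*n + l*b^(e+1-s)*g(s)*G  for 0 ≤ s ≤ e+1 ... check: A_s = (b-1)B + b^(e+1) l G + b cc n + (s-1)(b-1) cc n
= (b-1)B + b^(e+1) l G + cc n + s(b-1)cc n for 1 ≤ s ≤ e, A_0 = (b-1)B + b^(e+1) l G, A_{e+1} = (b-1)B + b^(e+1) l G + cc n + (e+1)(b-1) cc n - l G, and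
b B_{s+1} = B_s + A_s must hold: B_1 = B + l b^e G; for 1 ≤ s ≤ e: B_{s+1} = (B_s + A_s)/b. With B_s = B + (s-1) cc n + l b^(e+1-s) g(s) G (s ≥ 1):
B_s + A_s = bB + (s-1) cc n + cc n + s(b-1)cc n + l G (b^(e+1-s) g(s) + b^(e+1)) = b [B + s cc n + l G b^(e-s) g(s+1)] since
g(s) + b^s = g(s+1). OK so  B_0 = B,  B_s = B + (s-1) cc n + l b^(e+1-s) g(s) G for 1 ≤ s ≤ e+1, and
B_{e+2} = (B_{e+1} + A_{e+1})/b = (bB + (e + 1 + (e+1)(b-1)) cc n + l G (g(e+1) + b^(e+1) - 1))/b; g(e+1) + b^(e+1) - 1 = g(e+1) + (b-1) g(e+1) = b g(e+1):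
B_{e+2} = B + (e+1) cc n + l g(e+1) G = B'.  And A_{e+2} = A_{e+1} + n = (b-1)B' + (cc+1) n.
Claim: after the stages 0..s-1 (s ≤ e+1), the state is (A_s, grp κ G (fun g => Fl .. (F x_g) s) (fun g => sh s g)) with
 sh 0 g = B + b^e l g,  sh s g = B_s + cc*n(g) + l*b^(e-s)*g (1 ≤ s ≤ e), sh (e+1) g = B_{e+1} + cc*n(g).
Step by C1_grprun with o g = A_s + Cs s*n(g) - (if s = e then l*g else 0) (o (g+1) = o g + |Fl (F x_g) s| by hF, o G = A_{s+1}) and
sh s g + o g = b * sh (s+1) g.
At s = e+1 the list is, letter by letter (j = n(g) + j', W = wd α μ, (α x_g).getD j' 0 = W.getD (n(g)+j') 0), the list of the times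
b^2(1 + b ζ(W_j)) + κ(B_{e+1} + cc*j), j < n, and the index of number j is A_{e+1} + j. One more stage (C1_run with M = []) gives
flatMap over j of ch(b^2(1+bζ(W_j)) + κ(B_{e+1} + A_{e+1} + (cc+1) j)), and B_{e+1} + A_{e+1} = b B'. The number of steps is > 0 since
F x_0 is not empty (0 < Cs 0 * m_0; cc > 0 because l < (b-1) cc). -/

theorem C4a_grp_congr (κ n : ℕ) (P Q : ℕ → List ℕ) (s t : ℕ → ℕ) (hP : ∀ g < n, P g = Q g)
    (hs : ∀ g < n, s g = t g) : grp κ n P s = grp κ n Q t := by
  unfold grp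
  induction n with
  | zero => rfl
  | succ n ih =>
    rw [List.range_succ, List.flatMap_append, List.flatMap_append]
    rw [ih (fun g hg => hP g (by omega)) (fun g hg => hs g (by omega))]
    simp only [List.flatMap_cons, List.flatMap_nil, List.append_nil]
    rw [hP n (by omega), hs n (by omega)]

/-- one stage of groups -/
theorem C4a_step (b N κ : ℕ) (w : ℕ → ℕ) (hb : 2 ≤ b) (n : ℕ) (P Q : ℕ → List ℕ) (s t o : ℕ → ℕ)
    (A A' : ℕ) (hA : o 0 = A) (hA' : o n = A')
    (ho : ∀ g < n, o (g + 1) = o g + (P g).length) (hd : ∀ g < n, s g + o g = b * t g)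
    (hQ : ∀ g < n, stg b N κ w 0 (P g) = Q g) :
    (grp κ n P s).length + A = A' ∧
    (es b N κ w)^[(grp κ n P s).length] (A, grp κ n P s) = (A', grp κ n Q t) := by
  have h := C1_grprun b N κ w hb n P s o ho (fun g hg => ⟨t g, hd g hg⟩)
  rw [hA, hA'] at h
  refine ⟨h.1, ?_⟩
  rw [h.2]
  congr 1
  apply C4a_grp_congr
  · intro g hg; exact hQ g hg
  · intro g hg
    show (s g + o g) / b = t g
    rw [hd g hg]
    exact Nat.mul_div_cancel_left _ (by omega)

/-- prefix sums -/
def C4a_nn (m : ℕ → ℕ) (g : ℕ) : ℕ := ∑ i ∈ Finset.range g, m i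

theorem C4a_nn_zero (m : ℕ → ℕ) : C4a_nn m 0 = 0 := by simp [C4a_nn]

theorem C4a_nn_succ (m : ℕ → ℕ) (g : ℕ) : C4a_nn m (g + 1) = C4a_nn m g + m g := by
  simp [C4a_nn, Finset.sum_range_succ]

theorem C4a_flatrange (G : ℕ) (m : ℕ → ℕ) (f : ℕ → ℕ → ℕ) (h : ℕ → ℕ)
    (hf : ∀ g < G, ∀ j < m g, h (C4a_nn m g + j) = f g j) :
    (List.range G).flatMap (fun g => (List.range (m g)).map (f g)) =
      (List.range (C4a_nn m G)).map h := by
  induction G with
  | zero => simp [C4a_nn]
  | succ G ih =>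
    rw [List.range_succ, List.flatMap_append, ih (fun g hg => hf g (by omega)), C4a_nn_succ,
      List.range_add, List.map_append]
    congr 1
    simp only [List.flatMap_cons, List.flatMap_nil, List.append_nil, List.map_map]
    apply List.map_congr_left
    intro j hj
    simp only [Function.comp]
    exact (hf G (by omega) j (List.mem_range.mp hj)).symm

theorem C4a_stgmap (b N κ : ℕ) (w : ℕ → ℕ) (n A : ℕ) (f : ℕ → ℕ) :
    stg b N κ w A ((List.range n).map f) =
      (List.range n).flatMap (fun j => ch b N w (f j + κ * (A + j))) := by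
  have h := C1_flat b N κ w n (fun k => [f k]) (fun k => A + k) (by intro k hk; simp [Nat.add_assoc])
  simp only [Nat.add_zero] at h
  have e1 : (List.range n).flatMap (fun k => [f k]) = (List.range n).map f := by
    exact (List.map_eq_flatMap).symm
  rw [e1] at h
  rw [h]
  congr 1
  funext j
  simp [stg]

theorem C4a_wd_len (α : ℕ → List ℕ) (μ : List ℕ) :
    (wd α μ).length = C4a_nn (fun g => (α (μ.getD g 0)).length) μ.length := by
  induction μ using List.reverseRecOn with
  | nil => simp [wd, C4a_nn]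
  | append_singleton μ x ih =>
    have e1 : wd α (μ ++ [x]) = wd α μ ++ α x := by simp [wd]
    rw [e1, List.length_append, ih, List.length_append, List.length_singleton, C4a_nn_succ]
    congr 1
    · unfold C4a_nn
      apply Finset.sum_congr rfl
      intro i hi
      rw [Finset.mem_range] at hi
      show (α (μ.getD i 0)).length = (α ((μ ++ [x]).getD i 0)).length
      rw [List.getD_append _ _ _ _ hi]
    · rw [List.getD_append_right _ _ _ _ (le_refl _)]
      simp

theorem C4a_wd_get (α : ℕ → List ℕ) (μ : List ℕ) (g j : ℕ) (hg : g < μ.length)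
    (hj : j < (α (μ.getD g 0)).length) :
    (wd α μ).getD (C4a_nn (fun g => (α (μ.getD g 0)).length) g + j) 0 = (α (μ.getD g 0)).getD j 0 := by
  induction μ using List.reverseRecOn with
  | nil => simp at hg
  | append_singleton μ x ih =>
    have e1 : wd α (μ ++ [x]) = wd α μ ++ α x := by simp [wd]
    rw [List.length_append, List.length_singleton] at hg
    have e2 : C4a_nn (fun g => (α ((μ ++ [x]).getD g 0)).length) g =
        C4a_nn (fun g => (α (μ.getD g 0)).length) g := by
      unfold C4a_nn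
      apply Finset.sum_congr rfl
      intro i hi
      rw [Finset.mem_range] at hi
      show (α ((μ ++ [x]).getD i 0)).length = (α (μ.getD i 0)).length
      rw [List.getD_append _ _ _ _ (by omega)]
    rw [e1, e2]
    rcases Nat.lt_or_ge g μ.length with h | h
    · have e3 : (μ ++ [x]).getD g 0 = μ.getD g 0 := List.getD_append _ _ _ _ h
      rw [e3] at hj ⊢
      rw [← ih h hj]
      apply List.getD_append
      rw [C4a_wd_len]
      have : C4a_nn (fun g => (α (μ.getD g 0)).length) (g + 1) ≤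
          C4a_nn (fun g => (α (μ.getD g 0)).length) μ.length := by
        unfold C4a_nn
        apply Finset.sum_le_sum_of_subset
        intro i hi
        rw [Finset.mem_range] at hi ⊢
        omega
      rw [C4a_nn_succ] at this
      omega
    · have hge : g = μ.length := by omega
      subst hge
      have e3 : (μ ++ [x]).getD μ.length 0 = x := by
        rw [List.getD_append_right _ _ _ _ (le_refl _)]
        simp
      rw [e3] at hj ⊢
      rw [← C4a_wd_len]
      rw [List.getD_append_right _ _ _ _ (by omega)]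
      congr 1
      omega

theorem C4a_geom (c s : ℕ) : (c + 1) ^ s = c * (∑ i ∈ Finset.range s, (c + 1) ^ i) + 1 := by
  induction s with
  | zero => simp
  | succ s ih =>
    rw [Finset.sum_range_succ, pow_succ]
    nlinarith [ih]

theorem C4a_phase (c N κ cc e l : ℕ) (w : ℕ → ℕ) (m : ℕ → ℕ) (H : ℕ → List ℕ) (G B n : ℕ)
    (hn : n = C4a_nn m G) (hc : 1 ≤ c)
    (hF : ∀ g < G, ∀ s < e, (Fl (c + 1) N κ w (H g) s).length = Cs (c + 1) cc s * m g) :
    ∀ s t, s + 1 + t = e → ∃ k, (c + 1) * cc * n ≤ k ∧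
      (es (c + 1) N κ w)^[k] (c * B + (c + 1) * ((c + 1) ^ e * l) * G,
        grp κ G H (fun g => B + (c + 1) ^ e * l * g)) =
      (c * B + (c + 1) ^ (e + 1) * l * G + cc * n + (s + 1) * c * cc * n,
        grp κ G (fun g => Fl (c + 1) N κ w (H g) (s + 1))
        (fun g => B + s * cc * n + l * (c + 1) ^ (t + 1) * (∑ i ∈ Finset.range (s + 1), (c + 1) ^ i) * G +
          cc * C4a_nn m g + l * (c + 1) ^ t * g)) := by
  intro s
  induction s with
  | zero =>
    intro t ht
    have hst := C4a_step (c + 1) N κ w (by omega) G H (fun g => Fl (c + 1) N κ w (H g) (0 + 1))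
      (fun g => B + (c + 1) ^ e * l * g)
      (fun g => B + 0 * cc * n + l * (c + 1) ^ (t + 1) * (∑ i ∈ Finset.range (0 + 1), (c + 1) ^ i) * G +
          cc * C4a_nn m g + l * (c + 1) ^ t * g)
      (fun g => c * B + (c + 1) * ((c + 1) ^ e * l) * G + (c + 1) * cc * C4a_nn m g)
      (c * B + (c + 1) * ((c + 1) ^ e * l) * G)
      (c * B + (c + 1) ^ (e + 1) * l * G + cc * n + (0 + 1) * c * cc * n)
      (by simp [C4a_nn_zero])
      (by rw [hn]; ring)
      (by
        intro g hg
        have h1 := hF g hg 0 (by omega)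
        simp only [Fl, Cs, if_true] at h1
        show _ + (c + 1) * cc * C4a_nn m (g + 1) = _ + (c + 1) * cc * C4a_nn m g + (H g).length
        rw [h1, C4a_nn_succ]
        ring)
      (by
        intro g hg
        show B + (c + 1) ^ e * l * g + (c * B + (c + 1) * ((c + 1) ^ e * l) * G + (c + 1) * cc * C4a_nn m g) = _
        have he : e = t + 1 := by omega
        subst he
        simp only [zero_add, Finset.range_one, Finset.sum_singleton, pow_zero]
        ring)
      (by
        intro g hg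
        rfl)
    refine ⟨_, ?_, hst.2⟩
    have h2 := hst.1
    have h3 : (c + 1) * ((c + 1) ^ e * l) * G = (c + 1) ^ (e + 1) * l * G := by ring
    rw [h3] at h2
    have h4 : cc * n + (0 + 1) * c * cc * n = (c + 1) * cc * n := by ring
    rw [← h3] at h2
    rw [h3] at h2
    omega
  | succ s ih =>
    intro t ht
    obtain ⟨k, hk, hrun⟩ := ih (t + 1) (by omega)
    have hst := C4a_step (c + 1) N κ w (by omega) G (fun g => Fl (c + 1) N κ w (H g) (s + 1))
      (fun g => Fl (c + 1) N κ w (H g) (s + 1 + 1))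
      (fun g => B + s * cc * n + l * (c + 1) ^ (t + 1 + 1) * (∑ i ∈ Finset.range (s + 1), (c + 1) ^ i) * G +
          cc * C4a_nn m g + l * (c + 1) ^ (t + 1) * g)
      (fun g => B + (s + 1) * cc * n + l * (c + 1) ^ (t + 1) *
          (∑ i ∈ Finset.range (s + 1 + 1), (c + 1) ^ i) * G +
          cc * C4a_nn m g + l * (c + 1) ^ t * g)
      (fun g => c * B + (c + 1) ^ (e + 1) * l * G + cc * n + (s + 1) * c * cc * n +
        c * cc * C4a_nn m g)
      (c * B + (c + 1) ^ (e + 1) * l * G + cc * n + (s + 1) * c * cc * n)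
      (c * B + (c + 1) ^ (e + 1) * l * G + cc * n + (s + 1 + 1) * c * cc * n)
      (by simp [C4a_nn_zero])
      (by rw [hn]; ring)
      (by
        intro g hg
        have h1 := hF g hg (s + 1) (by omega)
        have h2 : Cs (c + 1) cc (s + 1) = c * cc := by simp [Cs]
        rw [h2] at h1
        show _ + c * cc * C4a_nn m (g + 1) =
          _ + c * cc * C4a_nn m g + (Fl (c + 1) N κ w (H g) (s + 1)).length
        rw [h1, C4a_nn_succ]
        ring)
      (by
        intro g hg
        show B + s * cc * n + l * (c + 1) ^ (t + 1 + 1) * (∑ i ∈ Finset.range (s + 1), (c + 1) ^ i) * G +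
          cc * C4a_nn m g + l * (c + 1) ^ (t + 1) * g + (c * B + (c + 1) ^ (e + 1) * l * G + cc * n +
          (s + 1) * c * cc * n + c * cc * C4a_nn m g) = _
        have he : e = s + 1 + 1 + t := by omega
        subst he
        rw [Finset.sum_range_succ (fun i => (c + 1) ^ i) (s + 1)]
        generalize ∑ i ∈ Finset.range (s + 1), (c + 1) ^ i = S
        ring)
      (by
        intro g hg
        rfl)
    refine ⟨(grp κ G (fun g => Fl (c + 1) N κ w (H g) (s + 1)) (fun g => B + s * cc * n + l * (c + 1) ^ (t + 1 + 1) * (∑ i ∈ Finset.range (s + 1), (c + 1) ^ i) * G +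
          cc * C4a_nn m g + l * (c + 1) ^ (t + 1) * g)).length + k, by omega, ?_⟩
    rw [Function.iterate_add_apply, hrun]
    exact hst.2

/-- TARGET -/
theorem C4a (b N κ cc e l : ℕ) (w ζ : ℕ → ℕ) (α : ℕ → List ℕ) (F : ℕ → List ℕ) (μ : List ℕ) (B : ℕ)
    (hb : 3 ≤ b) (he : 2 ≤ e) (hl0 : 0 < l) (hl : l < (b - 1) * cc) (hμ : μ ≠ [])
    (hα : ∀ x ∈ μ, α x ≠ [])
    (hF : ∀ x ∈ μ, (∀ s < e, (Fl b N κ w (F x) s).length = Cs b cc s * (α x).length) ∧
      (Fl b N κ w (F x) e).length + l = Cs b cc e * (α x).length ∧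
      Fl b N κ w (F x) (e + 1) = (List.range (α x).length).map
        (fun j => b ^ 2 * (1 + b * ζ ((α x).getD j 0)) + κ * (cc * j))) :
    ∃ k B' : ℕ, 0 < k ∧ B' = B + l * (∑ i ∈ Finset.range (e + 1), b ^ i) * μ.length + cc * (wd α μ).length * (e + 1) ∧
      (es b N κ w)^[k] ((b - 1) * B + b * (b ^ e * l) * μ.length,
        grp κ μ.length (fun g => F (μ.getD g 0)) (fun g => B + b ^ e * l * g)) =
      ((b - 1) * B' + (cc + 1) * (wd α μ).length,
        (List.range (wd α μ).length).flatMap (fun j =>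
          ch b N w (b ^ 2 * (1 + b * ζ ((wd α μ).getD j 0)) + κ * (b * B' + (cc + 1) * j)))) := by
  obtain ⟨c, rfl⟩ : ∃ c, b = c + 1 := ⟨b - 1, by omega⟩
  obtain ⟨s, rfl⟩ : ∃ s, e = s + 1 := ⟨e - 1, by omega⟩
  simp only [Nat.add_sub_cancel] at hl ⊢
  have hcc : 0 < cc := by
    rcases Nat.eq_zero_or_pos cc with h | h
    · subst h; simp at hl
    · exact h
  set G := μ.length with hG
  set n := (wd α μ).length with hn
  have hmem : ∀ g < G, μ.getD g 0 ∈ μ := by
    intro g hg
    rw [List.getD_eq_getElem _ _ hg]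
    exact List.getElem_mem hg
  have hnn : n = C4a_nn (fun g => (α (μ.getD g 0)).length) G := C4a_wd_len α μ
  obtain ⟨k, hk, hrun⟩ := C4a_phase c N κ cc (s + 1) l w (fun g => (α (μ.getD g 0)).length)
    (fun g => F (μ.getD g 0)) G B n hnn (by omega)
    (fun g hg s hs => (hF _ (hmem g hg)).1 s hs) s 0 (by omega)
  have hGpos : 0 < G := List.length_pos_iff.mpr hμ
  have hnpos : 0 < n := by
    rw [hnn]
    unfold C4a_nn
    apply Finset.sum_pos
    · intro i hi
      exact List.length_pos_iff.mpr (hα _ (hmem i (Finset.mem_range.mp hi)))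
    · exact ⟨0, Finset.mem_range.mpr hGpos⟩
  -- stage e
  have hpre : ∀ g ≤ G, C4a_nn (fun g => (Fl (c + 1) N κ w (F (μ.getD g 0)) (s + 1)).length) g + l * g =
      c * cc * C4a_nn (fun g => (α (μ.getD g 0)).length) g := by
    intro g
    induction g with
    | zero => intro _; simp [C4a_nn]
    | succ g ih =>
      intro hg
      have h1 := ih (by omega)
      have h2 := (hF _ (hmem g (by omega))).2.1
      have h3 : Cs (c + 1) cc (s + 1) = c * cc := by simp [Cs]
      rw [h3] at h2
      rw [C4a_nn_succ, C4a_nn_succ]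
      have h4 : l * (g + 1) = l * g + l := by ring
      rw [h4, Nat.mul_add, ← h1, ← h2]
      omega
  have hpG := hpre G (le_refl _)
  rw [← hnn] at hpG
  set S := ∑ i ∈ Finset.range (s + 1 + 1), (c + 1) ^ i with hS
  have hgeo : (c + 1) ^ (s + 1 + 1) = c * S + 1 := C4a_geom c (s + 1 + 1)
  set Q := C4a_nn (fun g => (Fl (c + 1) N κ w (F (μ.getD g 0)) (s + 1)).length) G with hQ
  have hst := C4a_step (c + 1) N κ w (by omega) G
      (fun g => Fl (c + 1) N κ w (F (μ.getD g 0)) (s + 1))
      (fun g => Fl (c + 1) N κ w (F (μ.getD g 0)) (s + 1 + 1))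
      (fun g => B + s * cc * n + l * (c + 1) ^ (0 + 1) * (∑ i ∈ Finset.range (s + 1), (c + 1) ^ i) * G +
          cc * C4a_nn (fun g => (α (μ.getD g 0)).length) g + l * (c + 1) ^ 0 * g)
      (fun g => B + (s + 1) * cc * n + l * S * G + cc * C4a_nn (fun g => (α (μ.getD g 0)).length) g)
      (fun g => c * B + (c + 1) ^ (s + 1 + 1) * l * G + cc * n + (s + 1) * c * cc * n +
        C4a_nn (fun g => (Fl (c + 1) N κ w (F (μ.getD g 0)) (s + 1)).length) g)
      (c * B + (c + 1) ^ (s + 1 + 1) * l * G + cc * n + (s + 1) * c * cc * n)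
      (c * B + (c + 1) ^ (s + 1 + 1) * l * G + cc * n + (s + 1) * c * cc * n + Q)
      (by simp [C4a_nn_zero])
      rfl
      (by
        intro g hg
        show _ + C4a_nn _ (g + 1) = _ + C4a_nn _ g + _
        rw [C4a_nn_succ]
        ring)
      (by
        intro g hg
        show B + s * cc * n + l * (c + 1) ^ (0 + 1) * (∑ i ∈ Finset.range (s + 1), (c + 1) ^ i) * G +
          cc * C4a_nn (fun g => (α (μ.getD g 0)).length) g + l * (c + 1) ^ 0 * g +
          (c * B + (c + 1) ^ (s + 1 + 1) * l * G + cc * n + (s + 1) * c * cc * n +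
          C4a_nn (fun g => (Fl (c + 1) N κ w (F (μ.getD g 0)) (s + 1)).length) g) = _
        have h1 := hpre g (by omega)
        rw [hS, Finset.sum_range_succ (fun i => (c + 1) ^ i) (s + 1)]
        generalize ∑ i ∈ Finset.range (s + 1), (c + 1) ^ i = S'
        generalize C4a_nn (fun g => (Fl (c + 1) N κ w (F (μ.getD g 0)) (s + 1)).length) g = X at h1 ⊢
        generalize C4a_nn (fun g => (α (μ.getD g 0)).length) g = Y at h1 ⊢
        have h2 : B + s * cc * n + l * (c + 1) ^ (0 + 1) * S' * G +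
            cc * Y + l * (c + 1) ^ 0 * g +
            (c * B + (c + 1) ^ (s + 1 + 1) * l * G + cc * n + (s + 1) * c * cc * n + X) =
            B + s * cc * n + l * (c + 1) ^ (0 + 1) * S' * G + cc * Y +
            (c * B + (c + 1) ^ (s + 1 + 1) * l * G + cc * n + (s + 1) * c * cc * n + (X + l * g)) := by
          ring
        rw [h2, h1]
        ring)
      (by
        intro g hg
        rfl)
  -- the list at stage e+1
  have hlist : grp κ G (fun g => Fl (c + 1) N κ w (F (μ.getD g 0)) (s + 1 + 1))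
      (fun g => B + (s + 1) * cc * n + l * S * G + cc * C4a_nn (fun g => (α (μ.getD g 0)).length) g) =
      (List.range n).map (fun j => (c + 1) ^ 2 * (1 + (c + 1) * ζ ((wd α μ).getD j 0)) +
        κ * (B + (s + 1) * cc * n + l * S * G + cc * j)) := by
    rw [hnn, ← C4a_flatrange G (fun g => (α (μ.getD g 0)).length)
      (fun g j => (c + 1) ^ 2 * (1 + (c + 1) * ζ ((α (μ.getD g 0)).getD j 0)) +
        κ * (B + (s + 1) * cc * C4a_nn (fun g => (α (μ.getD g 0)).length) G + l * S * G +
          cc * (C4a_nn (fun g => (α (μ.getD g 0)).length) g + j)))]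
    · have : ∀ P : ℕ → List ℕ, ∀ R : ℕ → List ℕ, (∀ g < G, P g = R g) →
        (List.range G).flatMap P = (List.range G).flatMap R := by
        intro P R h
        have h1 := C4a_grp_congr 0 G P R (fun _ => 0) (fun _ => 0) h (fun _ _ => rfl)
        simpa [grp] using h1
      unfold grp
      apply this
      intro g hg
      have h1 := (hF _ (hmem g hg)).2.2
      simp only []
      rw [h1, List.map_map]
      apply List.map_congr_left
      intro j hj
      simp only [Function.comp]
      ring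
    · intro g hg j hj
      show (c + 1) ^ 2 * (1 + (c + 1) * ζ ((wd α μ).getD (C4a_nn (fun g => (α (μ.getD g 0)).length) g + j) 0)) + _ = _
      rw [C4a_wd_get α μ g j hg hj]
  set L := (List.range n).map (fun j => (c + 1) ^ 2 * (1 + (c + 1) * ζ ((wd α μ).getD j 0)) +
        κ * (B + (s + 1) * cc * n + l * S * G + cc * j)) with hL
  have hlen : L.length = n := by simp [hL]
  have hfin := C1_run (c + 1) N κ w L [] (c * B + (c + 1) ^ (s + 1 + 1) * l * G + cc * n + (s + 1) * c * cc * n + Q)
  rw [List.append_nil, List.nil_append, hlen] at hfin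
  have key1 : c * B + (c + 1) ^ (s + 1 + 1) * l * G + cc * n + (s + 1) * c * cc * n + Q + n =
      c * (B + l * S * G + cc * n * (s + 1 + 1)) + (cc + 1) * n := by
    rw [hgeo]
    have : c * B + (c * S + 1) * l * G + cc * n + (s + 1) * c * cc * n + Q + n =
      c * B + c * S * l * G + cc * n + (s + 1) * c * cc * n + n + (Q + l * G) := by ring
    rw [this, hpG]
    ring
  have key2 : B + (s + 1) * cc * n + l * S * G + (c * B + (c + 1) ^ (s + 1 + 1) * l * G + cc * n + (s + 1) * c * cc * n + Q) =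
      (c + 1) * (B + l * S * G + cc * n * (s + 1 + 1)) := by
    rw [hgeo]
    have : B + (s + 1) * cc * n + l * S * G + (c * B + (c * S + 1) * l * G + cc * n + (s + 1) * c * cc * n + Q) =
      B + (s + 1) * cc * n + l * S * G + c * B + c * S * l * G + cc * n + (s + 1) * c * cc * n + (Q + l * G) := by ring
    rw [this, hpG]
    ring
  refine ⟨n + ((grp κ G (fun g => Fl (c + 1) N κ w (F (μ.getD g 0)) (s + 1))
      (fun g => B + s * cc * n + l * (c + 1) ^ (0 + 1) * (∑ i ∈ Finset.range (s + 1), (c + 1) ^ i) * G +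
          cc * C4a_nn (fun g => (α (μ.getD g 0)).length) g + l * (c + 1) ^ 0 * g)).length + k),
    B + l * S * G + cc * n * (s + 1 + 1), by omega, rfl, ?_⟩
  rw [Function.iterate_add_apply, Function.iterate_add_apply, hrun, hst.2, hlist, hfin, key1]
  congr 1
  rw [hL, C4a_stgmap]
  congr 1
  funext j
  congr 1
  rw [← key2]
  ring

end Pool.Agent.Helper231_T2

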