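import Mathlib
import Pool.Agent.Helper231_T2.Defs
import Pool.Agent.Helper231_T2.C1

set_option autoImplicit false

namespace Pool.Agent.Helper231_T2


/-
PLAIN PROOF. n = W.length = bG'' + b-3. Write W_j = W.getD j 0, I_j = b^2(1+bζ(W_j)) + κ(bB' + (cc+1)j) = (cc+1)j = -j mod b (cc = -2 mod b, κ = 1 mod b).
So ch(I_j) = [] unless b | j, or j = b-1 mod b. For j = b g: [ b(1+bζ) + κ(B' + (cc+1)g) ]; for j = bg + b-1:
 I_j - 1 = b^2(1+bζ) + κ(bB' + (cc+1) b g) + (κ(cc+1)(b-1) - 1), κ(cc+1)(b-1) = 1-b mod b^2, ϖ := (κ(cc+1)(b-1) - 1)/b = -1 mod b,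
 ch = [ b(1+bζ) + κ(B' + (cc+1)g) + ϖ + w k : k<N ].
So the list is: for g < G'': [leader g] ++ [family of bg+b-1], then the leader G'' alone (b-3 ≥ 1; the index b-1 is missing in the last group).
The element number p of the list has index A + p, A = (b-1)B' + (cc+1)n; for the leader g: p = (1+N) g; child k of the family g: p = (1+N)g + 1 + k.
 Value of a leader mod b: B' + (cc+1) g + A + (1+N) g = b B' + (cc+1) n + (cc+2+N) g = (cc+1) n = (-1)(-3) = 3 mod b (cc+2+N = 0 mod b): as b >= 4, 3 mod b is not 0 or 1.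
 Value of a child mod b: (cc+1)n + ϖ + (1 + k) + w k = 3 - 1 + 1 + (k + w k) = 3 - 1 + 1 - 1 = 2 mod b: not 0 or 1.
So the whole list dies in this stage: after |list| steps the list is []. -/

theorem C5a_stg_nil (b N κ : ℕ) (w : ℕ → ℕ) (L : List ℕ) : ∀ i : ℕ,
    (∀ (p : ℕ) (hp : p < L.length), (L[p] + κ * (i + p)) % b ≠ 0 ∧ (L[p] + κ * (i + p)) % b ≠ 1) →
    stg b N κ w i L = [] := by
  induction L with
  | nil => intro i _; rfl
  | cons t L ih =>
    intro i h
    have h0 := h 0 (by simp)
    simp only [List.getElem_cons_zero, add_zero] at h0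
    have h1 : stg b N κ w (i + 1) L = [] := by
      apply ih
      intro p hp
      have := h (p + 1) (by simpa using hp)
      simp only [List.getElem_cons_succ] at this
      rw [show i + 1 + p = i + (p + 1) by ring]
      exact this
    show ch b N w (t + κ * i) ++ stg b N κ w (i + 1) L = []
    rw [h1, List.append_nil]
    unfold ch
    rw [if_neg h0.1, if_neg h0.2]

/-- TARGET -/
theorem C5a (b N κ cc : ℕ) (w ζ : ℕ → ℕ) (W : List ℕ) (B' : ℕ) (hb : 4 ≤ b) (hκ : κ % b = 1)
    (hw : ∀ k < N, (κ * k + w k + 1) % b = 0) (hN : N % b = 0) (hcc : (cc + 2) % b = 0)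
    (hκ2 : (κ * (cc + 1)) % b ^ 2 = b ^ 2 - 1) (hW : W.length % b = b - 3) :
    ∃ k : ℕ, ((es b N κ w)^[k] ((b - 1) * B' + (cc + 1) * W.length,
        (List.range W.length).flatMap (fun j =>
          ch b N w (b ^ 2 * (1 + b * ζ (W.getD j 0)) + κ * (b * B' + (cc + 1) * j))))).2 = [] := by
  set n := W.length with hn
  obtain ⟨c, rfl⟩ : ∃ c, b = c + 4 := ⟨b - 4, by omega⟩
  set b := c + 4 with hbdef
  have hb2 : 2 ≤ b := by omega
  -- basic decompositions
  obtain ⟨u, hu⟩ : ∃ u, κ = b * u + 1 := ⟨κ / b, by have := Nat.div_add_mod κ b; omega⟩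
  obtain ⟨N', hN'⟩ : ∃ N', N = b * N' := ⟨N / b, by have := Nat.div_add_mod N b; omega⟩
  obtain ⟨v, hv⟩ : ∃ v, cc + 2 = b * v := ⟨(cc + 2) / b, by have := Nat.div_add_mod (cc + 2) b; omega⟩
  obtain ⟨m, hm⟩ : ∃ m, n + 3 = b * m :=
    ⟨n / b + 1, by have := Nat.div_add_mod n b; rw [mul_add]; omega⟩
  obtain ⟨q, hq⟩ : ∃ q, κ * (cc + 1) + 1 = b ^ 2 * q := by
    refine ⟨κ * (cc + 1) / b ^ 2 + 1, ?_⟩
    have h1 := Nat.div_add_mod (κ * (cc + 1)) (b ^ 2)
    have h2 : 0 < b ^ 2 := by positivity
    have h3 : b ^ 2 * (κ * (cc + 1) / b ^ 2 + 1) = b ^ 2 * (κ * (cc + 1) / b ^ 2) + b ^ 2 := by ring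
    rw [h3]; omega
  set I : ℕ → ℕ := fun j => b ^ 2 * (1 + b * ζ (W.getD j 0)) + κ * (b * B' + (cc + 1) * j) with hI
  have hIj : ∀ j, (I j + j) % b = 0 := by
    intro j
    have : I j + j = b * (b * (1 + b * ζ (W.getD j 0)) + κ * B' + b * q * j) := by
      have e1 : I j + j = b ^ 2 * (1 + b * ζ (W.getD j 0)) + κ * (b * B') + (κ * (cc + 1) + 1) * j := by
        simp only [hI]; ring
      rw [e1, hq]; ring
    rw [this]; exact Nat.mul_mod_right _ _
  set i0 := (b - 1) * B' + (cc + 1) * n with hi0
  set o : ℕ → ℕ := fun j => i0 + (j + (b - 1)) / b + N * (j / b) with ho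
  set G : ℕ → List ℕ := fun j => ch b N w (I j) with hG
  have hb0 : 0 < b := by omega
  -- the three kinds of indices
  have hkind : ∀ j, (∃ g, j = b * g ∧ G j = [I j / b]) ∨
      (∃ g, j = b * g + (b - 1) ∧ (I j) % b = 1 ∧ G j = (List.range N).map (fun k => (I j - 1) / b + w k)) ∨
      (∃ g s, j = b * g + s ∧ 0 < s ∧ s < b - 1 ∧ G j = []) := by
    intro j
    have hj := Nat.div_add_mod j b
    have hjl := Nat.mod_lt j hb0
    have h1 := hIj j
    have h2 := Nat.div_add_mod (I j) b
    have h3 := Nat.mod_lt (I j) hb0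
    have h4 : (I j % b + j % b) % b = 0 := by rw [← Nat.add_mod]; exact h1
    rcases Nat.eq_zero_or_pos (j % b) with h0 | h0
    · left
      refine ⟨j / b, by omega, ?_⟩
      have h5 : I j % b = 0 := by
        rw [h0, add_zero, Nat.mod_mod] at h4
        exact h4
      show ch b N w (I j) = _
      unfold ch
      rw [if_pos h5]
    · right
      have h6 : I j % b + j % b = b := by
        have h7 := Nat.div_add_mod (I j % b + j % b) b
        rw [h4, add_zero] at h7
        have h8 : (I j % b + j % b) / b = 1 := by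
          have : (I j % b + j % b) / b < 2 := by
            apply Nat.div_lt_of_lt_mul; omega
          have h9 : (I j % b + j % b) / b ≠ 0 := by
            intro h9; rw [h9, mul_zero] at h7; omega
          exact le_antisymm (Nat.lt_succ_iff.mp this) (Nat.one_le_iff_ne_zero.mpr h9)
        rw [h8, mul_one] at h7
        exact h7.symm
      by_cases h10 : j % b = b - 1
      · left
        have h11 : I j % b = 1 := by omega
        refine ⟨j / b, by omega, h11, ?_⟩
        show ch b N w (I j) = _
        unfold ch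
        rw [if_neg (by omega), if_pos h11]
      · right
        refine ⟨j / b, j % b, by omega, h0, by omega, ?_⟩
        show ch b N w (I j) = _
        unfold ch
        rw [if_neg (by omega), if_neg (by omega)]
  have hdiv : ∀ g s, s < b → (b * g + s) / b = g := by
    intro g s hs
    rw [Nat.mul_add_div hb0, Nat.div_eq_of_lt hs, add_zero]
  have hdiv2 : ∀ g s, s < b → (b * g + b + s) / b = g + 1 := by
    intro g s hs
    rw [show b * g + b + s = b * (g + 1) + s by ring]
    exact hdiv _ _ hs
  have hoS : ∀ k < n, o (k + 1) = o k + (G k).length := by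
    intro j _
    rcases hkind j with ⟨g, hj, hGj⟩ | ⟨g, hj, _, hGj⟩ | ⟨g, s, hj, hs0, hs1, hGj⟩
    · rw [hGj]
      simp only [ho, List.length_singleton]
      have a1 : (j + 1 + (b - 1)) / b = g + 1 := by
        rw [hj, show b * g + 1 + (b - 1) = b * g + b + 0 by omega]; exact hdiv2 _ _ hb0
      have a2 : (j + (b - 1)) / b = g := by rw [hj]; exact hdiv _ _ (by omega)
      have a3 : (j + 1) / b = g := by rw [hj]; exact hdiv _ _ (by omega)
      have a4 : j / b = g := by rw [hj, ← add_zero (b * g)]; exact hdiv g 0 hb0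
      rw [a1, a2, a3, a4]; ring
    · rw [hGj]
      simp only [ho, List.length_map, List.length_range]
      have a1 : (j + 1 + (b - 1)) / b = g + 1 := by
        rw [hj, show b * g + (b - 1) + 1 + (b - 1) = b * g + b + (b - 1) by omega]
        exact hdiv2 _ _ (by omega)
      have a2 : (j + (b - 1)) / b = g + 1 := by
        rw [hj, show b * g + (b - 1) + (b - 1) = b * g + b + (b - 2) by omega]
        exact hdiv2 _ _ (by omega)
      have a3 : (j + 1) / b = g + 1 := by
        rw [hj, show b * g + (b - 1) + 1 = b * g + b + 0 by omega]; exact hdiv2 _ _ hb0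
      have a4 : j / b = g := by rw [hj]; exact hdiv _ _ (by omega)
      rw [a1, a2, a3, a4]; ring
    · rw [hGj]
      simp only [ho, List.length_nil]
      have a1 : (j + 1 + (b - 1)) / b = g + 1 := by
        rw [hj, show b * g + s + 1 + (b - 1) = b * g + b + s by omega]
        exact hdiv2 _ _ (by omega)
      have a2 : (j + (b - 1)) / b = g + 1 := by
        rw [hj, show b * g + s + (b - 1) = b * g + b + (s - 1) by omega]
        exact hdiv2 _ _ (by omega)
      have a3 : (j + 1) / b = g := by
        rw [hj, add_assoc]; exact hdiv _ _ (by omega)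
      have a4 : j / b = g := by rw [hj]; exact hdiv _ _ (by omega)
      rw [a1, a2, a3, a4, add_zero]
  have ho0 : o 0 = i0 := by
    simp only [ho, Nat.zero_div, mul_zero, zero_add, add_zero]
    rw [Nat.div_eq_of_lt (by omega)]; ring
  have hstage : stg b N κ w i0 ((List.range n).flatMap G) = [] := by
    rw [← ho0, C1_flat b N κ w n G o hoS]
    rw [List.flatMap_eq_nil_iff]
    intro j _
    -- the value of i0 in integers
    have hbm : ((b - 1 : ℕ) : ℤ) = (b : ℤ) - 1 := by
      push_cast [Nat.cast_sub (show 1 ≤ b by omega)]; ring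
    have hi0Z : (i0 : ℤ) = ((b : ℤ) - 1) * B' + ((cc : ℤ) + 1) * n := by
      rw [hi0]; push_cast; rw [hbm]
    have hvZ : (cc : ℤ) = b * v - 2 := by have := congrArg (Nat.cast : ℕ → ℤ) hv; push_cast at this; linarith
    have hmZ : (n : ℤ) = b * m - 3 := by have := congrArg (Nat.cast : ℕ → ℤ) hm; push_cast at this; linarith
    have huZ : (κ : ℤ) = b * u + 1 := by have := congrArg (Nat.cast : ℕ → ℤ) hu; push_cast at this; linarith
    have hNZ : (N : ℤ) = b * N' := by have := congrArg (Nat.cast : ℕ → ℤ) hN'; push_cast at this; linarith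
    have hqZ : (κ : ℤ) * (cc + 1) + 1 = b ^ 2 * q := by
      have := congrArg (Nat.cast : ℕ → ℤ) hq; push_cast at this; linarith
    have hres : ∀ (x r : ℕ), r < b → 2 ≤ r → (∃ y : ℤ, (x : ℤ) = b * y + r) → x % b ≠ 0 ∧ x % b ≠ 1 := by
      intro x r hr h2 ⟨y, hy⟩
      have h3 : ((x % b : ℕ) : ℤ) = r := by
        push_cast
        rw [hy, Int.mul_add_emod_self_left, Int.emod_eq_of_lt (by positivity) (by exact_mod_cast hr)]
      have h4 : x % b = r := by exact_mod_cast h3
      omega
    rcases hkind j with ⟨g, hj, hGj⟩ | ⟨g, hj, hI1, hGj⟩ | ⟨g, s, hj, hs0, hs1, hGj⟩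
    · rw [hGj]
      apply C5a_stg_nil
      intro p hp
      simp only [List.length_singleton, Nat.lt_one_iff] at hp
      subst hp
      simp only [List.getElem_cons_zero, add_zero]
      have e1 : I j / b = b * (1 + b * ζ (W.getD j 0)) + κ * (B' + (cc + 1) * g) := by
        apply Nat.div_eq_of_eq_mul_right hb0
        simp only [hI]
        conv_lhs => rw [show κ * (b * B' + (cc + 1) * j) = κ * (b * B' + (cc + 1) * (b * g)) by rw [← hj]]
        ring
      have a2 : (j + (b - 1)) / b = g := by rw [hj]; exact hdiv _ _ (by omega)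
      have a4 : j / b = g := by rw [hj, ← add_zero (b * g)]; exact hdiv g 0 hb0
      apply hres _ 3 (by omega) (by omega)
      rw [e1]
      have e2 : o j = i0 + g + N * g := by simp only [ho]; rw [a2, a4]
      rw [e2]
      push_cast
      rw [hi0Z]
      refine ⟨(1 + b * ζ (W.getD j 0)) + κ * B' + κ * (v * n) - κ * m + 3 * u + κ * v * g + κ * N' * g - 0, ?_⟩
      rw [hNZ, hvZ, hmZ, huZ]
      ring
    · rw [hGj]
      apply C5a_stg_nil
      intro p hp
      simp only [List.length_map, List.length_range] at hp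
      simp only [List.getElem_map, List.getElem_range]
      have hjZ : (j : ℤ) = b * g + (b - 1) := by rw [hj]; push_cast; rw [hbm]
      have hIZ : (I j : ℤ) = b ^ 2 * (1 + b * ζ (W.getD j 0)) + κ * (b * B' + (cc + 1) * j) := by
        simp only [hI]; push_cast; ring
      have e1 : (((I j - 1) / b : ℕ) : ℤ) =
          b * (1 + b * ζ (W.getD j 0)) + κ * B' + κ * (cc + 1) * g + (b * q * (b - 1) - 1) := by
        have h5 := Nat.div_add_mod (I j) b
        rw [hI1] at h5
        have h6 : (I j - 1) / b = I j / b := by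
          have : I j - 1 = b * (I j / b) := by omega
          rw [this, Nat.mul_div_cancel_left _ hb0]
        rw [h6]
        have h7 : (b : ℤ) * ((I j / b : ℕ) : ℤ) + 1 = I j := by exact_mod_cast h5
        have h8 : (b : ℤ) * ((I j / b : ℕ) : ℤ) = b * (b * (1 + b * ζ (W.getD j 0)) + κ * B' + κ * (cc + 1) * g
            + (b * q * (b - 1) - 1)) := by
          have h9 : (b : ℤ) * ((I j / b : ℕ) : ℤ) = I j - 1 := by linarith
          rw [h9, hIZ, hjZ]
          have h10 : (κ : ℤ) * (cc + 1) = b ^ 2 * q - 1 := by linarith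
          linear_combination ((b : ℤ) - 1) * h10
        exact mul_left_cancel₀ (by exact_mod_cast hb0.ne') h8
      have a2 : (j + (b - 1)) / b = g + 1 := by
        rw [hj, show b * g + (b - 1) + (b - 1) = b * g + b + (b - 2) by omega]
        exact hdiv2 _ _ (by omega)
      have a4 : j / b = g := by rw [hj]; exact hdiv _ _ (by omega)
      have e2 : o j = i0 + (g + 1) + N * g := by simp only [ho]; rw [a2, a4]
      obtain ⟨z, hz⟩ : ∃ z, κ * p + w p + 1 = b * z :=
        ⟨(κ * p + w p + 1) / b, by have := Nat.div_add_mod (κ * p + w p + 1) b; have := hw p hp; omega⟩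
      have hzZ : (κ : ℤ) * p + w p + 1 = b * z := by exact_mod_cast hz
      apply hres _ 2 (by omega) (by omega)
      rw [e2]
      rw [Nat.cast_add, Nat.cast_add, e1]
      push_cast
      rw [hi0Z]
      have hwp : (w p : ℤ) = b * z - κ * p - 1 := by linarith
      refine ⟨(1 + b * ζ (W.getD j 0)) + κ * B' + κ * (v * n) - κ * m + 3 * u + κ * v * g + κ * N' * g
        + q * (b - 1) + z + u, ?_⟩
      rw [hwp, hNZ, hvZ, hmZ, huZ]
      ring
    · rw [hGj]; rfl
  refine ⟨((List.range n).flatMap G).length, ?_⟩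
  have hrun := C1_run b N κ w ((List.range n).flatMap G) [] i0
  rw [List.append_nil, List.nil_append] at hrun
  have : (es b N κ w)^[((List.range n).flatMap G).length] (i0, (List.range n).flatMap G) =
      (i0 + ((List.range n).flatMap G).length, []) := by
    rw [hrun, hstage]
  rw [this]

end Pool.Agent.Helper231_T2

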