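import Mathlib
import Pool.Agent.Helper231_T2.Defs
import Pool.Agent.Helper231_T2.C1

set_option autoImplicit false

namespace Pool.Agent.Helper231_T2


theorem C5b_flat3 (f : ℕ → List ℕ) (h : ∀ g, f (3 * g + 2) = []) (G : ℕ) :
    (List.range (3 * G + 2)).flatMap f =
      (List.range (G + 1)).flatMap (fun g => f (3 * g) ++ f (3 * g + 1)) := by
  induction G with
  | zero => simp [List.range_succ]
  | succ G ih =>
    have e : 3 * (G + 1) + 2 = (3 * G + 2) + 1 + 1 + 1 := by ring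
    rw [e, List.range_succ, List.range_succ, List.range_succ, List.flatMap_append, List.flatMap_append,
      List.flatMap_append, ih, List.range_succ (n := G + 1), List.flatMap_append (xs := List.range (G + 1))]
    simp only [List.flatMap_singleton, List.append_assoc]
    rw [h G, List.nil_append]
    rfl

theorem C5b_congr (l : List ℕ) (f g : ℕ → List ℕ) (h : ∀ x ∈ l, f x = g x) :
    l.flatMap f = l.flatMap g := by
  induction l with
  | nil => rfl
  | cons x l ih =>
    rw [List.flatMap_cons, List.flatMap_cons, h x (List.mem_cons_self), ih fun y hy =>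
      h y (List.mem_cons_of_mem _ hy)]

theorem C5b_map (b N κ : ℕ) (w : ℕ → ℕ) (i : ℕ) (h : ℕ → ℕ) (n : ℕ) :
    stg b N κ w i ((List.range n).map h) =
      (List.range n).flatMap (fun k => ch b N w (h k + κ * (i + k))) := by
  induction n with
  | zero => rfl
  | succ n ih =>
    rw [List.range_succ, List.map_append, C1_append, ih, List.flatMap_append]
    simp [stg]

theorem C5b_flat (b N κ : ℕ) (w : ℕ → ℕ) (i l : ℕ) (n : ℕ) (G : ℕ → List ℕ)
    (hG : ∀ k, (G k).length = l) :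
    stg b N κ w i ((List.range n).flatMap G) =
      (List.range n).flatMap (fun k => stg b N κ w (i + l * k) (G k)) := by
  have h := C1_flat b N κ w n G (fun k => i + l * k) (by
    intro k _
    show i + l * (k + 1) = i + l * k + (G k).length
    rw [hG k]
    ring)
  simpa using h

theorem C5b_len (l : ℕ) (n : ℕ) (G : ℕ → List ℕ) (hG : ∀ k, (G k).length = l) :
    ((List.range n).flatMap G).length = l * n := by
  induction n with
  | zero => simp
  | succ n ih =>
    rw [List.range_succ, List.flatMap_append, List.length_append, ih]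
    simp only [List.flatMap_singleton]
    rw [hG n]
    ring

/-- the arithmetic modulo 9 -/
theorem C5b_arith (a c e G g k B k' u u' z m κ N cc p w w' : ℤ) (h1 : κ = 3 * a + 1)
    (h2 : N = 3 * (3 * e - 2 - c) + 1) (h3 : cc = 3 * c) (h4 : p = 3 * (a * c) + a + c)
    (h5 : w = 9 * u - 1 - κ * k * 4) (h6 : w' = 3 * u' - 1 - κ * k')
    (h7 : 21 * (a * c) + 10 * a + 7 * c = 9 * m + 2) :
    ((3 * (1 + 3 * z) + κ * (B + (cc + 1) * g) + p + w +
      κ * ((2 * B + (cc + 1) * (3 * G + 2)) + (1 + N) * g + 1 + k)) + 3 * w' +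
      3 * (κ * ((2 * B + (cc + 1) * (3 * G + 2)) + (1 + N) * (G + 1) + N * N * g + N * k + k'))) % 9
      = 7 := by
  subst h1 h2 h3 h4 h5 h6
  ring_nf
  ring_nf at h7
  omega

/-- the arithmetic modulo 3 for the children -/
theorem C5b_arith3 (a c e G g k B u z m κ N cc p w : ℤ) (h1 : κ = 3 * a + 1)
    (h2 : N = 3 * (3 * e - 2 - c) + 1) (h3 : cc = 3 * c) (h4 : p = 3 * (a * c) + a + c)
    (h5 : w = 9 * u - 1 - κ * k * 4)
    (h7 : 21 * (a * c) + 10 * a + 7 * c = 9 * m + 2) :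
    (3 * (1 + 3 * z) + κ * (B + (cc + 1) * g) + p + w +
      κ * ((2 * B + (cc + 1) * (3 * G + 2)) + (1 + N) * g + 1 + k)) % 3 = 1 := by
  subst h1 h2 h3 h4 h5
  ring_nf
  ring_nf at h7
  omega

/-- the arithmetic modulo 3 for the leaders -/
theorem C5b_arithL (a c e G g B z κ N cc : ℤ) (h1 : κ = 3 * a + 1)
    (h2 : N = 3 * (3 * e - 2 - c) + 1) (h3 : cc = 3 * c) :
    (3 * (1 + 3 * z) + κ * (B + (cc + 1) * g) +
      κ * ((2 * B + (cc + 1) * (3 * G + 2)) + (1 + N) * g)) % 3 = 2 := by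
  subst h1 h2 h3
  ring_nf
  omega

/-- TARGET -/
theorem C5b (N κ cc : ℕ) (w ζ : ℕ → ℕ) (W : List ℕ) (B' : ℕ) (hκ : κ % 3 = 1)
    (hw : ∀ k < N, (κ * k + w k + 1) % 3 = 0) (hw2 : ∀ k < N, (κ * k * 4 + w k + 1) % 9 = 0)
    (hN : N % 3 = 1) (hcc : cc % 3 = 0) (hE : (cc + 2 + N + 3) % 9 = 0)
    (hκ2 : (κ * (cc + 13)) % 27 = 10) (hW : W.length % 3 = 2) :
    ∃ k : ℕ, ((es 3 N κ w)^[k] ((3 - 1) * B' + (cc + 1) * W.length,
        (List.range W.length).flatMap (fun j =>
          ch 3 N w (3 ^ 2 * (1 + 3 * ζ (W.getD j 0)) + κ * (3 * B' + (cc + 1) * j))))).2 = [] := by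
  obtain ⟨a, ha⟩ : ∃ a, κ = 3 * a + 1 := ⟨κ / 3, by omega⟩
  obtain ⟨c, hc⟩ : ∃ c, cc = 3 * c := ⟨cc / 3, by omega⟩
  obtain ⟨e, he⟩ : ∃ e, cc + 2 + N + 3 = 9 * e := ⟨(cc + 2 + N + 3) / 9, by omega⟩
  obtain ⟨G, hG⟩ : ∃ G, W.length = 3 * G + 2 := ⟨W.length / 3, by omega⟩
  obtain ⟨p, hp⟩ : ∃ p, p = 3 * (a * c) + a + c := ⟨_, rfl⟩
  have hκc : κ * (cc + 1) = 3 * p + 1 := by
    rw [ha, hc, hp]; ring
  obtain ⟨m, hm⟩ : ∃ m : ℤ, 21 * ((a : ℤ) * c) + 10 * a + 7 * c = 9 * m + 2 := by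
    have h1 : ((3 * a + 1) * (3 * c + 13)) % 27 = 10 := by rw [← ha, ← hc]; exact hκ2
    have h2 : (3 * a + 1) * (3 * c + 13) = 9 * (a * c) + 39 * a + 3 * c + 13 := by ring
    rw [h2] at h1
    refine ⟨(21 * ((a : ℤ) * c) + 10 * a + 7 * c) / 9, ?_⟩
    have h3 : ((9 * ((a : ℤ) * c) + 39 * a + 3 * c + 13)) % 27 = 10 := by
      have := congrArg (Nat.cast : ℕ → ℤ) h1
      push_cast at this
      exact this
    generalize ((a : ℤ) * c) = y at *
    omega
  have hNz : (N : ℤ) = 3 * (3 * e - 2 - c) + 1 := by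
    have := congrArg (Nat.cast : ℕ → ℤ) he
    rw [hc] at this
    push_cast at this
    linarith
  have hκz : (κ : ℤ) = 3 * a + 1 := by rw [ha]; push_cast; ring
  have hcz : (cc : ℤ) = 3 * c := by rw [hc]; push_cast; ring
  have hpz : (p : ℤ) = 3 * ((a : ℤ) * c) + a + c := by rw [hp]; push_cast; ring
  rw [hG]
  set A : ℕ := (3 - 1) * B' + (cc + 1) * (3 * G + 2) with hA
  have hA' : A = 2 * B' + (cc + 1) * (3 * G + 2) := by rw [hA]
  set f : ℕ → List ℕ := fun j =>
    ch 3 N w (3 ^ 2 * (1 + 3 * ζ (W.getD j 0)) + κ * (3 * B' + (cc + 1) * j)) with hf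
  -- values of f
  have f0 : ∀ g, f (3 * g) = [3 * (1 + 3 * ζ (W.getD (3 * g) 0)) + κ * (B' + (cc + 1) * g)] := by
    intro g
    have e1 : 3 ^ 2 * (1 + 3 * ζ (W.getD (3 * g) 0)) + κ * (3 * B' + (cc + 1) * (3 * g)) =
        3 * (3 * (1 + 3 * ζ (W.getD (3 * g) 0)) + κ * (B' + (cc + 1) * g)) := by ring
    rw [hf]
    simp only []
    rw [e1]
    unfold ch
    rw [if_pos (Nat.mul_mod_right _ _), Nat.mul_div_cancel_left _ (by norm_num)]
  have f1 : ∀ g, f (3 * g + 1) = (List.range N).map (fun k =>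
      3 * (1 + 3 * ζ (W.getD (3 * g + 1) 0)) + κ * (B' + (cc + 1) * g) + p + w k) := by
    intro g
    have e1 : 3 ^ 2 * (1 + 3 * ζ (W.getD (3 * g + 1) 0)) + κ * (3 * B' + (cc + 1) * (3 * g + 1)) =
        3 * (3 * (1 + 3 * ζ (W.getD (3 * g + 1) 0)) + κ * (B' + (cc + 1) * g) + p) + 1 := by
      have : κ * (3 * B' + (cc + 1) * (3 * g + 1)) = 3 * (κ * (B' + (cc + 1) * g)) + κ * (cc + 1) := by
        ring
      rw [this, hκc]
      ring
    rw [hf]
    simp only []
    rw [e1]
    unfold ch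
    rw [if_neg (by omega), if_pos (by omega), Nat.add_sub_cancel, Nat.mul_div_cancel_left _ (by norm_num)]
  have f2 : ∀ g, f (3 * g + 2) = [] := by
    intro g
    have e1 : 3 ^ 2 * (1 + 3 * ζ (W.getD (3 * g + 2) 0)) + κ * (3 * B' + (cc + 1) * (3 * g + 2)) =
        3 * (3 * (1 + 3 * ζ (W.getD (3 * g + 2) 0)) + κ * (B' + (cc + 1) * g) + 2 * p) + 2 := by
      have : κ * (3 * B' + (cc + 1) * (3 * g + 2)) =
          3 * (κ * (B' + (cc + 1) * g)) + 2 * (κ * (cc + 1)) := by
        ring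
      rw [this, hκc]
      ring
    rw [hf]
    simp only []
    rw [e1]
    unfold ch
    rw [if_neg (by omega), if_neg (by omega)]
  have hL1 := C5b_flat3 f f2 G
  -- the lists
  set x0 : ℕ → ℕ := fun g => 3 * (1 + 3 * ζ (W.getD (3 * g) 0)) + κ * (B' + (cc + 1) * g) with hx0
  set y0 : ℕ → ℕ := fun g => 3 * (1 + 3 * ζ (W.getD (3 * g + 1) 0)) + κ * (B' + (cc + 1) * g) + p with hy0
  set V : ℕ → ℕ → ℕ := fun g k => y0 g + w k + κ * (A + (1 + N) * g + 1 + k) with hV
  have hgrp : (fun g => f (3 * g) ++ f (3 * g + 1)) =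
      fun g => x0 g :: (List.range N).map (fun k => y0 g + w k) := by
    funext g
    rw [f0, f1]
    rfl
  rw [hgrp] at hL1
  have hlen1 : ∀ g, (x0 g :: (List.range N).map (fun k => y0 g + w k)).length = 1 + N := by
    intro g
    simp
    ring
  have hV3 : ∀ g, ∀ k < N, V g k % 3 = 1 := by
    intro g k hk
    obtain ⟨u, hu⟩ : ∃ u, κ * k * 4 + w k + 1 = 9 * u := ⟨(κ * k * 4 + w k + 1) / 9, by
      have := hw2 k hk
      omega⟩
    have hwz : (w k : ℤ) = 9 * u - 1 - κ * k * 4 := by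
      have := congrArg (Nat.cast : ℕ → ℤ) hu
      push_cast at this
      linarith
    have h := C5b_arith3 a c e G g k B' u (ζ (W.getD (3 * g + 1) 0)) m κ N cc p (w k) hκz hNz hcz hpz hwz hm
    have h2 : ((V g k : ℕ) : ℤ) % 3 = 1 := by
      rw [← h]
      congr 1
    exact_mod_cast h2
  have hX3 : ∀ g, (x0 g + κ * (A + (1 + N) * g)) % 3 = 2 := by
    intro g
    have h := C5b_arithL a c e G g B' (ζ (W.getD (3 * g) 0)) κ N cc hκz hNz hcz
    have h2 : ((x0 g + κ * (A + (1 + N) * g) : ℕ) : ℤ) % 3 = 2 := by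
      rw [← h]
      congr 1
    exact_mod_cast h2
  -- stage 1
  set M : ℕ → ℕ → List ℕ := fun g k => (List.range N).map (fun k' => (V g k - 1) / 3 + w k') with hM
  have hst1 : stg 3 N κ w A ((List.range (3 * G + 2)).flatMap f) =
      (List.range (G + 1)).flatMap (fun g => (List.range N).flatMap (M g)) := by
    rw [hL1, C5b_flat 3 N κ w A (1 + N) (G + 1) _ hlen1]
    apply C5b_congr
    intro g _
    show ch 3 N w (x0 g + κ * (A + (1 + N) * g)) ++
      stg 3 N κ w (A + (1 + N) * g + 1) ((List.range N).map (fun k => y0 g + w k)) = _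
    have hdead : ch 3 N w (x0 g + κ * (A + (1 + N) * g)) = [] := by
      have := hX3 g
      unfold ch
      rw [if_neg (by omega), if_neg (by omega)]
    rw [hdead, List.nil_append, C5b_map]
    apply C5b_congr
    intro k hk
    have hk' := hV3 g k (List.mem_range.1 hk)
    show ch 3 N w (V g k) = _
    unfold ch
    rw [if_neg (by omega), if_pos hk']
  have hlenM : ∀ g k, (M g k).length = N := by
    intro g k
    simp [hM]
  have hlenM2 : ∀ g, ((List.range N).flatMap (M g)).length = N * N := fun g =>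
    C5b_len N N (M g) (hlenM g)
  -- stage 2
  have hlenL1 : ((List.range (3 * G + 2)).flatMap f).length = (1 + N) * (G + 1) := by
    rw [hL1]
    exact C5b_len (1 + N) (G + 1) _ hlen1
  have hst2 : stg 3 N κ w (A + (1 + N) * (G + 1))
      ((List.range (G + 1)).flatMap (fun g => (List.range N).flatMap (M g))) = [] := by
    rw [C5b_flat 3 N κ w _ (N * N) (G + 1) _ hlenM2, List.flatMap_eq_nil_iff]
    intro g _
    rw [C5b_flat 3 N κ w _ N N _ (hlenM g), List.flatMap_eq_nil_iff]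
    intro k hk
    have hkN := List.mem_range.1 hk
    show stg 3 N κ w _ ((List.range N).map (fun k' => (V g k - 1) / 3 + w k')) = []
    rw [C5b_map, List.flatMap_eq_nil_iff]
    intro k' hk'
    have hkN' := List.mem_range.1 hk'
    obtain ⟨u, hu⟩ : ∃ u, κ * k * 4 + w k + 1 = 9 * u := ⟨(κ * k * 4 + w k + 1) / 9, by
      have := hw2 k hkN
      omega⟩
    obtain ⟨u', hu'⟩ : ∃ u, κ * k' + w k' + 1 = 3 * u := ⟨(κ * k' + w k' + 1) / 3, by
      have := hw k' hkN'
      omega⟩
    have hwz : (w k : ℤ) = 9 * u - 1 - κ * k * 4 := by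
      have := congrArg (Nat.cast : ℕ → ℤ) hu
      push_cast at this
      linarith
    have hwz' : (w k' : ℤ) = 3 * u' - 1 - κ * k' := by
      have := congrArg (Nat.cast : ℕ → ℤ) hu'
      push_cast at this
      linarith
    have h := C5b_arith a c e G g k B' k' u u' (ζ (W.getD (3 * g + 1) 0)) m κ N cc p (w k) (w k')
      hκz hNz hcz hpz hwz hwz' hm
    have h2 : ((V g k + 3 * w k' +
        3 * (κ * (A + (1 + N) * (G + 1) + N * N * g + N * k + k')) : ℕ) : ℤ) % 9 = 7 := by
      rw [← h]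
      congr 1
    have h3 : (V g k + 3 * w k' +
        3 * (κ * (A + (1 + N) * (G + 1) + N * N * g + N * k + k'))) % 9 = 7 := by
      exact_mod_cast h2
    have h4 := hV3 g k hkN
    have h5 : ((V g k - 1) / 3 + w k' +
        κ * (A + (1 + N) * (G + 1) + N * N * g + N * k + k')) % 3 = 2 := by
      generalize κ * (A + (1 + N) * (G + 1) + N * N * g + N * k + k') = Y at *
      generalize V g k = v at *
      omega
    unfold ch
    rw [if_neg (by omega), if_neg (by omega)]
  refine ⟨((List.range (G + 1)).flatMap (fun g => (List.range N).flatMap (M g))).length +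
    ((List.range (3 * G + 2)).flatMap f).length, ?_⟩
  rw [Function.iterate_add_apply]
  have r1 := C1_run 3 N κ w ((List.range (3 * G + 2)).flatMap f) [] A
  rw [List.append_nil, List.nil_append, hst1, hlenL1] at r1
  rw [hlenL1, r1]
  have r2 := C1_run 3 N κ w ((List.range (G + 1)).flatMap (fun g => (List.range N).flatMap (M g))) []
    (A + (1 + N) * (G + 1))
  rw [List.append_nil, List.nil_append, hst2] at r2
  rw [r2]

end Pool.Agent.Helper231_T2

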