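import Mathlib
import Pool.Agent.Helper231_T2.Defs
import Pool.Agent.Helper231_T2.C1

set_option autoImplicit false

namespace Pool.Agent.Helper231_T2


/-
PLAIN PROOF. Write W_j = W.getD j 0, I_j = b^2(1+bζ(W_j)) + κ(bB' + (cc+1)j), so I_j = (cc+1)*j mod b (κ = 1 mod b). As (cc+1)*ν = 1 mod b, cc+1 is
invertible: I_j = 0 mod b iff b | j, and I_j = 1 mod b iff j = ν mod b (ν ≠ 0). For j = b g + r0 (r0 < b):
 r0 = 0: ch = [ b(1+bζ(W_j)) + κ(B' + (cc+1)g) ];
 r0 = ν: I_j - 1 = b^2(1+bζ) + κ(bB' + (cc+1) b g) + (κ(cc+1)ν - 1), with ϖ := (κ(cc+1)ν - 1)/b (exact), ch = [ b(1+bζ(W_j)) + κ(B' + (cc+1)g) + ϖ + w k : k<N ];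
 other r0: [].
So the start list is grp κ G' P2 (fun g => B' + (cc+1) g) with P2 g = b(1+bζ(W_{bg})) :: [b(1+bζ(W_{bg+ν})) + ϖ + w k : k < N], of length 1+N.
Stage e+2 (C1_grprun): o g = A2 + (1+N) g, A2 = (b-1)B' + (cc+1) b G'; sh + o = bB' + (cc+1)bG' + (cc+2+N) g divisible by b. Local: stg 0 (P2 g) =
 ch(b(1+bζ)) ++ ...: index 0 gives [1+bζ(W_{bg})]; index 1+k: value b(1+bζ') + ϖ + w k + κ(1+k) = ϖ + 1 + (κ k + w k) = ϖ + 1 - 1 = ϖ = -1 mod b [hϖ: κ(cc+1)ν = b^2-b+1 mod b^2,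
 so ϖ = -1 mod b]: neither 0 nor 1 as b >= 3: []. So we get grp κ G' (fun g => [1 + b ζ(W_{bg})]) (fun g => B3 + E g), B3 = B' + (cc+1) G', E = (cc+2+N)/b.
Stage e+3: o g = A3 + g, A3 = A2 + (1+N) G'; sh + o = B3 + A3 + (E+1) g = b(B3 + E G') + (E+1) g, divisible by b [B3 + A3 = b B' + (cc+1)(b+1)G' + (1+N)G' = b B3 + (cc+2+N) G'].
 Local: stg 0 [1+bζ] = ch(1+bζ) = [ζ + w k : k<N] = Loc (ζ) 0.  Result: groups with shift (B3 + E G') + ((E+1)/b) g, index A3 + G'. -/

theorem C4b_range (b G : ℕ) (f : ℕ → List ℕ) :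
    (List.range (b * G)).flatMap f
      = (List.range G).flatMap (fun g => (List.range b).flatMap (fun r => f (b * g + r))) := by
  induction G with
  | zero => simp
  | succ G ih =>
    rw [Nat.mul_succ, List.range_add, List.flatMap_append, ih, List.range_succ,
      List.flatMap_append, List.flatMap_map]
    simp

theorem C4b_two (b ν : ℕ) (h0 : 0 < ν) (hν : ν < b) (F : ℕ → List ℕ)
    (hF : ∀ r < b, r ≠ 0 → r ≠ ν → F r = []) : (List.range b).flatMap F = F 0 ++ F ν := by
  obtain ⟨p, rfl⟩ : ∃ p, ν = 1 + p := ⟨ν - 1, by omega⟩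
  obtain ⟨q, rfl⟩ : ∃ q, b = (1 + p) + 1 + q := ⟨b - p - 2, by omega⟩
  have e1 : ((List.range p).map (fun x => 1 + x)).flatMap F = [] := by
    rw [List.flatMap_eq_nil_iff]
    intro x hx
    obtain ⟨y, hy, rfl⟩ := List.mem_map.mp hx
    rw [List.mem_range] at hy
    exact hF _ (by omega) (by omega) (by omega)
  have e2 : ((List.range q).map (fun x => (1 + p) + 1 + x)).flatMap F = [] := by
    rw [List.flatMap_eq_nil_iff]
    intro x hx
    obtain ⟨y, hy, rfl⟩ := List.mem_map.mp hx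
    rw [List.mem_range] at hy
    exact hF _ (by omega) (by omega) (by omega)
  rw [List.range_add, List.flatMap_append, e2, List.range_succ, List.flatMap_append, List.range_add,
    List.flatMap_append, e1]
  simp

theorem C4b_ch0 (b N : ℕ) (w : ℕ → ℕ) (hb : 3 ≤ b) (x : ℕ) : ch b N w (b * x) = [x] := by
  unfold ch
  rw [if_pos (Nat.mul_mod_right b x), Nat.mul_div_cancel_left x (by omega)]

theorem C4b_ch1 (b N : ℕ) (w : ℕ → ℕ) (hb : 3 ≤ b) (x : ℕ) :
    ch b N w (b * x + 1) = (List.range N).map (fun k => x + w k) := by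
  unfold ch
  have h : (b * x + 1) % b = 1 := by
    rw [Nat.mul_add_mod, Nat.mod_eq_of_lt (by omega)]
  rw [if_neg (by omega), if_pos h, Nat.add_sub_cancel, Nat.mul_div_cancel_left x (by omega)]

theorem C4b_chn (b N : ℕ) (w : ℕ → ℕ) (I : ℕ) (h0 : I % b ≠ 0) (h1 : I % b ≠ 1) :
    ch b N w I = [] := by
  unfold ch
  rw [if_neg h0, if_neg h1]

theorem C4b_nil (b N κ : ℕ) (w : ℕ → ℕ) (i n : ℕ) (f : ℕ → ℕ)
    (h : ∀ k < n, (f k + κ * (i + k)) % b ≠ 0 ∧ (f k + κ * (i + k)) % b ≠ 1) :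
    stg b N κ w i ((List.range n).map f) = [] := by
  have e := C1_flat b N κ w n (fun k => [f k]) (fun k => i + k) (by intro k _; simp [add_assoc])
  have e2 : (List.range n).flatMap (fun k => [f k]) = (List.range n).map f := by
    rw [List.map_eq_flatMap]
  rw [e2] at e
  simp only [add_zero] at e
  rw [e, List.flatMap_eq_nil_iff]
  intro k hk
  rw [List.mem_range] at hk
  simp only [stg, List.append_nil]
  exact C4b_chn b N w _ (h k hk).1 (h k hk).2

/-- TARGET -/
theorem C4b (b N κ cc ν : ℕ) (w ζ : ℕ → ℕ) (W : List ℕ) (G' B' : ℕ) (hb : 3 ≤ b) (hκ : κ % b = 1)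
    (hw : ∀ k < N, (κ * k + w k + 1) % b = 0) (hν : ν < b) (hν1 : ((cc + 1) * ν) % b = 1)
    (hν2 : (κ * ((cc + 1) * ν)) % b ^ 2 = b ^ 2 - b + 1) (hE : (cc + 2 + N + b) % b ^ 2 = 0)
    (hW : W.length = b * G') :
    ∃ k : ℕ, (es b N κ w)^[k] ((b - 1) * B' + (cc + 1) * W.length,
        (List.range W.length).flatMap (fun j =>
          ch b N w (b ^ 2 * (1 + b * ζ (W.getD j 0)) + κ * (b * B' + (cc + 1) * j)))) =
      ((b - 1) * B' + (cc + 1) * (b * G') + (2 + N) * G',
        grp κ G' (fun g => Loc b N κ w (ζ (W.getD (b * g) 0)) 0)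
          (fun g => (B' + (cc + 1) * G' + (cc + 2 + N) / b * G') + (((cc + 2 + N) / b + 1) / b) * g)) := by
  have hb0 : 0 < b := by omega
  have hν0 : 0 < ν := by
    rcases Nat.eq_zero_or_pos ν with h | h
    · rw [h, mul_zero, Nat.zero_mod] at hν1; omega
    · exact h
  -- the number ϖ
  obtain ⟨q, hq⟩ : ∃ q, κ * ((cc + 1) * ν) = b * (b * q + b - 1) + 1 := by
    refine ⟨κ * ((cc + 1) * ν) / b ^ 2, ?_⟩
    have h := Nat.div_add_mod (κ * ((cc + 1) * ν)) (b ^ 2)
    rw [hν2] at h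
    set q := κ * ((cc + 1) * ν) / b ^ 2
    rw [← h]
    obtain ⟨c, rfl⟩ : ∃ c, b = c + 1 := ⟨b - 1, by omega⟩
    have e1 : (c + 1) ^ 2 - (c + 1) = (c + 1) * c := by
      rw [pow_two, Nat.mul_succ, Nat.add_sub_cancel]
    have e2 : (c + 1) * q + (c + 1) - 1 = (c + 1) * q + c := by omega
    rw [e1, e2]
    ring
  set ϖ := b * q + b - 1 with hϖ
  have hϖb : ϖ % b = b - 1 := by
    rw [hϖ, show b * q + b - 1 = b * q + (b - 1) by omega, Nat.mul_add_mod,
      Nat.mod_eq_of_lt (by omega)]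
  -- the divisibilities
  obtain ⟨E, hE1⟩ : ∃ E, cc + 2 + N = b * E := by
    have h1 : b ^ 2 ∣ cc + 2 + N + b := Nat.dvd_of_mod_eq_zero hE
    have h2 : b ∣ cc + 2 + N + b := (Dvd.intro_left b (by ring : b * b = b ^ 2)).trans h1
    exact (Nat.dvd_add_left (dvd_refl b)).mp h2
  obtain ⟨E', hE2⟩ : ∃ E', E + 1 = b * E' := by
    have h1 : b ^ 2 ∣ cc + 2 + N + b := Nat.dvd_of_mod_eq_zero hE
    rw [hE1, show b * E + b = b * (E + 1) by ring, pow_two] at h1
    exact Nat.dvd_of_mul_dvd_mul_left hb0 h1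
  have hEd : (cc + 2 + N) / b = E := by rw [hE1, Nat.mul_div_cancel_left _ hb0]
  have hEd' : (E + 1) / b = E' := by rw [hE2, Nat.mul_div_cancel_left _ hb0]
  rw [hEd, hEd', hW]
  -- the start list in groups
  have hκ1 : κ ≡ 1 [MOD b] := by
    unfold Nat.ModEq; rw [hκ, Nat.mod_eq_of_lt (by omega)]
  have hν1' : (cc + 1) * ν ≡ 1 [MOD b] := by
    unfold Nat.ModEq; rw [hν1, Nat.mod_eq_of_lt (by omega)]
  set P2 : ℕ → List ℕ := fun g => b * (1 + b * ζ (W.getD (b * g) 0)) ::
    (List.range N).map (fun k => b * (1 + b * ζ (W.getD (b * g + ν) 0)) + ϖ + w k) with hP2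
  have hstart : (List.range (b * G')).flatMap (fun j =>
      ch b N w (b ^ 2 * (1 + b * ζ (W.getD j 0)) + κ * (b * B' + (cc + 1) * j)))
      = grp κ G' P2 (fun g => B' + (cc + 1) * g) := by
    rw [C4b_range]
    unfold grp
    congr 1
    funext g
    rw [C4b_two b ν hν0 hν]
    · have e0 : b ^ 2 * (1 + b * ζ (W.getD (b * g + 0) 0)) + κ * (b * B' + (cc + 1) * (b * g + 0))
          = b * (b * (1 + b * ζ (W.getD (b * g) 0)) + κ * (B' + (cc + 1) * g)) := by
        rw [add_zero]; ring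
      have e1 : b ^ 2 * (1 + b * ζ (W.getD (b * g + ν) 0)) + κ * (b * B' + (cc + 1) * (b * g + ν))
          = b * (b * (1 + b * ζ (W.getD (b * g + ν) 0)) + κ * (B' + (cc + 1) * g) + ϖ) + 1 := by
        have : κ * (b * B' + (cc + 1) * (b * g + ν))
            = b * (κ * (B' + (cc + 1) * g)) + κ * ((cc + 1) * ν) := by ring
        rw [this, hq]; ring
      rw [e0, e1, C4b_ch0 b N w hb, C4b_ch1 b N w hb, hP2]
      simp only [List.map_cons, List.map_map, List.singleton_append, List.cons.injEq, true_and]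
      congr 1
      funext k
      simp only [Function.comp]
      ring
    · intro r hr hr0 hrν
      have hV : b ^ 2 * (1 + b * ζ (W.getD (b * g + r) 0)) + κ * (b * B' + (cc + 1) * (b * g + r))
          = b * (b * (1 + b * ζ (W.getD (b * g + r) 0)) + κ * (B' + (cc + 1) * g))
            + κ * ((cc + 1) * r) := by ring
      rw [hV]
      have hm : κ * ((cc + 1) * r) ≡ (cc + 1) * r [MOD b] := by
        simpa using hκ1.mul_right ((cc + 1) * r)
      have hr1 : ν * ((cc + 1) * r) ≡ r [MOD b] := by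
        have := hν1'.mul_right r
        rw [one_mul] at this
        rwa [show ν * ((cc + 1) * r) = (cc + 1) * ν * r by ring]
      apply C4b_chn
      · intro h
        rw [Nat.mul_add_mod] at h
        have h2 : κ * ((cc + 1) * r) ≡ 0 [MOD b] := by unfold Nat.ModEq; rw [h, Nat.zero_mod]
        have h3 := (hm.symm.trans h2).mul_left ν
        rw [mul_zero] at h3
        have h4 : r ≡ 0 [MOD b] := hr1.symm.trans h3
        unfold Nat.ModEq at h4
        rw [Nat.mod_eq_of_lt hr, Nat.zero_mod] at h4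
        exact hr0 h4
      · intro h
        rw [Nat.mul_add_mod] at h
        have h2 : κ * ((cc + 1) * r) ≡ 1 [MOD b] := by
          unfold Nat.ModEq; rw [h, Nat.mod_eq_of_lt (by omega)]
        have h3 := (hm.symm.trans h2).mul_left ν
        rw [mul_one] at h3
        have h4 : r ≡ ν [MOD b] := hr1.symm.trans h3
        unfold Nat.ModEq at h4
        rw [Nat.mod_eq_of_lt hr, Nat.mod_eq_of_lt hν] at h4
        exact hrν h4
  rw [hstart]
  -- first stage
  set A2 := (b - 1) * B' + (cc + 1) * (b * G') with hA2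
  have hbB : (b - 1) * B' + B' = b * B' := by
    obtain ⟨c, rfl⟩ : ∃ c, b = c + 1 := ⟨b - 1, by omega⟩
    rw [Nat.add_sub_cancel]; ring
  have hs1 : ∀ g, (B' + (cc + 1) * g) + (A2 + (1 + N) * g)
      = b * (B' + (cc + 1) * G' + E * g) := by
    intro g
    have : (B' + (cc + 1) * g) + (A2 + (1 + N) * g)
        = ((b - 1) * B' + B') + b * ((cc + 1) * G') + (cc + 2 + N) * g := by rw [hA2]; ring
    rw [this, hbB, hE1]; ring
  have r1 := C1_grprun b N κ w (by omega) G' P2 (fun g => B' + (cc + 1) * g)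
    (fun g => A2 + (1 + N) * g) (by
      intro g _
      simp only [hP2, List.length_cons, List.length_map, List.length_range]
      ring) (by
      intro g _
      exact ⟨_, hs1 g⟩)
  have hP2s : ∀ g, stg b N κ w 0 (P2 g) = [1 + b * ζ (W.getD (b * g) 0)] := by
    intro g
    simp only [hP2, stg, mul_zero, add_zero, zero_add]
    rw [C4b_ch0 b N w hb, C4b_nil, List.append_nil]
    intro k hk
    have h1 := hw k hk
    have e : b * (1 + b * ζ (W.getD (b * g + ν) 0)) + ϖ + w k + κ * (1 + k)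
        = b * (1 + b * ζ (W.getD (b * g + ν) 0)) + (ϖ + (κ + (κ * k + w k))) := by ring
    have h2 : ϖ + (κ + (κ * k + w k)) ≡ ϖ [MOD b] := by
      have h3 : κ + (κ * k + w k) ≡ 0 [MOD b] := by
        have h4 : κ + (κ * k + w k) ≡ 1 + (κ * k + w k) [MOD b] := hκ1.add_right _
        refine h4.trans ?_
        unfold Nat.ModEq
        rw [add_comm 1, h1, Nat.zero_mod]
      simpa using h3.add_left ϖ
    have h5 : (b * (1 + b * ζ (W.getD (b * g + ν) 0)) + ϖ + w k + κ * (1 + k)) % b = b - 1 := by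
      rw [e, Nat.mul_add_mod, h2, hϖb]
    omega
  have r1' : (es b N κ w)^[(grp κ G' P2 (fun g => B' + (cc + 1) * g)).length]
      (A2, grp κ G' P2 (fun g => B' + (cc + 1) * g)) =
      (A2 + (1 + N) * G', grp κ G' (fun g => [1 + b * ζ (W.getD (b * g) 0)])
        (fun g => B' + (cc + 1) * G' + E * g)) := by
    have h := r1.2
    simp only [mul_zero, add_zero, hP2s] at h
    rw [h]
    congr 1
    congr 1
    funext g
    rw [hs1 g, Nat.mul_div_cancel_left _ hb0]
  -- second stage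
  have hs2 : ∀ g, (B' + (cc + 1) * G' + E * g) + (A2 + (1 + N) * G' + g)
      = b * ((B' + (cc + 1) * G' + E * G') + E' * g) := by
    intro g
    have : (B' + (cc + 1) * G' + E * g) + (A2 + (1 + N) * G' + g)
        = ((b - 1) * B' + B') + b * ((cc + 1) * G') + (cc + 2 + N) * G' + (E + 1) * g := by
      rw [hA2]; ring
    rw [this, hbB, hE1, hE2]; ring
  have r2 := C1_grprun b N κ w (by omega) G' (fun g => [1 + b * ζ (W.getD (b * g) 0)])
    (fun g => B' + (cc + 1) * G' + E * g) (fun g => A2 + (1 + N) * G' + g) (by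
      intro g _
      simp only [List.length_cons, List.length_nil]
      ring) (by
      intro g _
      exact ⟨_, hs2 g⟩)
  have hLoc : ∀ g, stg b N κ w 0 [1 + b * ζ (W.getD (b * g) 0)]
      = Loc b N κ w (ζ (W.getD (b * g) 0)) 0 := by
    intro g
    simp only [stg, mul_zero, add_zero, List.append_nil, Loc]
    rw [add_comm 1, C4b_ch1 b N w hb]
  refine ⟨(grp κ G' (fun g => [1 + b * ζ (W.getD (b * g) 0)])
    (fun g => B' + (cc + 1) * G' + E * g)).length
      + (grp κ G' P2 (fun g => B' + (cc + 1) * g)).length, ?_⟩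
  rw [Function.iterate_add_apply, r1']
  have h := r2.2
  simp only [add_zero, hLoc] at h
  rw [h]
  refine Prod.ext ?_ ?_
  · simp only []
    rw [hA2]; ring
  · simp only []
    congr 1
    funext g
    rw [hs2 g, Nat.mul_div_cancel_left _ hb0]

end Pool.Agent.Helper231_T2

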