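import Mathlib
import Pool.Agent.Helper231_T2.Defs
import Pool.Agent.Helper231_T2.C1
import Pool.Agent.Helper231_T2.C4a
import Pool.Agent.Helper231_T2.C4b

set_option autoImplicit false

namespace Pool.Agent.Helper231_T2


/-
PLAIN PROOF. n = |wd α μ| = b*G'. Write D' = b^e*l. C4a (hF from hrun, α x ≠ []) gives k1 > 0 steps to the state
((b-1)B' + (cc+1)n, flatMap ..) with some B'. C4b with W = wd α μ, ν := 1 if b = 3, b-1 otherwise [hν1: (cc+1)ν = 1 mod b; hν2: b=3: κ(cc+1) = 7 mod 9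
because κ(cc+13) = 1 mod 9, cc = 0 mod 3, κ = 1 mod 3: κ(cc+1) = κ(cc+13) - 12κ = 1 - 12 = -11 = 7 mod 9 (12κ = 12 mod 9 as κ = 1 mod 3);
b ≥ 4: κ(cc+1)(b-1) = -(b-1) mod b^2; hE: from hE4 mod b^2] gives the state (A0, grp κ G' (fun g => Loc (ζ(W_{bg})) 0) (fun g => B0 + η0*g)),
A0 = (b-1)B' + (cc+1)(bG') + (2+N)G', E = (cc+2+N)/b, B0 = B' + (cc+1)G' + E G', η0 = (E+1)/b (b*E = cc+2+N, b*η0 = E+1 exactly because
b^2 | cc+2+N+b). Then C1_fam with Lo g τ = Loc b N κ w (ζ (W.getD (b*g) 0)) τ, A τ = A0 + (sum_{τ'<τ} mm τ')*G';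
η from C1_seq (with S = T, A := mm, B0 := η0, BS := D'): b^T*D' = sum b^τ mm τ + η0 follows from hE4: b^2*η0 = cc+2+N+b, b^(T+e+2) l = b^2 b^T D'.
B from C1_seq with A, B0, BS := B2 where B2 is such that (b-1)*B2 + b*D'*G' = A T. Existence of B2 and b^T*B2 = sum_{τ<T} b^τ A τ + B0:
 (b-1)*(sum_{τ<T} b^τ A τ + B0) = b^T*(A T) - b^T*(b D' G'):
   (b-1)*sum_{τ<T} b^τ A τ = b^T*A T - A0 - b*G'*sum_{τ<T} mm τ b^τ        (by induction on T: summation by parts),
   b*sum mm τ b^τ = b b^T D' - E - 1 (from hE4 divided by b: (E + 1) + b*sum = b^(T+1)*D'),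
   and (E+1)G' + (b-1)B0 = A0:  (b-1)B0 + (E+1)G' = (b-1)B' + (b-1)(cc+1)G' + bE G' + G' = (b-1)B' + (cc+1)bG' - (cc+1)G' + (cc+2+N)G' + G'
     = (b-1)B' + (cc+1)bG' + (2+N)G' = A0.
 so (b-1) divides b^T*(A T - b D' G') (in ℤ), gcd(b-1,b) = 1, so (b-1) | A T - b D' G' =: (b-1) B2, and b^T*B2 = sum + B0 ≥ 0, so B2 ≥ 0.
The final state is (A T, grp κ G' (fun g => Loc (ζ(W_{bg})) T) (fun g => B2 + D' g)), Loc .. T = F (W_{bg}), and nxt b α μ = pk b 0 W is the list of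
the W_{bg}, g < G' (length G', getD g = W.getD (b*g)). Letters of W are < r. So it is sta (nxt b α μ) B2. -/

theorem pk_drop (P : ℕ) : ∀ (c : ℕ) (W : List ℕ), pk P c W = pk P 0 (W.drop c) := by
  intro c
  induction c with
  | zero => intro W; rfl
  | succ c ih =>
    intro W
    cases W with
    | nil => simp [pk]
    | cons x W => simpa [pk] using ih W

theorem pk_len_get (b : ℕ) (hb : 1 ≤ b) : ∀ (G : ℕ) (W : List ℕ), W.length = b * G →
    (pk b 0 W).length = G ∧ ∀ g < G, (pk b 0 W).getD g 0 = W.getD (b * g) 0 := by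
  intro G
  induction G with
  | zero =>
    intro W hW
    have : W = [] := by
      apply List.length_eq_zero_iff.mp
      simpa using hW
    subst this
    simp [pk]
  | succ G ih =>
    intro W hW
    cases W with
    | nil =>
      exfalso
      rw [Nat.mul_succ] at hW
      simp at hW
      omega
    | cons x W =>
      have h1 : pk b 0 (x :: W) = x :: pk b 0 (W.drop (b - 1)) := by
        rw [← pk_drop]
        rfl
      have hlen : (W.drop (b - 1)).length = b * G := by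
        rw [List.length_drop]
        rw [Nat.mul_succ] at hW
        simp only [List.length_cons] at hW
        omega
      obtain ⟨ih1, ih2⟩ := ih _ hlen
      rw [h1]
      refine ⟨by simp [ih1], ?_⟩
      intro g hg
      cases g with
      | zero => simp
      | succ g =>
        have h2 : b * (g + 1) = (b - 1 + b * g) + 1 := by
          rw [Nat.mul_succ]; omega
        rw [h2, List.getD_cons_succ, List.getD_cons_succ, ih2 g (by omega)]
        simp only [List.getD_eq_getElem?_getD, List.getElem?_drop]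

theorem sum_parts (c G' A0 : ℕ) (mm : ℕ → ℕ) : ∀ T : ℕ,
    c * (∑ τ ∈ Finset.range T, (c + 1) ^ τ * (A0 + (∑ i ∈ Finset.range τ, mm i) * G')) + A0 +
      (c + 1) * G' * (∑ τ ∈ Finset.range T, mm τ * (c + 1) ^ τ) =
    (c + 1) ^ T * (A0 + (∑ i ∈ Finset.range T, mm i) * G') := by
  intro T
  induction T with
  | zero => simp
  | succ T ih =>
    rw [Finset.sum_range_succ, Finset.sum_range_succ, Finset.sum_range_succ]
    have : (c + 1) ^ (T + 1) * (A0 + (∑ i ∈ Finset.range T, mm i + mm T) * G') =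
      (c + 1) * ((c + 1) ^ T * (A0 + (∑ i ∈ Finset.range T, mm i) * G')) +
        (c + 1) ^ (T + 1) * (mm T * G') := by ring
    rw [this]
    have h2 : (c + 1) * ((c + 1) ^ T * (A0 + (∑ i ∈ Finset.range T, mm i) * G')) =
      c * ((c + 1) ^ T * (A0 + (∑ i ∈ Finset.range T, mm i) * G')) +
        ((c + 1) ^ T * (A0 + (∑ i ∈ Finset.range T, mm i) * G')) := by ring
    rw [h2]
    nth_rewrite 3 [← ih]
    ring

theorem grp_congr (κ n : ℕ) (P Q : ℕ → List ℕ) (s t : ℕ → ℕ) (h1 : ∀ g < n, P g = Q g)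
    (h2 : ∀ g < n, s g = t g) : grp κ n P s = grp κ n Q t := by
  unfold grp
  apply List.flatMap_congr
  intro g hg
  rw [List.mem_range] at hg
  rw [h1 g hg, h2 g hg]

theorem wd_ne_nil (α : ℕ → List ℕ) (μ : List ℕ) (hμ : μ ≠ []) (h : ∀ x ∈ μ, α x ≠ []) :
    wd α μ ≠ [] := by
  cases μ with
  | nil => exact absurd rfl hμ
  | cons x μ =>
    intro h'
    have : α x = [] := by
      unfold wd at h'
      rw [List.flatMap_cons] at h'
      exact (List.append_eq_nil_iff.mp h').1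
    exact h x (by simp) this

theorem nu_exists (b κ cc : ℕ) (hb : 3 ≤ b) (hκ : κ % b = 1)
    (hcase : (b = 3 ∧ cc % 3 = 0 ∧ (κ * (cc + 13)) % 27 = 10) ∨
    (4 ≤ b ∧ (cc + 2) % b = 0 ∧ (κ * (cc + 1)) % b ^ 2 = b ^ 2 - 1)) :
    ∃ ν : ℕ, ν < b ∧ ((cc + 1) * ν) % b = 1 ∧ (κ * ((cc + 1) * ν)) % b ^ 2 = b ^ 2 - b + 1 := by
  rcases hcase with ⟨h1, h2, h3⟩ | ⟨h1, h2, h3⟩
  · subst h1
    refine ⟨1, by norm_num, by omega, ?_⟩
    obtain ⟨c, rfl⟩ : ∃ c, cc = 3 * c := ⟨cc / 3, by omega⟩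
    obtain ⟨k, rfl⟩ : ∃ k, κ = 3 * k + 1 := ⟨κ / 3, by omega⟩
    have e1 : (3 * k + 1) * (3 * c + 13) = 9 * (k * c) + 39 * k + 3 * c + 13 := by ring
    have e2 : (3 * k + 1) * ((3 * c + 1) * 1) = 9 * (k * c) + 3 * k + 3 * c + 1 := by ring
    rw [e1] at h3
    rw [e2]
    norm_num
    omega
  · refine ⟨b - 1, by omega, ?_, ?_⟩
    · obtain ⟨c, hc⟩ : ∃ c, cc + 2 = b * c := ⟨(cc + 2) / b, by
        have := Nat.div_add_mod (cc + 2) b; omega⟩
      obtain ⟨a, rfl⟩ : ∃ a, b = a + 1 := ⟨b - 1, by omega⟩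
      obtain ⟨c, rfl⟩ : ∃ d, c = d + 1 := ⟨c - 1, by
        rcases Nat.eq_zero_or_pos c with h | h
        · subst h; omega
        · omega⟩
      have : cc + 1 = (a + 1) * c + a := by
        have : (a + 1) * (c + 1) = (a + 1) * c + a + 1 := by ring
        omega
      rw [this]
      have e : ((a + 1) * c + a) * (a + 1 - 1) = (a + 1) * (c * a + (a - 1)) + 1 := by
        obtain ⟨d, rfl⟩ : ∃ d, a = d + 1 := ⟨a - 1, by omega⟩
        simp only [Nat.add_sub_cancel]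
        ring
      rw [e, Nat.add_mod, Nat.mul_mod_right]
      simp
      omega
    · have hq := Nat.div_add_mod (κ * (cc + 1)) (b ^ 2)
      rw [h3] at hq
      set q := κ * (cc + 1) / b ^ 2
      have hb2 : b ^ 2 = b * b := by ring
      have hbb : b + 1 ≤ b ^ 2 := by nlinarith
      have e : κ * ((cc + 1) * (b - 1)) = b ^ 2 * (q * (b - 1) + (b - 2)) + (b ^ 2 - b + 1) := by
        have : κ * ((cc + 1) * (b - 1)) = (κ * (cc + 1)) * (b - 1) := by ring
        rw [this, ← hq]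
        zify [show 1 ≤ b ^ 2 by omega, show 1 ≤ b by omega, show 2 ≤ b by omega,
          show b ≤ b ^ 2 by omega]
        ring
      rw [e, Nat.mul_add_mod, Nat.mod_eq_of_lt]
      omega

/-- TARGET: one cycle -/
theorem C6a (b r N κ cc e l T : ℕ) (α : ℕ → List ℕ) (w ζ mm : ℕ → ℕ) (F : ℕ → List ℕ) (hb : 3 ≤ b)
    (hα : ∀ x < r, α x ≠ [] ∧ ∀ y ∈ α x, y < r) (hG : Gad b α r N κ cc e l T w ζ mm F)
    (μ : List ℕ) (B : ℕ) (hμ : μ ≠ []) (hμr : ∀ y ∈ μ, y < r) (hal : (wd α μ).length % b = 0) :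
    ∃ k B2 : ℕ, 0 < k ∧ (es b N κ w)^[k] (sta b κ e l F μ B) = sta b κ e l F (nxt b α μ) B2 := by
  obtain ⟨k1, B', hk1, -, hrun1⟩ := C4a b N κ cc e l w ζ α F μ B hb hG.he hG.hl0 hG.hl hμ
    (fun x hx => (hα x (hμr x hx)).1) (fun x hx => hG.hrun x (hμr x hx))
  set W := wd α μ with hWdef
  obtain ⟨G', hG'⟩ : ∃ G', W.length = b * G' := ⟨W.length / b, by
    have := Nat.div_add_mod W.length b; omega⟩
  have hWr : ∀ y ∈ W, y < r := by
    intro y hy
    rw [hWdef] at hy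
    unfold wd at hy
    rw [List.mem_flatMap] at hy
    obtain ⟨x, hx, hyx⟩ := hy
    exact (hα x (hμr x hx)).2 y hyx
  have hget : ∀ g < G', W.getD (b * g) 0 < r := by
    intro g hg
    have hlt : b * g < W.length := by
      rw [hG']
      exact Nat.mul_lt_mul_of_pos_left hg (by omega)
    rw [List.getD_eq_getElem _ _ hlt]
    exact hWr _ (List.getElem_mem hlt)
  obtain ⟨ν, hν, hν1, hν2⟩ := nu_exists b κ cc hb hG.hκ (by
    rcases hG.hcase with ⟨h1, -, h3, h4⟩ | ⟨h1, -, h3, h4⟩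
    · exact Or.inl ⟨h1, h3, h4⟩
    · exact Or.inr ⟨h1, h3, h4⟩)
  have hE4 := hG.hE4
  have hE : (cc + 2 + N + b) % b ^ 2 = 0 := by
    have h1 : b ^ (T + e + 2) * l = b ^ 2 * (b ^ (T + e) * l) := by ring
    rw [h1] at hE4
    have h2 : b ^ 2 ∣ (cc + 2 + N + b) := by
      have h3 : b ^ 2 ∣ (cc + 2 + b + N) + b ^ 2 * ∑ τ ∈ Finset.range T, mm τ * b ^ τ := by
        rw [hE4]; exact Dvd.intro _ rfl
      have h4 := (Nat.dvd_add_left (Dvd.intro _ rfl :
        b ^ 2 ∣ b ^ 2 * ∑ τ ∈ Finset.range T, mm τ * b ^ τ)).mp h3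
      have h5 : cc + 2 + N + b = cc + 2 + b + N := by ring
      rw [h5]; exact h4
    exact Nat.mod_eq_zero_of_dvd h2
  obtain ⟨k2, hrun2⟩ := C4b b N κ cc ν w ζ W G' B' hb hG.hκ hG.hw3 hν hν1 hν2 hE hG'
  set E := (cc + 2 + N) / b with hEdef
  set η0 := (E + 1) / b with hη0def
  obtain ⟨c, hc⟩ : ∃ c, cc + 2 + N + b = b ^ 2 * c := ⟨(cc + 2 + N + b) / b ^ 2, by
    have := Nat.div_add_mod (cc + 2 + N + b) (b ^ 2); omega⟩
  have hc1 : 1 ≤ c := by
    rcases Nat.eq_zero_or_pos c with h | h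
    · subst h; omega
    · exact h
  have hbE : cc + 2 + N = b * E := by
    have h1 : cc + 2 + N = b * (b * c - 1) := by
      obtain ⟨d, rfl⟩ : ∃ d, c = d + 1 := ⟨c - 1, by omega⟩
      have h3 : b * (b * (d + 1) - 1) + b = b ^ 2 * (d + 1) := by
        zify [show 1 ≤ b * (d + 1) by nlinarith]
        ring
      omega
    rw [hEdef]
    have h2 : (cc + 2 + N) / b = b * c - 1 := by
      rw [h1]; exact Nat.mul_div_cancel_left _ (by omega)
    rw [h2]; exact h1
  have hEc : E + 1 = b * c := by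
    have : b * (E + 1) = b * (b * c) := by
      have : b * (E + 1) = b * E + b := by ring
      rw [this, ← hbE, hc]; ring
    exact Nat.eq_of_mul_eq_mul_left (by omega) this
  have hη0 : η0 = c := by
    rw [hη0def, hEc]; exact Nat.mul_div_cancel_left _ (by omega)
  have hbη : b * η0 = E + 1 := by rw [hη0, hEc]
  clear_value E η0
  -- the sum identity
  have hM : η0 + ∑ τ ∈ Finset.range T, mm τ * b ^ τ = b ^ T * (b ^ e * l) := by
    have h1 : b ^ 2 * (η0 + ∑ τ ∈ Finset.range T, mm τ * b ^ τ) = b ^ 2 * (b ^ T * (b ^ e * l)) := by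
      have h2 : b ^ 2 * (b ^ T * (b ^ e * l)) = b ^ (T + e + 2) * l := by ring
      rw [h2, ← hE4, Nat.mul_add, hη0, ← hc]
      ring
    exact Nat.eq_of_mul_eq_mul_left (by positivity) h1
  obtain ⟨η, hη1, hη2, hη3⟩ := C1_seq b (by omega) T mm η0 (b ^ e * l) (by
    rw [← hM, Nat.add_comm]
    congr 1
    apply Finset.sum_congr rfl
    intro i _
    ring)
  set A0 := (b - 1) * B' + (cc + 1) * (b * G') + (2 + N) * G' with hA0
  set B0 := B' + (cc + 1) * G' + E * G' with hB0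
  set D' := b ^ e * l with hD'
  have hAB : (E + 1) * G' + (b - 1) * B0 = A0 := by
    obtain ⟨a, rfl⟩ : ∃ a, b = a + 1 := ⟨b - 1, by omega⟩
    simp only [Nat.add_sub_cancel] at *
    rw [hA0, hB0]
    have h1 : (E + 1) * G' + a * (B' + (cc + 1) * G' + E * G') =
      a * B' + a * (cc + 1) * G' + ((a + 1) * E) * G' + G' := by ring
    rw [h1, ← hbE]
    ring
  set S := ∑ τ ∈ Finset.range T, b ^ τ * (A0 + (∑ i ∈ Finset.range τ, mm i) * G') with hS
  have hkey : (b - 1) * (S + B0) + b ^ T * (b * D' * G') =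
      b ^ T * (A0 + (∑ i ∈ Finset.range T, mm i) * G') := by
    obtain ⟨a, rfl⟩ : ∃ a, b = a + 1 := ⟨b - 1, by omega⟩
    have h1 := sum_parts a G' A0 mm T
    rw [← h1, ← hS]
    simp only [Nat.add_sub_cancel] at *
    have h2 : (a + 1) ^ T * ((a + 1) * D' * G') = (a + 1) * G' * ((a + 1) ^ T * D') := by ring
    rw [h2, ← hM]
    have h3 : (a + 1) * G' * (η0 + ∑ τ ∈ Finset.range T, mm τ * (a + 1) ^ τ) =
      ((a + 1) * η0) * G' + (a + 1) * G' * ∑ τ ∈ Finset.range T, mm τ * (a + 1) ^ τ := by ring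
    rw [h3, hbη]
    have h4 : a * S + A0 = a * S + ((E + 1) * G' + a * B0) := by rw [hAB]
    rw [h4]
    ring
  have hle : b * D' * G' ≤ A0 + (∑ i ∈ Finset.range T, mm i) * G' := by
    have : b ^ T * (b * D' * G') ≤ b ^ T * (A0 + (∑ i ∈ Finset.range T, mm i) * G') := by omega
    exact Nat.le_of_mul_le_mul_left this (by positivity)
  obtain ⟨X, hX⟩ := Nat.exists_eq_add_of_le hle
  have hX2 : (b - 1) * (S + B0) = b ^ T * X := by
    rw [hX] at hkey
    have h : b ^ T * (b * D' * G' + X) = b ^ T * (b * D' * G') + b ^ T * X := Nat.mul_add _ _ _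
    omega
  have hcop : Nat.Coprime (b - 1) (b ^ T) := by
    apply Nat.Coprime.pow_right
    obtain ⟨a, rfl⟩ : ∃ a, b = a + 1 := ⟨b - 1, by omega⟩
    simp
  obtain ⟨B2, hB2⟩ : (b - 1) ∣ X := by
    apply hcop.dvd_of_dvd_mul_left
    rw [← hX2]
    exact Dvd.intro _ rfl
  have hSB : b ^ T * B2 = S + B0 := by
    have : (b - 1) * (b ^ T * B2) = (b - 1) * (S + B0) := by
      rw [hX2, hB2]; ring
    exact Nat.eq_of_mul_eq_mul_left (by omega) this
  obtain ⟨Bf, hBf1, hBf2, hBf3⟩ := C1_seq b (by omega) T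
    (fun τ => A0 + (∑ i ∈ Finset.range τ, mm i) * G') B0 B2 hSB
  have hrun3 := C1_fam b N κ w (by omega) G' T
    (fun g τ => Loc b N κ w (ζ (W.getD (b * g) 0)) τ) mm η
    (fun τ => A0 + (∑ i ∈ Finset.range τ, mm i) * G') Bf
    (fun g _ t _ => rfl)
    (fun g hg t ht => (hG.hfam _ (hget g hg)).1 t ht)
    hη3
    (fun t _ => by
      simp only [Finset.sum_range_succ]
      ring)
    hBf3
  obtain ⟨hn1, hn2⟩ := pk_len_get b (by omega) G' W hG'
  refine ⟨(∑ t ∈ Finset.range T, mm t * G') + (k2 + k1), B2, by omega, ?_⟩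
  rw [Function.iterate_add_apply, Function.iterate_add_apply]
  have e1 : sta b κ e l F μ B = ((b - 1) * B + b * D' * μ.length,
        grp κ μ.length (fun g => F (μ.getD g 0)) (fun g => B + D' * g)) := by
    unfold sta; rfl
  rw [e1, hrun1, hrun2]
  have e2 : ((A0, grp κ G' (fun g => Loc b N κ w (ζ (W.getD (b * g) 0)) 0) (fun g => B0 + η0 * g)) : ℕ × List ℕ) =
    ((fun τ => A0 + (∑ i ∈ Finset.range τ, mm i) * G') 0,
      grp κ G' (fun g => (fun g τ => Loc b N κ w (ζ (W.getD (b * g) 0)) τ) g 0) (fun g => Bf 0 + η 0 * g)) := by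
    simp [hBf1, hη1]
  rw [e2, hrun3]
  unfold sta
  have hnx : nxt b α μ = pk b 0 W := rfl
  rw [hnx, hn1, Prod.mk.injEq]
  constructor
  · rw [hX, hB2]
    ring
  · apply grp_congr
    · intro g hg
      rw [hn2 g hg]
      exact (hG.hfam _ (hget g hg)).2
    · intro g _
      rw [hBf2, hη2]

end Pool.Agent.Helper231_T2

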