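import Mathlib
import Pool.Agent.Helper231_T2.Defs
import Pool.Agent.Helper231_T2.C4a
import Pool.Agent.Helper231_T2.C5a
import Pool.Agent.Helper231_T2.C5b
import Pool.Agent.Helper231_T2.C6a

set_option autoImplicit false

namespace Pool.Agent.Helper231_T2


/-
PLAIN PROOF. sta .. μ B has a nonempty list when μ ≠ [] with letters < r (F x ≠ [] because |Fl (F x) 0| = Cs b cc 0 * |α x| > 0, as e ≥ 2 > 0 and
cc > 0, α x ≠ []). nxt b α μ ≠ [] and has letters < r (word nonempty as productions are nonempty). Iterating C6a: as long as the words are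
aligned (length % b = 0), (es)^[K_c] (sta μ 0) = sta ((nxt b α)^[c] μ) B_c with K_c ≥ c. AlLives: for every c; since es of a state with empty list is
the same state, the list is never empty. AlDies: at the first unaligned word, C4a gives the state in the hypothesis of C5a (b ≥ 4) or C5b (b = 3), and the
list becomes empty. (C5b: hE from hE4 modulo 9, hw4 with b = 3: κ*k*(1+3); 3-1 = 2.) rs = 2 or b-3 is not 0 mod b, fine (b-3 ≥ 1 for b ≥ 4).
Here (b - 1) * 0 + .. = b*(b^e*l)*|μ| and 0 + b^e*l*g are by definition sta .. μ 0. -/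

theorem C6b_F_ne {b r N κ cc e l T : ℕ} {α : ℕ → List ℕ} {w ζ mm : ℕ → ℕ} {F : ℕ → List ℕ} (hb : 3 ≤ b)
    (hα : ∀ x < r, α x ≠ [] ∧ ∀ y ∈ α x, y < r) (hG : Gad b α r N κ cc e l T w ζ mm F)
    (x : ℕ) (hx : x < r) : F x ≠ [] := by
  intro h
  have h1 := (hG.hrun x hx).1 0 (by have := hG.he; omega)
  have h2 : Fl b N κ w (F x) 0 = F x := rfl
  rw [h2, h] at h1
  have h3 : Cs b cc 0 = b * cc := by simp [Cs]
  rw [h3] at h1
  have hcc : 0 < cc := by
    rcases Nat.eq_zero_or_pos cc with h0 | h0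
    · have := hG.hl; rw [h0] at this; simp at this
    · exact h0
  have h4 : 0 < (α x).length := List.length_pos_iff.2 (hα x hx).1
  have h5 : 0 < b * cc * (α x).length := by positivity
  simp only [List.length_nil] at h1
  omega

theorem C6b_sta_ne {b κ e l r : ℕ} {F : ℕ → List ℕ} (hF0 : ∀ x < r, F x ≠ []) (μ : List ℕ) (B : ℕ)
    (hμ : μ ≠ []) (hμr : ∀ y ∈ μ, y < r) : (sta b κ e l F μ B).2 ≠ [] := by
  intro h
  have h1 : grp κ μ.length (fun g => F (μ.getD g 0)) (fun g => B + b ^ e * l * g) = [] := h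
  unfold grp at h1
  rw [List.flatMap_eq_nil_iff] at h1
  have hpos : 0 < μ.length := List.length_pos_iff.2 hμ
  have h2 := h1 0 (List.mem_range.2 hpos)
  rw [List.map_eq_nil_iff] at h2
  have h3 : μ.getD 0 0 ∈ μ := by
    rw [List.getD_eq_getElem _ _ hpos]
    exact List.getElem_mem _
  exact hF0 _ (hμr _ h3) h2

theorem C6b_pk_sub {X : Type} (P : ℕ) (W : List X) : ∀ c, ∀ y ∈ pk P c W, y ∈ W := by
  induction W with
  | nil => intro c y hy; simp [pk] at hy
  | cons x W ih =>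
    intro c y hy
    cases c with
    | zero =>
      rw [pk, List.mem_cons] at hy
      rcases hy with h | h
      · rw [h]; exact List.mem_cons_self
      · exact List.mem_cons_of_mem _ (ih _ y h)
    | succ c =>
      rw [pk] at hy
      exact List.mem_cons_of_mem _ (ih _ y hy)

theorem C6b_nxt (b r : ℕ) (α : ℕ → List ℕ) (hα : ∀ x < r, α x ≠ [] ∧ ∀ y ∈ α x, y < r)
    (μ : List ℕ) (hμ : μ ≠ []) (hμr : ∀ y ∈ μ, y < r) :
    nxt b α μ ≠ [] ∧ ∀ y ∈ nxt b α μ, y < r := by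
  constructor
  · unfold nxt
    have h1 : wd α μ ≠ [] := by
      cases μ with
      | nil => exact absurd rfl hμ
      | cons x μ =>
        intro h
        unfold wd at h
        rw [List.flatMap_eq_nil_iff] at h
        exact (hα x (hμr x List.mem_cons_self)).1 (h x List.mem_cons_self)
    cases hW : wd α μ with
    | nil => exact absurd hW h1
    | cons x W => rw [pk]; exact List.cons_ne_nil _ _
  · intro y hy
    have h1 := C6b_pk_sub b (wd α μ) 0 y hy
    unfold wd at h1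
    rw [List.mem_flatMap] at h1
    obtain ⟨x, hx, hxy⟩ := h1
    exact (hα x (hμr x hx)).2 y hxy

theorem C6b_letters (b r : ℕ) (α : ℕ → List ℕ) (hα : ∀ x < r, α x ≠ [] ∧ ∀ y ∈ α x, y < r)
    (μ : List ℕ) (hμ : μ ≠ []) (hμr : ∀ y ∈ μ, y < r) (n : ℕ) :
    (nxt b α)^[n] μ ≠ [] ∧ ∀ y ∈ (nxt b α)^[n] μ, y < r := by
  induction n with
  | zero => exact ⟨hμ, hμr⟩
  | succ n ih =>
    rw [Function.iterate_succ_apply']
    exact C6b_nxt b r α hα _ ih.1 ih.2

theorem C6b_empty (b N κ : ℕ) (w : ℕ → ℕ) (j : ℕ) : ∀ s : ℕ × List ℕ, s.2 = [] →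
    ((es b N κ w)^[j] s).2 = [] := by
  induction j with
  | zero => intro s hs; exact hs
  | succ j ih =>
    intro s hs
    rw [Function.iterate_succ_apply]
    apply ih
    obtain ⟨i, L⟩ := s
    simp only at hs
    subst hs
    rfl

theorem C6b_iter {b r N κ cc e l T : ℕ} {α : ℕ → List ℕ} {w ζ mm : ℕ → ℕ} {F : ℕ → List ℕ} (hb : 3 ≤ b)
    (hα : ∀ x < r, α x ≠ [] ∧ ∀ y ∈ α x, y < r) (hG : Gad b α r N κ cc e l T w ζ mm F)
    (μ : List ℕ) (hμ : μ ≠ []) (hμr : ∀ y ∈ μ, y < r) (c : ℕ)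
    (hc : ∀ m < c, (wd α ((nxt b α)^[m] μ)).length % b = 0) :
    ∃ K B : ℕ, c ≤ K ∧ (es b N κ w)^[K] (sta b κ e l F μ 0) = sta b κ e l F ((nxt b α)^[c] μ) B := by
  induction c with
  | zero => exact ⟨0, 0, le_rfl, rfl⟩
  | succ c ih =>
    obtain ⟨K, B, hcK, hK⟩ := ih (fun m hm => hc m (by omega))
    obtain ⟨hm1, hm2⟩ := C6b_letters b r α hα μ hμ hμr c
    obtain ⟨k, B2, hk0, hk⟩ := C6a b r N κ cc e l T α w ζ mm F hb hα hG ((nxt b α)^[c] μ) B hm1 hm2
      (hc c (by omega))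
    refine ⟨k + K, B2, by omega, ?_⟩
    rw [Function.iterate_add_apply, hK, hk, Function.iterate_succ_apply']

/-- TARGET -/
theorem C6b (b r N κ cc e l T : ℕ) (α : ℕ → List ℕ) (w ζ mm : ℕ → ℕ) (F : ℕ → List ℕ) (hb : 3 ≤ b)
    (hα : ∀ x < r, α x ≠ [] ∧ ∀ y ∈ α x, y < r) (hG : Gad b α r N κ cc e l T w ζ mm F)
    (μ : List ℕ) (hμ : μ ≠ []) (hμr : ∀ y ∈ μ, y < r) :
    (AlDies b (if b = 3 then 2 else b - 3) α μ →
      ∃ n, ((es b N κ w)^[n] (sta b κ e l F μ 0)).2 = []) ∧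
    (AlLives b α μ → ∀ n, ((es b N κ w)^[n] (sta b κ e l F μ 0)).2 ≠ []) := by
  have hF0 : ∀ x < r, F x ≠ [] := fun x hx => C6b_F_ne hb hα hG x hx
  constructor
  · rintro ⟨n, hn1, hn2⟩
    obtain ⟨K, B, _, hK⟩ := C6b_iter hb hα hG μ hμ hμr n hn1
    obtain ⟨hm1, hm2⟩ := C6b_letters b r α hα μ hμ hμr n
    obtain ⟨k, B', _, _, hk⟩ := C4a b N κ cc e l w ζ α F ((nxt b α)^[n] μ) B hb hG.he hG.hl0 hG.hl hm1
      (fun x hx => (hα x (hm2 x hx)).1) (fun x hx => hG.hrun x (hm2 x hx))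
    have hk2 : (es b N κ w)^[k] (sta b κ e l F ((nxt b α)^[n] μ) B) =
      ((b - 1) * B' + (cc + 1) * (wd α ((nxt b α)^[n] μ)).length,
        (List.range (wd α ((nxt b α)^[n] μ)).length).flatMap (fun j =>
          ch b N w (b ^ 2 * (1 + b * ζ ((wd α ((nxt b α)^[n] μ)).getD j 0)) +
            κ * (b * B' + (cc + 1) * j)))) := hk
    by_cases hb3 : b = 3
    · subst hb3
      rw [if_pos rfl] at hn2
      rcases hG.hcase with ⟨_, h1, h2, h3⟩ | ⟨h4, _⟩
      · have hE : (cc + 2 + N + 3) % 9 = 0 := by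
          have h4 := hG.hE4
          have h5 : 3 ^ (T + e + 2) = 9 * 3 ^ (T + e) := by ring
          rw [h5, mul_assoc] at h4
          have h6 : (3:ℕ) ^ 2 = 9 := by norm_num
          rw [h6] at h4
          omega
        obtain ⟨k3, hk3⟩ := C5b N κ cc w ζ (wd α ((nxt 3 α)^[n] μ)) B' hG.hκ
          hG.hw3 (fun k hk => by simpa using hG.hw4 k hk) h1 h2 hE h3 hn2
        refine ⟨k3 + (k + K), ?_⟩
        rw [Function.iterate_add_apply, Function.iterate_add_apply, hK, hk2]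
        exact hk3
      · omega
    · rw [if_neg hb3] at hn2
      rcases hG.hcase with ⟨h3, _⟩ | ⟨h4, h1, h2, h3⟩
      · exact absurd h3 hb3
      · obtain ⟨k3, hk3⟩ := C5a b N κ cc w ζ (wd α ((nxt b α)^[n] μ)) B' h4 hG.hκ
          hG.hw3 h1 h2 h3 hn2
        refine ⟨k3 + (k + K), ?_⟩
        rw [Function.iterate_add_apply, Function.iterate_add_apply, hK, hk2]
        exact hk3
  · intro hal n hn
    obtain ⟨K, B, hKn, hK⟩ := C6b_iter hb hα hG μ hμ hμr n (fun m _ => hal m)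
    obtain ⟨hm1, hm2⟩ := C6b_letters b r α hα μ hμ hμr n
    have h1 : ((es b N κ w)^[K] (sta b κ e l F μ 0)).2 = [] := by
      obtain ⟨j, rfl⟩ := Nat.exists_eq_add_of_le hKn
      rw [add_comm, Function.iterate_add_apply]
      exact C6b_empty b N κ w j _ hn
    rw [hK] at h1
    exact C6b_sta_ne hF0 _ B hm1 hm2 h1

end Pool.Agent.Helper231_T2

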