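import Mathlib
import Pool.Agent.Helper231_PCP.Defs2
import Pool.Agent.Helper231_T2.Defs

set_option autoImplicit false

namespace Pool.Agent.Helper231_T2

open Pool.Agent.Helper231_PCP (lsX GoodX DiesX LivesX OM Lt alp)


/-
PLAIN PROOF. Let `card X = c`, `m = c + 1` (so m ≥ 1), number the letters `x_0, ..., x_{c-1}` and let `code x_i` be the word of
length m with `true` exactly at place i (or any injective code of constant length m ≥ 1). States of the QA: pairs
(nu, the bits of the current block read so far), nu < P, fewer than m bits (`{l : List Bool // l.length < m}` is finite; use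
`Fin P × {l : List Bool // l.length < m}` or similar). When fewer than m-1 bits were read: remember the new bit, append nothing.
When the m-th bit of the block arrives: decode the letter x (an arbitrary choice when the block is no code word), append
`(α x).flatMap code` if nu = 0 and nothing otherwise, nu := (nu+1) % P, forget the bits.
So m steps of the QA from ((nu,[]), W.flatMap code), W = l :: W', give ((nu',[]), W''.flatMap code) where (nu',W'') = lsX P α (nu,W)
(here nu < P), and the queue is not empty before these m steps are over: it still holds the rest of the block.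
If LivesX: the letter queue is never empty, hence the bit queue is never empty (at times m*k it is the code of a nonempty word,
at times m*k+j, 0<j<m, it contains the last bits of the block); note that if the queue were empty at some time it would stay empty.
If DiesX: after n letter-steps only letters with empty production are left; then every letter-step just removes one letter, so the
queue becomes empty. -/

section
variable {X : Type}

/-- the word appended after a complete block has been read -/
noncomputable def appS1 (α : X → List X) (code : X → List Bool) (b : List Bool) : List Bool :=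
  open Classical in if h : ∃ x, code x = b then (α h.choose).flatMap code else []

theorem appS1_code (α : X → List X) (code : X → List Bool) (hinj : Function.Injective code)
    (x : X) : appS1 α code (code x) = (α x).flatMap code := by
  have hex : ∃ y, code y = code x := ⟨x, rfl⟩
  unfold appS1
  rw [dif_pos hex]
  have : hex.choose = x := hinj hex.choose_spec
  rw [this]

/-- the automaton -/
noncomputable def QS1 (P : ℕ) (hP : 1 ≤ P) (m : ℕ) (hm : 1 ≤ m) (α : X → List X)
    (code : X → List Bool) : QA (Fin P × {l : List Bool // l.length < m}) where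
  nx q d := if h : q.2.1.length + 1 < m then (q.1, ⟨q.2.1 ++ [d], by simpa using h⟩)
    else (⟨(q.1.1 + 1) % P, Nat.mod_lt _ hP⟩, ⟨[], by exact hm⟩)
  om q d := if q.2.1.length + 1 < m then [] else
    if q.1.1 = 0 then appS1 α code (q.2.1 ++ [d]) else []

theorem QS1_read (P : ℕ) (hP : 1 ≤ P) (m : ℕ) (hm : 1 ≤ m) (α : X → List X)
    (code : X → List Bool) (nu : Fin P) (rest : List Bool) :
    ∀ (b l : List Bool) (h1 : l.length < m) (h2 : (l ++ b).length < m),
      ((QS1 P hP m hm α code).st)^[b.length] ((nu, ⟨l, h1⟩), b ++ rest) =
        ((nu, ⟨l ++ b, h2⟩), rest) := by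
  intro b
  induction b with
  | nil =>
    intro l h1 h2
    simp
  | cons d b ih =>
    intro l h1 h2
    have hlt : l.length + 1 < m := by
      simp at h2
      omega
    have h1' : (l ++ [d]).length < m := by simpa using hlt
    have h2' : ((l ++ [d]) ++ b).length < m := by simpa using h2
    have hstep : (QS1 P hP m hm α code).st ((nu, ⟨l, h1⟩), (d :: b) ++ rest) =
        ((nu, ⟨l ++ [d], h1'⟩), b ++ rest) := by
      simp [QA.st, QS1, hlt]
    rw [List.length_cons, Function.iterate_succ_apply, hstep, ih (l ++ [d]) h1' h2']
    simp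

theorem QS1_block (P : ℕ) (hP : 1 ≤ P) (m : ℕ) (hm : 1 ≤ m) (α : X → List X)
    (code : X → List Bool) (hinj : Function.Injective code) (hlen : ∀ x, (code x).length = m)
    (nu : Fin P) (x : X) (rest : List Bool) (h0 : ([] : List Bool).length < m) :
    ((QS1 P hP m hm α code).st)^[m] ((nu, ⟨[], h0⟩), code x ++ rest) =
      ((⟨(nu.1 + 1) % P, Nat.mod_lt _ hP⟩, ⟨[], h0⟩),
        rest ++ (if nu.1 = 0 then (α x).flatMap code else [])) := by
  obtain ⟨b, d, hbd⟩ : ∃ b d, code x = b ++ [d] := by
    have hne : code x ≠ [] := by
      intro h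
      have := hlen x
      rw [h] at this
      simp at this
      omega
    exact ⟨(code x).dropLast, (code x).getLast hne, (List.dropLast_append_getLast hne).symm⟩
  have hbl : b.length + 1 = m := by
    have := hlen x
    rw [hbd] at this
    simpa using this
  have h2 : (([] : List Bool) ++ b).length < m := by
    simp
    omega
  have hread := QS1_read P hP m hm α code nu ([d] ++ rest) b [] h0 h2
  have hmm : m = 1 + b.length := by omega
  have hgoal : ((QS1 P hP m hm α code).st)^[1 + b.length] ((nu, ⟨[], h0⟩), code x ++ rest) =
      ((⟨(nu.1 + 1) % P, Nat.mod_lt _ hP⟩, ⟨[], h0⟩),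
        rest ++ (if nu.1 = 0 then (α x).flatMap code else [])) := by
    rw [Function.iterate_add_apply, hbd, List.append_assoc, hread]
    have hnl : ¬ (b.length + 1 < m) := by omega
    rw [← appS1_code α code hinj x, hbd]
    simp [QA.st, QS1, hnl]
  rw [← hmm] at hgoal
  exact hgoal

theorem st_nil_S1 {Q : Type} (M : QA Q) (q : Q) : ∀ n, (M.st)^[n] (q, []) = (q, []) := by
  intro n
  induction n with
  | zero => rfl
  | succ n ih =>
    rw [Function.iterate_succ_apply', ih]
    rfl

theorem st_empty_S1 {Q : Type} (M : QA Q) (s : Q × List Bool) (hs : s.2 = []) (n : ℕ) :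
    ((M.st)^[n] s).2 = [] := by
  obtain ⟨q, x⟩ := s
  simp only at hs
  subst hs
  rw [st_nil_S1]

/-- the encoding of a configuration -/
def encS1 (P : ℕ) (hP : 1 ≤ P) (m : ℕ) (hm : 1 ≤ m) (code : X → List Bool) (s : ℕ × List X) :
    (Fin P × {l : List Bool // l.length < m}) × List Bool :=
  ((⟨s.1 % P, Nat.mod_lt _ hP⟩, ⟨[], by exact hm⟩), s.2.flatMap code)

theorem lsX_lt_S1 (P : ℕ) (hP : 1 ≤ P) (α : X → List X) (s : ℕ × List X) (hs : s.1 < P) :
    (lsX P α s).1 < P := by
  obtain ⟨nu, W⟩ := s
  cases W with
  | nil => exact hs
  | cons l W => exact Nat.mod_lt _ hP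

theorem lsX_iter_lt_S1 (P : ℕ) (hP : 1 ≤ P) (α : X → List X) (s : ℕ × List X) (hs : s.1 < P) :
    ∀ n, ((lsX P α)^[n] s).1 < P := by
  intro n
  induction n with
  | zero => exact hs
  | succ n ih =>
    rw [Function.iterate_succ_apply']
    exact lsX_lt_S1 P hP α _ ih

theorem sim_S1 (P : ℕ) (hP : 1 ≤ P) (m : ℕ) (hm : 1 ≤ m) (α : X → List X)
    (code : X → List Bool) (hinj : Function.Injective code) (hlen : ∀ x, (code x).length = m)
    (s : ℕ × List X) (hs : s.1 < P) :
    ((QS1 P hP m hm α code).st)^[m] (encS1 P hP m hm code s) =
      encS1 P hP m hm code (lsX P α s) := by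
  obtain ⟨nu, W⟩ := s
  cases W with
  | nil =>
    show ((QS1 P hP m hm α code).st)^[m] (_, []) = _
    rw [st_nil_S1]
    rfl
  | cons l W =>
    have hnu : nu % P = nu := Nat.mod_eq_of_lt hs
    have h0 : ([] : List Bool).length < m := hm
    have := QS1_block P hP m hm α code hinj hlen ⟨nu % P, Nat.mod_lt _ hP⟩ l (W.flatMap code) h0
    have henc : encS1 P hP m hm code (nu, l :: W) =
        ((⟨nu % P, Nat.mod_lt _ hP⟩, ⟨[], h0⟩), code l ++ W.flatMap code) := by
      simp [encS1]
    rw [henc, this]
    by_cases h : nu = 0
    · simp [encS1, lsX, h]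
    · simp [encS1, lsX, h, hnu]

theorem sim_iter_S1 (P : ℕ) (hP : 1 ≤ P) (m : ℕ) (hm : 1 ≤ m) (α : X → List X)
    (code : X → List Bool) (hinj : Function.Injective code) (hlen : ∀ x, (code x).length = m)
    (s : ℕ × List X) (hs : s.1 < P) (n : ℕ) :
    ((QS1 P hP m hm α code).st)^[m * n] (encS1 P hP m hm code s) =
      encS1 P hP m hm code ((lsX P α)^[n] s) := by
  induction n with
  | zero => rfl
  | succ n ih =>
    rw [Function.iterate_succ_apply', Nat.mul_succ, Nat.add_comm, Function.iterate_add_apply, ih]
    exact sim_S1 P hP m hm α code hinj hlen _ (lsX_iter_lt_S1 P hP α s hs n)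

theorem dead_S1 (P : ℕ) (α : X → List X) : ∀ (k : ℕ) (nu : ℕ) (W : List X), W.length = k →
    (∀ l ∈ W, α l = []) → ((lsX P α)^[k] (nu, W)).2 = [] := by
  intro k
  induction k with
  | zero =>
    intro nu W hW _
    have : W = [] := List.length_eq_zero_iff.mp hW
    simp [this]
  | succ k ih =>
    intro nu W hW hd
    cases W with
    | nil => simp at hW
    | cons l W =>
      have hl : α l = [] := hd l (by simp)
      have hstep : lsX P α (nu, l :: W) = ((nu + 1) % P, W) := by
        simp [lsX, hl]
      rw [Function.iterate_succ_apply, hstep]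
      exact ih _ W (by simpa using hW) (fun y hy => hd y (by simp [hy]))

end

/-- TARGET -/
theorem S1 {X : Type} [Finite X] (P : ℕ) (hP : 1 ≤ P) (α : X → List X) :
    ∃ (Q : Type) (_ : Finite Q) (M : QA Q) (q0 : Q) (code : X → List Bool), ∀ w : List X,
      (DiesX P α w → M.Emp q0 (w.flatMap code)) ∧ (LivesX P α w → ¬ M.Emp q0 (w.flatMap code)) := by
  classical
  have := Fintype.ofFinite X
  obtain ⟨e⟩ : Nonempty (X ≃ Fin (Fintype.card X)) := ⟨Fintype.equivFin X⟩
  let m : ℕ := Fintype.card X + 1
  have hm : 1 ≤ m := Nat.le_add_left 1 _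
  let code : X → List Bool := fun x => List.ofFn (fun j : Fin m => decide (j.val = (e x).val))
  have hlen : ∀ x, (code x).length = m := fun x => List.length_ofFn
  have hinj : Function.Injective code := by
    intro x y hxy
    have h1 : (fun j : Fin m => decide (j.val = (e x).val)) =
        (fun j : Fin m => decide (j.val = (e y).val)) := List.ofFn_injective hxy
    have h2 := congrFun h1 ⟨(e x).val, lt_trans (e x).2 (Nat.lt_succ_self _)⟩
    simp at h2
    exact e.injective (Fin.ext h2)
  have h0 : ([] : List Bool).length < m := hm
  refine ⟨Fin P × {l : List Bool // l.length < m}, ?_, QS1 P hP m hm α code,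
    (⟨0, hP⟩, ⟨[], h0⟩), code, ?_⟩
  · have : Finite {l : List Bool // l.length < m} := (List.finite_length_lt Bool m).to_subtype
    infer_instance
  · intro w
    have hinit : (((⟨0, hP⟩ : Fin P), (⟨[], h0⟩ : {l : List Bool // l.length < m})),
        w.flatMap code) = encS1 P hP m hm code (0, w) := by
      simp [encS1]
    constructor
    · rintro ⟨n, _, hd⟩
      refine ⟨m * (n + ((lsX P α)^[n] (0, w)).2.length), ?_⟩
      rw [hinit, sim_iter_S1 P hP m hm α code hinj hlen (0, w) hP]
      have hdead := dead_S1 P α _ ((lsX P α)^[n] (0, w)).1 ((lsX P α)^[n] (0, w)).2 rfl hd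
      have : ((lsX P α)^[n + ((lsX P α)^[n] (0, w)).2.length] (0, w)).2 = [] := by
        rw [Nat.add_comm, Function.iterate_add_apply]
        exact hdead
      simp [encS1, this]
    · rintro hL ⟨n, hn⟩
      have hmn : m * n = (m * n - n) + n := by
        have : n ≤ m * n := Nat.le_mul_of_pos_left n hm
        omega
      have hE : (((QS1 P hP m hm α code).st)^[m * n]
          (((⟨0, hP⟩ : Fin P), (⟨[], h0⟩ : {l : List Bool // l.length < m})),
            w.flatMap code)).2 = [] := by
        rw [hmn, Function.iterate_add_apply]
        exact st_empty_S1 _ _ hn _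
      rw [hinit, sim_iter_S1 P hP m hm α code hinj hlen (0, w) hP] at hE
      have hW := (hL n).2
      apply hW
      cases hWW : ((lsX P α)^[n] (0, w)).2 with
      | nil => rfl
      | cons l W =>
        exfalso
        simp only [encS1, hWW, List.flatMap_cons, List.append_eq_nil_iff] at hE
        have := hlen l
        rw [hE.1] at this
        simp at this

end Pool.Agent.Helper231_T2

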