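import Mathlib
import Pool.Agent.Helper231_T2.Defs

set_option autoImplicit false

namespace Pool.Agent.Helper231_T2


/-
PLAIN PROOF (checked by a program). Macro word of (q,x), with n = nv P x:
   Mac(q,n) = A a^n blk(F_q) blk(G) h^{(P-1)(n+1)}                      (length P(n+3), divisible by P).
Letters read (positions 0,P,2P,...): A; then n/P letters a; the offset after the run A a^n is 1 + n, so in each later block the
letter with index i = P-1-(n mod P) is read; of the h's, n - n/P are read. So pk P 0 (Mac(q,n)) = mu0 q x.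
General form during a pass (s = (q,d) fixed; X a sequence of blocks c_s, b_s with C blocks c and V blocks b; Y a sequence of blocks
c'_s, b'_s with C-1 blocks c' and (P-1)V blocks b'):
   Pass(n, X, Y) = A a^n X blk(E_s) blk(cs_s) Y blk(G) h^{(P-1)(n+1)},      length divisible by P.
Let dg = n mod P, n' = n/P. Read letters: A, n' letters a, from each block the letter with index P-1-dg, and n-n' letters h.
(a) dg in {0,1}: the next word is Pass(n', X', Y') where X' has P*C blocks c and V + dg*C blocks b, and Y' has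
    P*(C-1) + (P-1) = P*C - 1 blocks c' and (P-1)V + (P-1)dg(C-1) + (P-1)dg = (P-1)(V+dg*C) blocks b'; the number of h's is
    (P-1-dg) + (n-n') = (P-1)(n'+1).
(b) n = 2: the next word is A, then C*nv(om)+V letters a, blk(F_{q'}), blk(G), and letters h whose number is
    (P-1)nv(om)-1 + (C-1)(P-1)nv(om) + (P-1)V + (P-2) + 2 = (P-1)(nn+1), nn = C*nv(om)+V. So it is Mac(nx q d, nn).
(It is convenient to keep X, Y as lists of Bool (true = c) with counts of true/false, or to describe them by an inductive predicate.)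
One macro step, x = d :: x1: word after Mac(q, nv(d::x1)) is Pass(nv x1, [c], []) (C=1, V=0). Then the digits of nv x1 are the bits
of x1 followed by 2: after |x1| steps (a), C = P^{|x1|}, V = sum_j x1_j P^j, n = 2, then (b) gives Mac(nx q d, nv(x1 ++ om q d)),
because nv P (x1 ++ y) = V + P^{|x1|} * nv P y.
If x = []: n = 2, n mod P = 2 (P >= 3), the word after Mac(q,2) is A A^{rs+P-1} h^{P-2} h^2, of length 2P + rs, so rs modulo P.
So if the queue never becomes empty all words have length divisible by P; if it becomes empty, the first word not divisible by P has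
length rs mod P. (0 < rs < P is used for the first part of AlDies only: before that all the words are aligned. If the queue becomes
empty at time N take the least such N.) All productions are nonempty: P-2 >= 1, nv >= 2, rs + P - 1 >= 1.
Case P = 3: i = P-1-dg with dg = 2 gives i = 0; fine. -/

/-! ### Auxiliary lemmas -/

theorem pk_skip {X : Type} (P : ℕ) (L W : List X) :
    ∀ c, L.length ≤ c → pk P c (L ++ W) = pk P (c - L.length) W := by
  induction L with
  | nil => intro c _; simp
  | cons x L ih =>
    intro c hc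
    cases c with
    | zero => simp at hc
    | succ c =>
      simp only [List.cons_append, pk, List.length_cons] at hc ⊢
      rw [ih c (by omega)]
      congr 1; omega

theorem pk_hit {X : Type} (P : ℕ) (L W : List X) :
    ∀ c (h : c < L.length), L.length ≤ c + P →
      pk P c (L ++ W) = L[c] :: pk P (c + P - L.length) W := by
  induction L with
  | nil => intro c h; simp at h
  | cons x L ih =>
    intro c h h2
    have hl : (x :: L).length = L.length + 1 := rfl
    cases c with
    | zero =>
      simp only [List.cons_append, pk, List.getElem_cons_zero]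
      rw [pk_skip P L W (P - 1) (by omega)]
      congr 2; omega
    | succ c =>
      simp only [List.cons_append, pk, List.getElem_cons_succ]
      rw [ih c (by omega) (by omega)]
      congr 2; omega

theorem length_blk {X : Type} {P : ℕ} (f : Fin P → X) : (blk f).length = P := by simp [blk]

theorem pk_blk {X : Type} {P : ℕ} (f : Fin P → X) (W : List X) (i : Fin P) :
    pk P i (blk f ++ W) = f i :: pk P i W := by
  have hl : (blk f).length = P := length_blk f
  have hi := i.2
  rw [pk_hit P (blk f) W i (by rw [hl]; exact i.2) (by omega)]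
  have h1 : (i : ℕ) + P - (blk f).length = i := by omega
  rw [h1]
  congr 1
  simp [blk]

theorem pk_replicate {X : Type} (P : ℕ) (hP : 0 < P) (x : X) (W : List X) :
    ∀ (m c t c' : ℕ), c < P → c' < P → c' + m = c + P * t →
      pk P c (List.replicate m x ++ W) = List.replicate t x ++ pk P c' W := by
  intro m
  induction m with
  | zero =>
    intro c t c' hc hc' h
    have ht : t = 0 := by
      rcases Nat.eq_zero_or_pos t with h0 | h0
      · exact h0
      · exfalso
        have : P * 1 ≤ P * t := Nat.mul_le_mul_left P h0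
        omega
    subst ht
    have : c' = c := by omega
    subst this
    simp
  | succ m ih =>
    intro c t c' hc hc' h
    rw [List.replicate_succ, List.cons_append]
    cases c with
    | zero =>
      rw [pk]
      have ht : t ≠ 0 := by
        rintro rfl
        omega
      obtain ⟨t, rfl⟩ := Nat.exists_eq_succ_of_ne_zero ht
      rw [ih (P - 1) t c' (by omega) hc' (by rw [Nat.mul_succ] at h; omega)]
      rfl
    | succ c =>
      rw [pk]
      exact ih c t c' (by omega) hc' (by omega)

/-- concatenations of `C` words `u` and `V` words `v` -/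
inductive Mix {X : Type} (u v : List X) : ℕ → ℕ → List X → Prop
  | nil : Mix u v 0 0 []
  | u {C V : ℕ} {L : List X} : Mix u v C V L → Mix u v (C + 1) V (u ++ L)
  | v {C V : ℕ} {L : List X} : Mix u v C V L → Mix u v C (V + 1) (v ++ L)

theorem Mix.append {X : Type} {u v : List X} {C V C' V' : ℕ} {L L' : List X}
    (h : Mix u v C V L) (h' : Mix u v C' V' L') : Mix u v (C + C') (V + V') (L ++ L') := by
  induction h with
  | nil => simpa using h'
  | u _ ih =>
    rw [List.append_assoc, Nat.add_right_comm]
    exact Mix.u ih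
  | v _ ih =>
    rw [List.append_assoc, Nat.add_right_comm]
    exact Mix.v ih

theorem Mix.rep_u {X : Type} (u v : List X) (n : ℕ) : Mix u v n 0 (rep n u) := by
  induction n with
  | zero => exact Mix.nil
  | succ n ih =>
    have : rep (n + 1) u = u ++ rep n u := by simp [rep, List.replicate_succ]
    rw [this]
    exact Mix.u ih

theorem Mix.rep_v {X : Type} (u v : List X) (n : ℕ) : Mix u v 0 n (rep n v) := by
  induction n with
  | zero => exact Mix.nil
  | succ n ih =>
    have : rep (n + 1) v = v ++ rep n v := by simp [rep, List.replicate_succ]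
    rw [this]
    exact Mix.v ih

theorem Mix.length {X : Type} {P : ℕ} {f g : Fin P → X} {C V : ℕ} {L : List X}
    (h : Mix (blk f) (blk g) C V L) : L.length = P * (C + V) := by
  induction h with
  | nil => simp
  | u _ ih => rw [List.length_append, length_blk, ih]; ring
  | v _ ih => rw [List.length_append, length_blk, ih]; ring

theorem wd_append {X : Type} (α : X → List X) (L L' : List X) :
    wd α (L ++ L') = wd α L ++ wd α L' := by simp [wd]

theorem wd_cons {X : Type} (α : X → List X) (x : X) (L : List X) :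
    wd α (x :: L) = α x ++ wd α L := by simp [wd]

theorem wd_nil {X : Type} (α : X → List X) : wd α ([] : List X) = [] := rfl

theorem wd_replicate {X : Type} (α : X → List X) (x : X) (h : α x = [x]) (n : ℕ) :
    wd α (List.replicate n x) = List.replicate n x := by
  induction n with
  | zero => rfl
  | succ n ih => rw [List.replicate_succ, wd_cons, h, ih]; rfl

theorem mix_step {X : Type} {P : ℕ} (α : X → List X) (f g : Fin P → X) (u' v' : List X)
    (i : Fin P) (C1 V1 V2 : ℕ) (hf : Mix u' v' C1 V1 (α (f i)))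
    (hg : Mix u' v' 0 V2 (α (g i))) {C V : ℕ} {L : List X} (h : Mix (blk f) (blk g) C V L) :
    ∃ L', Mix u' v' (C * C1) (C * V1 + V * V2) L' ∧
      ∀ W, wd α (pk P i (L ++ W)) = L' ++ wd α (pk P i W) := by
  induction h with
  | nil => exact ⟨[], by simpa using Mix.nil, fun W => by simp⟩
  | @u C V L _ ih =>
    obtain ⟨L', h1, h2⟩ := ih
    refine ⟨α (f i) ++ L', ?_, fun W => ?_⟩
    · have := hf.append h1
      convert this using 1 <;> ring
    · rw [List.append_assoc, pk_blk, wd_cons, h2, List.append_assoc]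
  | @v C V L _ ih =>
    obtain ⟨L', h1, h2⟩ := ih
    refine ⟨α (g i) ++ L', ?_, fun W => ?_⟩
    · have := hg.append h1
      convert this using 1 <;> ring
    · rw [List.append_assoc, pk_blk, wd_cons, h2, List.append_assoc]

theorem mix_end {X : Type} {P : ℕ} (α : X → List X) (f g : Fin P → X) (z : X)
    (i : Fin P) (m1 m2 : ℕ) (hf : α (f i) = List.replicate m1 z)
    (hg : α (g i) = List.replicate m2 z) {C V : ℕ} {L : List X} (h : Mix (blk f) (blk g) C V L) :
      ∀ W, wd α (pk P i (L ++ W)) = List.replicate (C * m1 + V * m2) z ++ wd α (pk P i W) := by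
  induction h with
  | nil => intro W; simp
  | @u C V L _ ih =>
    intro W
    rw [List.append_assoc, pk_blk, wd_cons, ih, hf, ← List.append_assoc, List.replicate_append_replicate]
    congr 2; ring
  | @v C V L _ ih =>
    intro W
    rw [List.append_assoc, pk_blk, wd_cons, ih, hg, ← List.append_assoc, List.replicate_append_replicate]
    congr 2; ring

section Main
variable {Q : Type} (M : QA Q) (P rs : ℕ)

/-- the next word -/
def TT (W : List (WL Q P)) : List (WL Q P) := wd (prw (P := P) M rs) (pk P 0 W)

/-- macro word -/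
def Mac (q : Q) (n : ℕ) : List (WL Q P) :=
  WL.A :: (List.replicate n WL.a ++ (blk (WL.F q) ++ (blk WL.G ++
    List.replicate ((P - 1) * (n + 1)) WL.h)))

/-- pass word, `C + 1` blocks `c` and `C` blocks `c'` -/
def IsPass (q : Q) (d : Bool) (n C V : ℕ) (W : List (WL Q P)) : Prop :=
  ∃ X Y, Mix (blk (WL.c q d)) (blk (WL.b q d)) (C + 1) V X ∧
    Mix (blk (WL.c' q d)) (blk (WL.b' q d)) C ((P - 1) * V) Y ∧
    W = WL.A :: (List.replicate n WL.a ++ (X ++ (blk (WL.E q d) ++ (blk (WL.cs q d) ++
      (Y ++ (blk WL.G ++ List.replicate ((P - 1) * (n + 1)) WL.h))))))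

theorem nv_ge (hP : 0 < P) (x : List Bool) : 2 ≤ nv P x := by
  induction x with
  | nil => simp [nv]
  | cons d x ih =>
    simp only [nv]
    have : 1 * nv P x ≤ P * nv P x := Nat.mul_le_mul_right _ hP
    omega

theorem pass_length (hP : 3 ≤ P) {q : Q} {d : Bool} {n C V : ℕ} {W : List (WL Q P)}
    (h : IsPass P q d n C V W) : W.length % P = 0 := by
  obtain ⟨X, Y, hX, hY, rfl⟩ := h
  obtain ⟨p, rfl⟩ : ∃ p, P = p + 1 := ⟨P - 1, by omega⟩
  simp only [List.length_cons, List.length_append, List.length_replicate, length_blk,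
    hX.length, hY.length, Nat.add_sub_cancel]
  apply Nat.mod_eq_zero_of_dvd
  refine ⟨(C + 1 + V) + 1 + 1 + (C + p * V) + 1 + (n + 1), ?_⟩
  ring

theorem mac_length (hP : 3 ≤ P) (q : Q) (n : ℕ) : (Mac P q n).length % P = 0 := by
  obtain ⟨p, rfl⟩ : ∃ p, P = p + 1 := ⟨P - 1, by omega⟩
  unfold Mac
  simp only [List.length_cons, List.length_append, List.length_replicate, length_blk,
    Nat.add_sub_cancel]
  apply Nat.mod_eq_zero_of_dvd
  refine ⟨1 + 1 + (n + 1), ?_⟩
  ring

/-- reading the initial part -/
theorem pk_init (hP : 3 ≤ P) (n : ℕ) (Z : List (WL Q P)) :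
    pk P 0 (WL.A :: (List.replicate n WL.a ++ Z)) =
      WL.A :: (List.replicate (n / P) WL.a ++ pk P (P - 1 - n % P) Z) := by
  rw [pk]
  have h1 := Nat.div_add_mod n P
  have h2 := Nat.mod_lt n (show 0 < P by omega)
  rw [pk_replicate P (by omega) WL.a Z n (P - 1) (n / P) (P - 1 - n % P) (by omega) (by omega)
    (by omega)]

/-- reading the final part -/
theorem pk_final (hP : 3 ≤ P) (n : ℕ) :
    pk P (P - 1 - n % P) (List.replicate ((P - 1) * (n + 1)) (WL.h : WL Q P)) =
      List.replicate (n - n / P) WL.h := by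
  have h1 := Nat.div_add_mod n P
  have h2 := Nat.mod_lt n (show 0 < P by omega)
  have h3 := Nat.div_le_self n P
  have h4 := pk_replicate P (by omega) (WL.h : WL Q P) [] ((P - 1) * (n + 1)) (P - 1 - n % P)
    (n - n / P) 0 (by omega) (by omega) (by
      obtain ⟨p, rfl⟩ : ∃ p, P = p + 1 := ⟨P - 1, by omega⟩
      have e1 : (p + 1) * (n - n / (p + 1)) = (p + 1) * n - (p + 1) * (n / (p + 1)) := Nat.mul_sub _ _ _
      rw [e1]
      have e2 : (p + 1 - 1) * (n + 1) + (n + 1) = (p + 1) * n + (p + 1) := by
        rw [Nat.add_sub_cancel]; ring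
      have e3 : n ≤ (p + 1) * n := Nat.le_mul_of_pos_left n (by omega)
      omega)
  simpa [pk] using h4

theorem pass_step (hP : 3 ≤ P) {q : Q} {d : Bool} {n C V : ℕ} {W : List (WL Q P)}
    (h : IsPass P q d n C V W) (hn : n % P ≤ 1) :
    IsPass P q d (n / P) (P * C + (P - 1)) (V + (n % P) * (C + 1)) (TT M P rs W) := by
  obtain ⟨X, Y, hX, hY, rfl⟩ := h
  have h2 := Nat.mod_lt n (show 0 < P by omega)
  set dg := n % P with hdg
  let i : Fin P := ⟨P - 1 - dg, by omega⟩
  have hi : P - 1 - (i : ℕ) = dg := by show P - 1 - (P - 1 - dg) = dg; omega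
  have hi' : P - 1 - dg = (i : ℕ) := rfl
  -- the block parts
  obtain ⟨X', hX', hX2⟩ := mix_step (prw (P := P) M rs) (WL.c q d) (WL.b q d)
    (blk (WL.c q d)) (blk (WL.b q d)) i P dg 1
    (by
      simp only [prw, hi, hn, if_true]
      have := (Mix.rep_u (blk (WL.c q d) : List (WL Q P)) (blk (WL.b q d)) P).append
        (Mix.rep_v (blk (WL.c q d) : List (WL Q P)) (blk (WL.b q d)) dg)
      simpa using this)
    (by
      simp only [prw, hi, hn, if_true]
      have := Mix.v (Mix.nil (u := (blk (WL.c q d) : List (WL Q P))) (v := (blk (WL.b q d) : List (WL Q P))))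
      simpa using this) hX
  obtain ⟨Y', hY', hY2⟩ := mix_step (prw (P := P) M rs) (WL.c' q d) (WL.b' q d)
    (blk (WL.c' q d)) (blk (WL.b' q d)) i P ((P - 1) * dg) 1
    (by
      simp only [prw, hi, hn, if_true]
      have := (Mix.rep_u (blk (WL.c' q d) : List (WL Q P)) (blk (WL.b' q d)) P).append
        (Mix.rep_v (blk (WL.c' q d) : List (WL Q P)) (blk (WL.b' q d)) ((P - 1) * dg))
      simpa using this)
    (by
      simp only [prw, hi, hn, if_true]
      have := Mix.v (Mix.nil (u := (blk (WL.c' q d) : List (WL Q P))) (v := (blk (WL.b' q d) : List (WL Q P))))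
      simpa using this) hY
  refine ⟨X', rep (P - 1) (blk (WL.c' q d)) ++ rep ((P - 1) * dg) (blk (WL.b' q d)) ++ Y', ?_, ?_, ?_⟩
  · obtain ⟨p, rfl⟩ : ∃ p, P = p + 1 := ⟨P - 1, by omega⟩
    convert hX' using 1
    · rw [Nat.add_sub_cancel]; ring
    · ring
  · have := ((Mix.rep_u (blk (WL.c' q d) : List (WL Q P)) (blk (WL.b' q d)) (P - 1)).append
        (Mix.rep_v (blk (WL.c' q d) : List (WL Q P)) (blk (WL.b' q d)) ((P - 1) * dg))).append hY'
    obtain ⟨p, rfl⟩ : ∃ p, P = p + 1 := ⟨P - 1, by omega⟩
    convert this using 1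
    · rw [Nat.add_sub_cancel]; ring
    · rw [Nat.add_sub_cancel]; ring
  · unfold TT
    rw [pk_init P hP, wd_cons, wd_append, ← hdg, hi', hX2, pk_blk, wd_cons, pk_blk, wd_cons, hY2,
      pk_blk, wd_cons, ← hi', hdg, pk_final P hP, wd_replicate _ _ rfl, wd_replicate _ _ rfl, ← hdg]
    have hA : prw (P := P) M rs WL.A = [WL.A] := rfl
    have hE : prw (P := P) M rs (WL.E q d i) = blk (WL.E q d) := by simp only [prw, hi, hn, if_true]
    have hC : prw (P := P) M rs (WL.cs q d i) = blk (WL.cs q d) ++ rep (P - 1) (blk (WL.c' q d)) ++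
        rep ((P - 1) * dg) (blk (WL.b' q d)) := by simp only [prw, hi, hn, if_true]
    have hG : prw (P := P) M rs (WL.G i) = blk WL.G ++ List.replicate (P - 1 - dg) .h := by
      simp only [prw, hi, hn, if_true]
      rfl
    rw [hA, hE, hC, hG]
    have hh : List.replicate (P - 1 - dg) (WL.h : WL Q P) ++ List.replicate (n - n / P) WL.h
        = List.replicate ((P - 1) * (n / P + 1)) WL.h := by
      rw [List.replicate_append_replicate]
      congr 1
      have h1 := Nat.div_add_mod n P
      have h3 := Nat.div_le_self n P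
      obtain ⟨p, rfl⟩ : ∃ p, P = p + 1 := ⟨P - 1, by omega⟩
      rw [Nat.add_sub_cancel]
      have e : (p + 1) * (n / (p + 1)) = p * (n / (p + 1)) + n / (p + 1) := by ring
      rw [Nat.mul_add, Nat.mul_one]
      omega
    simp only [List.append_assoc, List.cons_append, List.nil_append]
    rw [hh]

theorem pass_end (hP : 3 ≤ P) {q : Q} {d : Bool} {C V : ℕ} {W : List (WL Q P)}
    (h : IsPass P q d 2 C V W) :
    TT M P rs W = Mac P (M.nx q d) ((C + 1) * nv P (M.om q d) + V) := by
  obtain ⟨X, Y, hX, hY, rfl⟩ := h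
  let i : Fin P := ⟨P - 1 - 2 % P, by omega⟩
  have h2 : 2 % P = 2 := Nat.mod_eq_of_lt (by omega)
  have h3 : 2 / P = 0 := Nat.div_eq_of_lt (by omega)
  have hi : P - 1 - (i : ℕ) = 2 := by show P - 1 - (P - 1 - 2 % P) = 2; omega
  have hi' : P - 1 - 2 % P = (i : ℕ) := rfl
  have hle : ¬ (2 ≤ 1) := by norm_num
  have e1 := mix_end (prw (P := P) M rs) (WL.c q d) (WL.b q d) WL.a i (nv P (M.om q d)) 1
    (by simp only [prw, hi, hle, if_false, if_true])
    (by simp only [prw, hi, hle, if_false, if_true]; rfl) hX
  have e2 := mix_end (prw (P := P) M rs) (WL.c' q d) (WL.b' q d) WL.h i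
    ((P - 1) * nv P (M.om q d)) 1
    (by simp only [prw, hi, hle, if_false, if_true])
    (by simp only [prw, hi, hle, if_false, if_true]; rfl) hY
  unfold TT
  rw [pk_init P hP, wd_cons, wd_append, hi', e1, pk_blk, wd_cons, pk_blk, wd_cons, e2,
    pk_blk, wd_cons, ← hi', pk_final P hP, wd_replicate _ _ rfl, wd_replicate _ _ rfl, h3]
  have hA : prw (P := P) M rs WL.A = [WL.A] := rfl
  have hE : prw (P := P) M rs (WL.E q d i) = blk (WL.F (M.nx q d)) := by
    simp only [prw, hi, hle, if_false, if_true]
  have hC : prw (P := P) M rs (WL.cs q d i) = blk WL.G ++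
      List.replicate ((P - 1) * nv P (M.om q d) - 1) .h := by
    simp only [prw, hi, hle, if_false, if_true]
  have hG : prw (P := P) M rs (WL.G i) = List.replicate (P - 2) .h := by
    simp only [prw, hi, hle, if_false, if_true]
  rw [hA, hE, hC, hG]
  unfold Mac
  simp only [List.append_assoc, List.cons_append, List.nil_append, List.replicate_zero,
    List.replicate_append_replicate]
  have hnv := nv_ge P (by omega) (M.om q d)
  obtain ⟨p, rfl⟩ : ∃ p, P = p + 1 := ⟨P - 1, by omega⟩
  have hcount : (p + 1 - 1) * nv (p + 1) (M.om q d) - 1 + (C * ((p + 1 - 1) * nv (p + 1) (M.om q d)) +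
      (p + 1 - 1) * V * 1 + (p + 1 - 2 + (2 - 0))) = (p + 1 - 1) *
        ((C + 1) * nv (p + 1) (M.om q d) + V + 1) := by
    rw [Nat.add_sub_cancel]
    generalize nv (p + 1) (M.om q d) = v at *
    have e : p * ((C + 1) * v + V + 1) = p * v + C * (p * v) + p * V + p := by ring
    rw [e]
    have : 1 ≤ p * v := Nat.mul_pos (by omega) (by omega)
    omega
  rw [hcount, Nat.mul_one]

theorem nv_div (hP : 3 ≤ P) (d : Bool) (x : List Bool) :
    nv P (d :: x) % P = (if d then 1 else 0) ∧ nv P (d :: x) / P = nv P x := by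
  have hd : (if d then 1 else 0) < P := by split_ifs <;> omega
  constructor
  · simp only [nv]
    rw [Nat.add_mul_mod_self_left, Nat.mod_eq_of_lt hd]
  · simp only [nv]
    rw [Nat.add_mul_div_left _ _ (by omega), Nat.div_eq_of_lt hd, Nat.zero_add]

theorem mac_step (hP : 3 ≤ P) (q : Q) (d : Bool) (x : List Bool) :
    IsPass P q d (nv P x) 0 0 (TT M P rs (Mac P q (nv P (d :: x)))) := by
  obtain ⟨h1, h2⟩ := nv_div P hP d x
  have h4 := Nat.div_add_mod (nv P (d :: x)) P
  have h5 := Nat.div_le_self (nv P (d :: x)) P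
  have hd : (if d then 1 else 0) ≤ 1 := by split_ifs <;> omega
  let i : Fin P := ⟨P - 1 - nv P (d :: x) % P, by omega⟩
  have hi : P - 1 - (i : ℕ) = (if d then 1 else 0) := by
    show P - 1 - (P - 1 - nv P (d :: x) % P) = _
    rw [h1]
    omega
  have hi' : P - 1 - nv P (d :: x) % P = (i : ℕ) := rfl
  have hdd : decide ((if d then 1 else 0) = 1) = d := by cases d <;> rfl
  refine ⟨blk (WL.c q d), [], ?_, Mix.nil, ?_⟩
  · have := Mix.u (Mix.nil (u := (blk (WL.c q d) : List (WL Q P))) (v := (blk (WL.b q d) : List (WL Q P))))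
    simpa using this
  · unfold TT Mac
    rw [pk_init P hP, wd_cons, wd_append, hi', pk_blk, wd_cons, pk_blk, wd_cons, ← hi',
      pk_final P hP, wd_replicate _ _ rfl, wd_replicate _ _ rfl, h2]
    have hA : prw (P := P) M rs WL.A = [WL.A] := rfl
    have hF : prw (P := P) M rs (WL.F q i) = blk (WL.c q d) ++ blk (WL.E q d) ++ blk (WL.cs q d) := by
      simp only [prw, hi, hd, if_true, hdd]
    have hG : prw (P := P) M rs (WL.G i) = blk WL.G ++ List.replicate (i : ℕ) .h := by
      simp only [prw, hi, hd, if_true]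
    rw [hA, hF, hG]
    simp only [List.append_assoc, List.cons_append, List.nil_append,
      List.replicate_append_replicate]
    have hcount : (i : ℕ) + (nv P (d :: x) - nv P x) = (P - 1) * (nv P x + 1) := by
      show P - 1 - nv P (d :: x) % P + (nv P (d :: x) - nv P x) = _
      rw [h2] at h4 h5
      obtain ⟨p, rfl⟩ : ∃ p, P = p + 1 := ⟨P - 1, by omega⟩
      rw [Nat.add_sub_cancel]
      have e : (p + 1) * nv (p + 1) x = p * nv (p + 1) x + nv (p + 1) x := by ring
      rw [Nat.mul_add, Nat.mul_one]
      omega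
    rw [hcount]

theorem mac_mu0 (hP : 3 ≤ P) (q : Q) (x : List Bool) :
    pk P 0 (Mac P q (nv P x)) = mu0 P (by omega) q x := by
  have h4 := Nat.mod_lt (nv P x) (show 0 < P by omega)
  let i : Fin P := ⟨P - 1 - nv P x % P, by omega⟩
  have hi' : P - 1 - nv P x % P = (i : ℕ) := rfl
  have hm : mu0 P (by omega) q x = WL.A :: (List.replicate (nv P x / P) WL.a ++
      (WL.F q i :: (WL.G i :: List.replicate (nv P x - nv P x / P) WL.h))) := by
    unfold mu0
    simp [i]
  rw [hm]
  unfold Mac
  rw [pk_init P hP, hi', pk_blk, pk_blk, ← hi', pk_final P hP]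

theorem mac_end (hP : 3 ≤ P) (h2 : rs < P) (q : Q) :
    (TT M P rs (Mac P q 2)).length % P = rs := by
  have h3 : 2 / P = 0 := Nat.div_eq_of_lt (by omega)
  have h4 : 2 % P = 2 := Nat.mod_eq_of_lt (by omega)
  let i : Fin P := ⟨P - 1 - 2 % P, by omega⟩
  have hi : P - 1 - (i : ℕ) = 2 := by show P - 1 - (P - 1 - 2 % P) = 2; omega
  have hi' : P - 1 - 2 % P = (i : ℕ) := rfl
  have hle : ¬ (2 ≤ 1) := by norm_num
  unfold TT Mac
  rw [pk_init P hP, wd_cons, wd_append, hi', pk_blk, wd_cons, pk_blk, wd_cons, ← hi',
    pk_final P hP, wd_replicate _ _ rfl, wd_replicate _ _ rfl, h3]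
  have hA : prw (P := P) M rs WL.A = [WL.A] := rfl
  have hF : prw (P := P) M rs (WL.F q i) = List.replicate (rs + P - 1) .A := by
    simp only [prw, hi, hle, if_false, if_true]
  have hG : prw (P := P) M rs (WL.G i) = List.replicate (P - 2) .h := by
    simp only [prw, hi, hle, if_false, if_true]
  rw [hA, hF, hG]
  simp only [List.length_append, List.length_replicate, List.length_cons, List.length_nil]
  have : 0 + 1 + (0 + (rs + P - 1 + (P - 2 + (2 - 0)))) = rs + P * 2 := by omega
  rw [this, Nat.add_mul_mod_self_left, Nat.mod_eq_of_lt h2]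

theorem pass_run (hP : 3 ≤ P) (q : Q) (d : Bool) (x : List Bool) :
    ∀ (C V : ℕ) (W : List (WL Q P)), IsPass P q d (nv P x) C V W →
      (TT M P rs)^[x.length + 1] W = Mac P (M.nx q d) ((C + 1) * nv P (x ++ M.om q d) + V) ∧
      ∀ m ≤ x.length + 1, ((TT M P rs)^[m] W).length % P = 0 := by
  induction x with
  | nil =>
    intro C V W h
    have e := pass_end M P rs hP h
    refine ⟨by simpa using e, fun m hm => ?_⟩
    simp only [List.length_nil, Nat.zero_add] at hm
    interval_cases m
    · exact pass_length P hP h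
    · rw [Function.iterate_one, e]
      exact mac_length P hP _ _
  | cons d' x ih =>
    intro C V W h
    obtain ⟨h1, h2⟩ := nv_div P hP d' x
    have hs := pass_step M P rs hP h (by rw [h1]; split_ifs <;> omega)
    rw [h2] at hs
    obtain ⟨e1, e2⟩ := ih _ _ _ hs
    constructor
    · rw [List.length_cons, Function.iterate_succ_apply, e1]
      congr 1
      rw [List.cons_append, h1]
      simp only [nv]
      obtain ⟨p, rfl⟩ : ∃ p, P = p + 1 := ⟨P - 1, by omega⟩
      rw [Nat.add_sub_cancel]
      ring
    · intro m hm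
      cases m with
      | zero => exact pass_length P hP h
      | succ m =>
        rw [Function.iterate_succ_apply]
        exact e2 m (by simpa using hm)

theorem mac_run (hP : 3 ≤ P) (q : Q) (d : Bool) (x : List Bool) :
    (TT M P rs)^[x.length + 2] (Mac P q (nv P (d :: x))) =
      Mac P (M.nx q d) (nv P (x ++ M.om q d)) ∧
      ∀ m ≤ x.length + 2, ((TT M P rs)^[m] (Mac P q (nv P (d :: x)))).length % P = 0 := by
  obtain ⟨e1, e2⟩ := pass_run M P rs hP q d x 0 0 _ (mac_step M P rs hP q d x)
  constructor
  · rw [show x.length + 2 = (x.length + 1) + 1 from rfl, Function.iterate_succ_apply, e1]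
    simp
  · intro m hm
    cases m with
    | zero => exact mac_length P hP _ _
    | succ m =>
      rw [Function.iterate_succ_apply]
      exact e2 m (by omega)

theorem long_run (hP : 3 ≤ P) (q : Q) (x : List Bool) : ∀ N : ℕ,
    (∀ N' < N, ((M.st)^[N'] (q, x)).2 ≠ []) → ∃ k, N ≤ k ∧
      (TT M P rs)^[k] (Mac P q (nv P x)) =
        Mac P ((M.st)^[N] (q, x)).1 (nv P ((M.st)^[N] (q, x)).2) ∧
      ∀ m ≤ k, ((TT M P rs)^[m] (Mac P q (nv P x))).length % P = 0 := by
  intro N
  induction N with
  | zero =>
    intro _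
    refine ⟨0, le_refl _, rfl, fun m hm => ?_⟩
    have : m = 0 := by omega
    subst this
    exact mac_length P hP _ _
  | succ N ih =>
    intro h
    obtain ⟨k, hk1, hk2, hk3⟩ := ih fun N' hN' => h N' (by omega)
    have hne := h N (by omega)
    rw [Function.iterate_succ_apply']
    generalize (M.st)^[N] (q, x) = s at *
    obtain ⟨q1, x1⟩ := s
    cases x1 with
    | nil => exact absurd rfl hne
    | cons d x1 =>
      obtain ⟨e1, e2⟩ := mac_run M P rs hP q1 d x1
      refine ⟨x1.length + 2 + k, by omega, ?_, fun m hm => ?_⟩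
      · rw [Function.iterate_add_apply, hk2]
        exact e1
      · by_cases hm' : m ≤ k
        · exact hk3 m hm'
        · obtain ⟨m', rfl⟩ : ∃ m', m = m' + k := ⟨m - k, by omega⟩
          rw [Function.iterate_add_apply, hk2]
          exact e2 m' (by omega)

theorem TT_iter (hP : 3 ≤ P) (q : Q) (x : List Bool) (n : ℕ) :
    wd (prw (P := P) M rs) ((nxt P (prw (P := P) M rs))^[n] (mu0 P (by omega) q x)) =
      (TT M P rs)^[n + 1] (Mac P q (nv P x)) := by
  induction n with
  | zero =>
    simp only [Function.iterate_zero, id_eq, Nat.zero_add, Function.iterate_one]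
    unfold TT
    rw [mac_mu0 P hP]
  | succ n ih =>
    rw [Function.iterate_succ_apply', Function.iterate_succ_apply' (TT M P rs) (n + 1), ← ih]
    rfl

theorem blk_ne {X : Type} {P : ℕ} (hP : 3 ≤ P) (f : Fin P → X) : blk f ≠ [] := by
  intro h
  have := length_blk f
  rw [h] at this
  simp at this
  omega

theorem rep_ne {X : Type} (n : ℕ) (hn : 0 < n) (w : List X) (hw : w ≠ []) : rep n w ≠ [] := by
  obtain ⟨m, rfl⟩ : ∃ m, n = m + 1 := ⟨n - 1, by omega⟩
  have : rep (m + 1) w = w ++ rep m w := by simp [rep, List.replicate_succ]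
  rw [this]
  simp [hw]

theorem replicate_ne {X : Type} (n : ℕ) (hn : 0 < n) (x : X) : List.replicate n x ≠ [] := by
  intro h
  have := congrArg List.length h
  simp at this
  omega

theorem prw_ne (hP : 3 ≤ P) (l : WL Q P) : prw M rs l ≠ [] := by
  have hnv := fun x => nv_ge P (show 0 < P by omega) x
  cases l with
  | A => simp [prw]
  | a => simp [prw]
  | h => simp [prw]
  | G i =>
    simp only [prw]
    split_ifs
    · simp [blk_ne hP]
    · exact replicate_ne _ (by omega) _
    · simp
  | F q i =>
    simp only [prw]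
    split_ifs
    · simp [blk_ne hP]
    · exact replicate_ne _ (by omega) _
    · simp
  | E q d i =>
    simp only [prw]
    split_ifs
    · simp [blk_ne hP]
    · simp [blk_ne hP]
    · simp
  | c q d i =>
    simp only [prw]
    split_ifs
    · simp [rep_ne P (by omega) _ (blk_ne hP (WL.c q d))]
    · exact replicate_ne _ (by have := hnv (M.om q d); omega) _
    · simp
  | b q d i =>
    simp only [prw]
    split_ifs
    · simp [blk_ne hP]
    · simp
    · simp
  | c' q d i =>
    simp only [prw]
    split_ifs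
    · simp [rep_ne P (by omega) _ (blk_ne hP (WL.c' q d))]
    · exact replicate_ne _ (Nat.mul_pos (by omega) (by have := hnv (M.om q d); omega)) _
    · simp
  | b' q d i =>
    simp only [prw]
    split_ifs
    · simp [blk_ne hP]
    · simp
    · simp
  | cs q d i =>
    simp only [prw]
    split_ifs
    · simp [blk_ne hP]
    · simp [blk_ne hP]
    · simp

end Main

/-- TARGET -/
theorem S2 {Q : Type} (M : QA Q) (P rs : ℕ) (hP : 3 ≤ P) (h1 : 0 < rs) (h2 : rs < P) :
    (∀ l : WL Q P, prw M rs l ≠ []) ∧ ∀ (q : Q) (x : List Bool),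
      (M.Emp q x → AlDies P rs (prw (P := P) M rs) (mu0 P (by omega) q x)) ∧
      (¬ M.Emp q x → AlLives P (prw (P := P) M rs) (mu0 P (by omega) q x)) := by
  refine ⟨prw_ne M P rs hP, fun q x => ⟨fun hE => ?_, fun hE => ?_⟩⟩
  · classical
    have hN := Nat.find_spec hE
    have hmin := fun N' (h : N' < Nat.find hE) => Nat.find_min hE h
    obtain ⟨k, hk1, hk2, hk3⟩ := long_run M P rs hP q x (Nat.find hE) hmin
    rw [hN] at hk2
    refine ⟨k, fun m hm => ?_, ?_⟩
    · rw [TT_iter M P rs hP]
      exact hk3 (m + 1) (by omega)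
    · rw [TT_iter M P rs hP, Function.iterate_succ_apply', hk2]
      exact mac_end M P rs hP h2 _
  · intro n
    obtain ⟨k, hk1, hk2, hk3⟩ := long_run M P rs hP q x (n + 1) fun N' _ h => hE ⟨N', h⟩
    rw [TT_iter M P rs hP]
    exact hk3 (n + 1) hk1

end Pool.Agent.Helper231_T2

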