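import Mathlib
import Pool.Agent.Helper231_T2.Defs

set_option autoImplicit false

namespace Pool.Agent.Helper231_T2


theorem pk_map {X Y : Type} (g : X → Y) (P : ℕ) : ∀ (W : List X) (c : ℕ),
    pk P c (W.map g) = (pk P c W).map g
  | [], c => by cases c <;> simp [pk]
  | x :: W, 0 => by simp [pk, pk_map g P W (P - 1)]
  | x :: W, c + 1 => by simp [pk, pk_map g P W c]

theorem pk_mem {X : Type} (P : ℕ) : ∀ (W : List X) (c : ℕ) (x : X), x ∈ pk P c W → x ∈ W
  | [], c, x, h => by cases c <;> simp [pk] at h
  | y :: W, 0, x, h => by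
      simp only [pk, List.mem_cons] at h
      rcases h with h | h
      · simp [h]
      · exact List.mem_cons_of_mem _ (pk_mem P W (P - 1) x h)
  | y :: W, c + 1, x, h => by
      simp only [pk] at h
      exact List.mem_cons_of_mem _ (pk_mem P W c x h)

/-- transfer along a letter map `g` which commutes with the productions on the letters satisfying `Q` -/
theorem iter_transfer {X Y : Type} (α : X → List X) (β : Y → List Y) (g : Y → X) (Q : Y → Prop)
    (hQ : ∀ y, Q y → ∀ z ∈ β y, Q z) (hg : ∀ y, Q y → (β y).map g = α (g y)) (P : ℕ)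
    (ν : List Y) (hν : ∀ y ∈ ν, Q y) :
    ∀ n, ((nxt P β)^[n] ν).map g = (nxt P α)^[n] (ν.map g) ∧ ∀ y ∈ (nxt P β)^[n] ν, Q y := by
  have hwd : ∀ ν : List Y, (∀ y ∈ ν, Q y) →
      (wd β ν).map g = wd α (ν.map g) ∧ ∀ y ∈ wd β ν, Q y := by
    intro ν hν
    constructor
    · unfold wd
      rw [List.map_flatMap, List.flatMap_map]
      induction ν with
      | nil => simp
      | cons a ν ih =>
        simp only [List.flatMap_cons]
        rw [hg a (hν a (by simp)), ih (fun y hy => hν y (by simp [hy]))]
    · intro y hy
      unfold wd at hy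
      rw [List.mem_flatMap] at hy
      obtain ⟨a, ha, hya⟩ := hy
      exact hQ a (hν a ha) y hya
  have hnx : ∀ ν : List Y, (∀ y ∈ ν, Q y) →
      (nxt P β ν).map g = nxt P α (ν.map g) ∧ ∀ y ∈ nxt P β ν, Q y := by
    intro ν hν
    obtain ⟨h1, h2⟩ := hwd ν hν
    constructor
    · unfold nxt
      rw [← h1, pk_map]
    · intro y hy
      exact h2 y (pk_mem P _ _ y hy)
  intro n
  induction n with
  | zero => exact ⟨rfl, hν⟩
  | succ n ih =>
    rw [Function.iterate_succ_apply', Function.iterate_succ_apply']
    obtain ⟨h1, h2⟩ := ih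
    obtain ⟨h3, h4⟩ := hnx _ h2
    exact ⟨by rw [h3, h1], h4⟩

theorem wd_length {X Y : Type} (α : X → List X) (β : Y → List Y) (g : Y → X) (Q : Y → Prop)
    (hg : ∀ y, Q y → (β y).map g = α (g y)) (ν : List Y) (hν : ∀ y ∈ ν, Q y) :
    (wd β ν).length = (wd α (ν.map g)).length := by
  unfold wd
  induction ν with
  | nil => simp
  | cons a ν ih =>
    have h1 := congrArg List.length (hg a (hν a (by simp)))
    rw [List.length_map] at h1
    simp only [List.flatMap_cons, List.map_cons, List.length_append]
    rw [ih (fun y hy => hν y (by simp [hy])), h1]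

theorem transfer {X Y : Type} (α : X → List X) (β : Y → List Y) (g : Y → X) (Q : Y → Prop)
    (hQ : ∀ y, Q y → ∀ z ∈ β y, Q z) (hg : ∀ y, Q y → (β y).map g = α (g y)) (P rs : ℕ)
    (μ : List X) (ν : List Y) (hν : ∀ y ∈ ν, Q y) (hμ : ν.map g = μ) :
    (AlDies P rs α μ → AlDies P rs β ν) ∧ (AlLives P α μ → AlLives P β ν) := by
  have key : ∀ n, (wd β ((nxt P β)^[n] ν)).length = (wd α ((nxt P α)^[n] μ)).length := by
    intro n
    obtain ⟨h1, h2⟩ := iter_transfer α β g Q hQ hg P ν hν n
    rw [wd_length α β g Q hg _ h2, h1, hμ]
  constructor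
  · rintro ⟨n, h1, h2⟩
    exact ⟨n, fun m hm => by rw [key m]; exact h1 m hm, by rw [key n]; exact h2⟩
  · intro h n
    rw [key n]
    exact h n

/-
PLAIN PROOF. Number the letters of X: an equivalence e : X ≃ Fin c (c = card X). If X is empty: tb = [[0]], code = anything (the
statement is then about the empty list only: μ = [] gives the same words on both sides).
Tagging: the letter numbered j*c + e(x) stands for x with the tag j, for j < J, where J >= 1 is at least the length of all the
productions. tb = (List.range (J*c)).map (fun y => the list (t*c + e(α(x)_t))_{t < |α x|}, x = e.symm (y % c)). It is strictly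
increasing because t*c + e < (t+1)*c, its entries are < J*c, and it is nonempty. The map forget the tag y ↦ e.symm (y % c) sends
al tb y to α (x) and commutes with flatMap and pk, so the words wd of both systems have the same lengths at all times, if the start
list is μ.map code with code x = e x (tag 0). By induction: ((nxt P (al tb))^[n] (μ.map code)).map forget = (nxt P α)^[n] μ and all its
entries are < J*c. -/

/-- TARGET -/
theorem S3 {X : Type} [Finite X] (α : X → List X) (hα : ∀ x, α x ≠ []) :
    ∃ (tb : List (List ℕ)) (code : X → ℕ), tb ≠ [] ∧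
      (∀ p ∈ tb, p ≠ [] ∧ p.Pairwise (· < ·) ∧ ∀ y ∈ p, y < tb.length) ∧
      (∀ x, code x < tb.length) ∧
      ∀ (P rs : ℕ) (μ : List X), (AlDies P rs α μ → AlDies P rs (al tb) (μ.map code)) ∧
        (AlLives P α μ → AlLives P (al tb) (μ.map code)) := by
  classical
  rcases isEmpty_or_nonempty X with hE | hN
  · refine ⟨[[0]], fun _ => 0, by simp, ?_, fun x => (hE.false x).elim, ?_⟩
    · intro p hp
      simp only [List.mem_singleton] at hp
      subst hp
      simp
    · intro P rs μ
      have hμ : μ = [] := List.eq_nil_iff_forall_not_mem.mpr (fun x => (hE.false x).elim)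
      subst hμ
      have h0 : ∀ (Z : Type) (β : Z → List Z) (n : ℕ), (nxt P β)^[n] ([] : List Z) = [] := by
        intro Z β n
        induction n with
        | zero => rfl
        | succ n ih => rw [Function.iterate_succ_apply', ih]; simp [nxt, wd, pk]
      constructor
      · rintro ⟨n, h1, h2⟩
        refine ⟨n, fun m hm => ?_, ?_⟩
        · have := h1 m hm
          rw [h0] at this
          simp only [List.map_nil]
          rw [h0]
          simp [wd]
        · rw [h0] at h2
          simp only [List.map_nil]
          rw [h0]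
          simpa [wd] using h2
      · intro h n
        have := h n
        rw [h0] at this
        simp only [List.map_nil]
        rw [h0]
        simp [wd]
  · obtain ⟨c, ⟨e⟩⟩ := Finite.exists_equiv_fin X
    have hc : 0 < c := by
      obtain ⟨x⟩ := hN
      exact lt_of_le_of_lt (Nat.zero_le _) (e x).2
    obtain ⟨J, hJ⟩ : ∃ J, ∀ x, (α x).length ≤ J := by
      obtain ⟨J, hJ⟩ := (Set.finite_range (fun x => (α x).length)).bddAbove
      exact ⟨J, fun x => hJ ⟨x, rfl⟩⟩
    have hJ1 : 0 < J := by
      obtain ⟨x⟩ := hN
      exact lt_of_lt_of_le (List.length_pos_iff.mpr (hα x)) (hJ x)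
    let g : ℕ → X := fun y => e.symm ⟨y % c, Nat.mod_lt _ hc⟩
    let f : X → List ℕ := fun x => (α x).mapIdx (fun t z => t * c + (e z : ℕ))
    let tb : List (List ℕ) := (List.range (J * c)).map (fun y => f (g y))
    have hlen : tb.length = J * c := by simp [tb]
    have hbig : ∀ x, ∀ z ∈ f x, z < J * c := by
      intro x z hz
      simp only [f] at hz
      rw [List.mem_mapIdx] at hz
      obtain ⟨i, hi, rfl⟩ := hz
      have h1 := (e ((α x)[i])).2
      have h2 : i + 1 ≤ J := le_trans hi (hJ x)
      calc i * c + (e ((α x)[i]) : ℕ) < i * c + c := by omega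
        _ = (i + 1) * c := by ring
        _ ≤ J * c := Nat.mul_le_mul_right _ h2
    have hpair : ∀ x, (f x).Pairwise (· < ·) := by
      intro x
      rw [List.pairwise_iff_getElem]
      intro i j hi hj hij
      simp only [f, List.getElem_mapIdx]
      have h1 := (e ((α x)[i]'(by simpa [f] using hi))).2
      have h2 : i + 1 ≤ j := hij
      have h3 := Nat.mul_le_mul_right c h2
      have h4 : (i + 1) * c = i * c + c := by ring
      omega
    have hne : ∀ x, f x ≠ [] := by
      intro x h
      have := congrArg List.length h
      simp only [f, List.length_mapIdx, List.length_nil] at this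
      exact hα x (List.length_eq_zero_iff.mp this)
    have hal : ∀ y, y < J * c → al tb y = f (g y) := by
      intro y hy
      unfold al
      rw [List.getD_eq_getElem _ _ (by rw [hlen]; exact hy)]
      simp [tb]
    have hgf : ∀ x, (f x).map g = α x := by
      intro x
      apply List.ext_getElem
      · simp [f]
      · intro i h1 h2
        simp only [f, List.getElem_map, List.getElem_mapIdx, g]
        have h3 : (i * c + (e ((α x)[i]) : ℕ)) % c = (e ((α x)[i]) : ℕ) := by
          rw [Nat.add_comm, Nat.add_mul_mod_self_right, Nat.mod_eq_of_lt (e ((α x)[i])).2]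
        rw [Equiv.symm_apply_eq]
        exact Fin.ext h3
    refine ⟨tb, fun x => (e x : ℕ), ?_, ?_, ?_, ?_⟩
    · intro h
      rw [h] at hlen
      simp only [List.length_nil] at hlen
      exact absurd hlen.symm (Nat.mul_pos hJ1 hc).ne'
    · intro p hp
      simp only [tb, List.mem_map] at hp
      obtain ⟨y, _, rfl⟩ := hp
      exact ⟨hne _, hpair _, fun z hz => by rw [hlen]; exact hbig _ z hz⟩
    · intro x
      rw [hlen]
      exact lt_of_lt_of_le (e x).2 (Nat.le_mul_of_pos_left c hJ1)
    · intro P rs μ
      refine transfer α (al tb) g (fun y => y < J * c) ?_ ?_ P rs μ _ ?_ ?_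
      · intro y hy z hz
        rw [hal y hy] at hz
        exact hbig _ z hz
      · intro y hy
        rw [hal y hy, hgf]
      · intro y hy
        rw [List.mem_map] at hy
        obtain ⟨x, _, rfl⟩ := hy
        exact lt_of_lt_of_le (e x).2 (Nat.le_mul_of_pos_left c hJ1)
      · rw [List.map_map]
        have : (g ∘ fun x => ((e x : Fin c) : ℕ)) = id := by
          funext x
          simp only [Function.comp, g, id]
          rw [Equiv.symm_apply_eq]
          exact Fin.ext (Nat.mod_eq_of_lt (e x).2)
        rw [this, List.map_id]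

end Pool.Agent.Helper231_T2

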