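import Mathlib
import Pool.Agent.Helper231_PCP.D1
import Pool.Agent.Helper231_PCP.E
import Pool.Agent.Helper231_T2.Defs
import Pool.Agent.Helper231_T2.S1
import Pool.Agent.Helper231_T2.S2
import Pool.Agent.Helper231_T2.S3

set_option autoImplicit false

namespace Pool.Agent.Helper231_T2

open Pool.Agent.Helper231_PCP (lsX GoodX DiesX LivesX OM Lt alp stE stD1)


/-
PLAIN PROOF. Take M from stE; the alphabet Lt Q M.P is finite (the instance is proved below). S1 with alp M gives a
queue automaton M' with states Q', code; the queue word x0(n) = code(A) ++ (N n copies of code(a)), so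
M'.Emp q0' (x0 n) iff M.Halts (some q0) (N n) (the two halves of stD1 and S1). S2 with P := b: the letters WL Q' b are a finite type
(prove Finite by an injection into Fin 11 × Option Q' × Option Bool × Option (Fin b)), productions nonempty; S3 gives tb, code2;
mu(n) := (mu0 b _ q0' (x0 n)).map code2. Then AlDies b rs (al tb) (mu n) if M.Halts .., AlLives otherwise; AlDies and AlLives exclude each
other because 0 < rs < b. Computability of mu: nv b (x0 n) is computable (a fold over the computable bit string x0 n; or nv b (u ++ v) formulas),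
and mu n = code2 A :: replicate (nv/b) (code2 a) ++ [fixed finite table at nv % b, fixed finite table at nv % b] ++ replicate (nv - nv/b) (code2 h);
functions Fin b → ℕ composed with nv % b are primitive recursive (finite case distinction, e.g. as List.getD of a fixed list). -/

instance {Q : Type} [Finite Q] (P : ℕ) : Finite (Lt Q P) := by
  refine Finite.of_injective (β := Fin 5 × Option Q × Option (Fin P)) (fun l => match l with
    | .x => (0, none, none)
    | .A o => (1, o, none)
    | .a o => (2, o, none)
    | .B q i => (3, some q, some i)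
    | .b q i => (4, some q, some i)) ?_
  intro x y h
  cases x <;> cases y <;> simp_all

instance WL.fin' {Q : Type} [Finite Q] (P : ℕ) : Finite (WL Q P) := by
  refine Finite.of_injective (β := Fin 11 × Option Q × Option Bool × Option (Fin P)) (fun l => match l with
    | .A => (0, none, none, none)
    | .a => (1, none, none, none)
    | .h => (2, none, none, none)
    | .G i => (3, none, none, some i)
    | .F q i => (4, some q, none, some i)
    | .E q d i => (5, some q, some d, some i)
    | .c q d i => (6, some q, some d, some i)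
    | .b q d i => (7, some q, some d, some i)
    | .c' q d i => (8, some q, some d, some i)
    | .b' q d i => (9, some q, some d, some i)
    | .cs q d i => (10, some q, some d, some i)) ?_
  intro x y h
  cases x <;> cases y <;> simp_all

/-- `nv` as a fold -/
theorem nv_append_aux (P : ℕ) (u v : List Bool) :
    nv P (u ++ v) = u.foldr (fun d acc => (if d then 1 else 0) + P * acc) (nv P v) := by
  induction u with
  | nil => rfl
  | cons d u ih => simp [nv, ih]

/-- the fold is affine -/
theorem foldr_affine_aux (P : ℕ) (u : List Bool) : ∃ a b : ℕ, ∀ x : ℕ,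
    u.foldr (fun d acc => (if d then 1 else 0) + P * acc) x = a + b * x := by
  induction u with
  | nil => exact ⟨0, 1, fun x => by simp⟩
  | cons d u ih =>
    obtain ⟨a, b, h⟩ := ih
    refine ⟨(if d then 1 else 0) + P * a, P * b, fun x => ?_⟩
    simp only [List.foldr_cons, h]
    ring

theorem nv_flatten_aux (P : ℕ) (c : List Bool) (a b : ℕ)
    (h : ∀ x : ℕ, c.foldr (fun d acc => (if d then 1 else 0) + P * acc) x = a + b * x) (k : ℕ) :
    nv P (List.replicate k c).flatten = (fun x => a + b * x)^[k] 2 := by
  induction k with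
  | zero => simp [nv]
  | succ k ih =>
    rw [List.replicate_succ, List.flatten_cons, nv_append_aux, ih, Function.iterate_succ_apply', h]

theorem primrec_affine_aux (a b : ℕ) : Primrec (fun x : ℕ => a + b * x) :=
  Primrec.nat_add.comp (Primrec.const a) (Primrec.nat_mul.comp (Primrec.const b) Primrec.id)

theorem primrec_replicate_aux (c : ℕ) : Primrec (fun k : ℕ => List.replicate k c) := by
  have h : Primrec (fun k : ℕ => (List.range k).map (fun _ => c)) :=
    Primrec.list_map Primrec.list_range (Primrec.const c).to₂
  refine h.of_eq (fun k => ?_)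
  simp [List.map_const']

theorem primrec_tab_aux (b : ℕ) (hb : 0 < b) (f : Fin b → ℕ) :
    Primrec (fun v : ℕ => f ⟨v % b, Nat.mod_lt _ hb⟩) := by
  have h : Primrec (fun v : ℕ => (List.ofFn f).getD (v % b) 0) :=
    (Primrec.list_getD 0).comp (Primrec.const (List.ofFn f))
      (Primrec.nat_mod.comp Primrec.id (Primrec.const b))
  refine h.of_eq (fun v => ?_)
  have hv : v % b < (List.ofFn f).length := by simpa using Nat.mod_lt v hb
  rw [List.getD_eq_getElem _ _ hv]
  simp

/-- TARGET -/
theorem S4 (b rs : ℕ) (hb : 3 ≤ b) (h1 : 0 < rs) (h2 : rs < b) :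
    ∃ (tb : List (List ℕ)) (mu : ℕ → List ℕ), tb ≠ [] ∧
      (∀ p ∈ tb, p ≠ [] ∧ p.Pairwise (· < ·) ∧ ∀ y ∈ p, y < tb.length) ∧
      Computable mu ∧ (∀ n, mu n ≠ [] ∧ ∀ y ∈ mu n, y < tb.length) ∧
      ¬ ComputablePred (fun n => AlDies b rs (al tb) (mu n)) ∧
      ∀ n, AlDies b rs (al tb) (mu n) ∨ AlLives b (al tb) (mu n) := by
  obtain ⟨Q, hQ, M, q0, N, hP, hmu, hN, hnc⟩ := stE
  obtain ⟨Q', hQ', M', q0', code, hcode⟩ := S1 M.P (by omega) (alp M)
  have hD := stD1 M hP hmu q0
  obtain ⟨hne, hS2⟩ := S2 M' b rs hb h1 h2
  obtain ⟨tb, code2, htb, hprod, hlt, hS3⟩ := S3 (prw (P := b) M' rs) hne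
  have hb0 : 0 < b := by omega
  let x0 : ℕ → List Bool := fun n =>
    (Lt.A (some q0) :: List.replicate (N n) (Lt.a (some q0)) : List (Lt Q M.P)).flatMap code
  let mu : ℕ → List ℕ := fun n => (mu0 b hb0 q0' (x0 n)).map code2
  have hE : ∀ n, M'.Emp q0' (x0 n) ↔ M.Halts (some q0) (N n) := by
    intro n
    constructor
    · intro h
      by_contra hH
      exact (hcode _).2 ((hD (N n)).2 hH) h
    · intro h
      exact (hcode _).1 ((hD (N n)).1 h)
  have hdie : ∀ n, M.Halts (some q0) (N n) → AlDies b rs (al tb) (mu n) := by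
    intro n h
    exact (hS3 b rs _).1 ((hS2 q0' (x0 n)).1 ((hE n).2 h))
  have hlive : ∀ n, ¬ M.Halts (some q0) (N n) → AlLives b (al tb) (mu n) := by
    intro n h
    exact (hS3 b rs _).2 ((hS2 q0' (x0 n)).2 (fun h' => h ((hE n).1 h')))
  have hiff : ∀ n, AlDies b rs (al tb) (mu n) ↔ M.Halts (some q0) (N n) := by
    intro n
    constructor
    · rintro ⟨m, -, hm⟩
      by_contra hH
      have := hlive n hH m
      omega
    · exact hdie n
  refine ⟨tb, mu, htb, hprod, ?_, ?_, ?_, ?_⟩
  · -- computability
    obtain ⟨a1, b1, hab1⟩ := foldr_affine_aux b (code (Lt.A (some q0)))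
    obtain ⟨a2, b2, hab2⟩ := foldr_affine_aux b (code (Lt.a (some q0)))
    have hnv : ∀ n, nv b (x0 n) = a1 + b1 * ((fun x => a2 + b2 * x)^[N n] 2) := by
      intro n
      have e : x0 n = code (Lt.A (some q0)) ++
          (List.replicate (N n) (code (Lt.a (some q0)))).flatten := by
        simp only [x0, List.flatMap_def, List.map_cons, List.flatten_cons, List.map_replicate]
      rw [e, nv_append_aux, nv_flatten_aux b _ a2 b2 hab2, hab1]
    have hv : Computable (fun n => nv b (x0 n)) := by
      have hit : Primrec (fun k : ℕ => a1 + b1 * ((fun x => a2 + b2 * x)^[k] 2)) := by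
        have : Primrec (fun k : ℕ => ((fun x => a2 + b2 * x)^[k] 2)) :=
          Primrec.nat_iterate Primrec.id (Primrec.const 2)
            ((primrec_affine_aux a2 b2).comp Primrec.snd).to₂
        exact (primrec_affine_aux a1 b1).comp this
      exact (hit.to_comp.comp hN).of_eq (fun n => (hnv n).symm)
    have hb1 : ∀ v : ℕ, b - 1 - v % b < b := fun v => by omega
    have hW : Primrec (fun v : ℕ => code2 WL.A :: List.replicate (v / b) (code2 WL.a) ++
        [code2 (WL.F q0' ⟨b - 1 - v % b, hb1 v⟩), code2 (WL.G ⟨b - 1 - v % b, hb1 v⟩)] ++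
        List.replicate (v - v / b) (code2 WL.h)) := by
      have hdiv : Primrec (fun v : ℕ => v / b) :=
        Primrec.nat_div.comp Primrec.id (Primrec.const b)
      have hF : Primrec (fun v : ℕ => code2 (WL.F q0' ⟨b - 1 - v % b, hb1 v⟩)) :=
        primrec_tab_aux b hb0 (fun i => code2 (WL.F q0' ⟨b - 1 - i.1, by omega⟩))
      have hG : Primrec (fun v : ℕ => code2 (WL.G ⟨b - 1 - v % b, hb1 v⟩)) :=
        primrec_tab_aux b hb0 (fun i => code2 (WL.G ⟨b - 1 - i.1, by omega⟩))
      refine Primrec.list_append.comp (Primrec.list_append.comp ?_ ?_) ?_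
      · exact Primrec.list_cons.comp (Primrec.const _) ((primrec_replicate_aux _).comp hdiv)
      · exact Primrec.list_cons.comp hF (Primrec.list_cons.comp hG (Primrec.const []))
      · exact (primrec_replicate_aux _).comp (Primrec.nat_sub.comp Primrec.id hdiv)
    refine (hW.to_comp.comp hv).of_eq (fun n => ?_)
    simp [mu, mu0, List.map_replicate]
  · intro n
    constructor
    · simp [mu, mu0]
    · intro y hy
      obtain ⟨z, -, rfl⟩ := List.mem_map.1 hy
      exact hlt z
  · intro h
    apply hnc
    have : (fun n => AlDies b rs (al tb) (mu n)) = fun n => M.Halts (some q0) (N n) :=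
      funext fun n => propext (hiff n)
    rwa [this] at h
  · intro n
    by_cases h : M.Halts (some q0) (N n)
    · exact Or.inl (hdie n h)
    · exact Or.inr (hlive n h)

end Pool.Agent.Helper231_T2

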