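import Mathlib
import Pool.Agent.Helper231_T2.Defs

set_option autoImplicit false

namespace Pool.Agent.Helper231_T2


/-
PLAIN PROOF. After t steps let V be the word; symbol number p of V has the absolute position t*b + p. Only the symbols at absolute
positions divisible by b will ever be read, the symbol at b*t at step t. Let ev(t,V) = list of the t' with b*t' = t*b + p, V[p] = true (in
increasing order). Invariant with i: |V| + t*(b-1) = κ*i (so (b-1) | |V|), the list of events is L = ev(t,V), and every t' in L has
b*t' + b ≤ κ*i + t  (κ*i + t = total length of the history).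
Step with V[0] = false (t not in L), |V| ≥ b: V loses b symbols and gets one 0: |V| decreases by b-1; the last appended position
κ*i + t carries 0, so L is unchanged.
Step with V[0] = true: then L = t :: L', and |V| = κ*i - t*(b-1) ≥ b by the bound for t' = t. u is appended at the absolute position
I = t + κ*i: its ones are at I and I + b*w k - 1; those divisible by b: I if b | I, all I + b w k - 1 if I = 1 mod b, none otherwise
(b ≥ 3). So the new list is L' ++ ch I (in increasing order because w is increasing; new events are > old ones, since all old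
positions are < I). The new bound: offset q ≤ κ + 1 - b for all ones (q = 0: b ≤ κ+1; q = b w k - 1: b w k + b ≤ κ + 2).
So es does one step exactly when a true symbol is read. If L ≠ [] with first element t' > t then |V| ≥ b*(t'-t) + b ≥ b: no halt.
If es never empties the list, then every word has length ≥ b (the first event is reached after finitely many steps).
If it does: at the moment when L becomes [] (just after reading a 1, as L0 ≠ []), |V| ≥ κ + 1 and (b-1) | |V|. From then on each
step deletes b and appends a 0, so |V| decreases by b-1 until |V| = b-1; this takes |V|/(b-1) - 1 ≥ b-1 steps, since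
κ + 1 > b^2 ≥ b*(b-1); so the last b-1 symbols are all the zeros appended in these steps: the word 0^{b-1} is reached.
(There is a similar proof for a similar system in Pool/Agent/Helper231_PCP/B.lean of origin/main, lemmas stB_ch_cons, stB_ch_append,
stB_ch_step, stB_step_false, stB_step_true; there `ch be u I` is the list of children computed from the word u itself; you may copy from it.
A good plan: use the function cw b V I := ((List.range V.length).filter (fun q => V.getD q false && decide ((I + q) % b = 0))).map (fun q => (I + q) / b)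
for ev(t,V) = cw b V (t*b), show cw b (uW ..) I = ch b N w I and cw b (sW b κ i L) 0 = L.) -/

/-- the events carried by the word `V` whose first symbol has the position `I` -/
def cw (b : ℕ) (V : List Bool) (I : ℕ) : List ℕ :=
  ((List.range V.length).filter (fun q => V.getD q false && decide ((I + q) % b = 0))).map
    (fun q => (I + q) / b)

theorem cw_nil (b I : ℕ) : cw b [] I = [] := by simp [cw]

theorem cw_cons (be : ℕ) (x : Bool) (V : List Bool) (I : ℕ) :
    cw be (x :: V) I = (if x = true ∧ I % be = 0 then [I / be] else []) ++ cw be V (I + 1) := by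
  have e1 : cw be V (I + 1) = (((List.range V.length).map Nat.succ).filter
      (fun q => (x :: V).getD q false && decide ((I + q) % be = 0))).map
        (fun q => (I + q) / be) := by
    unfold cw
    rw [List.filter_map, List.map_map]
    have e : ∀ q, I + 1 + q = I + Nat.succ q := fun q => by omega
    have f1 : (fun q => V.getD q false && decide ((I + 1 + q) % be = 0)) =
        ((fun q => (x :: V).getD q false && decide ((I + q) % be = 0)) ∘ Nat.succ) := by
      funext q
      simp only [Function.comp, e q, Nat.succ_eq_add_one, List.getD_cons_succ]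
    have f2 : (fun q => (I + 1 + q) / be) = ((fun q => (I + q) / be) ∘ Nat.succ) := by
      funext q
      simp only [Function.comp, e q]
    rw [f1, f2]
  rw [e1]
  unfold cw
  rw [List.length_cons, List.range_succ_eq_map, List.filter_cons]
  by_cases hx : x = true ∧ I % be = 0
  · rw [if_pos hx, if_pos (by simp [hx.1, hx.2])]
    simp
  · rw [if_neg hx, if_neg (by
      simp only [List.getD_cons_zero, add_zero, Bool.and_eq_true, decide_eq_true_eq]
      exact hx)]
    simp

theorem cw_append (be : ℕ) (A B : List Bool) : ∀ I, cw be (A ++ B) I =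
    cw be A I ++ cw be B (I + A.length) := by
  induction A with
  | nil => intro I; simp [cw_nil]
  | cons x V ih =>
    intro I
    rw [List.cons_append, cw_cons, ih, cw_cons, List.append_assoc, List.length_cons]
    congr 3
    omega

theorem cw_drop (k t : ℕ) : ∀ (m : ℕ) (V : List Bool), m ≤ k →
    cw (k + 1) V (t * (k + 1) + (k + 1 - m)) = cw (k + 1) (V.drop m) ((t + 1) * (k + 1)) := by
  intro m
  induction m with
  | zero =>
    intro V _
    rw [List.drop_zero]
    congr 1
    rw [Nat.sub_zero, add_mul, one_mul]
  | succ m ih =>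
    intro V hm
    cases V with
    | nil => simp [cw_nil]
    | cons y V =>
      rw [cw_cons, List.drop_succ_cons, ← ih V (by omega)]
      have h1 : (t * (k + 1) + (k + 1 - (m + 1))) % (k + 1) ≠ 0 := by
        rw [Nat.mul_comm t (k + 1), Nat.mul_add_mod, Nat.mod_eq_of_lt (by omega)]
        omega
      rw [if_neg (fun h => h1 h.2), List.nil_append]
      congr 1
      omega

theorem cw_step (k t : ℕ) (x : Bool) (V : List Bool) :
    cw (k + 1) (x :: V) (t * (k + 1)) =
      (if x = true then [t] else []) ++ cw (k + 1) (V.drop k) ((t + 1) * (k + 1)) := by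
  rw [cw_cons, Nat.mul_mod_left, Nat.mul_div_cancel _ (Nat.succ_pos k)]
  have h := cw_drop k t k V le_rfl
  have e : k + 1 - k = 1 := by omega
  rw [e] at h
  rw [h]
  simp

theorem cw_ge (k t : ℕ) (V : List Bool) : ∀ t' ∈ cw (k + 1) V (t * (k + 1)), t ≤ t' := by
  intro t' h
  unfold cw at h
  obtain ⟨q, _, rfl⟩ := List.mem_map.1 h
  rw [Nat.le_div_iff_mul_le (Nat.succ_pos k)]
  exact Nat.le_add_right _ _

theorem filter_range_eq (n : ℕ) (p : ℕ → Bool) (M : List ℕ) (hM : M.Pairwise (· < ·))
    (h : ∀ q, q ∈ M ↔ q < n ∧ p q = true) : (List.range n).filter p = M := by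
  refine List.Pairwise.eq_of_mem_iff (r := (· < ·)) (List.Pairwise.filter _ List.pairwise_lt_range)
    hM ?_
  intro q
  rw [List.mem_filter, List.mem_range, h]

theorem getD_map_range (n : ℕ) (f : ℕ → Bool) (q : ℕ) (hq : q < n) :
    ((List.range n).map f).getD q false = f q := by
  rw [List.getD_eq_getElem?_getD, List.getElem?_map, List.getElem?_range hq]
  rfl

theorem cw_sW (b κ i : ℕ) (L : List ℕ) (hb : 0 < b) (hL : L.Pairwise (· < ·))
    (hLi : ∀ t ∈ L, b * t + b ≤ κ * i) : cw b (sW b κ i L) 0 = L := by
  unfold cw
  have hlen : (sW b κ i L).length = κ * i := by simp [sW]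
  rw [hlen]
  rw [filter_range_eq (κ * i) _ (L.map (fun t => b * t))]
  · rw [List.map_map]
    conv_rhs => rw [← List.map_id L]
    apply List.map_congr_left
    intro t _
    simp only [Function.comp, zero_add, id_eq]
    exact Nat.mul_div_cancel_left _ hb
  · rw [List.pairwise_map]
    exact hL.imp (fun h => Nat.mul_lt_mul_of_pos_left h hb)
  · intro q
    constructor
    · intro hq
      obtain ⟨t, ht, rfl⟩ := List.mem_map.1 hq
      have h1 := hLi t ht
      refine ⟨by omega, ?_⟩
      rw [sW, getD_map_range _ _ _ (by omega)]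
      simp only [zero_add, Nat.mul_mod_right, decide_true, Bool.and_true, decide_eq_true_eq]
      exact hq
    · rintro ⟨h1, h2⟩
      rw [sW, getD_map_range _ _ _ h1] at h2
      simp only [Bool.and_eq_true, decide_eq_true_eq] at h2
      exact h2.1

theorem cw_uW (b N κ : ℕ) (w : ℕ → ℕ) (hb : 3 ≤ b) (hw0 : ∀ k < N, 0 < w k)
    (hw : ∀ k < N, ∀ k' < k, w k' < w k) (hκw : ∀ k < N, b * w k + b ≤ κ + 2) (I : ℕ) :
    cw b (uW b N κ w) I = ch b N w I := by
  unfold cw
  have hlen : (uW b N κ w).length = κ + 1 := by simp [uW]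
  rw [hlen]
  have hbw : ∀ k < N, b ≤ b * w k := fun k hk => Nat.le_mul_of_pos_right _ (hw0 k hk)
  have hp : ∀ q, q < κ + 1 → (((uW b N κ w).getD q false && decide ((I + q) % b = 0)) = true ↔
      (q = 0 ∨ ∃ k < N, q + 1 = b * w k) ∧ (I + q) % b = 0) := by
    intro q hq
    rw [uW, getD_map_range _ _ _ hq]
    simp only [Bool.and_eq_true, decide_eq_true_eq]
  have hmod : ∀ k < N, (I + (b * w k - 1)) % b = 0 ↔ I % b = 1 := by
    intro k hk
    have h1 := hbw k hk
    have e : I + (b * w k - 1) = I + (b - 1) + b * (w k - 1) := by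
      have h2 : b * w k = b * (w k - 1) + b := by
        have h3 : w k = (w k - 1) + 1 := by have := hw0 k hk; omega
        calc b * w k = b * ((w k - 1) + 1) := by rw [← h3]
          _ = b * (w k - 1) + b := by ring
      omega
    rw [e, Nat.add_mul_mod_self_left]
    have h4 : (I + (b - 1)) % b = (I % b + (b - 1)) % b := by
      rw [Nat.add_mod, Nat.mod_eq_of_lt (show b - 1 < b by omega)]
    rw [h4]
    have h5 := Nat.mod_lt I (show 0 < b by omega)
    rcases Nat.eq_zero_or_pos (I % b) with h6 | h6
    · rw [h6, zero_add, Nat.mod_eq_of_lt (by omega)]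
      omega
    · have h7 : I % b + (b - 1) = (I % b - 1) + b := by omega
      rw [h7, Nat.add_mod_right, Nat.mod_eq_of_lt (by omega)]
      omega
  unfold ch
  split_ifs with h0 h1
  · rw [filter_range_eq (κ + 1) _ [0] (by simp)]
    · simp
    · intro q
      rw [List.mem_singleton]
      constructor
      · rintro rfl
        exact ⟨by omega, (hp 0 (by omega)).2 ⟨Or.inl rfl, by simpa using h0⟩⟩
      · rintro ⟨h1, h2⟩
        rcases ((hp q h1).1 h2) with ⟨h3 | ⟨k, hk, h3⟩, h4⟩
        · exact h3
        · have h5 := hbw k hk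
          have h6 : q = b * w k - 1 := by omega
          rw [h6] at h4
          have := (hmod k hk).1 h4
          omega
  · rw [filter_range_eq (κ + 1) _ ((List.range N).map (fun k => b * w k - 1))]
    · rw [List.map_map]
      apply List.map_congr_left
      intro k hk
      rw [List.mem_range] at hk
      have h5 := hbw k hk
      simp only [Function.comp]
      have hI : 1 ≤ I := by
        by_contra hc
        have : I = 0 := by omega
        subst this
        simp at h0
      have e : I + (b * w k - 1) = (I - 1) + b * w k := by omega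
      rw [e, Nat.add_mul_div_left _ _ (by omega)]
    · rw [List.pairwise_map]
      rw [List.pairwise_iff_getElem]
      intro i j hi hj hij
      rw [List.length_range] at hi hj
      simp only [List.getElem_range]
      have h5 := hbw i hi
      have h6 : b * w i < b * w j := Nat.mul_lt_mul_of_pos_left (hw j hj i hij) (by omega)
      omega
    · intro q
      constructor
      · intro hq
        obtain ⟨k, hk, rfl⟩ := List.mem_map.1 hq
        rw [List.mem_range] at hk
        have h5 := hbw k hk
        have h6 := hκw k hk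
        refine ⟨by omega, (hp _ (by omega)).2 ⟨Or.inr ⟨k, hk, by omega⟩, (hmod k hk).2 h1⟩⟩
      · rintro ⟨h2, h3⟩
        rcases ((hp q h2).1 h3) with ⟨h4 | ⟨k, hk, h4⟩, h5⟩
        · subst h4
          rw [add_zero] at h5
          exact absurd h5 h0
        · rw [List.mem_map]
          exact ⟨k, List.mem_range.2 hk, by omega⟩
  · rw [filter_range_eq (κ + 1) _ [] List.Pairwise.nil]
    · simp
    · intro q
      constructor
      · intro hq; simp at hq
      · rintro ⟨h2, h3⟩
        rcases ((hp q h2).1 h3) with ⟨h4 | ⟨k, hk, h4⟩, h5⟩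
        · subst h4
          rw [add_zero] at h5
          exact absurd h5 h0
        · have h6 := hbw k hk
          have h7 : q = b * w k - 1 := by omega
          rw [h7] at h5
          exact absurd ((hmod k hk).1 h5) h1

/-- reading a zero -/
theorem step_false (k : ℕ) (u V : List Bool) (t : ℕ) (hlen : k + 1 ≤ (false :: V).length) :
    (bst (k + 1) u (false :: V)).length + k = (false :: V).length ∧
    bst (k + 1) u (false :: V) = (false :: V ++ [false]).drop (k + 1) ∧
    cw (k + 1) (bst (k + 1) u (false :: V)) ((t + 1) * (k + 1)) =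
      cw (k + 1) (false :: V) (t * (k + 1)) := by
  have h0 : bst (k + 1) u (false :: V) = (false :: V ++ [false]).drop (k + 1) := by
    unfold bst
    rw [if_neg (by omega)]
    simp [prd]
  have h1 : bst (k + 1) u (false :: V) = (V ++ [false]).drop k := by
    rw [h0]; simp
  refine ⟨?_, h0, ?_⟩
  · rw [h1]
    rw [List.length_cons] at hlen
    simp only [List.length_drop, List.length_append, List.length_cons, List.length_nil]
    omega
  · rw [h1]
    have h2 := cw_step k t false (V ++ [false])
    have h3 := cw_append (k + 1) (false :: V) [false] (t * (k + 1))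
    rw [List.cons_append] at h3
    rw [h3] at h2
    have h4 : ∀ I, cw (k + 1) [false] I = [] := by
      intro I
      rw [cw_cons, cw_nil]
      simp
    rw [h4, List.append_nil] at h2
    rw [h2]
    simp

/-- reading a one -/
theorem step_true (k κ : ℕ) (u V : List Bool) (t : ℕ) (hu : u.length = κ + 1)
    (hlen : k + 1 ≤ (true :: V).length) :
    (bst (k + 1) u (true :: V)).length + k = (true :: V).length + κ ∧
    ∃ L, cw (k + 1) (true :: V) (t * (k + 1)) = t :: L ∧
      cw (k + 1) (bst (k + 1) u (true :: V)) ((t + 1) * (k + 1)) =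
        L ++ cw (k + 1) u (t * (k + 1) + (true :: V).length) := by
  have h1 : bst (k + 1) u (true :: V) = (V ++ u).drop k := by
    unfold bst
    rw [if_neg (by omega)]
    simp [prd]
  refine ⟨?_, cw (k + 1) (V.drop k) ((t + 1) * (k + 1)), ?_, ?_⟩
  · rw [h1]
    rw [List.length_cons] at hlen
    simp only [List.length_drop, List.length_append, List.length_cons]
    omega
  · rw [cw_step]
    simp
  · rw [h1]
    have h2 := cw_step k t true (V ++ u)
    have h3 := cw_append (k + 1) (true :: V) u (t * (k + 1))
    rw [List.cons_append] at h3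
    rw [h3] at h2
    have h4 := cw_step k t true V
    rw [if_pos rfl] at h2 h4
    rw [h4] at h2
    rw [List.append_assoc] at h2
    exact (List.append_cancel_left h2).symm

/-- the invariant -/
def Inv (k κ m i : ℕ) (V : List Bool) (L : List ℕ) : Prop :=
  V.length + m * k = κ * i ∧ cw (k + 1) V (m * (k + 1)) = L ∧
    ∀ t ∈ L, (k + 1) * t + (k + 1) ≤ κ * i + m

theorem Inv.len {k κ m i : ℕ} {V : List Bool} {L : List ℕ} (h : Inv k κ m i V L) (hL : L ≠ []) :
    k + 1 ≤ V.length := by
  obtain ⟨h1, h2, h3⟩ := h
  obtain ⟨t, ht⟩ := List.exists_mem_of_ne_nil L hL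
  have h4 := h3 t ht
  rw [← h2] at ht
  have h5 := cw_ge k m V t ht
  have h6 : (k + 1) * m ≤ (k + 1) * t := Nat.mul_le_mul_left _ h5
  have h7 : (k + 1) * m = m * k + m := by ring
  omega

theorem Inv.step {k κ N m i : ℕ} {w : ℕ → ℕ} {V : List Bool} {L : List ℕ}
    (hb : 3 ≤ k + 1) (hw0 : ∀ j < N, 0 < w j)
    (hw : ∀ j < N, ∀ j' < j, w j' < w j) (hκw : ∀ j < N, (k + 1) * w j + (k + 1) ≤ κ + 2)
    (hκb : (k + 1) ^ 2 ≤ κ) (h : Inv k κ m i V L) (hL : L ≠ []) :
    ((bst (k + 1) (uW (k + 1) N κ w) V).length + k = V.length ∧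
      Inv k κ (m + 1) i (bst (k + 1) (uW (k + 1) N κ w) V) L) ∨
    (κ + 1 ≤ (bst (k + 1) (uW (k + 1) N κ w) V).length ∧
      Inv k κ (m + 1) (es (k + 1) N κ w (i, L)).1 (bst (k + 1) (uW (k + 1) N κ w) V)
        (es (k + 1) N κ w (i, L)).2) := by
  have hlen := h.len hL
  obtain ⟨h1, h2, h3⟩ := h
  cases V with
  | nil => simp at hlen
  | cons x V =>
    cases x with
    | false =>
      left
      obtain ⟨a1, -, a2⟩ := step_false k (uW (k + 1) N κ w) V m hlen
      refine ⟨a1, ?_, ?_, ?_⟩
      · have : (m + 1) * k = m * k + k := by ring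
        omega
      · rw [a2, h2]
      · intro t ht
        have := h3 t ht
        omega
    | true =>
      right
      obtain ⟨a1, L', a2, a3⟩ := step_true k κ (uW (k + 1) N κ w) V m (by simp [uW]) hlen
      rw [a2] at h2
      subst h2
      have hI : m * (k + 1) + (true :: V).length = m + κ * i := by
        have : m * (k + 1) = m * k + m := by ring
        omega
      rw [hI, cw_uW (k + 1) N κ w hb hw0 hw hκw] at a3
      have hk1 : k + 1 ≤ κ := by nlinarith
      refine ⟨by omega, ?_, a3, ?_⟩
      · show (bst (k + 1) (uW (k + 1) N κ w) (true :: V)).length + (m + 1) * k = κ * (i + 1)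
        have e1 : (m + 1) * k = m * k + k := by ring
        have e2 : κ * (i + 1) = κ * i + κ := by ring
        omega
      · intro t ht
        change t ∈ L' ++ ch (k + 1) N w (m + κ * i) at ht
        show (k + 1) * t + (k + 1) ≤ κ * (i + 1) + (m + 1)
        have e2 : κ * (i + 1) = κ * i + κ := by ring
        rw [e2]
        rcases List.mem_append.1 ht with ht | ht
        · have := h3 t (List.mem_cons_of_mem _ ht)
          omega
        · unfold ch at ht
          split_ifs at ht with c0 c1
          · rw [List.mem_singleton] at ht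
            have h4 : (k + 1) * t ≤ m + κ * i := by
              rw [ht]; exact Nat.mul_div_le _ _
            omega
          · obtain ⟨j, hj, rfl⟩ := List.mem_map.1 ht
            rw [List.mem_range] at hj
            have h4 : (k + 1) * ((m + κ * i - 1) / (k + 1)) ≤ m + κ * i - 1 := Nat.mul_div_le _ _
            have h5 := hκw j hj
            have h6 : 1 ≤ m + κ * i := by
              by_contra hc
              have : m + κ * i = 0 := by omega
              rw [this] at c0
              simp at c0
            rw [Nat.mul_add]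
            omega
          · simp at ht

theorem reach {k κ N : ℕ} {w : ℕ → ℕ}
    (hb : 3 ≤ k + 1) (hw0 : ∀ j < N, 0 < w j)
    (hw : ∀ j < N, ∀ j' < j, w j' < w j) (hκw : ∀ j < N, (k + 1) * w j + (k + 1) ≤ κ + 2)
    (hκb : (k + 1) ^ 2 ≤ κ) (len : ℕ) : ∀ (m i : ℕ) (V : List Bool) (L : List ℕ), V.length ≤ len →
    Inv k κ m i V L → L ≠ [] → ∃ j, κ + 1 ≤ ((bst (k + 1) (uW (k + 1) N κ w))^[j] V).length ∧
      Inv k κ (m + j) (es (k + 1) N κ w (i, L)).1 ((bst (k + 1) (uW (k + 1) N κ w))^[j] V)
        (es (k + 1) N κ w (i, L)).2 := by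
  induction len with
  | zero =>
    intro m i V L h0 h hL
    have := h.len hL
    omega
  | succ len ih =>
    intro m i V L h0 h hL
    rcases h.step hb hw0 hw hκw hκb hL with ⟨h1, h2⟩ | ⟨h1, h2⟩
    · obtain ⟨j, h3, h4⟩ := ih (m + 1) i _ L (by omega) h2 hL
      refine ⟨j + 1, ?_, ?_⟩
      · rw [Function.iterate_succ_apply]; exact h3
      · rw [Function.iterate_succ_apply]
        have e : m + (j + 1) = m + 1 + j := by ring
        rw [e]; exact h4
    · exact ⟨1, h1, h2⟩

/-- the last phase: no events are left -/
theorem last_phase (k : ℕ) (u : List Bool) (hk : 2 ≤ k) (s t : ℕ) (V : List Bool)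
    (hV : V.length = (s + 1) * k) (hcw : cw (k + 1) V (t * (k + 1)) = []) :
    ∀ j ≤ s, ((bst (k + 1) u)^[j] V).length = (s + 1 - j) * k ∧
      cw (k + 1) ((bst (k + 1) u)^[j] V) ((t + j) * (k + 1)) = [] ∧
      ∃ (A : List Bool) (c : ℕ), (bst (k + 1) u)^[j] V = A ++ List.replicate c false ∧
        (j ≤ c ∨ A = []) := by
  intro j
  induction j with
  | zero =>
    intro _
    exact ⟨hV, hcw, V, 0, by simp, Or.inl le_rfl⟩
  | succ j ih =>
    intro hj
    obtain ⟨h1, h2, A, c, h3, h4⟩ := ih (by omega)
    rw [Function.iterate_succ_apply']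
    set W := (bst (k + 1) u)^[j] V with hW
    have hlen : k + 1 ≤ W.length := by
      rw [h1]
      have : 2 ≤ s + 1 - j := by omega
      calc k + 1 ≤ 2 * k := by omega
        _ ≤ _ := Nat.mul_le_mul_right _ this
    obtain ⟨W', hW'⟩ : ∃ W', W = false :: W' := by
      cases hc : W with
      | nil => rw [hc] at hlen; simp at hlen
      | cons x W' =>
        cases x with
        | false => exact ⟨W', rfl⟩
        | true =>
          rw [hc, cw_step] at h2
          simp at h2
    rw [hW'] at hlen
    obtain ⟨a1, a2, a3⟩ := step_false k u W' (t + j) hlen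
    rw [← hW'] at a1 a2 a3
    refine ⟨?_, ?_, ?_⟩
    · rw [h1] at a1
      have e : s + 1 - j = (s + 1 - (j + 1)) + 1 := by omega
      rw [e, Nat.add_mul, Nat.one_mul] at a1
      omega
    · have e : t + (j + 1) = t + j + 1 := by ring
      rw [e, a3, h2]
    · rw [a2, h3, List.append_assoc]
      have e : List.replicate c false ++ [false] = List.replicate (c + 1) false := by
        rw [List.replicate_succ']
      rw [e, List.drop_append, List.drop_replicate]
      refine ⟨_, _, rfl, ?_⟩
      rcases h4 with h4 | h4
      · by_cases hA : A.length < k + 1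
        · right
          exact List.drop_eq_nil_of_le (by omega)
        · left
          omega
      · right
        rw [h4]; simp

theorem last_phase' (k : ℕ) (u : List Bool) (hk : 2 ≤ k) (s t : ℕ) (V : List Bool)
    (hV : V.length = (s + 1) * k) (hs : k ≤ s) (hcw : cw (k + 1) V (t * (k + 1)) = []) :
    (bst (k + 1) u)^[s] V = List.replicate k false := by
  obtain ⟨h1, -, A, c, h3, h4⟩ := last_phase k u hk s t V hV hcw s le_rfl
  have e : s + 1 - s = 1 := by omega
  rw [e, one_mul, h3, List.length_append, List.length_replicate] at h1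
  have hA : A = [] := by
    rcases h4 with h4 | h4
    · exact List.length_eq_zero_iff.1 (by omega)
    · exact h4
  rw [h3, hA]
  rw [hA] at h1
  simp only [List.length_nil, zero_add] at h1
  rw [h1]; simp

/-- TARGET -/
theorem T1 (b N κ i0 : ℕ) (w : ℕ → ℕ) (L0 : List ℕ) (hb : 3 ≤ b) (hw0 : ∀ k < N, 0 < w k)
    (hw : ∀ k < N, ∀ k' < k, w k' < w k) (hκ : (b - 1) ∣ κ) (hκw : ∀ k < N, b * w k + b ≤ κ + 2)
    (hκb : b ^ 2 ≤ κ) (hL : L0.Pairwise (· < ·)) (hLi : ∀ t ∈ L0, b * t + b ≤ κ * i0) (hne : L0 ≠ []) :
    ((∃ n, ((es b N κ w)^[n] (i0, L0)).2 = []) →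
      ∃ m, (bst b (uW b N κ w))^[m] (sW b κ i0 L0) = List.replicate (b - 1) false) ∧
    ((∀ n, ((es b N κ w)^[n] (i0, L0)).2 ≠ []) →
      ∀ m, b ≤ ((bst b (uW b N κ w))^[m] (sW b κ i0 L0)).length) := by
  obtain ⟨k, rfl⟩ : ∃ k, b = k + 1 := ⟨b - 1, by omega⟩
  rw [Nat.add_sub_cancel] at hκ ⊢
  have hk : 2 ≤ k := by omega
  have hinv0 : Inv k κ 0 i0 (sW (k + 1) κ i0 L0) L0 := by
    refine ⟨by simp [sW], ?_, ?_⟩
    · rw [zero_mul]
      exact cw_sW (k + 1) κ i0 L0 (by omega) hL hLi
    · intro t ht
      have := hLi t ht
      omega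
  constructor
  · intro hex
    classical
    set n0 := Nat.find hex with hn0
    have hn0' : ((es (k + 1) N κ w)^[n0] (i0, L0)).2 = [] := Nat.find_spec hex
    have hmin : ∀ n < n0, ((es (k + 1) N κ w)^[n] (i0, L0)).2 ≠ [] := fun n hn => Nat.find_min hex hn
    have hpos : 1 ≤ n0 := by
      by_contra hc
      have : n0 = 0 := by omega
      rw [this] at hn0'
      exact hne hn0'
    have key : ∀ n ≤ n0, ∃ m, (1 ≤ n → κ + 1 ≤
        ((bst (k + 1) (uW (k + 1) N κ w))^[m] (sW (k + 1) κ i0 L0)).length) ∧
        Inv k κ m ((es (k + 1) N κ w)^[n] (i0, L0)).1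
          ((bst (k + 1) (uW (k + 1) N κ w))^[m] (sW (k + 1) κ i0 L0))
          ((es (k + 1) N κ w)^[n] (i0, L0)).2 := by
      intro n
      induction n with
      | zero =>
        intro _
        exact ⟨0, fun h => absurd h (by omega), hinv0⟩
      | succ n ih =>
        intro hn
        obtain ⟨m, -, h2⟩ := ih (by omega)
        obtain ⟨j, h3, h4⟩ := reach hb hw0 hw hκw hκb _ m _ _ _ le_rfl h2 (hmin n (by omega))
        have e1 : (bst (k + 1) (uW (k + 1) N κ w))^[j + m] (sW (k + 1) κ i0 L0) =
            (bst (k + 1) (uW (k + 1) N κ w))^[j] ((bst (k + 1) (uW (k + 1) N κ w))^[m]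
              (sW (k + 1) κ i0 L0)) := Function.iterate_add_apply _ _ _ _
        have e2 : (es (k + 1) N κ w)^[n + 1] (i0, L0) =
            es (k + 1) N κ w ((es (k + 1) N κ w)^[n] (i0, L0)) :=
          Function.iterate_succ_apply' _ _ _
        refine ⟨j + m, fun _ => ?_, ?_⟩
        · rw [e1]; exact h3
        · rw [e1, e2, Nat.add_comm j m]
          exact h4
    obtain ⟨m, h1, h2, h3, -⟩ := key n0 le_rfl
    have h1' := h1 hpos
    rw [hn0'] at h3
    set V := (bst (k + 1) (uW (k + 1) N κ w))^[m] (sW (k + 1) κ i0 L0) with hV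
    have hdvd : k ∣ V.length := by
      have h5 : k ∣ κ * ((es (k + 1) N κ w)^[n0] (i0, L0)).1 := hκ.mul_right _
      rw [← h2] at h5
      exact (Nat.dvd_add_left (Dvd.intro_left m rfl)).1 h5
    obtain ⟨s', hs'⟩ := hdvd
    have hs1 : k + 1 ≤ s' := by
      by_contra hc
      have h6 : s' ≤ k := by omega
      have h7 : k * s' ≤ k * k := Nat.mul_le_mul_left _ h6
      nlinarith
    obtain ⟨s, rfl⟩ : ∃ s, s' = s + 1 := ⟨s' - 1, by omega⟩
    refine ⟨s + m, ?_⟩
    rw [Function.iterate_add_apply]
    exact last_phase' k _ hk s m V (by rw [hs']; ring) (by omega) h3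
  · intro hall m
    have key : ∀ m, ∃ n, Inv k κ m ((es (k + 1) N κ w)^[n] (i0, L0)).1
        ((bst (k + 1) (uW (k + 1) N κ w))^[m] (sW (k + 1) κ i0 L0))
        ((es (k + 1) N κ w)^[n] (i0, L0)).2 := by
      intro m
      induction m with
      | zero => exact ⟨0, hinv0⟩
      | succ m ih =>
        obtain ⟨n, hn⟩ := ih
        rcases hn.step hb hw0 hw hκw hκb (hall n) with ⟨-, h2⟩ | ⟨-, h2⟩
        · exact ⟨n, by rw [Function.iterate_succ_apply']; exact h2⟩
        · refine ⟨n + 1, ?_⟩
          rw [Function.iterate_succ_apply', Function.iterate_succ_apply']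
          exact h2
    obtain ⟨n, hn⟩ := key m
    exact hn.len (hall n)

end Pool.Agent.Helper231_T2

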