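import Mathlib
import Pool.Agent.Helper231_T2.Defs

set_option autoImplicit false

namespace Pool.Agent.Helper231_T2


theorem pr_mem {α : Type} [Primcodable α] {l : α → List ℕ} {q : α → ℕ} (hl : Primrec l)
    (hq : Primrec q) : Primrec (fun a => decide (q a ∈ l a)) := by
  have h : PrimrecPred (fun a => (l a).idxOf (q a) < (l a).length) :=
    Primrec.nat_lt.comp (Primrec.list_idxOf.comp hq hl) (Primrec.list_length.comp hl)
  have h2 := h.decide
  refine h2.of_eq fun a => ?_
  simp only [List.idxOf_lt_length_iff]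

theorem pr_stL (κ D : ℕ) (F : List (List ℕ)) : Primrec (fun μ : List ℕ => stL κ D F μ) := by
  have h1 : Primrec (fun p : (List ℕ × ℕ) × ℕ => p.2 + κ * (D * p.1.2)) :=
    Primrec.nat_add.comp Primrec.snd
      (Primrec.nat_mul.comp (Primrec.const κ)
        (Primrec.nat_mul.comp (Primrec.const D) (Primrec.snd.comp Primrec.fst)))
  have h2 : Primrec (fun p : List ℕ × ℕ => F.getD (p.1.getD p.2 0) []) :=
    (Primrec.list_getD ([] : List ℕ)).comp (Primrec.const F)
      ((Primrec.list_getD 0).comp Primrec.fst Primrec.snd)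
  have h3 : Primrec (fun p : List ℕ × ℕ =>
      (F.getD (p.1.getD p.2 0) []).map (fun t => t + κ * (D * p.2))) :=
    Primrec.list_map h2 h1.to₂
  exact Primrec.list_flatMap (Primrec.list_range.comp Primrec.list_length) h3.to₂

/-- TARGET -/
theorem T2 (b κ D : ℕ) (F : List (List ℕ)) :
    Primrec (fun μ : List ℕ => sW b κ (b * D * μ.length) (stL κ D F μ)) := by
  have h0 : Primrec (fun p : (List ℕ × ℕ) × ℕ => b * p.2) :=
    Primrec.nat_mul.comp (Primrec.const b) Primrec.snd
  have h1 : Primrec (fun p : List ℕ × ℕ => (stL κ D F p.1).map (fun t => b * t)) :=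
    Primrec.list_map ((pr_stL κ D F).comp Primrec.fst) h0.to₂
  have h2 : Primrec (fun p : List ℕ × ℕ => decide (p.2 ∈ (stL κ D F p.1).map (fun t => b * t))) :=
    pr_mem h1 Primrec.snd
  exact Primrec.list_map (Primrec.list_range.comp (Primrec.nat_mul.comp (Primrec.const κ)
    (Primrec.nat_mul.comp (Primrec.const (b * D)) Primrec.list_length))) h2.to₂

end Pool.Agent.Helper231_T2

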