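import Mathlib
import Pool.Agent.Helper231_T2.Defs
import Pool.Agent.Helper231_T2.S4
import Pool.Agent.Helper231_T2.T1
import Pool.Agent.Helper231_T2.T2
import Pool.Agent.Helper231_T2.C6b
import Pool.Agent.Helper231_T2.C11d2

set_option autoImplicit false

/-! # Binary tag systems with deletion number at least three: undecidability

For every `b ≥ 3` a word `u` and a computable family of start words for the tag system `0 ↦ 0`, `1 ↦ u` with deletion
number `b`, such that it is not computable whether the words become shorter than `b`. -/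

namespace Pool.Agent.Helper231_T2

/-- the start list of events is increasing and bounded -/
theorem start_ok (κ D : ℕ) (F : ℕ → List ℕ) (μ : List ℕ) (h1 : ∀ y ∈ μ, (F y).Pairwise (· < ·))
    (h2 : ∀ y ∈ μ, ∀ t ∈ F y, t < κ * D) :
    (grp κ μ.length (fun g => F (μ.getD g 0)) (fun g => D * g)).Pairwise (· < ·) ∧
    ∀ t ∈ grp κ μ.length (fun g => F (μ.getD g 0)) (fun g => D * g), t < κ * D * μ.length := by
  have hmem : ∀ g < μ.length, μ.getD g 0 ∈ μ := by
    intro g hg
    rw [List.getD_eq_getElem _ _ hg]
    exact List.getElem_mem hg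
  constructor
  · unfold grp
    rw [List.pairwise_flatMap]
    constructor
    · intro g hg
      rw [List.mem_range] at hg
      rw [List.pairwise_map]
      refine (h1 _ (hmem g hg)).imp ?_
      intro a b hab
      omega
    · have hr : (List.range μ.length).Pairwise (fun g g' => g < g' ∧ g' < μ.length) := by
        rw [List.pairwise_iff_getElem]
        intro i j hi hj hij
        rw [List.length_range] at hj
        simp only [List.getElem_range]
        exact ⟨hij, hj⟩
      refine hr.imp ?_
      rintro g g' ⟨hgg, hg'⟩ x hx y hy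
      rw [List.mem_map] at hx hy
      obtain ⟨t, ht, rfl⟩ := hx
      obtain ⟨t', ht', rfl⟩ := hy
      have h3 := h2 _ (hmem g (by omega)) t ht
      have h4 : κ * (D * g) + κ * D ≤ κ * (D * g') := by
        have : g + 1 ≤ g' := hgg
        calc κ * (D * g) + κ * D = κ * (D * (g + 1)) := by ring
          _ ≤ κ * (D * g') := by gcongr
      change t + κ * (D * g) < t' + κ * (D * g')
      omega
  · intro t ht
    unfold grp at ht
    rw [List.mem_flatMap] at ht
    obtain ⟨g, hg, ht⟩ := ht
    rw [List.mem_range] at hg
    rw [List.mem_map] at ht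
    obtain ⟨t', ht', rfl⟩ := ht
    have h3 := h2 _ (hmem g hg) t' ht'
    have h4 : κ * (D * g) + κ * D ≤ κ * D * μ.length := by
      calc κ * (D * g) + κ * D = κ * D * (g + 1) := by ring
        _ ≤ κ * D * μ.length := by
          have : g + 1 ≤ μ.length := hg
          gcongr
    change t' + κ * (D * g) < κ * D * μ.length
    omega

/-- the undecidable family -/
theorem family (b : ℕ) (hb : 3 ≤ b) : ∃ (u : List Bool) (s : ℕ → List Bool) (D : ℕ → Prop),
    Computable s ∧ ¬ ComputablePred D ∧
    ∀ n, (D n → ∃ m, (bst b u)^[m] (s n) = List.replicate (b - 1) false) ∧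
      (¬ D n → ∀ m, b ≤ ((bst b u)^[m] (s n)).length) := by
  have hrs1 : 0 < (if b = 3 then 2 else b - 3) := by split_ifs <;> omega
  have hrs2 : (if b = 3 then 2 else b - 3) < b := by split_ifs <;> omega
  obtain ⟨tb, mu, htb, hp, hmu, hmu2, hund, hor⟩ := S4 b (if b = 3 then 2 else b - 3) hb hrs1 hrs2
  have hr : 0 < tb.length := List.length_pos_of_ne_nil htb
  have hal : ∀ x < tb.length, al tb x ≠ [] ∧ (al tb x).Pairwise (· < ·) ∧ ∀ y ∈ al tb x, y < tb.length := by
    intro x hx
    have : al tb x ∈ tb := by
      unfold al
      rw [List.getD_eq_getElem _ _ hx]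
      exact List.getElem_mem hx
    exact hp _ this
  obtain ⟨N, κ, cc, e, l, T, w, ζ, mm, F, hG⟩ := C11d b tb.length (al tb) hb hr hal
  have hal' : ∀ x < tb.length, al tb x ≠ [] ∧ ∀ y ∈ al tb x, y < tb.length :=
    fun x hx => ⟨(hal x hx).1, (hal x hx).2.2⟩
  set Ft : List (List ℕ) := (List.range tb.length).map F with hFt
  have hst : ∀ n, stL κ (b ^ e * l) Ft (mu n) =
      grp κ (mu n).length (fun g => F ((mu n).getD g 0)) (fun g => b ^ e * l * g) := by
    intro n
    unfold stL grp
    apply List.flatMap_congr
    intro g hg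
    rw [List.mem_range] at hg
    have h1 : (mu n).getD g 0 < tb.length := by
      apply (hmu2 n).2
      rw [List.getD_eq_getElem _ _ hg]
      exact List.getElem_mem hg
    have h2 : Ft.getD ((mu n).getD g 0) [] = F ((mu n).getD g 0) := by
      rw [hFt, List.getD_eq_getElem _ _ (by simpa using h1)]
      simp
    simp only [h2]
  have hsta : ∀ n, sta b κ e l F (mu n) 0 =
      (b * (b ^ e * l) * (mu n).length, stL κ (b ^ e * l) Ft (mu n)) := by
    intro n
    rw [hst]
    unfold sta
    simp
  refine ⟨uW b N κ w, fun n => sW b κ (b * (b ^ e * l) * (mu n).length) (stL κ (b ^ e * l) Ft (mu n)),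
    fun n => AlDies b (if b = 3 then 2 else b - 3) (al tb) (mu n), ?_, hund, ?_⟩
  · exact (T2 b κ (b ^ e * l) Ft).to_comp.comp hmu
  · intro n
    obtain ⟨hne, hlt⟩ := hmu2 n
    obtain ⟨c1, c2⟩ := C6b b tb.length N κ cc e l T (al tb) w ζ mm F hb hal' hG (mu n) hne hlt
    obtain ⟨s1, s2⟩ := start_ok κ (b ^ e * l) F (mu n) (fun y hy => hG.hF1 y (hlt y hy))
      (fun y hy => hG.hF2 y (hlt y hy))
    rw [← hst] at s1 s2
    have hne2 : stL κ (b ^ e * l) Ft (mu n) ≠ [] := by
      intro h
      have hx : (mu n).getD 0 0 < tb.length := by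
        apply hlt
        rw [List.getD_eq_getElem _ _ (List.length_pos_of_ne_nil hne)]
        exact List.getElem_mem _
      have hlen := (hG.hrun _ hx).1 0 (by have := hG.he; omega)
      have h1 : F ((mu n).getD 0 0) ≠ [] := by
        intro h0
        rw [h0] at hlen
        simp only [Fl, List.length_nil, Cs, if_true] at hlen
        have h3 : 0 < (al tb ((mu n).getD 0 0)).length := List.length_pos_of_ne_nil (hal _ hx).1
        have h4 : 0 < cc := by
          rcases Nat.eq_zero_or_pos cc with h | h
          · have := hG.hl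
            rw [h] at this
            simp at this
          · exact h
        have : 0 < b * cc * (al tb ((mu n).getD 0 0)).length := by positivity
        omega
      rw [hst] at h
      unfold grp at h
      rw [List.flatMap_eq_nil_iff] at h
      have := h 0 (by rw [List.mem_range]; exact List.length_pos_of_ne_nil hne)
      rw [List.map_eq_nil_iff] at this
      exact h1 this
    obtain ⟨t1, t2⟩ := T1 b N κ (b * (b ^ e * l) * (mu n).length) w (stL κ (b ^ e * l) Ft (mu n)) hb
      hG.hw0 hG.hw1 hG.hκ1 hG.hw2 hG.hκ2 s1 (by
        intro t ht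
        have := s2 t ht
        calc b * t + b = b * (t + 1) := by ring
          _ ≤ b * (κ * (b ^ e * l) * (mu n).length) := by gcongr; exact this
          _ = κ * (b * (b ^ e * l) * (mu n).length) := by ring) hne2
    rw [hsta] at c1 c2
    constructor
    · intro hD
      exact t1 (c1 hD)
    · intro hD
      rcases hor n with h | h
      · exact absurd h hD
      · exact t2 (c2 h)

/-! ## tag systems with two symbols -/

/-- One step of the tag system with deletion number `ν` and productions `P false`, `P true`: it acts on a word of length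
at least `ν`, appends the production of the first symbol and deletes the first `ν` symbols. -/
def Step (ν : ℕ) (P : Bool → List Bool) (S S' : List Bool) : Prop :=
  ν ≤ S.length ∧ ∃ (a : Bool) (V : List Bool), S = a :: V ∧ S' = (S ++ P a).drop ν

/-- the iteration from `S` produces `S'` -/
def Reaches (ν : ℕ) (P : Bool → List Bool) (S S' : List Bool) : Prop :=
  Relation.ReflTransGen (Step ν P) S S'

/-- the iteration from `S` stops: a word of length less than `ν` occurs -/
def Halts (ν : ℕ) (P : Bool → List Bool) (S : List Bool) : Prop :=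
  ∃ S', Reaches ν P S S' ∧ S'.length < ν

/-- The same step for all nonempty words (if the word is too short, everything is deleted). -/
def Step1 (ν : ℕ) (P : Bool → List Bool) (S S' : List Bool) : Prop :=
  ∃ (a : Bool) (V : List Bool), S = a :: V ∧ S' = (S ++ P a).drop ν

/-- the iteration of the steps on nonempty words leads from `S` to the empty word -/
def Empties (ν : ℕ) (P : Bool → List Bool) (S : List Bool) : Prop :=
  Relation.ReflTransGen (Step1 ν P) S []

theorem bst_step (b : ℕ) (hb : 1 ≤ b) (u S : List Bool) (h : b ≤ S.length) : Step b (prd u) S (bst b u S) := by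
  refine ⟨h, ?_⟩
  cases S with
  | nil => simp at h; omega
  | cons a V =>
    refine ⟨a, V, rfl, ?_⟩
    unfold bst
    rw [if_neg (by omega)]
    rfl

theorem step_bst (b : ℕ) (u S S' : List Bool) (h : Step b (prd u) S S') : S' = bst b u S := by
  obtain ⟨h1, a, V, rfl, rfl⟩ := h
  unfold bst
  rw [if_neg (by omega)]
  rfl

theorem bst_short (b : ℕ) (u S : List Bool) (h : S.length < b) : bst b u S = S := by
  unfold bst
  rw [if_pos h]

theorem bst_reaches (b : ℕ) (hb : 1 ≤ b) (u S : List Bool) (m : ℕ) : Reaches b (prd u) S ((bst b u)^[m] S) := by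
  induction m with
  | zero => exact Relation.ReflTransGen.refl
  | succ m ih =>
    rw [Function.iterate_succ_apply']
    by_cases h : b ≤ ((bst b u)^[m] S).length
    · exact ih.tail (bst_step b hb u _ h)
    · rw [bst_short b u _ (by omega)]
      exact ih

theorem reaches_bst (b : ℕ) (u S S' : List Bool) (h : Reaches b (prd u) S S') : ∃ m, S' = (bst b u)^[m] S := by
  induction h with
  | refl => exact ⟨0, rfl⟩
  | tail _ h2 ih =>
    obtain ⟨m, rfl⟩ := ih
    exact ⟨m + 1, by rw [Function.iterate_succ_apply']; exact step_bst b u _ _ h2⟩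

theorem step_step1 (b : ℕ) (P : Bool → List Bool) (S S' : List Bool) (h : Reaches b P S S') :
    Relation.ReflTransGen (Step1 b P) S S' := by
  induction h with
  | refl => exact Relation.ReflTransGen.refl
  | tail _ h2 ih => exact ih.tail h2.2

theorem step1_bst (b : ℕ) (u S S' : List Bool) (hlong : ∀ m, b ≤ ((bst b u)^[m] S).length)
    (h : Relation.ReflTransGen (Step1 b (prd u)) S S') : ∃ m, S' = (bst b u)^[m] S := by
  induction h with
  | refl => exact ⟨0, rfl⟩
  | tail _ h2 ih =>
    obtain ⟨m, rfl⟩ := ih
    exact ⟨m + 1, by rw [Function.iterate_succ_apply']; exact step_bst b u _ _ ⟨hlong m, h2⟩⟩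

/-- a binary tag system with undecidable halting and reachability problems for every `ν ≥ 3` -/
theorem main (ν : ℕ) (hν : 3 ≤ ν) : ∃ P : Bool → List Bool,
    ¬ ComputablePred (fun S : List Bool => Halts ν P S) ∧
    ¬ ComputablePred (fun S : List Bool => Empties ν P S) ∧
    ¬ ComputablePred (fun S : List Bool => Reaches ν P S (List.replicate (ν - 1) false)) := by
  obtain ⟨u, s, D, hs, hD, h⟩ := family ν hν
  have key : ∀ (Q : List Bool → Prop), (∀ n, D n ↔ Q (s n)) → ¬ ComputablePred Q := by
    intro Q hQ hc
    apply hD
    have : ManyOneReducible D Q := ⟨s, hs, hQ⟩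
    exact ComputablePred.computable_of_manyOneReducible this hc
  refine ⟨prd u, key _ ?_, key _ ?_, key _ ?_⟩
  · intro n
    constructor
    · intro hn
      obtain ⟨m, hm⟩ := (h n).1 hn
      refine ⟨(bst ν u)^[m] (s n), bst_reaches ν (by omega) u _ m, ?_⟩
      rw [hm, List.length_replicate]
      omega
    · rintro ⟨S', h1, h2⟩
      by_contra hn
      obtain ⟨m, rfl⟩ := reaches_bst ν u _ _ h1
      have := (h n).2 hn m
      omega
  · intro n
    constructor
    · intro hn
      obtain ⟨m, hm⟩ := (h n).1 hn
      have h1 := step_step1 ν _ _ _ (bst_reaches ν (by omega) u (s n) m)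
      rw [hm] at h1
      refine h1.tail ?_
      obtain ⟨k, hk⟩ : ∃ k, ν - 1 = k + 1 := ⟨ν - 2, by omega⟩
      refine ⟨false, List.replicate k false, ?_, ?_⟩
      · rw [hk, List.replicate_succ]
      · symm
        rw [List.drop_eq_nil_iff]
        simp [prd]
        omega
    · intro h1
      by_contra hn
      obtain ⟨m, hm⟩ := step1_bst ν u _ _ ((h n).2 hn) h1
      have := (h n).2 hn m
      rw [← hm] at this
      simp at this
      omega
  · intro n
    constructor
    · intro hn
      obtain ⟨m, hm⟩ := (h n).1 hn
      have := bst_reaches ν (by omega) u (s n) m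
      rw [hm] at this
      exact this
    · intro h1
      by_contra hn
      obtain ⟨m, hm⟩ := reaches_bst ν u _ _ h1
      have := (h n).2 hn m
      rw [← hm, List.length_replicate] at this
      omega

end Pool.Agent.Helper231_T2
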